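import Pool.Agent.MP_0c8446_ag.GI.WD
import Pool.Agent.MP_0c8446_ag.DL.HypW

namespace Pool.Agent.MP_0c8446_ag

open Set

universe u v w

variable {k : Type u} [Field k] [IsAlgClosed k] {K : Type v} [Field K] [CharZero K]
  (W : Weil.{u, v, w} k K)

theorem Ample_coeff {R : Type*} [AddCommGroup R] [Module K R] (n : ℕ) (v : ℕ → R)
    (h : ∀ t : K, ∑ m ∈ Finset.range n, t ^ m • v m = 0) {m : ℕ} (hm : m < n) : v m = 0 := by
  rw [← Module.forall_dual_apply_eq_zero_iff K]
  intro φ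
  have h1 : ∑ m ∈ Finset.range n, Polynomial.monomial m (φ (v m)) = 0 := by
    refine Polynomial.funext fun t => ?_
    have h2 := congrArg φ (h t)
    simp only [map_sum, map_smul, smul_eq_mul, map_zero] at h2
    simp only [Polynomial.eval_finsetSum, Polynomial.eval_monomial, Polynomial.eval_zero]
    rw [← h2]
    exact Finset.sum_congr rfl fun _ _ => mul_comm _ _
  have h2 := congrArg (fun p => Polynomial.coeff p m) h1
  simpa [Polynomial.coeff_monomial, hm] using h2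

theorem Ample_step {R : Type*} [Ring R] [Algebra K R] (S : Submodule K R)
    (hS : ∀ a ∈ S, ∀ b, a * b = b * a) (r : ℕ) (x : R) (h : ∀ a ∈ S, a ^ (r + 1) * x = 0)
    {a b : R} (ha : a ∈ S) (hb : b ∈ S) : a ^ r * (b * x) = 0 := by
  have h1 := Ample_coeff (K := K) (r + 1 + 1)
    (fun m => b ^ m * a ^ (r + 1 - m) * ((r + 1).choose m : R) * x) (fun t => by
      have h2 := h (t • b + a) (add_mem (S.smul_mem t hb) ha)
      rw [Commute.add_pow (hS _ (S.smul_mem t hb) a), Finset.sum_mul] at h2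
      simpa only [smul_pow, smul_mul_assoc] using h2) (m := 1) (by omega)
  simp only [pow_one, Nat.add_sub_cancel, Nat.choose_one_right] at h1
  rw [← map_natCast (algebraMap K R), ← Algebra.commutes, ← Algebra.smul_def, smul_mul_assoc,
    smul_eq_zero, hS b hb, mul_assoc] at h1
  exact h1.resolve_left (Nat.cast_ne_zero.2 (by omega))

theorem Ample_list {R : Type*} [Ring R] [Algebra K R] (S : Submodule K R)
    (hS : ∀ a ∈ S, ∀ b, a * b = b * a) (l : List R) (hl : ∀ a ∈ l, a ∈ S) (x : R)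
    (h : ∀ a ∈ S, a ^ l.length * x = 0) : l.prod * x = 0 := by
  induction l generalizing x with
  | nil => simpa using h 0 S.zero_mem
  | cons b l ih =>
    have hb := hl b List.mem_cons_self
    rw [List.prod_cons, hS b hb, mul_assoc]
    exact ih (fun a ha => hl a (List.mem_cons_of_mem _ ha)) _
      fun a ha => Ample_step S hS _ x h ha hb

omit [IsAlgClosed k] [CharZero K] in
theorem Ample_cut {X : Var k} (η : W.H X) (H : Set X.pts) (M : Multiset (Set X.pts))
    (h : ∀ C ∈ M, W.CutAt η C H) : ∃ (a : ℕ) (M' : Multiset (Set X.pts)), 0 < a ∧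
      (∀ D ∈ M', IsSub D ∧ ∃ C ∈ M, dim D + 1 = dim C) ∧
      (∀ C ∈ M, ∀ D, IsComp D (C ∩ H) → D ∈ M') ∧ a • (W.geo2S X M * η) = W.geo2S X M' := by
  induction M using Multiset.induction_on with
  | empty => exact ⟨1, 0, one_pos, by simp, by simp, by simp⟩
  | cons C M ih =>
    obtain ⟨a', M', h0, h1, h2, h3⟩ := ih fun D hD => h D (Multiset.mem_cons_of_mem hD)
    obtain ⟨a, s, μ, ha, h4, h5, h6⟩ := h C (Multiset.mem_cons_self _ _)
    obtain ⟨N, h7, h8⟩ := W.geo2_fin s μ fun D hD => (h5 D hD).1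
    refine ⟨a * a', a' • N + a • M', Nat.mul_pos ha h0, fun D hD => ?_, fun E hE D hD => ?_, ?_⟩
    · rcases Multiset.mem_add.1 hD with hD | hD
      · have h9 := (h7 D).1 (Multiset.mem_of_mem_nsmul hD)
        exact ⟨((h4 D).1 h9).1.1, C, Multiset.mem_cons_self _ _, (h5 D h9).2⟩
      · obtain ⟨h9, E, hE, h10⟩ := h1 D (Multiset.mem_of_mem_nsmul hD)
        exact ⟨h9, E, Multiset.mem_cons_of_mem hE, h10⟩
    · rw [Multiset.mem_add, Multiset.mem_nsmul, Multiset.mem_nsmul]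
      rcases Multiset.mem_cons.1 hE with rfl | hE
      · exact Or.inl ⟨h0.ne', (h7 D).2 ((h4 D).2 hD)⟩
      · exact Or.inr ⟨ha.ne', h2 E hE D hD⟩
    · rw [W.geo2S_cons, add_mul, smul_add, map_add, map_nsmul, map_nsmul, h8, ← h6, ← h3,
        smul_smul, smul_smul, mul_comm a' a]

theorem Ample_ind (X : Var k) (e : ℕ) (M : Multiset (Set X.pts))
    (hM : ∀ C ∈ M, IsSub C ∧ dim C = e) (hne : M ≠ 0) : ∃ l : List (W.H X),
    (∀ a ∈ l, a ∈ W.Alg X ⊓ W.gr X 2) ∧ l.length = e ∧ W.geo2S X M * l.prod ≠ 0 := by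
  induction e generalizing M with
  | zero => exact ⟨[], by simp, rfl, by simpa using W.geoGen_ne M (fun C hC => (hM C hC).1) hne⟩
  | succ e ih =>
    obtain ⟨C₀, hC₀⟩ := Multiset.exists_mem_of_ne_zero hne
    obtain ⟨hs, hd⟩ := hM C₀ hC₀
    obtain ⟨x, hx⟩ := hs.1.1
    obtain ⟨y, hy, hxy⟩ : ∃ y ∈ C₀, x ≠ y := by
      by_contra hcon
      push Not at hcon
      have : C₀ = {x} := eq_singleton_iff_unique_mem.2 ⟨hx, fun y hy => (hcon y hy).symm⟩
      rw [this, dim_singleton] at hd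
      omega
    obtain ⟨H, hH, hHd, ⟨_, ⟨z, hz, rfl⟩, hzH⟩, hns⟩ := geoGen_cut
      (M.finite_toSet.image fun C => X.incl.1 '' C) (by
        rintro _ ⟨C, hC, rfl⟩
        exact (hM C hC).1.1.1.image _) (X.isSub_incl hs) (mem_image_of_mem _ hx)
      (mem_image_of_mem _ hy) fun h => hxy ((amb_incl X).injective h)
    obtain ⟨a, M', ha, h1, h2, h3⟩ := Ample_cut W (W.pull X.incl (W.cl _ H)) (X.incl.1 ⁻¹' H) M
      fun C hC => W.cutAt_pull X.incl hH hHd (hM C hC).1 fun h =>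
        hns _ ⟨C, hC, rfl⟩ (image_subset_iff.2 h)
    obtain ⟨D₀, hD₀, -⟩ := exists_isComp (S := C₀ ∩ X.incl.1 ⁻¹' H) (isSub_singleton z)
      (singleton_subset_iff.2 ⟨hz, hzH⟩)
    obtain ⟨l, h4, h5, h6⟩ := ih M' (fun D hD => by
      obtain ⟨h4, C, hC, h5⟩ := h1 D hD
      have := (hM C hC).2
      exact ⟨h4, by omega⟩) fun h4 => Multiset.notMem_zero _ (h4 ▸ h2 C₀ hC₀ D₀ hD₀)
    refine ⟨W.pull X.incl (W.cl _ H) :: l, fun b hb => ?_, by rw [List.length_cons, h5],
      fun h7 => h6 ?_⟩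
    · rcases List.mem_cons.1 hb with rfl | hb
      · refine ⟨W.pull_mem_Alg _ (W.cl_mem_Alg hH), W.pull_gr _ _ _ ?_⟩
        have := W.cl_gr _ H hH
        rwa [← hHd, Nat.add_sub_cancel_left] at this
      · exact h4 b hb
    · rw [← h3, smul_mul_assoc, mul_assoc, ← List.prod_cons, h7, smul_zero]

/-- Polarisation: if all `d`-th powers vanish then all products of `d` elements vanish. -/
theorem polar_pow {R : Type*} [Ring R] [Algebra K R] (S : Submodule K R)
    (hS : ∀ a ∈ S, ∀ b, a * b = b * a) (d : ℕ) (h : ∀ a ∈ S, a ^ d = 0) (l : List R)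
    (hl : ∀ a ∈ l, a ∈ S) (hd : l.length = d) : l.prod = 0 := by
  have := Ample_list S hS l hl 1 fun a ha => by rw [hd, h a ha, zero_mul]
  rwa [mul_one] at this

/-- Some product of `dim X` divisor classes is not zero. -/
theorem Weil.exists_div_prod (X : Var k) : ∃ l : List (W.H X),
    (∀ a ∈ l, a ∈ W.Alg X ⊓ W.gr X 2) ∧ l.length = X.d ∧ l.prod ≠ 0 := by
  obtain ⟨l, h1, h2, h3⟩ := Ample_ind W X X.d {univ} (fun C hC => by
    rw [Multiset.mem_singleton.1 hC]
    exact ⟨X.isSub_univ, rfl⟩) (Multiset.singleton_ne_zero _)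
  exact ⟨l, h1, h2, fun h => h3 (by rw [h, mul_zero])⟩

/-- There is a divisor class with nonzero top power. -/
theorem Weil.exists_ample (X : Var k) : ∃ η ∈ W.Alg X, η ∈ W.gr X 2 ∧ η ^ X.d ≠ 0 := by
  by_contra h
  push Not at h
  obtain ⟨l, h1, h2, h3⟩ := W.exists_div_prod X
  exact h3 (polar_pow (W.Alg X ⊓ W.gr X 2) (fun a ha => W.Alg_comm ha.1) X.d
    (fun a ha => h a ha.1 ha.2) l h1 h2)

end Pool.Agent.MP_0c8446_ag
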