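import Pool.Agent.MP_0c8446_ag.DL.Bru

namespace Pool.Agent.MP_0c8446_ag

open Matrix

universe u

theorem BruW_fin {κ : Type u} [Field κ] {m : ℕ} {h : Matrix (Fin m) (Fin m) κ} (hh : IsUnit h) :
    ∃ (b b' : Matrix (Fin m) (Fin m) κ) (σ : Equiv.Perm (Fin m)), IsUnit b ∧ IsUnit b' ∧
      b.BlockTriangular Fin.val ∧ b'.BlockTriangular Fin.val ∧
      h = b * (Matrix.of fun j i => if j = σ i then 1 else 0) * b' := by
  obtain ⟨y, g, hg, h1, h2⟩ := exists_bruhat (g := 1) isUnit_one hh
  unfold Rl at h1 h2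
  rw [inv_one, Matrix.one_mul] at h1
  have e : g.submatrix id y = g * (Matrix.of fun j i => if j = y i then 1 else 0) := by
    ext i j
    simp [Matrix.mul_apply]
  have hd := (isUnit_iff_isUnit_det h).1 hh
  have hT : IsUnit (h⁻¹ * g.submatrix id y) := by
    refine (isUnit_nonsing_inv_iff.2 hh).mul ((isUnit_iff_isUnit_det _).2 ?_)
    rw [det_permute']
    exact (Units.isUnit (Units.map (Int.castRingHom κ).toMonoidHom (Equiv.Perm.sign y))).mul
      ((isUnit_iff_isUnit_det g).1 hg)
  have := hT.invertible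
  refine ⟨g, (h⁻¹ * g.submatrix id y)⁻¹, y, hg, isUnit_nonsing_inv_iff.2 hT, h1,
    blockTriangular_inv_of_blockTriangular h2, ?_⟩
  rw [← e, eq_comm, mul_inv_eq_iff_eq_mul_of_invertible, mul_nonsing_inv_cancel_left _ _ hd]

/-- Bruhat decomposition relative to the parabolic subgroup of a real weight. -/
theorem exists_bruhat_w {κ : Type u} [Field κ] {n : Type} [Fintype n] [DecidableEq n] (w : n → ℝ)
    {h : Matrix n n κ} (hh : IsUnit h) :
    ∃ (b b' : Matrix n n κ) (σ : Equiv.Perm n), IsUnit b ∧ IsUnit b' ∧ b.BlockTriangular w ∧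
      b'.BlockTriangular w ∧ h = b * (Matrix.of fun j i => if j = σ i then 1 else 0) * b' := by
  let e₀ := (Fintype.equivFin n).symm
  let e : Fin (Fintype.card n) ≃ n := (Tuple.sort (w ∘ e₀)).trans e₀
  have he : Monotone (w ∘ e) := Tuple.monotone_sort (w ∘ e₀)
  have tri : ∀ b : Matrix (Fin (Fintype.card n)) (Fin (Fintype.card n)) κ,
      b.BlockTriangular Fin.val → (b.submatrix e.symm e.symm).BlockTriangular w := by
    intro b hb i j hij
    refine hb (he.reflect_lt (a := e.symm j) (b := e.symm i) ?_)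
    simpa using hij
  obtain ⟨b, b', σ, h1, h2, h3, h4, h5⟩ :=
    BruW_fin (h := h.submatrix e e) ((isUnit_submatrix_equiv e e).2 hh)
  refine ⟨b.submatrix e.symm e.symm, b'.submatrix e.symm e.symm, e.permCongr σ,
    (isUnit_submatrix_equiv _ _).2 h1, (isUnit_submatrix_equiv _ _).2 h2, tri b h3, tri b' h4, ?_⟩
  have e1 : (Matrix.of fun j i => if j = e.permCongr σ i then (1 : κ) else 0) =
      (Matrix.of fun j i => if j = σ i then (1 : κ) else 0).submatrix e.symm e.symm := by
    ext i j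
    exact if_congr e.symm_apply_eq.symm rfl rfl
  rw [e1, submatrix_mul_equiv, submatrix_mul_equiv, ← h5]
  simp

end Pool.Agent.MP_0c8446_ag
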