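import Pool.Agent.MP_0c8446_ag.GI.TBasic

namespace Pool.Agent.MP_0c8446_ag

open MvPolynomial Matrix

universe v

variable {L κ L' : Type v} [Field L] [Field κ] [Field L'] [Algebra L κ] [Algebra L L']
  [IsAlgClosed L']

/-- A point of a finite type algebra killing the kernel of a point in a field. -/
theorem Spec_ker {A : Type v} [CommRing A] [Algebra L A] [Algebra.FiniteType L A]
    (ψ : A →ₐ[L] κ) : ∃ φ : A →ₐ[L] L', ∀ a, ψ a = 0 → φ a = 0 := by
  obtain ⟨m, hm, hle⟩ := Ideal.exists_le_maximal _ (RingHom.ker_ne_top ψ)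
  let _ : Field (A ⧸ m) := Ideal.Quotient.field m
  have := finite_of_finite_type_of_isJacobsonRing L (A ⧸ m)
  refine ⟨(IsAlgClosed.lift : (A ⧸ m) →ₐ[L] L').comp (Ideal.Quotient.mkₐ L m), fun a ha => ?_⟩
  rw [AlgHom.comp_apply, Ideal.Quotient.mkₐ_eq_mk, Ideal.Quotient.eq_zero_iff_mem.2 (hle ha),
    map_zero]

/-- Specialisation of a point to an algebraically closed field. -/
theorem spec_pt {σ : Type} [Finite σ] (x : σ → κ) (f : MvPolynomial σ L) (hf : aeval x f ≠ 0) :
    ∃ y : σ → L', aeval y f ≠ 0 ∧ ∀ p : MvPolynomial σ L, aeval x p = 0 → aeval y p = 0 := by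
  obtain ⟨φ, hφ⟩ := Spec_ker (L' := L')
    (aeval (R := L) fun o : Option σ => o.elim (aeval x f)⁻¹ x)
  have h1 : ∀ p : MvPolynomial σ L,
      aeval (fun o : Option σ => o.elim (aeval x f)⁻¹ x) (rename some p) = aeval x p :=
    fun p => aeval_rename _ _ p
  have h2 : ∀ p : MvPolynomial σ L, aeval (fun s => φ (X (some s))) p = φ (rename some p) :=
    fun p => DFunLike.congr_fun
      (algHom_ext (f := aeval fun s => φ (X (some s))) (g := φ.comp (rename some))
        fun s => by simp) p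
  refine ⟨fun s => φ (X (some s)), fun h => ?_, fun p hp => ?_⟩
  · have h3 := hφ (X none * rename some f - 1) (by
      rw [map_sub, map_mul, h1, aeval_X, map_one, Option.elim_none, inv_mul_cancel₀ hf, sub_self])
    rw [map_sub, map_mul, ← h2, h, mul_zero, map_one, zero_sub, neg_eq_zero] at h3
    exact one_ne_zero h3
  · rw [h2]
    exact hφ _ ((h1 p).trans hp)

/-- Specialisation of an invertible block diagonal matrix. -/
theorem spec_blk {T : Type} [Fintype T] [DecidableEq T] {n : T → Type} [∀ t, Fintype (n t)]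
    [∀ t, DecidableEq (n t)] (g : ∀ t, Matrix (n t) (n t) κ) (hg : IsUnit (blockDiagonal' g)) :
    ∃ g' : ∀ t, Matrix (n t) (n t) L', IsUnit (blockDiagonal' g') ∧
      ∀ p : PR L n, evm L g p = 0 → evm L g' p = 0 := by
  have h0 : evm L g (Dl L n fun _ => 1) ≠ 0 := by
    rw [evm_Dl]
    simpa only [pow_one, ← det_blockDiagonal'] using ((isUnit_iff_isUnit_det _).1 hg).ne_zero
  obtain ⟨y, h1, h2⟩ := spec_pt (L' := L') (fun s : Σ t, n t × n t => g s.1 s.2.1 s.2.2)
    (Dl L n fun _ => 1) h0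
  refine ⟨fun t => Matrix.of fun i j => y ⟨t, (i, j)⟩, ?_, h2⟩
  have h3 : evm L (fun t => Matrix.of fun i j => y ⟨t, (i, j)⟩) (Dl L n fun _ => 1) ≠ 0 := h1
  rw [evm_Dl] at h3
  rw [isUnit_iff_isUnit_det, det_blockDiagonal', isUnit_iff_ne_zero]
  simpa only [pow_one] using h3

end Pool.Agent.MP_0c8446_ag
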