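import Pool.Agent.MP_0c8446_ag.GI.HMv
import Pool.Agent.MP_0c8446_ag.GI.Spec

namespace Pool.Agent.MP_0c8446_ag

open MvPolynomial Matrix

universe v

variable {L : Type v} [Field L] {T : Type} [Fintype T] [DecidableEq T] {n : T → Type}
  [∀ t, Fintype (n t)] [∀ t, DecidableEq (n t)] {ι : Type} [Fintype ι] [DecidableEq ι]

/-- A valuation attached to a filtration that misses the powers of `Δ`. -/
theorem HM2_val {R : Type v} [CommRing R] [IsDomain R] [Algebra L R] {Δ : R} (hΔ0 : Δ ≠ 0)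
    (𝒥 : ℕ → Submodule L R) (𝒢 : Set (R × ℕ))
    (h2 : ∀ y ∈ 𝒢, ∀ S, ∀ x ∈ 𝒥 S, y.1 * x ∈ 𝒥 (S + y.2))
    (h5 : ∀ S, ∀ x ∈ 𝒥 S, Δ * x ∈ 𝒥 (S + 1)) (hno : ∀ S, Δ ^ S ∉ 𝒥 S) :
    ∃ O : ValuationSubring (FractionRing R), (∀ c, algebraMap L (FractionRing R) c ∈ O) ∧
      ∀ y ∈ 𝒢, O.valuation (algebraMap R _ y.1) ≤ O.valuation (algebraMap R _ (Δ ^ y.2)) ∧
        (y.1 ∈ 𝒥 y.2 →
          O.valuation (algebraMap R _ y.1) < O.valuation (algebraMap R _ (Δ ^ y.2))) := by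
  let Ω := FractionRing R
  let f : R →+* Ω := algebraMap R Ω
  have hf : Function.Injective f := IsFractionRing.injective R Ω
  have hΔ : ∀ k : ℕ, f (Δ ^ k) ≠ 0 := fun k => (map_ne_zero_iff f hf).2 (pow_ne_zero k hΔ0)
  have h3' : ∀ k S, ∀ x ∈ 𝒥 S, Δ ^ k * x ∈ 𝒥 (S + k) := by
    intro k
    induction k with
    | zero => intro S x hx; simpa using hx
    | succ k ih =>
      intro S x hx
      have := h5 _ _ (ih S x hx)
      rw [← mul_assoc, ← pow_succ'] at this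
      exact this
  let P : Ω → Prop := fun z => ∃ S, ∃ r ∈ 𝒥 S, z * f (Δ ^ S) = f r
  have P0 : P 0 := ⟨0, 0, zero_mem _, by simp⟩
  have Padd : ∀ z z', P z → P z' → P (z + z') := by
    rintro z z' ⟨S, r, hr, h⟩ ⟨S', r', hr', h'⟩
    refine ⟨S + S', Δ ^ S' * r + Δ ^ S * r', add_mem (h3' _ _ _ hr) ?_, ?_⟩
    · rw [add_comm]
      exact h3' _ _ _ hr'
    · rw [map_add, map_mul, map_mul, ← h, ← h', pow_add, map_mul]
      ring
  let Y : Set Ω := (fun y : R × ℕ => f y.1 / f (Δ ^ y.2)) '' 𝒢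
  have Pmul : ∀ b ∈ Algebra.adjoin L Y, ∀ z, P z → P (b * z) := by
    intro b hb
    induction hb using Algebra.adjoin_induction with
    | mem y hy =>
      obtain ⟨y, hy, rfl⟩ := hy
      rintro z ⟨S, r, hr, h⟩
      refine ⟨S + y.2, y.1 * r, h2 y hy S r hr, ?_⟩
      rw [map_mul, ← h, pow_add, map_mul]
      show f y.1 / f (Δ ^ y.2) * z * _ = _
      conv_rhs => rw [← div_mul_cancel₀ (f y.1) (hΔ y.2)]
      ring
    | algebraMap c =>
      rintro z ⟨S, r, hr, h⟩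
      refine ⟨S, c • r, Submodule.smul_mem _ c hr, ?_⟩
      rw [Algebra.smul_def, map_mul, ← h, mul_assoc, IsScalarTower.algebraMap_apply L R Ω c]
    | add y y' _ _ hy hy' =>
      intro z hz
      rw [add_mul]
      exact Padd _ _ (hy z hz) (hy' z hz)
    | mul y y' _ _ hy hy' =>
      intro z hz
      rw [mul_assoc]
      exact hy _ (hy' z hz)
  let Q : Ideal (Algebra.adjoin L Y).toSubring :=
    { carrier := {z | P z}
      zero_mem' := P0
      add_mem' := fun {z z'} hz hz' => Padd _ _ hz hz'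
      smul_mem' := fun b z hz => Pmul b b.2 z hz }
  have hQ : Q ≠ ⊤ := by
    intro h
    have h1' : (1 : (Algebra.adjoin L Y).toSubring) ∈ Q := by rw [h]; trivial
    obtain ⟨S, r, hr, h'⟩ : P 1 := h1'
    rw [one_mul] at h'
    exact hno S (by rw [hf h']; exact hr)
  obtain ⟨O, hBO, hQO⟩ := Ideal.image_subset_nonunits_valuationSubring Q hQ
  have hp : ∀ k : ℕ, 0 < O.valuation (f (Δ ^ k)) := fun k =>
    zero_lt_iff.2 ((Valuation.ne_zero_iff _).2 (hΔ k))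
  refine ⟨O, fun c => hBO (Subalgebra.algebraMap_mem (Algebra.adjoin L Y) c),
    fun y hy => ⟨?_, fun h1 => ?_⟩⟩
  · have h : f y.1 / f (Δ ^ y.2) ∈ O := hBO (Algebra.subset_adjoin (R := L) (s := Y) ⟨y, hy, rfl⟩)
    rwa [← O.valuation_le_one_iff, map_div₀, div_le_one₀ (hp _)] at h
  · have h : f y.1 / f (Δ ^ y.2) ∈ O.nonunits :=
      hQO ⟨⟨_, Algebra.subset_adjoin ⟨y, hy, rfl⟩⟩,
        ⟨y.2, y.1, h1, div_mul_cancel₀ _ (hΔ y.2)⟩, rfl⟩
    rwa [ValuationSubring.mem_nonunits_iff, map_div₀, div_lt_one₀ (hp _)] at h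

theorem HM2_evm {A : Type v} [CommRing A] [Algebra L A] (h : ∀ t, Matrix (n t) (n t) A)
    (E : Matrix (Σ t, n t) (Σ t, n t) L) (i j : Σ t, n t) :
    evm L h (gen (tmat E) fun b => cond b j i) =
      ((blockDiagonal' h)ᵀ * E.map (algebraMap L A) * blockDiagonal' h) i j := by
  rw [evm_gen]
  exact congrFun (tact_tmat (blockDiagonal' h) (E.map (algebraMap L A))) _

/-- Hilbert-Mumford: if there is no polynomial identity then there is a destabilising pair. -/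
theorem hm2 (L' : Type v) [Field L'] [Algebra L L'] [IsAlgClosed L'] (a : (ι → Σ t, n t) → L)
    (𝓔 : Set (Matrix (Σ t, n t) (Σ t, n t) L)) (𝒮 : Set (Finset T))
    (𝒥 : ℕ → Submodule L (PR L n))
    (h1 : ∀ I, gen a I ^ (2 * Fintype.card (Σ t, n t)) ∈ 𝒥 (Fintype.card ι))
    (h2 : ∀ I S, ∀ x ∈ 𝒥 S,
      gen a I ^ (2 * Fintype.card (Σ t, n t)) * x ∈ 𝒥 (S + Fintype.card ι))
    (h3 : ∀ E ∈ 𝓔, ∀ I S, ∀ x ∈ 𝒥 S,
      gen (tmat E) I ^ (2 * Fintype.card (Σ t, n t)) * x ∈ 𝒥 (S + 2))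
    (h4 : ∀ A ∈ 𝒮, ∀ S, ∀ x ∈ 𝒥 S, (∏ t ∈ A, (gm L n t).det) ^ (2 * Fintype.card (Σ t, n t)) * x ∈
      𝒥 (S + ∑ t ∈ A, Fintype.card (n t)))
    (h5 : ∀ S, ∀ x ∈ 𝒥 S, Dl L n (fun _ => 2) * x ∈ 𝒥 (S + 1))
    (hno : ∀ S, Dl L n (fun _ => 2) ^ S ∉ 𝒥 S) :
    ∃ (g : ∀ t, Matrix (n t) (n t) L') (w : (Σ t, n t) → ℝ),
      Dst (fun I => algebraMap L L' (a I)) ((fun E => E.map (algebraMap L L')) '' 𝓔)
        (blockDiagonal' g) w ∧ ∀ A ∈ 𝒮, 0 ≤ ∑ t ∈ A, ∑ i, w ⟨t, i⟩ := by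
  obtain ⟨O, hO, hv⟩ := HM2_val (Dl_ne_zero (L := L) (n := n) fun _ => 2) 𝒥
    {y | ∀ S, ∀ x ∈ 𝒥 S, y.1 * x ∈ 𝒥 (S + y.2)} (fun y hy => hy) h5 hno
  let Ω := FractionRing (PR L n)
  let f : PR L n →+* Ω := algebraMap (PR L n) Ω
  have hf : Function.Injective f := IsFractionRing.injective (PR L n) Ω
  have hfC : ∀ c : L, f (C c) = algebraMap L Ω c := fun c =>
    (IsScalarTower.algebraMap_apply L (PR L n) Ω c).symm
  have hdet : ∀ t, ((gm L n t).map f).det = f (gm L n t).det := fun t =>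
    (RingHom.map_det f _).symm
  have e1 : ∀ {ι' : Type} [Fintype ι'] [DecidableEq ι'] (u : (ι' → Σ t, n t) → L) I,
      tact (blockDiagonal' fun t => (gm L n t).map f) (fun J => algebraMap L Ω (u J)) I =
        f (gen u I) := fun u I => by
    rw [gen, tact_map, blockDiagonal'_map _ _ (map_zero _)]
    simp only [hfC]
  have e2 : ∏ t, ((gm L n t).map f).det ^ 2 = f (Dl L n fun _ => 2) := by
    rw [Dl, map_prod]
    exact Finset.prod_congr rfl fun t _ => by rw [hdet, map_pow]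
  obtain ⟨κ, _, _, g', w, hD, hw⟩ := hm2_val a 𝓔 𝒮 O hO (fun t => (gm L n t).map f)
    (fun t => by
      rw [Matrix.isUnit_iff_isUnit_det, hdet, isUnit_iff_ne_zero, map_ne_zero_iff f hf]
      have h := Dl_ne_zero (L := L) (n := n) fun _ => 1
      have h' := Finset.prod_ne_zero_iff.1 h t (Finset.mem_univ _)
      rwa [pow_one] at h')
    (fun I => by
      rw [e1, e2, ← map_pow, ← map_pow]
      exact (hv (_, _) (h2 I)).2 (h1 I))
    (fun E hE I => by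
      rw [e1, e2, ← map_pow, ← map_pow]
      exact (hv (_, _) (h3 E hE I)).1)
    (fun A hA => by
      rw [e2, Finset.prod_congr rfl fun t _ => hdet t, ← map_prod, ← map_pow, ← map_pow]
      exact (hv (_, _) (h4 A hA)).1)
  obtain ⟨g, hg, hs⟩ := spec_blk (L := L) (L' := L') g' hD.unit
  refine ⟨g, w, ⟨hg, hD.sum, fun I hI => hD.pos I fun h0 => hI ?_, ?_⟩, hw⟩
  · rw [← evm_gen] at h0 ⊢
    exact hs _ h0
  · rintro _ ⟨E, hE, rfl⟩ i j hij
    refine hD.iso _ ⟨E, hE, rfl⟩ i j fun h0 => hij ?_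
    rw [← HM2_evm] at h0 ⊢
    exact hs _ h0

end Pool.Agent.MP_0c8446_ag
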