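import Pool.Agent.MP_0c8446_ag.GI.TBasic

namespace Pool.Agent.MP_0c8446_ag

open MvPolynomial Matrix

universe v

variable {L : Type v} [Field L] [CharZero L] {T : Type} [Fintype T] [DecidableEq T] {n : T → Type}
  [∀ t, Fintype (n t)] [∀ t, DecidableEq (n t)] {ι : Type} [Fintype ι] [DecidableEq ι]

theorem Masch_perm {σ : Type} (K K' : ι → σ)
    (h : ∑ j, Finsupp.single (K j) 1 = ∑ j, Finsupp.single (K' j) (1 : ℕ)) :
    ∃ e : Equiv.Perm ι, K' ∘ e = K := by
  classical
  have key : ∀ s : σ, Nonempty ({i // K i = s} ≃ {j // K' j = s}) := by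
    intro s
    refine Fintype.card_eq.1 ?_
    have := congrArg (fun f : σ →₀ ℕ => f s) h
    simp only [Finsupp.finsetSum_apply, Finsupp.single_apply] at this
    rw [Fintype.card_subtype, Fintype.card_subtype, Finset.card_filter, Finset.card_filter]
    exact this
  exact ⟨Equiv.ofFiberEquiv fun s => (key s).some,
    funext fun i => Equiv.ofFiberEquiv_map (fun s => (key s).some) i⟩

/-- The block projector. -/
def Masch_p (τ : ι → T) : ((ι → Σ t, n t) → L) →ₗ[L] ((ι → Σ t, n t) → L) where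
  toFun u := fun I => if ∀ j, (I j).1 = τ j then u I else 0
  map_add' u v := by
    funext I
    simp only [Pi.add_apply]
    split_ifs <;> simp
  map_smul' c u := by
    funext I
    simp only [Pi.smul_apply, RingHom.id_apply]
    split_ifs <;> simp

/-- The permutation operator. -/
def Masch_P (e : Equiv.Perm ι) : ((ι → Σ t, n t) → L) →ₗ[L] ((ι → Σ t, n t) → L) where
  toFun u := fun I => u (I ∘ e)
  map_add' _ _ := rfl
  map_smul' _ _ := rfl

omit [CharZero L] in
theorem Masch_psi (S : ((ι → Σ t, n t) → L) →ₗ[L] ((ι → Σ t, n t) → L))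
    (h1 : ∀ τ u, S (Masch_p τ u) = Masch_p τ (S u))
    (h2 : ∀ e u, S (Masch_P e u) = Masch_P e (S u)) :
    ∃ Ψ : PR L n →ₗ[L] L, ∀ u I, Ψ (gen u I) = S u I := by
  classical
  let t : (ι → Σ t, n t) → (ι → Σ t, n t) → L := fun J I => S (Pi.single J 1) I
  have ta : ∀ J I, ¬ (∀ j, (I j).1 = (J j).1) → t J I = 0 := by
    intro J I h
    have e : Masch_p (fun j => (J j).1) (Pi.single J (1 : L)) = Pi.single J 1 := by
      funext I'
      by_cases hI : I' = J
      · subst hI; simp [Masch_p]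
      · simp [Masch_p, hI]
    have := congrFun (h1 (fun j => (J j).1) (Pi.single J 1)) I
    rw [e] at this
    refine this.trans ?_
    exact if_neg h
  have tb : ∀ (e : Equiv.Perm ι) J I, t (J ∘ e) (I ∘ e) = t J I := by
    intro e J I
    have e1 : Masch_P e (Pi.single (J ∘ e) (1 : L)) = Pi.single J 1 := by
      funext I'
      by_cases hI : I' = J
      · subst hI; simp [Masch_P]
      · have : I' ∘ e ≠ J ∘ e := fun h => hI (e.surjective.injective_comp_right h)
        simp [Masch_P, hI, this]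
    have := congrFun (h2 e (Pi.single (J ∘ e) 1)) I
    rw [e1] at this
    exact this.symm
  let r : (Σ t, n t × n t) → Σ t, n t := fun k => ⟨k.1, k.2.1⟩
  let c : (Σ t, n t × n t) → Σ t, n t := fun k => ⟨k.1, k.2.2⟩
  let f : ((Σ t, n t × n t) →₀ ℕ) → L := fun μ =>
    if h : ∃ K : ι → Σ t, n t × n t, μ = ∑ j, Finsupp.single (K j) 1 then
      t (r ∘ h.choose) (c ∘ h.choose) else 0
  have hf : ∀ K : ι → Σ t, n t × n t, f (∑ j, Finsupp.single (K j) 1) = t (r ∘ K) (c ∘ K) := by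
    intro K
    have h : ∃ K' : ι → Σ t, n t × n t,
        ∑ j, Finsupp.single (K j) 1 = ∑ j, Finsupp.single (K' j) (1 : ℕ) := ⟨K, rfl⟩
    obtain ⟨e, he⟩ := Masch_perm K h.choose h.choose_spec
    have : f (∑ j, Finsupp.single (K j) 1) = t (r ∘ h.choose) (c ∘ h.choose) := dif_pos h
    rw [this, ← tb e, Function.comp_assoc, Function.comp_assoc, he]
  refine ⟨(basisMonomials _ L).constr L f, fun u I => ?_⟩
  have key : ∀ J : ι → Σ t, n t, (basisMonomials _ L).constr L f
      (∏ j, blockDiagonal' (gm L n) (J j) (I j)) = t J I := by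
    intro J
    by_cases h : ∀ j, (I j).1 = (J j).1
    · have : ∀ j, ∃ k : Σ t, n t × n t, r k = J j ∧ c k = I j := by
        intro j
        have hj := h j
        generalize J j = a at hj
        generalize I j = b at hj
        obtain ⟨a1, a2⟩ := a
        obtain ⟨b1, b2⟩ := b
        obtain rfl : b1 = a1 := hj
        exact ⟨⟨b1, a2, b2⟩, rfl, rfl⟩
      choose K hK using this
      have hJ : r ∘ K = J := funext fun j => (hK j).1
      have hI : c ∘ K = I := funext fun j => (hK j).2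
      have e : ∏ j, blockDiagonal' (gm L n) (J j) (I j) =
          basisMonomials _ L (∑ j, Finsupp.single (K j) 1) := by
        rw [coe_basisMonomials]
        simp only
        rw [monomial_sum_one]
        refine Finset.prod_congr rfl fun j _ => ?_
        rw [← (hK j).1, ← (hK j).2]
        exact blockDiagonal'_apply_eq _ _ _ _
      rw [e, Module.Basis.constr_basis, hf, hJ, hI]
    · rw [ta J I h]
      obtain ⟨j, hj⟩ := not_forall.1 h
      rw [Finset.prod_eq_zero (Finset.mem_univ j), map_zero]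
      exact blockDiagonal'_apply_ne _ _ _ (Ne.symm hj)
  have hu : u = ∑ J, u J • (Pi.single J 1 : (ι → Σ t, n t) → L) := by
    funext I'
    simp [Finset.sum_apply, Pi.single_apply]
  conv_rhs => rw [hu, map_sum, Finset.sum_apply]
  simp only [gen, tact, map_sum, C_mul', map_smul, key]
  rfl

omit [CharZero L] [∀ t, Fintype (n t)] [∀ t, DecidableEq (n t)] in
theorem Masch_sum_p (u : (ι → Σ t, n t) → L) : ∑ τ, Masch_p τ (Masch_p τ u) = u := by
  funext I
  rw [Finset.sum_apply, Finset.sum_eq_single (fun j => (I j).1)]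
  · simp [Masch_p]
  · intro τ _ h
    exact if_neg fun h' => h (funext fun j => (h' j).symm)
  · simp

omit [CharZero L] [Fintype T] [∀ t, Fintype (n t)] [∀ t, DecidableEq (n t)] in
theorem Masch_pp (τ τ' : ι → T) (u : (ι → Σ t, n t) → L) :
    Masch_p τ (Masch_p τ' u) = if τ = τ' then Masch_p τ u else 0 := by
  funext I
  by_cases h : τ = τ'
  · subst h
    by_cases h' : ∀ j, (I j).1 = τ j <;> simp [Masch_p, h']
  · rw [if_neg h]
    by_cases h1 : ∀ j, (I j).1 = τ j
    · have h2 : ¬ ∀ j, (I j).1 = τ' j := fun h2 => h (funext fun j => (h1 j).symm.trans (h2 j))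
      exact (if_pos h1).trans (if_neg h2)
    · exact if_neg h1

omit [CharZero L] [Fintype T] [∀ t, Fintype (n t)] [∀ t, DecidableEq (n t)] [DecidableEq ι] in
theorem Masch_Pp (e : Equiv.Perm ι) (τ : ι → T) (u : (ι → Σ t, n t) → L) :
    Masch_P e (Masch_p (τ ∘ e) u) = Masch_p τ (Masch_P e u) := by
  funext I
  exact if_congr (e.forall_congr_right (q := fun j => (I j).1 = τ j)) rfl rfl

/-- Schur-Weyl and Maschke: a semi-invariant whose weight is a combination of coordinates of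
translates of members of an invariant subspace lies in the subspace. -/
theorem mem_of_weight (N : Submodule L ((ι → Σ t, n t) → L))
    (hp : ∀ e : Equiv.Perm ι, ∀ u ∈ N, (fun I => u (I ∘ e)) ∈ N)
    (hb : ∀ τ : ι → T, ∀ u ∈ N, (fun I => if ∀ j, (I j).1 = τ j then u I else 0) ∈ N)
    {δ : PR L n} (hδ : δ ∈ Submodule.span L {x | ∃ u ∈ N, ∃ I, x = gen u I})
    {ω : (ι → Σ t, n t) → L} (hω : ∀ I, gen ω I = δ * C (ω I)) : ω ∈ N := by
  obtain ⟨Q0, hQ0⟩ := LinearMap.exists_extend (p := N) (LinearMap.id : N →ₗ[L] N)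
  have hQ0' : ∀ u ∈ N, (Q0 u : (ι → Σ t, n t) → L) = u := fun u hu =>
    congrArg Subtype.val (LinearMap.congr_fun hQ0 ⟨u, hu⟩)
  let Q1 : ((ι → Σ t, n t) → L) →ₗ[L] ((ι → Σ t, n t) → L) :=
    ∑ τ, Masch_p τ ∘ₗ N.subtype ∘ₗ Q0 ∘ₗ Masch_p τ
  have Q1a : ∀ u, Q1 u = ∑ τ, Masch_p τ (Q0 (Masch_p τ u) : (ι → Σ t, n t) → L) := fun u => by
    simp [Q1]
  have Q1m : ∀ u, Q1 u ∈ N := fun u => by
    rw [Q1a]
    exact N.sum_mem fun τ _ => hb τ _ (Q0 _).2
  have Q1i : ∀ u ∈ N, Q1 u = u := fun u hu => by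
    rw [Q1a, Finset.sum_congr rfl fun τ _ => by rw [hQ0' (Masch_p τ u) (hb τ u hu)], Masch_sum_p]
  have Q1p : ∀ τ u, Q1 (Masch_p τ u) = Masch_p τ (Q1 u) := fun τ u => by
    rw [Q1a, Q1a, map_sum]
    refine Finset.sum_congr rfl fun τ' _ => ?_
    rw [Masch_pp, Masch_pp]
    by_cases h : τ = τ'
    · subst h; simp
    · simp [h, Ne.symm h]
  clear_value Q1
  let Q2 : ((ι → Σ t, n t) → L) →ₗ[L] ((ι → Σ t, n t) → L) :=
    ∑ e : Equiv.Perm ι, Masch_P e ∘ₗ Q1 ∘ₗ Masch_P e⁻¹
  have Q2a : ∀ u, Q2 u = ∑ e : Equiv.Perm ι, Masch_P e (Q1 (Masch_P e⁻¹ u)) := fun u => by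
    simp [Q2]
  have PP : ∀ (e e' : Equiv.Perm ι) (u : (ι → Σ t, n t) → L),
      Masch_P e (Masch_P e' u) = Masch_P (e * e') u := fun _ _ _ => rfl
  have P1 : ∀ u : (ι → Σ t, n t) → L, Masch_P 1 u = u := fun _ => rfl
  have Q2m : ∀ u, Q2 u ∈ N := fun u => by
    rw [Q2a]
    exact N.sum_mem fun e _ => hp e _ (Q1m _)
  have Q2i : ∀ u ∈ N, Q2 u = (Fintype.card (Equiv.Perm ι) : L) • u := fun u hu => by
    rw [Q2a, Finset.sum_congr rfl fun e _ => by
      rw [Q1i (Masch_P e⁻¹ u) (hp e⁻¹ u hu), PP, mul_inv_cancel, P1], Finset.sum_const,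
      Finset.card_univ, Nat.cast_smul_eq_nsmul]
  have Q2p : ∀ τ u, Q2 (Masch_p τ u) = Masch_p τ (Q2 u) := fun τ u => by
    rw [Q2a, Q2a, map_sum]
    refine Finset.sum_congr rfl fun e _ => ?_
    have e1 : τ = (τ ∘ e) ∘ (e⁻¹ : Equiv.Perm ι) := by
      funext j; simp
    rw [← Masch_Pp, ← Q1p, ← Masch_Pp e⁻¹, ← e1]
  have Q2P : ∀ e u, Q2 (Masch_P e u) = Masch_P e (Q2 u) := fun e u => by
    rw [Q2a, Q2a, map_sum, ← Equiv.sum_comp (Equiv.mulLeft e)]
    refine Finset.sum_congr rfl fun e' _ => ?_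
    simp only [Equiv.coe_mulLeft, PP, _root_.mul_inv_rev, inv_mul_cancel_right]
  clear_value Q2
  have hc : (Fintype.card (Equiv.Perm ι) : L) ≠ 0 := Nat.cast_ne_zero.2 Fintype.card_ne_zero
  generalize (Fintype.card (Equiv.Perm ι) : L) = c at hc Q2i
  obtain ⟨Ψ, hΨ⟩ := Masch_psi (c • LinearMap.id - Q2) (fun τ u => by simp [Q2p])
    (fun e u => by simp [Q2P])
  have h0 : Ψ δ = 0 := by
    have : Submodule.span L {x | ∃ u ∈ N, ∃ I, x = gen u I} ≤ LinearMap.ker Ψ := by
      rw [Submodule.span_le]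
      rintro _ ⟨u, hu, I, rfl⟩
      simp [hΨ, Q2i u hu]
    exact this hδ
  have h1 : c • ω = Q2 ω := by
    funext I
    have := hΨ ω I
    rw [hω, mul_comm, C_mul', map_smul, h0, smul_zero] at this
    simpa [sub_eq_zero] using this.symm
  exact (N.smul_mem_iff hc).1 (h1 ▸ Q2m ω)

end Pool.Agent.MP_0c8446_ag
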