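import Pool.Agent.MP_0c8446_ag.GI.Eps
import Pool.Agent.MP_0c8446_ag.GI.Masch
import Pool.Agent.MP_0c8446_ag.GI.HM2

namespace Pool.Agent.MP_0c8446_ag

open MvPolynomial Matrix

universe v

variable {L : Type v} [Field L] [CharZero L] {T : Type} [Fintype T] [DecidableEq T] {n : T → Type}
  [∀ t, Fintype (n t)] [∀ t, DecidableEq (n t)] {α : T → L}
  {F B : ∀ ι : Type, Submodule L ((ι → Σ t, n t) → L)} {E E' : Matrix (Σ t, n t) (Σ t, n t) L}
  {c : L}

/-- Numerically trivial tensors are unstable. -/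
theorem core2 (L' : Type v) [Field L'] [Algebra L L'] [IsAlgClosed L']
    (hα : Function.Injective α) (hF : TFam (fun i : Σ t, n t => α i.1) F)
    (hB : TFam (fun i : Σ t, n t => α i.1) B) (hcon : TCon F B) (hE : tmat E ∈ F Bool)
    (hE' : tmat E' ∈ B Bool) (hc : c ≠ 0) (hEE : E * E' = c • (1 : Matrix _ _ L))
    {ι : Type} [Fintype ι] [DecidableEq ι] {u : (ι → Σ t, n t) → L} (hu : u ∈ nul F B ι)
    (h0 : u ≠ 0) : ∃ g w, Dst (fun I => algebraMap L L' (u I))
      ((fun E => E.map (algebraMap L L')) '' {E | tmat E ∈ F Bool}) g w := by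
  classical
  set d := Fintype.card (Σ t, n t) with hd
  rcases Nat.eq_zero_or_pos d with hd0 | hd0
  · obtain ⟨I, hI⟩ := Function.ne_iff.1 h0
    have hD := Fintype.card_eq_zero_iff.1 hd0
    have hι : IsEmpty ι := ⟨fun j => hD.false (I j)⟩
    have h1 := (mem_nul.1 hu).2 _ (hB.re (Equiv.equivOfIsEmpty Empty ι) _ hB.one)
    rw [tpair, Fintype.sum_subsingleton _ I, mul_one] at h1
    exact absurd h1 hI
  have hsem : Sem F B (Dl L n fun _ => 2) (2 * d) := by
    have := sem_comp hα hF hB hE hE' hc hEE Finset.univ (by simp)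
    rwa [← Finset.mul_sum, ← Fintype.card_sigma] at this
  have g1 : ∀ {κ : Type} [Fintype κ] [DecidableEq κ] {a : (κ → Σ t, n t) → L}, a ∈ F κ → ∀ I r,
      gen a I ^ r ∈ coord F (r * Fintype.card κ) := fun {κ} _ _ a ha I r => by
    induction r with
    | zero => simpa using coord_one hF
    | succ r ih =>
      rw [pow_succ, Nat.succ_mul]
      exact coord_mul hF ih (Submodule.subset_span ⟨_, _, _, rfl, a, ha, I, rfl⟩)
  have hpow : ∀ S : ℕ, Sem F B (Dl L n (fun _ => 2) ^ S) (S * (2 * d)) := fun S => by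
    induction S with
    | zero => simpa using Sem.one hF hB
    | succ S ih => rw [pow_succ, Nat.succ_mul]; exact ih.mul hF hB hsem
  obtain ⟨g, w, h, -⟩ := hm2 L' u {E | tmat E ∈ F Bool} ∅
    (fun S => coord (nul F B) (S * (2 * d)))
    (fun I => by
      obtain ⟨r, hr⟩ : ∃ r, 2 * d = r + 1 := ⟨2 * d - 1, by omega⟩
      have h1 : gen u I ∈ coord (nul F B) (Fintype.card ι) :=
        Submodule.subset_span ⟨_, _, _, rfl, u, hu, I, rfl⟩
      have := coord_nul_mul hF hcon h1 (g1 hu.1 I r)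
      rw [← hd, hr, pow_succ', mul_add, mul_one, add_comm, mul_comm _ r]
      exact this)
    (fun I S x hx => by
      rw [mul_comm _ x, add_mul, mul_comm (Fintype.card ι)]
      exact coord_nul_mul hF hcon hx (g1 hu.1 I _))
    (fun M hM I S x hx => by
      rw [mul_comm _ x, add_mul, mul_comm 2 (2 * d)]
      exact coord_nul_mul hF hcon hx (g1 hM I _))
    (fun _ h => h.elim)
    (fun S x hx => by
      rw [mul_comm _ x, add_one_mul]
      exact coord_nul_mul hF hcon hx hsem.mem_coord)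
    (fun S hS => by
      obtain ⟨κ, _, _, hκ, ω, hω, b, hb, hne, hgen⟩ := hpow S
      rw [← hκ] at hS
      exact hne ((mem_nul.1 (mem_of_weight (nul F B κ) (fun e u hu => nul_re hF hB e hu)
        (fun τ u hu => nul_proj hα hF hB τ hu) (coord_nul_eq hF hB hS) hgen)).2 b hb))
  exact ⟨_, w, h⟩

end Pool.Agent.MP_0c8446_ag
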