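import Pool.Agent.MP_0c8446_ag.DL.Defs

namespace Pool.Agent.MP_0c8446_ag

universe u v w x

variable {k : Type u} [Field k] {K : Type v} [Field K]

/-- The powers of `A`. -/
inductive Pow (A : Var k) : Var k → Prop
  | base : Pow A A
  | prod {P X Y : Var k} (a : Mor P X) (b : Mor P Y) : IsProd a b → Pow A X → Pow A Y → Pow A P

/-- The point `y` is obtained from the point `x` by applying `σ` to the coordinates. -/
def Conj {G : Type x} [Group G] [MulSemiringAction G k] {ι : Type} {n : ι → ℕ} (σ : G)
    (x y : MP k n) : Prop :=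
  ∀ v, IsRep v x → IsRep (fun s => σ • v s) y

/-- The variety `X` is stable under `G` (it is defined over the fixed field). -/
def Var.Over (X : Var k) (G : Type x) [Group G] [MulSemiringAction G k] : Prop :=
  ∀ (σ : G) (x : X.pts), ∃ y : X.pts, Conj σ x.1 y.1

/-- The morphism `f` commutes with `G`. -/
def Mor.Over {X Y : Var k} (f : Mor X Y) (G : Type x) [Group G] [MulSemiringAction G k] : Prop :=
  ∀ (σ : G) (x y : X.pts), Conj σ x.1 y.1 → Conj σ (f.1 x).1 (f.1 y).1

/-- The maps `s` are compatible with degrees, with pull-backs along morphisms defined over the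
fixed field of `G`, and send the class of `Z` to `c ^ codim Z` times the class of `σ Z`. -/
def Coh.Compat (W : Coh.{u, v, w} k K) {G : Type x} [Group G] [MulSemiringAction G k] (σ : G)
    (c : K) (s : ∀ X, W.H X → W.H X) : Prop :=
  (∀ X i, ∀ a ∈ W.gr X i, s X a ∈ W.gr X i) ∧
  (∀ (X Y : Var k) (f : Mor X Y), X.Over G → Y.Over G → f.Over G →
    ∀ a, s X (W.pull f a) = W.pull f (s Y a)) ∧
  ∀ X : Var k, X.Over G → ∀ Z, IsSub Z →
    s X (W.cl X Z) = c ^ (X.d - dim Z) • W.cl X {y | ∃ x ∈ Z, Conj σ x.1 y.1}

/-- A Galois action on a Weil cohomology theory: the group `G` of automorphisms of `k` acts on the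
cohomology rings of the varieties stable under `G`, compatibly with degrees, pull-backs and (up to
powers of the character `χ`, the Tate twist) classes of subvarieties. -/
structure Weil.Gal (W : Weil.{u, v, w} k K) (G : Type x) [Group G] [MulSemiringAction G k] where
  χ : G →* Kˣ
  act : ∀ X : Var k, G →* (W.H X →ₐ[K] W.H X)
  compat : ∀ σ, W.Compat σ (χ σ) fun X => act X σ

open Classical in
/-- The determinant of `f` on the subspace `S` if it is invariant, and `0` otherwise. -/
noncomputable def detOn {M : Type w} [AddCommGroup M] [Module K M] (f : Module.End K M)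
    (S : Submodule K M) : K :=
  if h : ∀ a ∈ S, f a ∈ S then LinearMap.det (f.restrict h) else 0

/-- `S` and `S'` are orthogonal for all algebraic bilinear forms. -/
def Coh.Orth (W : Coh.{u, v, w} k K) {A : Var k} (S S' : Submodule K (W.H A)) : Prop :=
  ∀ a ∈ S, ∀ b ∈ S', ∀ (Y : Var k) (p q : Mor Y A) (Z : Set Y.pts),
    IsSub Z → W.tr Y (W.cl Y Z * (W.pull p a * W.pull q b)) = 0

/-- There is no nonzero finite family `M` of subspaces of `V`, any two of them (equal or not) in
the relation `R`, stable under the `f σ` for `σ` in `U`, with the product of the determinants of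
`f σ` equal to a fixed power of `c σ`. -/
def NoFam {N : Type w} [AddCommGroup N] [Module K N] (V : Submodule K N)
    (R : Submodule K N → Submodule K N → Prop) {G : Type x} (U : Set G) (f : G → Module.End K N)
    (c : G → K) : Prop :=
  ∀ (M : Multiset (Submodule K N)) (j : ℤ), (∀ S ∈ M, S ≤ V) → (∀ S ∈ M, ∀ S' ∈ M, R S S') →
    (∀ σ ∈ U, (M.map (detOn (f σ))).prod = c σ ^ j) → ∀ S ∈ M, S = ⊥

/-- There is no nonzero family of subspaces of `V` that are orthogonal to each other and to
themselves for all algebraic bilinear forms, stable under the automorphisms fixing a finite set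
`s`, with the product of the determinants equal to a power of the character `χ`. -/
def Weil.Gal.NoIso {W : Weil.{u, v, w} k K} {G : Type x} [Group G] [MulSemiringAction G k]
    (ρ : W.Gal G) {A : Var k} (V : Submodule K (W.H A)) : Prop :=
  ∀ s : Finset k, NoFam V W.Orth {σ : G | ∀ c ∈ s, σ • c = c}
    (fun σ => (ρ.act A σ).toLinearMap) fun σ => ρ.χ σ

/-- The operator `π` is induced by an algebraic correspondence. -/
def Weil.IsCorr (W : Weil.{u, v, w} k K) {A : Var k} (π : Module.End K (W.H A)) : Prop :=
  ∃ (P : Var k) (p q : Mor P A), ∃ c ∈ Submodule.span K (W.cl P '' {Z | IsSub Z}),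
    ∀ a b, W.tr A (b * π a) = W.tr P (c * (W.pull p b * W.pull q a))

/-- `π` maps into `V`, is the projection to degree `i` on `V`, and kills the orthogonal of `V`. -/
def OrthProj {R : Type w} [Ring R] [Algebra K R] (gr : ℕ → Submodule K R) [GradedAlgebra gr]
    (t : R →ₗ[K] K) (V : Submodule K R) (i : ℕ) (π : Module.End K R) : Prop :=
  (∀ a, π a ∈ V) ∧ (∀ a ∈ V, π a = DirectSum.decompose gr a i) ∧
    ∀ a, (∀ b ∈ V, t (b * a) = 0) → π a = 0

/-- `V` is a graded subspace, nondegenerate for the Poincaré pairing, and the orthogonal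
projections onto its graded pieces are algebraic: `V` is the cohomology of a motive. -/
def Weil.Summand (W : Weil.{u, v, w} k K) {A : Var k} (V : Submodule K (W.H A)) : Prop :=
  ∀ i, ∃ π : Module.End K (W.H A), W.IsCorr π ∧ OrthProj (W.gr A) (W.tr A) V i π

/-- `X` is motivated by `V`: every nonzero class on `X` is detected by an algebraic correspondence
to a tensor power of `V`. -/
def Weil.MotBy (W : Weil.{u, v, w} k K) {A : Var k} (V : Submodule K (W.H A)) (X : Var k) : Prop :=
  ∀ a : W.H X, a ≠ 0 → ∃ (T : Var k) (f : Mor T X) (Z : Set T.pts) (l : List (Mor T A × W.H A)),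
    IsSub Z ∧ (∀ x ∈ l, x.2 ∈ V) ∧
      W.tr T (W.cl T Z * (W.pull f a * (l.map fun x => W.pull x.1 x.2).prod)) ≠ 0

end Pool.Agent.MP_0c8446_ag
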