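import Pool.Agent.MP_0c8446_ag.GI.DetOn

namespace Pool.Agent.MP_0c8446_ag

open MvPolynomial Matrix

universe v

theorem fix_closure {K : Type v} [Field K] [CharZero K] (c : AlgebraicClosure K)
    (h : ∀ γ : AlgebraicClosure K ≃ₐ[K] AlgebraicClosure K, γ c = c) :
    c ∈ Set.range (algebraMap K (AlgebraicClosure K)) :=
  (InfiniteGalois.mem_range_algebraMap_iff_fixed c).2 h

variable {K L : Type v} [Field K] [Field L] [Algebra K L] {D : Type} [Fintype D] [DecidableEq D]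

omit [Fintype D] in
theorem Desc_fixed {S : Submodule L (D → L)}
    (hS : ∀ γ : L ≃ₐ[K] L, ∀ x ∈ S, (fun i => γ (x i)) ∈ S) (s : Finset D) :
    ∀ x ∈ S, x ≠ 0 → (∀ i ∉ s, x i = 0) →
      ∃ y ∈ S, (∃ i ∈ s, y i = 1) ∧ (∀ i ∉ s, y i = 0) ∧ ∀ (γ : L ≃ₐ[K] L) j, γ (y j) = y j := by
  induction s using Finset.strongInduction with
  | H s ih =>
    intro x hx h0 h1
    obtain ⟨i, hi⟩ := Function.ne_iff.1 h0
    have h2 : i ∈ s := by_contra fun h => hi (h1 i h)
    have h3 : ((x i)⁻¹ • x) i = 1 := inv_mul_cancel₀ hi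
    have h4 : ∀ j ∉ s, ((x i)⁻¹ • x) j = 0 := fun j hj => by simp [h1 j hj]
    have h5 := S.smul_mem (x i)⁻¹ hx
    generalize (x i)⁻¹ • x = y at h3 h4 h5
    by_cases h6 : ∀ (γ : L ≃ₐ[K] L) j, γ (y j) = y j
    · exact ⟨y, h5, ⟨i, h2, h3⟩, h4, h6⟩
    · obtain ⟨γ, h6⟩ := not_forall.1 h6
      obtain ⟨z, z1, ⟨k, z2, z3⟩, z4, z5⟩ := ih _ (Finset.erase_ssubset h2) _
        (S.sub_mem (hS γ y h5) h5) (fun e => h6 fun j => sub_eq_zero.1 (congrFun e j)) fun j hj => by
          by_cases h7 : j = i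
          · simp [h7, h3]
          · simp [h4 j fun h => hj (Finset.mem_erase.2 ⟨h7, h⟩)]
      exact ⟨z, z1, ⟨k, Finset.mem_of_mem_erase z2, z3⟩,
        fun j hj => z4 j fun h => hj (Finset.mem_of_mem_erase h), z5⟩

omit [DecidableEq D] in
/-- Galois descent for subspaces. -/
theorem desc_span (hfix : ∀ c : L, (∀ γ : L ≃ₐ[K] L, γ c = c) → c ∈ Set.range (algebraMap K L))
    (S : Submodule L (D → L)) (hS : ∀ γ : L ≃ₐ[K] L, ∀ x ∈ S, (fun i => γ (x i)) ∈ S) :
    S ≤ Submodule.span L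
      {y | ∃ x : D → K, (fun i => algebraMap K L (x i)) ∈ S ∧ y = fun i => algebraMap K L (x i)} := by
  classical
  suffices h : ∀ s : Finset D, ∀ x ∈ S, (∀ i ∉ s, x i = 0) → x ∈ Submodule.span L
      {y | ∃ x : D → K, (fun i => algebraMap K L (x i)) ∈ S ∧ y = fun i => algebraMap K L (x i)} from
    fun x hx => h Finset.univ x hx fun i hi => absurd (Finset.mem_univ i) hi
  intro s
  induction s using Finset.strongInduction with
  | H s ih =>
    intro x hx h1
    by_cases h0 : x = 0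
    · rw [h0]; exact zero_mem _
    obtain ⟨y, y1, ⟨i, y2, y3⟩, y4, y5⟩ := Desc_fixed hS s x hx h0 h1
    choose z hz using fun j => hfix (y j) fun γ => y5 γ j
    have h2 : y = fun j => algebraMap K L (z j) := funext fun j => (hz j).symm
    rw [← sub_add_cancel x (x i • y)]
    refine add_mem (ih _ (Finset.erase_ssubset y2) _ (S.sub_mem hx (S.smul_mem _ y1)) fun j hj => ?_)
      (Submodule.smul_mem _ _ (Submodule.subset_span ⟨z, h2 ▸ y1, h2⟩))
    by_cases h7 : j = i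
    · simp [h7, y3]
    · have h8 : j ∉ s := fun h => hj (Finset.mem_erase.2 ⟨h7, h⟩)
      simp [h1 j h8, y4 j h8]

theorem desc_det (hfix : ∀ c : L, (∀ γ : L ≃ₐ[K] L, γ c = c) → c ∈ Set.range (algebraMap K L))
    (S : Submodule L (D → L)) (hS : ∀ γ : L ≃ₐ[K] L, ∀ x ∈ S, (fun i => γ (x i)) ∈ S) :
    ∃ S₀ : Submodule K (D → K), (∀ x, x ∈ S₀ ↔ (fun i => algebraMap K L (x i)) ∈ S) ∧
      (S₀ = ⊥ → S = ⊥) ∧ ∀ N : Matrix D D K, (∀ x ∈ S, N.map (algebraMap K L) *ᵥ x ∈ S) →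
        algebraMap K L (detOn (toLin' N) S₀) = detOn (toLin' (N.map (algebraMap K L))) S := by
  let φ : (D → K) →ₗ[K] D → L := (Algebra.linearMap K L).compLeft D
  let S₀ := (S.restrictScalars K).comap φ
  have h1 : ∀ x, x ∈ S₀ ↔ φ x ∈ S := fun _ => Iff.rfl
  have h2 : S ≤ Submodule.span L {y | ∃ x ∈ S₀, y = φ x} := desc_span hfix S hS
  refine ⟨S₀, h1, fun h => eq_bot_iff.2 (h2.trans (Submodule.span_le.2 ?_)), fun N hN => ?_⟩
  · rintro _ ⟨x, hx, rfl⟩
    rw [h, Submodule.mem_bot] at hx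
    rw [hx, map_zero]
    exact zero_mem _
  · let b := Module.finBasis K S₀
    have h3 : ∀ x, N.map (algebraMap K L) *ᵥ φ x = φ (N *ᵥ x) := fun x => funext fun i =>
      (RingHom.map_mulVec (algebraMap K L) N x i).symm
    have h4 : ∀ j, N *ᵥ (b j).1 ∈ S₀ := fun j => (h1 _).2 (h3 _ ▸ hN _ (b j).2)
    have h5 : ∀ x : S₀, x.1 = ∑ i, b.repr x i • (b i).1 := fun x => by
      simpa only [Submodule.coe_sum, Submodule.coe_smul] using
        congrArg Subtype.val (b.sum_repr x).symm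
    have h6 : ∀ x : S₀, φ x = ∑ i, algebraMap K L (b.repr x i) • φ (b i) := fun x => by
      rw [h5 x, map_sum]
      exact Finset.sum_congr rfl fun i _ => by rw [map_smul, algebraMap_smul]
    have i1 : LinearIndependent K fun i => (b i).1 := b.linearIndependent.map' S₀.subtype (by simp)
    have i2 : LinearIndependent L fun i => φ (b i) := linearIndependent_algebraMap_comp_iff.2 i1
    have s1 : Submodule.span K (Set.range fun i => (b i).1) = S₀ := by
      refine le_antisymm (Submodule.span_le.2 (Set.range_subset_iff.2 fun i => (b i).2))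
        fun x hx => ?_
      rw [show x = _ from h5 ⟨x, hx⟩]
      exact sum_mem fun i _ => Submodule.smul_mem _ _ (Submodule.subset_span ⟨i, rfl⟩)
    have s2 : Submodule.span L (Set.range fun i => φ (b i)) = S := by
      refine le_antisymm (Submodule.span_le.2 (Set.range_subset_iff.2 fun i => (b i).2))
        (h2.trans (Submodule.span_le.2 ?_))
      rintro _ ⟨x, hx, rfl⟩
      rw [show φ x = _ from h6 ⟨x, hx⟩]
      exact sum_mem fun i _ => Submodule.smul_mem _ _ (Submodule.subset_span ⟨i, rfl⟩)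
    have e1 := detOn_eq (toLin' N) i1 (Matrix.of fun i j => b.repr ⟨_, h4 j⟩ i)
      fun j => h5 ⟨_, h4 j⟩
    have e2 := detOn_eq (toLin' (N.map (algebraMap K L))) i2
      ((Matrix.of fun i j => b.repr ⟨_, h4 j⟩ i).map (algebraMap K L))
      fun j => (h3 _).trans (h6 ⟨_, h4 j⟩)
    rw [s1] at e1
    rw [s2] at e2
    rw [e1, e2, RingHom.map_det]
    rfl

end Pool.Agent.MP_0c8446_ag
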