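import Pool.Agent.MP_0c8446_ag.GI.TBasic

namespace Pool.Agent.MP_0c8446_ag

open MvPolynomial Matrix

universe v

variable {L : Type v} [Field L] {D ι : Type} [Fintype D] [DecidableEq D] [Fintype ι]
  [DecidableEq ι]

/-- The frame `g` with the weights `w` destabilises `a`, and the forms in `𝓔` have a limit. -/
structure Dst (a : (ι → D) → L) (𝓔 : Set (Matrix D D L)) (g : Matrix D D L) (w : D → ℝ) :
    Prop where
  unit : IsUnit g
  sum : ∑ i, w i = 0
  pos : ∀ I, tact g a I ≠ 0 → 1 ≤ ∑ j, w (I j)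
  iso : ∀ E ∈ 𝓔, ∀ i j, (gᵀ * E * g) i j ≠ 0 → 0 ≤ w i + w j

/-- The weights `w` are as short as possible. -/
def Opt (a : (ι → D) → L) (𝓔 : Set (Matrix D D L)) (w : D → ℝ) : Prop :=
  ∀ g' w', Dst a 𝓔 g' w' → ∑ i, w i ^ 2 ≤ ∑ i, w' i ^ 2

open Classical in
/-- The part of weight `c` of a tensor. -/
noncomputable def lead (w : D → ℝ) (c : ℝ) (a : (ι → D) → L) : (ι → D) → L :=
  fun I => if ∑ j, w (I j) = c then a I else 0

/-- The span of the columns of weight at most `r`. -/
def lowS (g : Matrix D D L) (w : D → ℝ) (r : ℝ) : Submodule L (D → L) :=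
  Submodule.span L (Set.range fun j : {j // w j ≤ r} => fun i => g i j)

open Classical in
/-- The determinant of the part of weight at most `r`. -/
noncomputable def lowD (g : Matrix D D L) (w : D → ℝ) (r : ℝ) : L :=
  (g.toSquareBlockProp fun j => w j ≤ r).det

omit [DecidableEq D] in
theorem tact_tmat {R : Type*} [CommRing R] (g E : Matrix D D R) :
    tact g (tmat E) = tmat (gᵀ * E * g) := by
  funext I
  simp only [tact, tmat, Matrix.mul_apply, transpose_apply, Finset.sum_mul, Fintype.prod_bool]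
  rw [Finset.sum_comm, ← Fintype.sum_prod_type']
  refine Fintype.sum_equiv (Equiv.boolArrowEquivProd D) _ _ fun J => ?_
  simp only [Equiv.boolArrowEquivProd, Equiv.coe_fn_mk]
  ring

theorem Dst.conj {a : (ι → D) → L} {𝓔 : Set (Matrix D D L)} {g g' : Matrix D D L} {w : D → ℝ}
    (hg : IsUnit g) :
    Dst (tact g a) ((fun E => gᵀ * E * g) '' 𝓔) g' w ↔ Dst a 𝓔 (g * g') w := by
  have e : ∀ E : Matrix D D L, g'ᵀ * (gᵀ * E * g) * g' = (g * g')ᵀ * E * (g * g') := fun E => by
    simp only [transpose_mul, Matrix.mul_assoc]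
  constructor
  · exact fun h => ⟨hg.mul h.unit, h.sum, fun I => by rw [tact_mul]; exact h.pos I,
      fun E hE i j => by rw [← e]; exact h.iso _ ⟨E, hE, rfl⟩ i j⟩
  · refine fun h => ⟨?_, h.sum, fun I => by rw [← tact_mul]; exact h.pos I, ?_⟩
    · have := h.unit
      rw [isUnit_iff_isUnit_det, det_mul] at this
      exact (isUnit_iff_isUnit_det _).2 (isUnit_of_mul_isUnit_right this)
    · rintro _ ⟨E, hE, rfl⟩ i j
      rw [e]
      exact h.iso E hE i j

theorem Opt.conj {a : (ι → D) → L} {𝓔 : Set (Matrix D D L)} {g : Matrix D D L} {w : D → ℝ}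
    (hg : IsUnit g) (h : Opt a 𝓔 w) : Opt (tact g a) ((fun E => gᵀ * E * g) '' 𝓔) w :=
  fun _ _ h' => h _ _ ((Dst.conj hg).1 h')

end Pool.Agent.MP_0c8446_ag
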