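import Pool.Agent.MP_0c8446_ag.GI.Defs
import Pool.Agent.MP_0c8446_ag.GI.KDefs

namespace Pool.Agent.MP_0c8446_ag

open MvPolynomial Matrix

universe v

section

variable {K : Type v} [Field K] {M M' : Type*} [AddCommGroup M] [Module K M] [AddCommGroup M']
  [Module K M']

theorem detOn_eq {κ : Type} [Fintype κ] [DecidableEq κ] (f : Module.End K M) {b : κ → M}
    (hb : LinearIndependent K b) (N : Matrix κ κ K) (h : ∀ j, f (b j) = ∑ i, N i j • b i) :
    detOn f (Submodule.span K (Set.range b)) = N.det := by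
  have hs : ∀ a ∈ Submodule.span K (Set.range b), f a ∈ Submodule.span K (Set.range b) := by
    intro a ha
    refine Submodule.span_induction (p := fun a _ => f a ∈ Submodule.span K (Set.range b))
      ?_ (by simp) (fun x y _ _ hx hy => by rw [map_add]; exact add_mem hx hy)
      (fun c x _ hx => by rw [map_smul]; exact Submodule.smul_mem _ c hx) ha
    rintro _ ⟨j, rfl⟩
    rw [h j]
    exact Submodule.sum_mem _ fun i _ =>
      Submodule.smul_mem _ _ (Submodule.subset_span ⟨i, rfl⟩)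
  unfold detOn
  rw [dif_pos hs, ← LinearMap.det_toMatrix (Module.Basis.span hb)]
  congr 1
  ext i j
  have h1 : f.restrict hs (Module.Basis.span hb j) = ∑ i, N i j • Module.Basis.span hb i := by
    apply Subtype.ext
    simp [h j]
  rw [LinearMap.toMatrix_apply, h1, Module.Basis.repr_sum_self]

theorem detOn_map {φ : M →ₗ[K] M'} (hφ : Function.Injective φ) {f : Module.End K M}
    {f' : Module.End K M'} (h : ∀ x, f' (φ x) = φ (f x)) (S : Submodule K M) :
    detOn f' (S.map φ) = detOn f S := by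
  unfold detOn
  by_cases hs : ∀ a ∈ S, f a ∈ S
  · have hs' : ∀ a ∈ S.map φ, f' a ∈ S.map φ := by
      rintro _ ⟨a, ha, rfl⟩
      exact ⟨f a, hs a ha, (h a).symm⟩
    rw [dif_pos hs, dif_pos hs', ← LinearMap.det_conj (f.restrict hs)
      (Submodule.equivMapOfInjective φ hφ S)]
    congr 1
    refine LinearMap.ext fun x => ?_
    obtain ⟨y, rfl⟩ := (Submodule.equivMapOfInjective φ hφ S).surjective x
    apply Subtype.ext
    simp [h]
  · have hs' : ¬ ∀ a ∈ S.map φ, f' a ∈ S.map φ := by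
      intro h'
      refine hs fun a ha => ?_
      obtain ⟨c, hc, e⟩ := h' _ ⟨a, ha, rfl⟩
      rw [h a] at e
      exact hφ e ▸ hc
    rw [dif_neg hs, dif_neg hs']

end

variable {L : Type v} [Field L] {D : Type} [Fintype D] [DecidableEq D] {g g' : Matrix D D L}
  {w : D → ℝ}

theorem mem_lowS (hg : IsUnit g) {r : ℝ} {x : D → L} :
    x ∈ lowS g w r ↔ ∀ j, r < w j → (g⁻¹ *ᵥ x) j = 0 := by
  have hd := (isUnit_iff_isUnit_det g).1 hg
  constructor
  · intro hx
    refine Submodule.span_induction (p := fun x _ => ∀ j, r < w j → (g⁻¹ *ᵥ x) j = 0)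
      ?_ (by simp) (fun x y _ _ hx hy j hj => by simp [mulVec_add, hx j hj, hy j hj])
      (fun c x _ hx j hj => by simp [mulVec_smul, hx j hj]) hx
    rintro _ ⟨i, rfl⟩ j hj
    have h1 : (g⁻¹ *ᵥ fun k => g k i) j = (g⁻¹ * g) j i := rfl
    rw [h1, nonsing_inv_mul g hd, one_apply_ne]
    rintro rfl
    exact absurd i.2 (not_le.2 hj)
  · intro hx
    have h1 : x = ∑ j, (g⁻¹ *ᵥ x) j • fun i => g i j := by
      conv_lhs => rw [← one_mulVec x, ← mul_nonsing_inv g hd, ← mulVec_mulVec]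
      funext i
      simp only [Finset.sum_apply, Pi.smul_apply, smul_eq_mul]
      exact Finset.sum_congr rfl fun j _ => mul_comm _ _
    rw [h1]
    refine Submodule.sum_mem _ fun j _ => ?_
    by_cases hj : w j ≤ r
    · exact Submodule.smul_mem _ _ (Submodule.subset_span ⟨⟨j, hj⟩, rfl⟩)
    · rw [hx j (not_le.1 hj), zero_smul]
      exact zero_mem _

theorem lowS_le (hg : IsUnit g) (h : (g⁻¹ * g').BlockTriangular w) (r : ℝ) :
    lowS g' w r ≤ lowS g w r := by
  refine Submodule.span_le.2 ?_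
  rintro _ ⟨i, rfl⟩
  exact (mem_lowS hg).2 fun j hj => h (lt_of_le_of_lt i.2 hj)

theorem lowS_ne_bot (hg : IsUnit g) (i : D) : lowS g w (w i) ≠ ⊥ := by
  intro h
  have h1 : (fun k => g k i) ∈ lowS g w (w i) := Submodule.subset_span ⟨⟨i, le_rfl⟩, rfl⟩
  rw [h, Submodule.mem_bot] at h1
  have h2 : (g⁻¹ *ᵥ fun k => g k i) i = (g⁻¹ * g) i i := rfl
  rw [h1, nonsing_inv_mul g ((isUnit_iff_isUnit_det g).1 hg)] at h2
  simp at h2

theorem lowS_stab (hg : IsUnit g) {N : Matrix D D L} (h : (g⁻¹ * N * g).BlockTriangular w)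
    (r : ℝ) : ∀ x ∈ lowS g w r, N *ᵥ x ∈ lowS g w r := by
  intro x hx
  have hd := (isUnit_iff_isUnit_det g).1 hg
  refine (mem_lowS hg).2 fun j hj => ?_
  have h1 : g⁻¹ *ᵥ N *ᵥ x = (g⁻¹ * N * g) *ᵥ g⁻¹ *ᵥ x := by
    rw [mulVec_mulVec, mulVec_mulVec, Matrix.mul_assoc _ g, mul_nonsing_inv g hd, Matrix.mul_one]
  rw [h1]
  refine Finset.sum_eq_zero fun i _ => ?_
  by_cases hi : w i ≤ r
  · have h2 : (g⁻¹ * N * g) j i = 0 := h (lt_of_le_of_lt hi hj)
    simp [h2]
  · simp [(mem_lowS hg).1 hx i (not_le.1 hi)]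

omit [DecidableEq D] in
theorem lowS_orth {E : Matrix D D L} (h : ∀ i j, (gᵀ * E * g) i j ≠ 0 → 0 ≤ w i + w j)
    {r r' : ℝ} (hr : r + r' < 0) : ∀ x ∈ lowS g w r, ∀ y ∈ lowS g w r', x ⬝ᵥ E *ᵥ y = 0 := by
  intro x hx y hy
  refine Submodule.span_induction (p := fun x _ => x ⬝ᵥ E *ᵥ y = 0) ?_ (by simp)
    (fun x y _ _ hx hy => by simp [hx, hy]) (fun c x _ hx => by simp [hx]) hx
  rintro _ ⟨i, rfl⟩
  refine Submodule.span_induction (p := fun y _ => (fun k => g k i) ⬝ᵥ E *ᵥ y = 0) ?_ (by simp)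
    (fun x y _ _ hx hy => by simp [mulVec_add, hx, hy])
    (fun c x _ hx => by simp [mulVec_smul, hx]) hy
  rintro _ ⟨j, rfl⟩
  have h1 : ((fun k => g k i) ⬝ᵥ E *ᵥ fun k => g k j) = (gᵀ * E * g) i j := by
    rw [Matrix.mul_assoc]
    rfl
  rw [h1]
  by_contra h2
  have h3 := h _ _ h2
  have h4 := i.2
  have h5 := j.2
  linarith

theorem detOn_lowS (hg : IsUnit g) {N : Matrix D D L} (h : (g⁻¹ * N * g).BlockTriangular w)
    (r : ℝ) : detOn (toLin' N) (lowS g w r) = lowD (g⁻¹ * N * g) w r := by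
  have hd := (isUnit_iff_isUnit_det g).1 hg
  unfold lowS lowD
  refine detOn_eq _ ((linearIndependent_cols_iff_isUnit.2 hg).comp Subtype.val
    Subtype.val_injective) _ fun j => ?_
  funext k
  have h1 : toLin' N (fun i => g i j) k = (g * (g⁻¹ * N * g)) k j := by
    rw [← Matrix.mul_assoc, ← Matrix.mul_assoc, mul_nonsing_inv g hd, Matrix.one_mul]
    rfl
  refine h1.trans ?_
  rw [Matrix.mul_apply, Finset.sum_apply,
    ← Fintype.sum_subtype_add_sum_subtype (fun i => w i ≤ r)]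
  have h2 : ∑ i : {i // ¬ w i ≤ r}, g k i * (g⁻¹ * N * g) i j = 0 :=
    Finset.sum_eq_zero fun i _ => by rw [h (lt_of_le_of_lt j.2 (not_le.1 i.2)), mul_zero]
  rw [h2, add_zero]
  exact Finset.sum_congr rfl fun i _ => mul_comm _ _

end Pool.Agent.MP_0c8446_ag
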