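import Pool.Agent.MP_0c8446_ag.GI.TFam

namespace Pool.Agent.MP_0c8446_ag

open MvPolynomial Matrix

universe v

section

variable {R : Type*} [CommRing R] {D Z : Type} [Fintype D] [DecidableEq D] [Fintype Z]
  [DecidableEq Z]

/-- The determinant form of the coordinate subspace given by `v`. -/
def Eps_e (R : Type*) [CommRing R] (v : Z → D) (I : Z → D) : R :=
  ((1 : Matrix D D R).submatrix v I).det

omit [Fintype D] in
theorem Eps_map {R' : Type*} [CommRing R'] (φ : R →+* R') (v I : Z → D) :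
    φ (Eps_e R v I) = Eps_e R' v I := by
  rw [Eps_e, RingHom.map_det, Eps_e]
  congr 1
  ext a b
  simp [one_apply, apply_ite φ]

omit [DecidableEq D] [DecidableEq Z] in
theorem Eps_sub {κ : Type} {v : Z → D} (hv : Function.Injective v) (g : Matrix κ D R)
    (h : ∀ x, ∀ i ∉ Set.range v, g x i = 0) {κ' : Type} (A : Matrix D κ' R) :
    g.submatrix id v * A.submatrix v id = g * A := by
  ext x k
  exact Fintype.sum_of_injective v hv _ _ (fun i hi => mul_eq_zero_of_left (h x i hi) _)
    fun _ => rfl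

theorem Eps_row {v : Z → D} (hv : Function.Injective v) (g : Matrix Z D R)
    (h : ∀ x, ∀ i ∉ Set.range v, g x i = 0) (I : Z → D) :
    (g.submatrix id I).det = (g.submatrix id v).det * Eps_e R v I := by
  have h1 := Eps_sub hv g h ((1 : Matrix D D R).submatrix id I)
  rw [Eps_e, ← det_mul]
  congr 1
  refine Eq.trans ?_ h1.symm
  ext a b
  simp [mul_apply, one_apply]

theorem Eps_tact {v : Z → D} (hv : Function.Injective v) (g : Matrix D D R)
    (h : ∀ x, ∀ i ∉ Set.range v, g (v x) i = 0) (I : Z → D) :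
    tact g (Eps_e R v) I = (g.submatrix v v).det * Eps_e R v I := by
  refine Eq.trans ?_ (Eps_row hv (g.submatrix v id) h I)
  simp only [tact, Eps_e, det_apply', Finset.sum_mul, mul_assoc, ← Finset.prod_mul_distrib]
  rw [Finset.sum_comm]
  refine Finset.sum_congr rfl fun σ _ => ?_
  rw [← Finset.mul_sum]
  congr 1
  have := Finset.prod_univ_sum (fun _ : Z => (Finset.univ : Finset D))
    fun a j => (1 : Matrix D D R) (v (σ a)) j * g j (I a)
  rw [Fintype.piFinset_univ] at this
  refine this.symm.trans (Finset.prod_congr rfl fun a _ => ?_)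
  simp [one_apply]

theorem Eps_two {v : Z → D} (hv : Function.Injective v) (M : Matrix D D R)
    (h : ∀ x, ∀ i ∉ Set.range v, M x i = 0) (h' : ∀ x, ∀ i ∉ Set.range v, M i x = 0)
    (I J : Z → D) :
    (M.submatrix I J).det = (M.submatrix v v).det * (Eps_e R v I * Eps_e R v J) := by
  have h1 := Eps_row hv (M.submatrix I id) (fun x => h _) J
  have h2 := Eps_row hv (Mᵀ.submatrix v id) (fun x => h' _) I
  have h3 : ((M.submatrix I id).submatrix id v).det = ((Mᵀ.submatrix v id).submatrix id I).det :=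
    (det_transpose _).symm
  have h4 : ((Mᵀ.submatrix v id).submatrix id v).det = (M.submatrix v v).det :=
    det_transpose (M.submatrix v v)
  rw [h3, h2, h4, mul_assoc] at h1
  exact h1

theorem Eps_pair [CharZero R] {v : Z → D} (hv : Function.Injective v) :
    tpair (Eps_e R v) (Eps_e R v) ≠ 0 := by
  have h1 : tpair (Eps_e R v) (Eps_e R v) = ((∑ I, Eps_e ℤ v I * Eps_e ℤ v I : ℤ) : R) := by
    simp only [tpair, ← Eps_map (Int.castRingHom R), Int.cast_sum, Int.cast_mul, eq_intCast]
  rw [h1, Int.cast_ne_zero]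
  refine (Finset.sum_pos' (fun I _ => mul_self_nonneg _) ⟨v, Finset.mem_univ _, ?_⟩).ne'
  rw [Eps_e, submatrix_one _ hv, det_one]
  norm_num

omit [Fintype D] [DecidableEq D] in
theorem Eps_anti {L : Type v} [Field L] {β : D → L} {F : ∀ ι : Type, Submodule L ((ι → D) → L)}
    (hF : TFam β F) (Z : Type) [Fintype Z] [DecidableEq Z] {M : Matrix D D L}
    (hM : tmat M ∈ F Bool) :
    (fun I : Z ⊕ Z → D => (M.submatrix (I ∘ Sum.inl) (I ∘ Sum.inr)).det) ∈ F (Z ⊕ Z) := by
  have h1 := hF.prod Z (u := fun _ => tmat M) fun _ => hM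
  have h2 := (F (Z ⊕ Z)).sum_mem (t := Finset.univ) fun (σ : Equiv.Perm Z) _ =>
    (F (Z ⊕ Z)).smul_mem ((Equiv.Perm.sign σ : ℤ) : L) (hF.re (((Equiv.prodComm Z Bool).trans
      (Equiv.boolProdEquivSum Z)).trans (Equiv.sumCongr σ (Equiv.refl Z))) _ h1)
  convert h2 using 1
  ext I
  rw [det_apply', Finset.sum_apply]
  rfl

end

variable {L : Type v} [Field L] [CharZero L] {T : Type} [Fintype T] [DecidableEq T] {n : T → Type}
  [∀ t, Fintype (n t)] [∀ t, DecidableEq (n t)] {α : T → L}
  {F B : ∀ ι : Type, Submodule L ((ι → Σ t, n t) → L)} {E E' : Matrix (Σ t, n t) (Σ t, n t) L}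
  {c : L}

/-- The inclusion of the blocks in `S`. -/
def Eps_v (n : T → Type) (S : Finset T) (i : Σ t : S, n t) : Σ t, n t := ⟨i.1, i.2⟩

omit [Fintype T] [DecidableEq T] [∀ t, Fintype (n t)] [∀ t, DecidableEq (n t)] in
theorem Eps_inj (S : Finset T) : Function.Injective (Eps_v n S) :=
  Function.Injective.sigma_map (β₁ := fun t : S => n t) (β₂ := n) (f₂ := fun _ x => x)
    Subtype.val_injective fun _ => Function.injective_id

omit [Fintype T] [DecidableEq T] [∀ t, Fintype (n t)] [∀ t, DecidableEq (n t)] in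
theorem Eps_range (S : Finset T) (i : Σ t, n t) : i ∈ Set.range (Eps_v n S) ↔ i.1 ∈ S :=
  ⟨by rintro ⟨j, rfl⟩; exact j.1.2, fun h => ⟨⟨⟨i.1, h⟩, i.2⟩, rfl⟩⟩

omit [CharZero L] in
theorem Eps_mem (hα : Function.Injective α) (hF : TFam (fun i : Σ t, n t => α i.1) F)
    (hE : tmat E ∈ F Bool) (S : Finset T) (hd : (E.submatrix (Eps_v n S) (Eps_v n S)).det ≠ 0) :
    tmul (Eps_e L (Eps_v n S)) (Eps_e L (Eps_v n S)) ∈ F ((Σ t : S, n t) ⊕ Σ t : S, n t) := by
  have h1 : tmat (of fun i j => if i.1 ∈ S ∧ j.1 ∈ S then E i j else 0) ∈ F Bool :=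
    hF.cut hα (fun τ => τ false ∈ S ∧ τ true ∈ S) hE
  have h2 := Eps_anti hF (Σ t : S, n t) h1
  rw [← (F _).smul_mem_iff hd]
  convert h2 using 1
  ext I
  rw [Eps_two (Eps_inj S) (of fun i j => if i.1 ∈ S ∧ j.1 ∈ S then E i j else 0) (fun x i hi => if_neg fun h => hi ((Eps_range S i).2 h.2))
    fun x i hi => if_neg fun h => hi ((Eps_range S i).2 h.1)]
  refine congrArg (fun A : Matrix _ _ L => A.det * _) ?_
  ext a b
  exact (if_pos ⟨a.1.2, b.1.2⟩).symm

omit [CharZero L] in
theorem Eps_gen (S : Finset T) (I : (Σ t : S, n t) → Σ t, n t) :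
    gen (Eps_e L (Eps_v n S)) I = (∏ t ∈ S, (gm L n t).det) * C (Eps_e L (Eps_v n S) I) := by
  simp only [gen, Eps_map]
  rw [Eps_tact (Eps_inj S), ← Finset.prod_coe_sort, ← det_blockDiagonal']
  · congr 2
    refine Matrix.ext ?_
    rintro ⟨⟨s, hs⟩, a⟩ ⟨⟨t, ht⟩, b⟩
    by_cases h : s = t
    · subst h
      exact (blockDiagonal'_apply_eq _ _ _ _).trans
        (blockDiagonal'_apply_eq (fun t : S => gm L n t) ⟨s, hs⟩ a b).symm
    · exact (blockDiagonal'_apply_ne _ _ _ h).trans
        (blockDiagonal'_apply_ne (fun t : S => gm L n t) a b fun h' => h (congrArg Subtype.val h')).symm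
  · rintro x ⟨t, b⟩ hi
    refine blockDiagonal'_apply_ne _ _ _ fun h => hi ((Eps_range S _).2 ?_)
    exact h ▸ x.1.2

/-- The square of the determinant of a union of blocks that is orthogonal to the other blocks. -/
theorem sem_comp (hα : Function.Injective α) (hF : TFam (fun i : Σ t, n t => α i.1) F)
    (hB : TFam (fun i : Σ t, n t => α i.1) B) (hE : tmat E ∈ F Bool) (hE' : tmat E' ∈ B Bool)
    (hc : c ≠ 0) (hEE : E * E' = c • (1 : Matrix _ _ L)) (S : Finset T)
    (hS : ∀ i i', E i i' ≠ 0 → (i.1 ∈ S ↔ i'.1 ∈ S)) :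
    Sem F B (∏ t ∈ S, (gm L n t).det ^ 2) (∑ t ∈ S, 2 * Fintype.card (n t)) := by
  have h1 := Eps_sub (Eps_inj S) (E.submatrix (Eps_v n S) id)
    (fun x i hi => by_contra fun h => hi ((Eps_range S i).2 ((hS _ _ h).1 x.1.2)))
    (E'.submatrix id (Eps_v n S))
  have h2 : E.submatrix (Eps_v n S) (Eps_v n S) * E'.submatrix (Eps_v n S) (Eps_v n S) =
      c • (1 : Matrix _ _ L) := by
    refine h1.trans ?_
    rw [← submatrix_mul _ _ _ _ _ Function.bijective_id, hEE, ← submatrix_one _ (Eps_inj S)]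
    rfl
  have h3 := congrArg det h2
  rw [det_mul, det_smul, det_one, mul_one] at h3
  obtain ⟨h4, h5⟩ := mul_ne_zero_iff.1 (h3 ▸ pow_ne_zero _ hc)
  refine ⟨_, inferInstance, inferInstance, ?_, _, Eps_mem hα hF hE S h4, _, Eps_mem hα hB hE' S h5,
    ?_, fun I => ?_⟩
  · rw [Fintype.card_sum, Fintype.card_sigma, ← Finset.mul_sum, two_mul,
      Finset.sum_coe_sort S fun t => Fintype.card (n t)]
  · rw [tpair_tmul]
    exact mul_ne_zero (Eps_pair (Eps_inj S)) (Eps_pair (Eps_inj S))
  · rw [gen_tmul, tmul, tmul, Eps_gen, Eps_gen, Finset.prod_pow, map_mul]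
    ring

/-- The squares of symmetric products of determinants. -/
theorem sem_Dl (hα : Function.Injective α) (hF : TFam (fun i : Σ t, n t => α i.1) F)
    (hB : TFam (fun i : Σ t, n t => α i.1) B) (hE : tmat E ∈ F Bool) (hE' : tmat E' ∈ B Bool)
    (hc : c ≠ 0) (hEE : E * E' = c • (1 : Matrix _ _ L)) (s : T → ℕ)
    (hs : ∀ i i', E i i' ≠ 0 → s i.1 = s i'.1) :
    Sem F B (Dl L n fun t => 2 * s t) (∑ t, 2 * s t * Fintype.card (n t)) := by
  have key : ∀ r : ℕ, Sem F B (Dl L n fun t => 2 * min (s t) r)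
      (∑ t, 2 * min (s t) r * Fintype.card (n t)) := by
    intro r
    induction r with
    | zero => simpa [Dl] using Sem.one hF hB
    | succ r ih =>
      have h := Sem.mul hF hB ih (sem_comp hα hF hB hE hE' hc hEE (Finset.univ.filter fun t => r < s t)
        fun i i' h => by simp [hs i i' h])
      convert h using 1
      · rw [Dl, Dl, Finset.prod_filter, ← Finset.prod_mul_distrib]
        refine Finset.prod_congr rfl fun t _ => ?_
        split_ifs with ht
        · rw [← pow_add]
          congr 1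
          omega
        · rw [mul_one]
          congr 1
          omega
      · rw [Finset.sum_filter, ← Finset.sum_add_distrib]
        refine Finset.sum_congr rfl fun t _ => ?_
        split_ifs with ht
        · rw [← add_mul]
          congr 1
          omega
        · rw [add_zero]
          congr 1
          omega
  have h := key (∑ t, s t)
  have h2 : ∀ t, min (s t) (∑ t, s t) = s t := fun t =>
    min_eq_left (Finset.single_le_sum (fun _ _ => Nat.zero_le _) (Finset.mem_univ t))
  simpa only [h2] using h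

end Pool.Agent.MP_0c8446_ag
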