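import Pool.Agent.MP_0c8446_ag.GI.WD

namespace Pool.Agent.MP_0c8446_ag

open Set Polynomial
open scoped TensorProduct

universe u v w x

variable {k : Type u} [Field k] [IsAlgClosed k] {K : Type v} [Field K] [CharZero K]
  (W : Weil.{u, v, w} k K)

/-- The variety consisting of one point. -/
noncomputable def Fib_pt (k : Type u) [Field k] : Var k where
  ι := Empty
  n := fun e => e.elim
  pts := univ
  sub := by
    have x : MP k (fun e : Empty => (e.elim : ℕ)) := fun e => e.elim
    have : (univ : Set (MP k (fun e : Empty => (e.elim : ℕ)))) = {x} :=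
      eq_singleton_iff_unique_mem.2 ⟨mem_univ _, fun y _ => funext fun e => e.elim⟩
    exact ⟨this ▸ isIrreducible_singleton, isClosed_univ⟩
  smooth := fun x _ v _ => by
    have : IsEmpty (Vars (fun e : Empty => (e.elim : ℕ))) := ⟨fun s => s.1.elim⟩
    rw [Module.finrank_zero_of_subsingleton]
    exact Nat.zero_le _

omit [IsAlgClosed k] in
theorem Fib_pt_d : (Fib_pt k).d = 0 := by
  obtain ⟨x⟩ : Nonempty (Fib_pt k).pts := inferInstance
  have : (univ : Set (Fib_pt k).pts) = {x} :=
    eq_singleton_iff_unique_mem.2 ⟨mem_univ _, fun y _ => Subtype.ext (funext fun e => e.elim)⟩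
  rw [Var.d, this, dim_singleton]

namespace Weil

omit [IsAlgClosed k] [CharZero K] in
theorem Fib_dual {X : Var k} (φ : W.H X →ₗ[K] K) : ∃ c, ∀ a, W.tr X (c * a) = φ a := by
  let B : W.H X →ₗ[K] Module.Dual K (W.H X) := (LinearMap.mul K (W.H X)).compr₂ (W.tr X)
  have hi : Function.Injective B :=
    (injective_iff_map_eq_zero _).2 fun a ha => W.poincare X a fun b => LinearMap.congr_fun ha b
  have hs : Function.Surjective B :=
    (LinearMap.injective_iff_surjective_of_finrank_eq_finrank
      (Subspace.dual_finrank_eq (K := K) (V := W.H X)).symm).1 hi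
  obtain ⟨c, hc⟩ := hs φ
  exact ⟨c, fun a => LinearMap.congr_fun hc a⟩

omit [IsAlgClosed k] [CharZero K] in
theorem Fib_ind {P X Y : Var k} {p : Mor P X} {q : Mor P Y} (h : IsProd p q)
    {C : W.H P → Prop} (h0 : C 0) (ht : ∀ a b, C (W.pull p a * W.pull q b))
    (ha : ∀ x y, C x → C y → C (x + y)) (c : W.H P) : C c := by
  obtain ⟨t, rfl⟩ := (W.kunneth p q h).2 c
  induction t using TensorProduct.induction_on with
  | zero => rw [map_zero]; exact h0
  | tmul a b => exact ht a b
  | add s t hs ht => rw [map_add]; exact ha _ _ hs ht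

theorem pull_const {X Y : Var k} (y : Y.pts) {a : W.H Y} {i : ℕ} (hi : i ≠ 0)
    (ha : a ∈ W.gr Y i) : W.pull (Mor.const X y) a = 0 := by
  obtain ⟨o⟩ : Nonempty (Fib_pt k).pts := inferInstance
  have h1 : W.pull (Mor.const (Fib_pt k) y) a = 0 :=
    W.gr_eq_zero (W.pull_gr _ _ _ ha) (by rw [Fib_pt_d]; omega)
  rw [W.pull_congr (f := Mor.const X y) (g := (Mor.const _ y).comp (Mor.const X o))
    (fun _ => rfl), ← W.pull_pull, h1, map_zero]

theorem eq_zero_of_left {X : Var k} {a : W.H X} (h : ∀ b, W.tr X (b * a) = 0) : a = 0 := by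
  refine (Module.forall_dual_apply_eq_zero_iff K a).1 fun φ => ?_
  obtain ⟨c, hc⟩ := W.Fib_dual φ
  rw [← hc, h]

theorem exists_dual {X : Var k} (φ : W.H X →ₗ[K] K) : ∃ c, ∀ a, W.tr X (c * a) = φ a :=
  W.Fib_dual φ

/-- A class of degree `i` is detected by a class of complementary degree. -/
theorem exists_gr_ne {X : Var k} {a : W.H X} {i : ℕ} (ha : a ∈ W.gr X i) (h : a ≠ 0) :
    ∃ j, j + i = 2 * X.d ∧ ∃ c ∈ W.gr X j, W.tr X (c * a) ≠ 0 := by
  by_contra hne
  push Not at hne
  refine h (W.eq_zero_of_left fun b => ?_)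
  induction b using DirectSum.Decomposition.inductionOn (W.gr X) with
  | zero => simp
  | add b c hb hc => rw [add_mul, map_add, hb, hc, add_zero]
  | @homogeneous j b =>
    by_cases hj : j + i = 2 * X.d
    · exact hne j hj b b.2
    · exact W.tr_mul_gr b.2 ha hj

variable {P X Y : Var k} {p : Mor P X} {q : Mor P Y} (h : IsProd p q)

include h in
/-- The homogeneous form of the Künneth formula. -/
theorem gr_prod_le (j : ℕ) (S : Submodule K (W.H P))
    (hS : ∀ s t, s + t = j → ∀ a ∈ W.gr X s, ∀ b ∈ W.gr Y t, W.pull p a * W.pull q b ∈ S) :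
    W.gr P j ≤ S := by
  have key : ∀ c : W.H P, (DirectSum.decompose (W.gr P) c j : W.H P) ∈ S := by
    intro c
    refine W.Fib_ind h (C := fun c => (DirectSum.decompose (W.gr P) c j : W.H P) ∈ S)
      (by simp) (fun a b => ?_) (fun x y hx hy => ?_) c
    · induction a using DirectSum.Decomposition.inductionOn (W.gr X) with
      | zero => simp
      | add a a' ha ha' =>
        simp only [map_add, add_mul, DirectSum.decompose_add, DirectSum.add_apply,
          Submodule.coe_add]
        exact add_mem ha ha'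
      | @homogeneous s a =>
        induction b using DirectSum.Decomposition.inductionOn (W.gr Y) with
        | zero => simp
        | add b b' hb hb' =>
          simp only [map_add, mul_add, DirectSum.decompose_add, DirectSum.add_apply,
            Submodule.coe_add]
          exact add_mem hb hb'
        | @homogeneous t b =>
          have hm : W.pull p a * W.pull q b ∈ W.gr P (s + t) :=
            SetLike.mul_mem_graded (W.pull_gr p _ _ a.2) (W.pull_gr q _ _ b.2)
          by_cases hst : s + t = j
          · rw [← hst, DirectSum.decompose_of_mem_same _ hm]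
            exact hS s t hst a a.2 b b.2
          · rw [DirectSum.decompose_of_mem_ne _ hm hst]
            exact zero_mem _
    · simp only [DirectSum.decompose_add, DirectSum.add_apply, Submodule.coe_add]
      exact add_mem hx hy
  intro c hc
  have := key c
  rwa [DirectSum.decompose_of_mem_same _ hc] at this

theorem fib_swap (a : W.H X) (b : W.H Y) : W.fib h (W.pull q b * W.pull p a) = W.tr Y b • a := by
  induction b using DirectSum.Decomposition.inductionOn (W.gr Y) with
  | zero => simp
  | add b b' hb hb' => simp only [map_add, add_mul, hb, hb', add_smul]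
  | @homogeneous t b =>
    by_cases ht : t = 2 * Y.d
    · subst ht
      rw [W.even_comm (W.pull_gr q _ _ b.2), fib_tmul]
    · induction a using DirectSum.Decomposition.inductionOn (W.gr X) with
      | zero => simp
      | add a a' ha ha' => simp only [map_add, mul_add, ha, ha', smul_add]
      | @homogeneous s a =>
        have h0 : W.tr Y b = 0 := W.tr_gr Y t b b.2 ht
        rw [W.comm P _ _ _ (W.pull_gr q _ _ b.2) _ (W.pull_gr p _ _ a.2)]
        rcases neg_one_pow_eq_or (W.H P) (t * s) with e | e <;> rw [e]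
        · rw [one_mul, fib_tmul]
        · rw [neg_one_mul, map_neg, fib_tmul, h0, zero_smul, neg_zero]

theorem fib_mul_left (a : W.H X) (c : W.H P) : W.fib h (W.pull p a * c) = a * W.fib h c := by
  refine W.Fib_ind h (C := fun c => W.fib h (W.pull p a * c) = a * W.fib h c) (by simp)
    (fun a' b => ?_) (fun x y hx hy => ?_) c
  · rw [← mul_assoc, ← map_mul, fib_tmul, fib_tmul, mul_smul_comm]
  · simp only [mul_add, map_add, hx, hy]

theorem tr_fib (c : W.H P) : W.tr X (W.fib h c) = W.tr P c := by
  refine W.Fib_ind h (C := fun c => W.tr X (W.fib h c) = W.tr P c) (by simp)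
    (fun a b => ?_) (fun x y hx hy => ?_) c
  · rw [fib_tmul, W.tr_prod h, map_smul, smul_eq_mul, mul_comm]
  · simp only [map_add, hx, hy]

theorem fib_mem_Alg {c : W.H P} (hc : c ∈ W.Alg P) : W.fib h c ∈ W.Alg X := by
  obtain ⟨a', ha', h1⟩ := W.exists_push p hc
  have : W.fib h c = a' := by
    refine sub_eq_zero.1 (W.eq_zero_of_left fun b => ?_)
    rw [mul_sub, map_sub, ← W.fib_mul_left h, W.tr_fib h, ← W.Alg_comm hc, h1, W.Alg_comm ha',
      sub_self]
  rwa [this]

theorem fib_pt (y : Y.pts) (c : W.H P) :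
    W.fib h (W.pull q (W.cl Y {y}) * c) = W.pull (h.lift (Mor.id X) (Mor.const X y)) c := by
  have key : ∀ b : W.H Y, W.pull (Mor.const X y) b = W.tr Y (W.cl Y {y} * b) • (1 : W.H X) := by
    intro b
    induction b using DirectSum.Decomposition.inductionOn (W.gr Y) with
    | zero => simp
    | add b b' hb hb' => simp only [map_add, mul_add, hb, hb', add_smul]
    | @homogeneous t b =>
      obtain ⟨b, hb⟩ := b
      by_cases ht : t = 0
      · subst ht
        rw [W.zero, Submodule.mem_span_singleton] at hb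
        obtain ⟨r, rfl⟩ := hb
        simp [W.tr_pt]
      · simp only
        rw [W.pull_const y ht hb, W.tr_mul_gr (W.cl_pt_gr y) hb (by omega), zero_smul]
  refine W.Fib_ind h (C := fun c => W.fib h (W.pull q (W.cl Y {y}) * c) =
    W.pull (h.lift (Mor.id X) (Mor.const X y)) c) (by simp)
    (fun a b => ?_) (fun x y hx hy => ?_) c
  · rw [← mul_assoc, W.Alg_comm (W.pull_mem_Alg q (W.cl_mem_Alg (isSub_singleton y))), mul_assoc,
      ← map_mul, fib_tmul, map_mul (W.pull _), W.pull_pull, W.pull_pull,
      W.pull_id _ (funext fun x => by simp) a,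
      W.pull_congr (g := Mor.const X y) (fun x => by simp) b, key, mul_smul_comm, mul_one]
  · simp only [mul_add, map_add, hx, hy]

theorem fib_gr {i : ℕ} {c : W.H P} (hc : c ∈ W.gr P (i + 2 * Y.d)) : W.fib h c ∈ W.gr X i := by
  refine W.gr_prod_le h (i + 2 * Y.d) ((W.gr X i).comap (W.fib h))
    (fun s t hst a ha b hb => ?_) hc
  rw [Submodule.mem_comap, fib_tmul]
  by_cases ht : t = 2 * Y.d
  · obtain rfl : s = i := by omega
    exact Submodule.smul_mem _ _ ha
  · rw [W.tr_gr Y t b hb ht, zero_smul]
    exact zero_mem _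

theorem fib_base {P' X' : Var k} {p' : Mor P' X'} {q' : Mor P' Y} (h' : IsProd p' q')
    (f : Mor X' X) (c : W.H P) :
    W.fib h' (W.pull (h.lift (f.comp p') q') c) = W.pull f (W.fib h c) := by
  refine W.Fib_ind h (C := fun c => W.fib h' (W.pull (h.lift (f.comp p') q') c) =
    W.pull f (W.fib h c)) (by simp) (fun a b => ?_) (fun x y hx hy => ?_) c
  · rw [map_mul (W.pull _), W.pull_pull, W.pull_pull,
      W.pull_congr (g := f.comp p') (fun x => by simp) a,
      W.pull_congr (g := q') (fun x => by simp) b, ← W.pull_pull, fib_tmul, fib_tmul, map_smul]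
  · simp only [map_add, hx, hy]

/-- The class of the graph of a morphism. -/
theorem corr_pull {A : Var k} (V : Submodule K (W.H A)) (φ : Mor A A) :
    W.Corr V (W.pull φ).toLinearMap := by
  obtain ⟨P, p, q, h⟩ := exists_prod A A
  have hr : ∀ x, p.1 ((h.lift (Mor.id A) φ).1 x) = x := fun x => by simp
  have hs := (Mor.retr _ _ hr).isSub A.isSub_univ
  rw [image_univ] at hs
  refine ⟨P, p, q, h, _, W.cl_mem_Alg hs, fun a _ b => ?_⟩
  rw [← W.tr_pull_retr _ _ hr, map_mul (W.pull _), W.pull_pull, W.pull_pull,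
    W.pull_id _ (funext fun x => by simp) b, W.pull_congr (g := φ) (fun x => by simp) a]
  rfl

/-- A correspondence acts along any morphism `f : Y → A`. -/
theorem Corr.exists_fib {A : Var k} {V : Submodule K (W.H A)} {Φ : Module.End K (W.H A)}
    (hΦ : W.Corr V Φ) (f : Mor Y A) : ∃ (Q : Var k) (r : Mor Q Y) (s : Mor Q A) (h : IsProd r s),
      ∃ c ∈ W.Alg Q, ∀ a ∈ V, ∀ m : W.H Y,
        m * W.pull f (Φ a) = W.fib h (c * (W.pull r m * W.pull s a)) := by
  obtain ⟨P0, p0, q0, h0, c0, hc0, h1⟩ := hΦ
  obtain ⟨Q, r, s, h⟩ := exists_prod Y A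
  have hc := W.pull_mem_Alg (h0.lift (f.comp r) s) hc0
  refine ⟨Q, r, s, h, _, hc, fun a ha m => ?_⟩
  have e : Φ a = W.fib h0 (c0 * W.pull q0 a) := by
    refine sub_eq_zero.1 (W.eq_zero_of_left fun b => ?_)
    rw [mul_sub, map_sub, ← W.fib_mul_left h0, W.tr_fib h0, h1 a ha b, ← mul_assoc, ← mul_assoc,
      W.Alg_comm hc0, sub_self]
  rw [← mul_assoc, W.Alg_comm hc, mul_assoc, W.fib_mul_left h, e, ← W.fib_base h0 h f,
    map_mul (W.pull _), W.pull_pull, W.pull_congr (g := s) (fun x => by simp) a]

end Weil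

end Pool.Agent.MP_0c8446_ag
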