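import Pool.Agent.MP_0c8446_ag.GI.Hopf1

namespace Pool.Agent.MP_0c8446_ag

open Set Polynomial
open scoped TensorProduct

universe u v w x

variable {k : Type u} [Field k] [IsAlgClosed k] {K : Type v} [Field K] [CharZero K]
  (W : Weil.{u, v, w} k K)

variable {A P : Var k} [AddCommGroup A.pts] {p q m : Mor P A} (h : IsProd p q)
  (hm : ∀ x, m.1 x = p.1 x + q.1 x)

namespace Weil

omit [IsAlgClosed k] [CharZero K] in
theorem Hopf2_pow_gr {X : Var k} {η : W.H X} (hη : η ∈ W.gr X 2) (r : ℕ) :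
    η ^ r ∈ W.gr X (2 * r) := by
  have := SetLike.pow_mem_graded r hη
  rwa [smul_eq_mul, mul_comm] at this

omit [IsAlgClosed k] [CharZero K] in
theorem Hopf2_odd {X : Var k} {a b : W.H X} {e : ℕ} (ha : a ∈ W.gr X (2 * e + 1))
    (hb : b ∈ W.gr X 1) : a * b = -(b * a) := by
  rw [W.comm X _ _ a ha b hb, mul_one, pow_succ, pow_mul]
  simp

include h hm in
theorem Hopf2_top {ω : W.H A} (hω : ω ∈ W.gr A (2 * A.d)) :
    W.fib h.symm (W.pull m ω) = W.tr A ω • (1 : W.H A) := by
  have h1 : W.fib h.symm (W.pull m ω) ∈ W.gr A 0 :=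
    W.fib_gr h.symm (by rw [zero_add]; exact W.pull_gr m _ _ hω)
  rw [W.zero, Submodule.mem_span_singleton] at h1
  obtain ⟨s, hs⟩ := h1
  have h2 : W.tr A (W.cl A {0} * W.fib h.symm (W.pull m ω)) = W.tr A ω := by
    rw [← W.fib_mul_left h.symm, W.tr_fib h.symm, ← W.tr_fib h, W.fib_pt h, W.hopf_left h hm]
  rw [← hs, mul_smul_comm, mul_one, map_smul, W.tr_pt, smul_eq_mul, mul_one] at h2
  rw [← hs, h2]

include h hm in
theorem Hopf2_pt {c : W.H A} (hc : c ∈ W.gr A (2 * A.d)) (y : W.H A) :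
    W.fib h.symm (W.pull p c * W.pull m y) = W.tr A c • y := by
  conv_lhs => rw [W.eq_smul_pt hc 0]
  rw [map_smul, smul_mul_assoc, map_smul, W.fib_pt h.symm, W.hopf_right h hm]

include h hm in
theorem Hopf2_stab {z : W.H A} (hz : z ∈ Algebra.adjoin K (W.gr A 1 : Set (W.H A))) :
    ∀ c ∈ Submodule.span K {c | ∃ x : W.H A, ∃ y ∈ Algebra.adjoin K (W.gr A 1 : Set (W.H A)),
      c = W.pull p x * W.pull q y}, W.pull m z * c ∈ Submodule.span K {c | ∃ x : W.H A,
        ∃ y ∈ Algebra.adjoin K (W.gr A 1 : Set (W.H A)), c = W.pull p x * W.pull q y} := by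
  induction hz using Algebra.adjoin_induction with
  | mem z hz =>
    intro c hc
    induction hc using Submodule.span_induction with
    | mem c hc =>
      obtain ⟨x, y, hy, rfl⟩ := hc
      rw [W.hopf_one h hm hz, add_mul]
      refine add_mem (Submodule.subset_span ⟨z * x, y, hy, by rw [map_mul, mul_assoc]⟩) ?_
      induction x using DirectSum.Decomposition.inductionOn (W.gr A) with
      | zero => simp
      | @homogeneous i x =>
        refine Submodule.subset_span ⟨(-1) ^ (1 * i) * x.1, z * y,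
          mul_mem (Algebra.subset_adjoin hz) hy, ?_⟩
        rw [← mul_assoc, W.comm P _ _ _ (W.pull_gr q _ _ hz) _ (W.pull_gr p _ _ x.2)]
        simp only [map_mul, map_pow, map_neg, map_one, mul_assoc]
      | add x x' hx hx' =>
        rw [map_add, add_mul, mul_add]
        exact add_mem hx hx'
    | zero => simp
    | add c c' _ _ hc hc' => rw [mul_add]; exact add_mem hc hc'
    | smul r c _ hc => rw [mul_smul_comm]; exact Submodule.smul_mem _ r hc
  | algebraMap r =>
    intro c hc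
    rw [AlgHom.commutes, ← Algebra.smul_def]
    exact Submodule.smul_mem _ r hc
  | add z z' _ _ hz hz' =>
    intro c hc
    rw [map_add, add_mul]
    exact add_mem (hz c hc) (hz' c hc)
  | mul z z' _ _ hz hz' =>
    intro c hc
    rw [map_mul, mul_assoc]
    exact hz _ (hz' c hc)

include h hm in
/-- The cohomology of an abelian variety is generated in degree one. -/
theorem hopf_adjoin {η : W.H A} (hη : η ∈ W.gr A 2) (h0 : η ^ A.d ≠ 0) :
    Algebra.adjoin K (W.gr A 1 : Set (W.H A)) = ⊤ := by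
  have hω := W.Hopf2_pow_gr hη A.d
  have hτ : W.tr A (η ^ A.d) ≠ 0 := fun h1 => h0 (W.eq_zero_of_top hω h1)
  have hΛ : η ^ A.d ∈ Algebra.adjoin K (W.gr A 1 : Set (W.H A)) :=
    pow_mem (W.hopf_gr_two h hm hη) _
  have hB : ∀ c ∈ Submodule.span K {c | ∃ x : W.H A,
      ∃ y ∈ Algebra.adjoin K (W.gr A 1 : Set (W.H A)), c = W.pull p x * W.pull q y},
      W.fib h.symm c ∈ Algebra.adjoin K (W.gr A 1 : Set (W.H A)) := by
    intro c hc
    induction hc using Submodule.span_induction with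
    | mem c hc =>
      obtain ⟨x, y, hy, rfl⟩ := hc
      rw [W.fib_swap h.symm]
      exact Subalgebra.smul_mem _ hy _
    | zero => simp
    | add c c' _ _ hc hc' => rw [map_add]; exact add_mem hc hc'
    | smul r c _ hc => rw [map_smul]; exact Subalgebra.smul_mem _ hc r
  have key : ∀ j, ∀ y ∈ W.gr A j, y ∈ Algebra.adjoin K (W.gr A 1 : Set (W.H A)) := by
    intro j
    induction j using Nat.strong_induction_on with
    | _ j ih =>
      intro y hy
      rcases Nat.eq_zero_or_pos j with rfl | hj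
      · rw [W.zero, Submodule.mem_span_singleton] at hy
        obtain ⟨s, rfl⟩ := hy
        exact Subalgebra.smul_mem _ (one_mem _) s
      have h1 : y * η ^ A.d = 0 := W.gr_eq_zero (SetLike.mul_mem_graded hy hω) (by omega)
      have h2 : W.pull m y - W.pull q y ∈ Submodule.span K {c | ∃ x : W.H A,
          ∃ y ∈ Algebra.adjoin K (W.gr A 1 : Set (W.H A)), c = W.pull p x * W.pull q y} := by
        refine Submodule.span_mono ?_ (W.hopf_low h hm hy)
        rintro _ ⟨x, t, ht, y', hy', rfl⟩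
        exact ⟨x, y', ih t ht y' hy', rfl⟩
      have h3 := hB _ (W.Hopf2_stab h hm hΛ _ h2)
      rw [W.even_comm (W.pull_gr m _ _ hω), sub_mul, ← map_mul, h1, map_zero, zero_sub, map_neg,
        W.fib_mul_left h.symm, W.Hopf2_top h hm hω, mul_smul_comm, mul_one] at h3
      have h4 := Subalgebra.smul_mem _ h3 (-(W.tr A (η ^ A.d))⁻¹)
      rwa [smul_neg, neg_smul, neg_neg, smul_smul, inv_mul_cancel₀ hτ, one_smul] at h4
  refine eq_top_iff.2 fun a ha => ?_
  clear ha
  induction a using DirectSum.Decomposition.inductionOn (W.gr A) with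
  | zero => simp
  | homogeneous a => exact key _ _ a.2
  | add a b ha hb => exact add_mem ha hb

include h hm in
theorem Hopf2_sq {e : ℕ} (he : A.d = e + 1) {c : W.H A} (hc : c ∈ W.gr A (2 * e + 1))
    {β : W.H P} (hβ : β ∈ W.sq p q (W.gr A 1)) (y : W.H A) :
    W.fib h.symm (W.pull p c * β * W.pull m y) = W.fib h.symm (W.pull p c * β) * y := by
  induction hβ using Submodule.span_induction with
  | mem β hβ =>
    obtain ⟨a, ha, a', ha', rfl⟩ := hβ
    have h1 : c * a ∈ W.gr A (2 * A.d) := by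
      have := SetLike.mul_mem_graded hc ha
      rwa [show 2 * e + 1 + 1 = 2 * A.d by omega] at this
    rw [← mul_assoc, ← map_mul, W.fib_swap h.symm, W.even_comm (W.pull_gr p _ _ h1), mul_assoc,
      W.fib_mul_left h.symm, W.Hopf2_pt h hm h1, mul_smul_comm, smul_mul_assoc]
  | zero => simp
  | add β β' _ _ h1 h2 => simp only [mul_add, add_mul, map_add, h1, h2]
  | smul r β _ h1 => simp only [mul_smul_comm, smul_mul_assoc, map_smul, h1]

include h hm in
theorem Hopf2_der {η : W.H A} (hη : η ∈ W.gr A 2) {e : ℕ} (he : A.d = e + 1) {c : W.H A}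
    (hc : c ∈ W.gr A (2 * e + 1)) (y : W.H A) :
    W.fib h.symm (W.pull p c * W.pull m (η * y)) = η * W.fib h.symm (W.pull p c * W.pull m y) +
      W.fib h.symm (W.pull p c * (W.pull m η - W.pull p η - W.pull q η)) * y := by
  have h1 : c * η = 0 := W.gr_eq_zero (SetLike.mul_mem_graded hc hη) (by omega)
  have h2 : W.pull q η ∈ W.gr P (2 * 1) := W.pull_gr q _ _ hη
  rw [← W.Hopf2_sq h hm he hc (W.hopf_two h hm hη), ← W.fib_mul_left h.symm, ← map_add]
  congr 1
  rw [mul_sub, mul_sub, ← map_mul (W.pull p), h1, map_zero, sub_zero, ← W.even_comm h2, map_mul,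
    sub_mul, mul_assoc, mul_assoc]
  abel

include h hm in
theorem Hopf2_pow {η : W.H A} (hη : η ∈ W.gr A 2) {e : ℕ} (he : A.d = e + 1) {c : W.H A}
    (hc : c ∈ W.gr A (2 * e + 1)) (r : ℕ) :
    W.fib h.symm (W.pull p c * W.pull m (η ^ (r + 1))) = ((r + 1 : ℕ) : K) •
      (η ^ r * W.fib h.symm (W.pull p c * (W.pull m η - W.pull p η - W.pull q η))) := by
  induction r with
  | zero =>
    have h1 := W.Hopf2_der h hm hη he hc 1
    have h2 : W.fib h.symm (W.pull p c * W.pull m 1) = 0 := by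
      rw [map_one, ← map_one (W.pull q), W.fib_swap h.symm, W.tr_gr A _ _ hc (by omega), zero_smul]
    rw [h2, mul_one, mul_zero, zero_add, mul_one] at h1
    simpa using h1
  | succ r ih =>
    rw [pow_succ' η (r + 1), W.Hopf2_der h hm hη he hc, ih, mul_smul_comm, ← mul_assoc, ← pow_succ',
      ← W.even_comm (W.Hopf2_pow_gr hη (r + 1))]
    conv_rhs => rw [Nat.cast_succ, add_smul, one_smul]

include h hm in
theorem Hopf2_val {ω : W.H A} (hω : ω ∈ W.gr A (2 * A.d)) {e : ℕ} (he : A.d = e + 1) {c : W.H A}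
    (hc : c ∈ W.gr A (2 * e + 1)) :
    W.fib h.symm (W.pull p c * W.pull m ω) + W.tr A ω • c = 0 := by
  have h1 : W.fib h.symm (W.pull p c * W.pull m ω) ∈ W.gr A (2 * e + 1) :=
    W.fib_gr h.symm (SetLike.mul_mem_graded (W.pull_gr p _ _ hc) (W.pull_gr m _ _ hω))
  by_contra hne
  obtain ⟨j, hj, x, hx, hne⟩ := W.exists_gr_ne (add_mem h1 (Submodule.smul_mem _ _ hc)) hne
  obtain rfl : j = 1 := by omega
  have h2 : x * ω = 0 := W.gr_eq_zero (SetLike.mul_mem_graded hx hω) (by omega)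
  have h3 : c * x ∈ W.gr A (2 * A.d) := by
    have := SetLike.mul_mem_graded hc hx
    rwa [show 2 * e + 1 + 1 = 2 * A.d by omega] at this
  have h4 : W.fib h.symm (W.pull p c * W.pull m (x * ω)) = 0 := by
    rw [h2, map_zero, mul_zero, map_zero]
  rw [map_mul (W.pull m), W.hopf_one h hm hx, add_mul, mul_add, ← mul_assoc, ← mul_assoc,
    ← map_mul (W.pull p), map_add, W.Hopf2_pt h hm h3, W.Hopf2_odd (W.pull_gr p _ _ hc) (W.pull_gr q _ _ hx), neg_mul, map_neg,
    mul_assoc, W.fib_mul_left h.symm, add_neg_eq_zero] at h4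
  apply hne
  rw [mul_add, ← h4, mul_smul_comm, map_add, map_smul, map_smul, W.Hopf2_odd hc hx, map_neg,
    smul_eq_mul, smul_eq_mul]
  ring

include h hm in
/-- The polarisation class is inverse to the Lefschetz pairing in degree one. -/
theorem hopf_inv {η : W.H A} (hη : η ∈ W.gr A 2) (h0 : η ^ A.d ≠ 0) : ∃ c : K, c ≠ 0 ∧
    ∀ a ∈ W.gr A 1, W.fib h.symm (W.pull p (η ^ (A.d - 1) * a) *
      (W.pull m η - W.pull p η - W.pull q η)) = c • a := by
  rcases Nat.eq_zero_or_pos A.d with hd | hd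
  · refine ⟨1, one_ne_zero, fun a ha => ?_⟩
    rw [W.gr_eq_zero ha (by omega)]
    simp
  obtain ⟨e, he⟩ : ∃ e, A.d = e + 1 := ⟨A.d - 1, by omega⟩
  have hω := W.Hopf2_pow_gr hη A.d
  have hτ : W.tr A (η ^ A.d) ≠ 0 := fun h1 => h0 (W.eq_zero_of_top hω h1)
  have he0 : ((e + 1 : ℕ) : K) ≠ 0 := Nat.cast_ne_zero.2 (Nat.succ_ne_zero e)
  have hβ : W.pull m η - W.pull p η - W.pull q η ∈ W.gr P 2 :=
    sub_mem (sub_mem (W.pull_gr m _ _ hη) (W.pull_gr p _ _ hη)) (W.pull_gr q _ _ hη)
  have hb : ∀ c ∈ W.gr A (2 * e + 1),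
      W.fib h.symm (W.pull p c * (W.pull m η - W.pull p η - W.pull q η)) ∈ W.gr A 1 := by
    intro c hc
    refine W.fib_gr h.symm ?_
    have := SetLike.mul_mem_graded (W.pull_gr p _ _ hc) hβ
    rwa [show 2 * e + 1 + 2 = 1 + 2 * A.d by omega] at this
  have key : ∀ c ∈ W.gr A (2 * e + 1), ((e + 1 : ℕ) : K) •
      (η ^ e * W.fib h.symm (W.pull p c * (W.pull m η - W.pull p η - W.pull q η))) +
        W.tr A (η ^ A.d) • c = 0 := by
    intro c hc
    rw [← W.Hopf2_pow h hm hη he hc, ← he]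
    exact W.Hopf2_val h hm hω he hc
  have inj : ∀ x ∈ W.gr A 1, η ^ e * x = 0 → x = 0 := by
    intro x hx h1
    by_contra hne
    obtain ⟨j, hj, c, hc, hne⟩ := W.exists_gr_ne hx hne
    obtain rfl : j = 2 * e + 1 := by omega
    have h2 := congrArg (fun t => W.tr A (t * x)) (key c hc)
    have h3 : W.fib h.symm (W.pull p c * (W.pull m η - W.pull p η - W.pull q η)) ∈
        W.gr A (2 * 0 + 1) := hb c hc
    simp only [add_mul, smul_mul_assoc, mul_assoc, zero_mul, map_zero] at h2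
    rw [W.Hopf2_odd h3 hx, mul_neg, ← mul_assoc, h1, zero_mul, neg_zero, smul_zero, zero_add,
      map_smul, smul_eq_mul] at h2
    exact mul_ne_zero hτ hne h2
  refine ⟨-W.tr A (η ^ A.d) / ((e + 1 : ℕ) : K), div_ne_zero (neg_ne_zero.2 hτ) he0,
    fun a ha => ?_⟩
  rw [show A.d - 1 = e by omega]
  have hc : η ^ e * a ∈ W.gr A (2 * e + 1) := SetLike.mul_mem_graded (W.Hopf2_pow_gr hη e) ha
  have h1 := key _ hc
  rw [← mul_smul_comm, ← mul_smul_comm, ← mul_add] at h1
  have h2 := inj _ (add_mem (Submodule.smul_mem _ _ (hb _ hc)) (Submodule.smul_mem _ _ ha)) h1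
  rw [div_eq_inv_mul, mul_smul, neg_smul, ← eq_neg_iff_add_eq_zero.2 h2, smul_smul,
    inv_mul_cancel₀ he0, one_smul]

theorem genD_ab (hA : ∀ (T : Var k) (f g : Mor T A), IsMor fun x => f.1 x + g.1 x) {η : W.H A}
    (ha : η ∈ W.Alg A) (hη : η ∈ W.gr A 2) (h0 : η ^ A.d ≠ 0) (φ : Mor A A) :
    W.GenD (W.gr A 1) (W.pull φ).toLinearMap (η ^ (A.d - 1)) := by
  obtain ⟨P, p, q, h⟩ := exists_prod A A
  let m : Mor P A := ⟨fun x => p.1 x + q.1 x, hA P p q⟩
  have hm : ∀ x, m.1 x = p.1 x + q.1 x := fun _ => rfl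
  refine ⟨⟨1, le_rfl⟩, ?_, ?_, W.corr_pull _ φ, fun a => ?_⟩
  · induction A.d - 1 with
    | zero => rw [pow_zero]; exact W.one_mem_Alg A
    | succ r ih => rw [pow_succ]; exact W.mul_mem_Alg ih ha
  · obtain ⟨c, hc, h1⟩ := W.hopf_inv h hm hη h0
    refine ⟨P, p, q, h, W.pull m η - W.pull p η - W.pull q η, sub_mem (sub_mem
      (W.pull_mem_Alg m ha) (W.pull_mem_Alg p ha)) (W.pull_mem_Alg q ha), W.hopf_two h hm hη, c, hc,
      fun a ha b => ?_⟩
    rw [← W.tr_fib h.symm, W.fib_mul_left h.symm, h1 a ha, mul_smul_comm, map_smul, smul_eq_mul]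
  · have h1 : a ∈ Algebra.adjoin K (W.gr A 1 : Set (W.H A)) := by
      rw [W.hopf_adjoin h hm hη h0]
      exact Algebra.mem_top
    induction h1 using Algebra.adjoin_induction with
    | mem a ha =>
      refine Submodule.subset_span ⟨1, W.one_mem_Alg A, [(Mor.id A, a)], by simpa using ha, ?_⟩
      simp [W.pull_id (Mor.id A) rfl]
    | algebraMap r =>
      rw [Algebra.algebraMap_eq_smul_one]
      exact Submodule.smul_mem _ r (Submodule.subset_span ⟨1, W.one_mem_Alg A, [], by simp, by simp⟩)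
    | add a b _ _ ha hb => exact add_mem ha hb
    | mul a b ha' hb' ha hb =>
      clear ha' hb'
      have h2 := Submodule.mul_mem_mul ha hb
      rw [Submodule.span_mul_span] at h2
      refine Submodule.span_mono ?_ h2
      rintro _ ⟨_, ⟨z, hz, l, hl, rfl⟩, _, ⟨z', hz', l', hl', rfl⟩, rfl⟩
      refine ⟨z * z', W.mul_mem_Alg hz hz', l ++ l', fun x hx => ?_, ?_⟩
      · rcases List.mem_append.1 hx with hx | hx
        · exact hl x hx
        · exact hl' x hx
      · simp only [List.map_append, List.prod_append, mul_assoc]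
        congr 1
        rw [← mul_assoc, ← mul_assoc, W.Alg_comm hz']

end Weil

end Pool.Agent.MP_0c8446_ag
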