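import Pool.Agent.MP_0c8446_ag.GI.WD

namespace Pool.Agent.MP_0c8446_ag

open Set

universe u v w

section

variable {ι ι' : Type}

theorem exists_cpl (ι : Type) [Finite ι] : ∃ l : List ι, Cpl l := by
  have := Fintype.ofFinite ι
  exact ⟨Finset.univ.toList, Finset.nodup_toList _, fun x => by simp⟩

theorem Cpl.perm {l l' : List ι} (h : Cpl l) (h' : Cpl l') : l.Perm l' :=
  (List.perm_ext_iff_of_nodup h.1 h'.1).2 fun x => iff_of_true (h.2 x) (h'.2 x)

theorem Cpl.map {l : List ι} (h : Cpl l) (e : ι ≃ ι') : Cpl (l.map e) :=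
  ⟨h.1.map e.injective, fun x => List.mem_map.2 ⟨_, h.2 _, e.apply_symm_apply x⟩⟩

theorem Cpl.append {l : List ι} {l' : List ι'} (h : Cpl l) (h' : Cpl l') :
    Cpl (l.map Sum.inl ++ l'.map Sum.inr) :=
  ⟨List.nodup_append.2 ⟨h.1.map Sum.inl_injective, h'.1.map Sum.inr_injective, by simp⟩, by
    rintro (x | x) <;> simp [h.2, h'.2]⟩

theorem Cpl.length [Fintype ι] {l : List ι} (h : Cpl l) : l.length = Fintype.card ι := by
  classical
  rw [← List.toFinset_card_of_nodup h.1, ← Finset.card_univ]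
  exact congrArg _ (Finset.eq_univ_of_forall fun x => List.mem_toFinset.2 (h.2 x))

theorem cpl_finRange (N : ℕ) : Cpl (List.finRange N) := ⟨List.nodup_finRange N, List.mem_finRange⟩

theorem cpl_bool : Cpl [false, true] := ⟨by decide, by decide⟩

/-- Any index can be moved to the end. -/
theorem exists_cpl_last [Finite ι] (j : ι) : ∃ l : List ι, j ∉ l ∧ Cpl (l ++ [j]) := by
  classical
  obtain ⟨l, h⟩ := exists_cpl ι
  have h1 := (List.perm_cons_erase (h.2 j)).trans (List.perm_append_singleton j _).symm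
  exact ⟨l.erase j, h.1.not_mem_erase, h1.nodup_iff.1 h.1, fun x => h1.mem_iff.1 (h.2 x)⟩

/-- Multilinear expansion of an ordered product. -/
theorem Cpl.prod_sum {R A : Type*} [CommRing R] [Ring A] [Algebra R A] [Fintype ι] [DecidableEq ι]
    {D : Type} [Fintype D] {l : List ι} (h : Cpl l) (c : ι → D → R) (f : ι → D → A) :
    (l.map fun j => ∑ i, c j i • f j i).prod =
      ∑ J : ι → D, (∏ j, c j (J j)) • (l.map fun j => f j (J j)).prod := by
  obtain ⟨e, he⟩ : ∃ e : Fin l.length ≃ ι, ∀ g : ι → A, (l.map g).prod =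
      MultilinearMap.mkPiAlgebraFin R l.length A fun j => g (e j) :=
    ⟨h.1.getEquivOfForallMemList l h.2, fun g => by simp⟩
  simp only [he]
  rw [MultilinearMap.map_sum]
  refine Fintype.sum_equiv (e.arrowCongr (Equiv.refl D)) _ _ fun J => ?_
  rw [MultilinearMap.map_smul_univ, ← e.prod_comp]
  simp

end

variable {k : Type u} [Field k] {K : Type v} [Field K] (W : Weil.{u, v, w} k K) {ι : Type}

/-- Reordering a product of classes of the same degree changes it by a universal sign. -/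
theorem Weil.prod_perm (i : ℕ) {l l' : List ι} (h : l.Perm l') : ∃ ε : K, ε ≠ 0 ∧
    ∀ (Y : Var k) (f : ι → W.H Y), (∀ j, f j ∈ W.gr Y i) →
      (l.map f).prod = ε • (l'.map f).prod := by
  induction h with
  | nil => exact ⟨1, one_ne_zero, fun _ _ _ => (one_smul _ _).symm⟩
  | cons a _ ih =>
    obtain ⟨ε, h1, h2⟩ := ih
    exact ⟨ε, h1, fun Y f hf => by
      rw [List.map_cons, List.map_cons, List.prod_cons, List.prod_cons, h2 Y f hf, mul_smul_comm]⟩
  | swap a b l =>
    refine ⟨(-1) ^ (i * i), pow_ne_zero _ (neg_ne_zero.2 one_ne_zero), fun Y f hf => ?_⟩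
    simp only [List.map_cons, List.prod_cons, ← mul_assoc]
    rw [W.comm Y i i _ (hf b) _ (hf a), Algebra.smul_def, map_pow, map_neg, map_one, mul_assoc]
  | trans _ _ ih ih' =>
    obtain ⟨ε, h1, h2⟩ := ih
    obtain ⟨ε', h3, h4⟩ := ih'
    exact ⟨ε * ε', mul_ne_zero h1 h3, fun Y f hf => by rw [h2 Y f hf, h4 Y f hf, mul_smul]⟩

variable {A : Var k} {D : Type} {e : D → W.H A} {i : ℕ}

theorem Weil.mon_perm (he : ∀ x, e x ∈ W.gr A i) {l l' : List ι} (h : l.Perm l') :
    ∃ ε : K, ε ≠ 0 ∧ ∀ (Y : Var k) (p : ι → Mor Y A) (I : ι → D),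
      W.mon e l p I = ε • W.mon e l' p I := by
  obtain ⟨ε, h1, h2⟩ := W.prod_perm i h
  exact ⟨ε, h1, fun Y p I => h2 Y _ fun j => W.pull_gr _ _ _ (he _)⟩

theorem Weil.mon_gr (he : ∀ x, e x ∈ W.gr A i) {Y : Var k} (l : List ι) (p : ι → Mor Y A)
    (I : ι → D) : W.mon e l p I ∈ W.gr Y (i * l.length) := by
  induction l with
  | nil => exact SetLike.one_mem_graded (W.gr Y)
  | cons a l ih =>
    rw [List.length_cons, mul_add_one, add_comm]
    exact SetLike.mul_mem_graded (W.pull_gr _ _ _ (he _)) ih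

theorem Weil.pull_mon {Y Y' : Var k} (f : Mor Y' Y) (l : List ι) (p : ι → Mor Y A) (I : ι → D) :
    W.pull f (W.mon e l p I) = W.mon e l (fun j => (p j).comp f) I := by
  simp only [Weil.mon, map_list_prod, List.map_map, Function.comp_def, W.pull_pull]

theorem Weil.mon_append {ι' : Type} {Y : Var k} (l : List ι) (l' : List ι')
    (p : ι ⊕ ι' → Mor Y A) (I : ι ⊕ ι' → D) :
    W.mon e (l.map Sum.inl ++ l'.map Sum.inr) p I =
      W.mon e l (p ∘ Sum.inl) (I ∘ Sum.inl) * W.mon e l' (p ∘ Sum.inr) (I ∘ Sum.inr) := by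
  simp only [Weil.mon, List.map_append, List.prod_append, List.map_map, Function.comp_def]

end Pool.Agent.MP_0c8446_ag
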