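import Pool.Agent.MP_0c8446_ag.GI.Fib
import Pool.Agent.MP_0c8446_ag.GI.Lst

namespace Pool.Agent.MP_0c8446_ag

open Set Polynomial
open scoped TensorProduct

universe u v w x

variable {k : Type u} [Field k] [IsAlgClosed k] {K : Type v} [Field K] [CharZero K]
  (W : Weil.{u, v, w} k K)

variable {A : Var k} {D : Type} [Fintype D] {e : D → W.H A} {i : ℕ} {V : Submodule K (W.H A)}
  {Φ : Module.End K (W.H A)} {α : D → K}

section TF1helpers

omit [IsAlgClosed k] [CharZero K] [Fintype D]

theorem TF1_mon_map {ι ι' : Type} {Y : Var k} (σ : ι → ι') (l : List ι) (p : ι' → Mor Y A)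
    (I : ι' → D) : W.mon e (l.map σ) p I = W.mon e l (p ∘ σ) (I ∘ σ) := by
  simp [Weil.mon, List.map_map, Function.comp_def]

theorem TF1_mon_congr {ι : Type} {Y : Var k} (l : List ι) {p p' : ι → Mor Y A}
    (h : ∀ j ∈ l, p j = p' j) (I : ι → D) : W.mon e l p I = W.mon e l p' I := by
  unfold Weil.mon
  congr 1
  exact List.map_congr_left fun j hj => by rw [h j hj]

theorem TF1_mon_last {ι : Type} {Y : Var k} (l : List ι) (j : ι) (p : ι → Mor Y A)
    (I : ι → D) : W.mon e (l ++ [j]) p I = W.mon e l p I * W.pull (p j) (e (I j)) := by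
  simp [Weil.mon]

theorem TF1_mon_prod {ι ι' : Type} {P Y Y' : Var k} (r : Mor P Y) (s : Mor P Y') (l : List ι)
    (l' : List ι') (p : ι → Mor Y A) (p' : ι' → Mor Y' A) (I : ι ⊕ ι' → D) :
    W.mon e (l.map Sum.inl ++ l'.map Sum.inr)
      (Sum.elim (fun j => (p j).comp r) (fun j => (p' j).comp s)) I =
      W.pull r (W.mon e l p (I ∘ Sum.inl)) * W.pull s (W.mon e l' p' (I ∘ Sum.inr)) := by
  rw [W.mon_append, W.pull_mon, W.pull_mon]
  rfl

end TF1helpers

omit [Fintype D] in
theorem TF1_op (hV : ∀ x, e x ∈ V) (hΦ : W.Corr V Φ) (hα : ∀ x, Φ (e x) = α x • e x) {ι : Type}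
    {Y : Var k} {l : List ι} {j : ι} (hj : j ∉ l) (p : ι → Mor Y A) :
    ∃ (Q : Var k) (r : Mor Q Y) (s : Mor Q A) (h : IsProd r s) (p' : ι → Mor Q A),
      ∃ c ∈ W.Alg Q, ∀ (m : W.H Y) (I : ι → D), α (I j) • (m * W.mon e (l ++ [j]) p I) =
        W.fib h (c * W.pull r m * W.mon e (l ++ [j]) p' I) := by
  classical
  obtain ⟨Q, r, s, h, c, hc, H⟩ := Weil.Corr.exists_fib W hΦ (p j)
  refine ⟨Q, r, s, h, Function.update (fun j' => (p j').comp r) j s, c, hc, fun m I => ?_⟩
  have h1 : W.mon e l (Function.update (fun j' => (p j').comp r) j s) I =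
      W.pull r (W.mon e l p I) := by
    rw [W.pull_mon]
    refine TF1_mon_congr W l (fun j' hj' => ?_) I
    exact Function.update_of_ne (show j' ≠ j from fun h' => hj (h' ▸ hj')) _ _
  rw [TF1_mon_last, TF1_mon_last, h1, Function.update_self, mul_assoc c,
    ← mul_assoc (W.pull r m), ← map_mul, ← H _ (hV _), hα, map_smul, mul_smul_comm, mul_assoc]

omit [Fintype D] in
theorem Weil.tfam_TT (he : ∀ x, e x ∈ W.gr A i) (hV : ∀ x, e x ∈ V) (hΦ : W.Corr V Φ)
    (hα : ∀ x, Φ (e x) = α x • e x) : TFam α (W.TT e) := by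
  refine ⟨fun {ι ι'} _ _ σ u hu => ?_, fun {ι ι'} _ _ u hu u' hu' => ?_, ?_,
    fun {ι} _ j u hu => ?_⟩
  · induction hu using Submodule.span_induction with
    | mem x hx =>
      obtain ⟨l, Y, p, z, hl, hz, rfl⟩ := hx
      refine Submodule.subset_span ⟨l.map σ, Y, p ∘ σ.symm, z, hl.map σ, hz, funext fun I => ?_⟩
      have : (p ∘ σ.symm) ∘ σ = p := funext fun j => by simp
      rw [TF1_mon_map, this]
    | zero => exact zero_mem _
    | add x y _ _ hx hy => exact add_mem hx hy
    | smul c x _ hx => exact Submodule.smul_mem _ c hx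
  · induction hu using Submodule.span_induction with
    | mem x hx =>
      obtain ⟨l, Y, p, z, hl, hz, rfl⟩ := hx
      induction hu' using Submodule.span_induction with
      | mem x' hx' =>
        obtain ⟨l', Y', p', z', hl', hz', rfl⟩ := hx'
        obtain ⟨P, r, s, h⟩ := exists_prod Y Y'
        refine Submodule.subset_span ⟨l.map Sum.inl ++ l'.map Sum.inr, P,
          Sum.elim (fun j => (p j).comp r) (fun j => (p' j).comp s), W.pull r z * W.pull s z',
          hl.append hl', W.mul_mem_Alg (W.pull_mem_Alg r hz) (W.pull_mem_Alg s hz'),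
          funext fun I => ?_⟩
        rw [TF1_mon_prod, tmul, ← W.tr_prod h, map_mul (W.pull r), map_mul (W.pull s), mul_assoc,
          mul_assoc, ← mul_assoc (W.pull r (W.mon e l p _)),
          ← W.Alg_comm (W.pull_mem_Alg s hz') (W.pull r _), mul_assoc]
      | zero =>
        have : tmul (fun I => W.tr Y (z * W.mon e l p I)) (0 : (ι' → D) → K) = 0 :=
          funext fun I => by simp [tmul]
        rw [this]
        exact zero_mem _
      | add x y _ _ hx hy =>
        have : tmul (fun I => W.tr Y (z * W.mon e l p I)) (x + y) =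
            tmul (fun I => W.tr Y (z * W.mon e l p I)) x +
              tmul (fun I => W.tr Y (z * W.mon e l p I)) y :=
          funext fun I => by simp [tmul, mul_add]
        rw [this]
        exact add_mem hx hy
      | smul c x _ hx =>
        have : tmul (fun I => W.tr Y (z * W.mon e l p I)) (c • x) =
            c • tmul (fun I => W.tr Y (z * W.mon e l p I)) x :=
          funext fun I => by simp [tmul, mul_left_comm]
        rw [this]
        exact Submodule.smul_mem _ c hx
    | zero =>
      have : tmul (0 : (ι → D) → K) u' = 0 := funext fun I => by simp [tmul]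
      rw [this]
      exact zero_mem _
    | add x y _ _ hx hy =>
      have : tmul (x + y) u' = tmul x u' + tmul y u' := funext fun I => by simp [tmul, add_mul]
      rw [this]
      exact add_mem hx hy
    | smul c x _ hx =>
      have : tmul (c • x) u' = c • tmul x u' := funext fun I => by simp [tmul, mul_assoc]
      rw [this]
      exact Submodule.smul_mem _ c hx
  · obtain ⟨x⟩ : Nonempty A.pts := inferInstance
    refine Submodule.subset_span ⟨[], A, fun j => j.elim, W.cl A {x},
      ⟨List.nodup_nil, fun j => j.elim⟩, W.cl_mem_Alg (isSub_singleton x), funext fun I => ?_⟩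
    simp [Weil.mon, W.tr_pt]
  · induction hu using Submodule.span_induction with
    | mem x hx =>
      obtain ⟨l, Y, p, z, hl, hz, rfl⟩ := hx
      obtain ⟨l0, hj, hl0⟩ := exists_cpl_last j
      obtain ⟨ε, -, hε⟩ := W.mon_perm he (hl.perm hl0)
      obtain ⟨Q, r, s, h, p', c, hc, H⟩ := TF1_op W hV hΦ hα hj p
      have : (fun I => α (I j) * W.tr Y (z * W.mon e l p I)) =
          ε • fun I => W.tr Q (c * W.pull r z * W.mon e (l0 ++ [j]) p' I) := by
        funext I
        rw [Pi.smul_apply, ← W.tr_fib h, ← H, hε, mul_smul_comm, map_smul, map_smul,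
          smul_eq_mul, smul_eq_mul, smul_eq_mul, mul_left_comm]
      rw [this]
      exact Submodule.smul_mem _ ε (Submodule.subset_span
        ⟨l0 ++ [j], Q, p', _, hl0, W.mul_mem_Alg hc (W.pull_mem_Alg r hz), rfl⟩)
    | zero =>
      have : (fun I : ι → D => α (I j) * (0 : (ι → D) → K) I) = 0 := funext fun I => by simp
      rw [this]
      exact zero_mem _
    | add x y _ _ hx hy =>
      have : (fun I : ι → D => α (I j) * (x + y) I) =
          (fun I => α (I j) * x I) + fun I => α (I j) * y I := funext fun I => by simp [mul_add]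
      rw [this]
      exact add_mem hx hy
    | smul c x _ hx =>
      have : (fun I : ι → D => α (I j) * (c • x) I) = c • fun I => α (I j) * x I :=
        funext fun I => by simp [mul_left_comm]
      rw [this]
      exact Submodule.smul_mem _ c hx

theorem Weil.tfam_BB (he : ∀ x, e x ∈ W.gr A i) (hV : ∀ x, e x ∈ V) (hΦ : W.Corr V Φ)
    (hα : ∀ x, Φ (e x) = α x • e x) : TFam α (W.BB e) := by
  classical
  refine ⟨fun {ι ι'} _ _ σ u hu => ?_, fun {ι ι'} _ _ u hu u' hu' => ?_, ?_,
    fun {ι} _ j u hu => ?_⟩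
  · rw [Weil.mem_BB] at hu ⊢
    intro l Y p hl
    have h1 := hu (l.map σ.symm) Y (p ∘ σ) (hl.map σ.symm)
    have h2 : ∑ I : ι' → D, u (I ∘ σ) • W.mon e l p I =
        ∑ J : ι → D, u J • W.mon e (l.map σ.symm) (p ∘ σ) J := by
      refine Fintype.sum_equiv (σ.symm.arrowCongr (Equiv.refl D)) _ _ fun I => ?_
      have h3 : (σ.symm.arrowCongr (Equiv.refl D)) I = I ∘ σ := funext fun j => by simp
      rw [h3, TF1_mon_map]
      congr 2
      · funext j
        simp
      · funext j
        simp
    rw [h2]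
    exact h1
  · rw [Weil.mem_BB] at hu hu' ⊢
    intro l Y p hl
    obtain ⟨l1, hl1⟩ := exists_cpl ι
    obtain ⟨l2, hl2⟩ := exists_cpl ι'
    obtain ⟨ε, -, hε⟩ := W.mon_perm he (hl.perm (hl1.append hl2))
    have h2 : ∑ I : ι ⊕ ι' → D, tmul u u' I • W.mon e l p I =
        ε • ((∑ I, u I • W.mon e l1 (p ∘ Sum.inl) I) *
          ∑ I, u' I • W.mon e l2 (p ∘ Sum.inr) I) := by
      rw [Finset.sum_mul_sum, ← Fintype.sum_prod_type', Finset.smul_sum]
      refine Fintype.sum_equiv (Equiv.sumArrowEquivProdArrow ι ι' D) _ _ fun I => ?_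
      rw [hε, W.mon_append, smul_comm, smul_mul_smul_comm]
      rfl
    rw [h2]
    exact Submodule.smul_mem _ ε (W.mul_mem_Alg (hu _ _ _ hl1) (hu' _ _ _ hl2))
  · rw [Weil.mem_BB]
    intro l Y p hl
    refine sum_mem fun I _ => Submodule.smul_mem _ _ ?_
    obtain rfl : l = [] := List.eq_nil_iff_forall_not_mem.2 fun j => j.elim
    exact W.one_mem_Alg Y
  · rw [Weil.mem_BB] at hu ⊢
    intro l Y p hl
    obtain ⟨l0, hj, hl0⟩ := exists_cpl_last j
    obtain ⟨ε, -, hε⟩ := W.mon_perm he (hl.perm hl0)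
    obtain ⟨Q, r, s, h, p', c, hc, H⟩ := TF1_op W hV hΦ hα hj p
    have h2 : ∑ I : ι → D, (α (I j) * u I) • W.mon e l p I =
        ε • W.fib h (c * ∑ I, u I • W.mon e (l0 ++ [j]) p' I) := by
      rw [Finset.mul_sum, map_sum, Finset.smul_sum]
      refine Finset.sum_congr rfl fun I _ => ?_
      have h3 := H 1 I
      rw [map_one, mul_one, one_mul] at h3
      rw [mul_smul_comm, map_smul, ← h3, hε, smul_smul, smul_smul, smul_smul]
      congr 1
      ring
    rw [h2]
    exact Submodule.smul_mem _ ε (W.fib_mem_Alg h (W.mul_mem_Alg hc (hu _ _ _ hl0)))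

theorem Weil.tcon_TT (he : ∀ x, e x ∈ W.gr A i) : TCon (W.TT e) (W.BB e) := by
  classical
  intro ι ι' _ _ _ b hb u hu
  induction hu using Submodule.span_induction with
  | mem x hx =>
    obtain ⟨l', Y', p', z', hl', hz', rfl⟩ := hx
    rw [Weil.mem_BB] at hb ⊢
    intro l Y p hl
    obtain ⟨P, r, s, h⟩ := exists_prod Y Y'
    have h1 := W.fib_mem_Alg h (W.mul_mem_Alg (W.pull_mem_Alg s hz')
      (hb _ P (Sum.elim (fun j => (p j).comp r) (fun j => (p' j).comp s)) (hl.append hl')))
    convert h1 using 1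
    rw [Finset.mul_sum, map_sum]
    simp only [tcon, Finset.sum_smul]
    rw [← Fintype.sum_prod_type']
    refine Fintype.sum_equiv (Equiv.sumArrowEquivProdArrow ι ι' D).symm _ _ fun I => ?_
    rw [TF1_mon_prod, mul_smul_comm, map_smul, ← mul_assoc,
      W.Alg_comm (W.pull_mem_Alg s hz'), mul_assoc, ← map_mul, W.fib_tmul, smul_smul]
    rfl
  | zero =>
    have : tcon b (0 : (ι' → D) → K) = 0 := funext fun I => by simp [tcon]
    rw [this]
    exact zero_mem _
  | add x y _ _ hx hy =>
    have : tcon b (x + y) = tcon b x + tcon b y :=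
      funext fun I => by simp [tcon, mul_add, Finset.sum_add_distrib]
    rw [this]
    generalize W.BB e ι = S at hx hy ⊢
    exact add_mem hx hy
  | smul c x _ hx =>
    have : tcon b (c • x) = c • tcon b x :=
      funext fun I => by simp [tcon, Finset.mul_sum, mul_left_comm]
    rw [this]
    generalize W.BB e ι = S at hx ⊢
    exact Submodule.smul_mem _ c hx

end Pool.Agent.MP_0c8446_ag
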