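import Pool.Agent.MP_0c8446_ag.GI.TDefs

namespace Pool.Agent.MP_0c8446_ag

open MvPolynomial Matrix

universe v

section

variable {R : Type*} [CommRing R] {D ι ι' : Type} [Fintype D] [Fintype ι] [DecidableEq ι]
  [Fintype ι'] [DecidableEq ι']

theorem tact_mul (g g' : Matrix D D R) (u : (ι → D) → R) :
    tact (g * g') u = tact g' (tact g u) := by
  funext I
  simp only [tact, Matrix.mul_apply, Finset.prod_univ_sum, Fintype.piFinset_univ, Finset.mul_sum,
    Finset.sum_mul, Finset.prod_mul_distrib, mul_assoc]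
  exact Finset.sum_comm

theorem tact_one [DecidableEq D] (u : (ι → D) → R) : tact (1 : Matrix D D R) u = u := by
  funext I
  rw [tact, Finset.sum_eq_single I]
  · simp
  · intro J _ h
    obtain ⟨j, hj⟩ := Function.ne_iff.1 h
    exact mul_eq_zero_of_right _ (Finset.prod_eq_zero (Finset.mem_univ j) (one_apply_ne hj))
  · simp

theorem tact_add (g : Matrix D D R) (u u' : (ι → D) → R) :
    tact g (u + u') = tact g u + tact g u' := by
  funext I
  simp only [tact, Pi.add_apply, add_mul, Finset.sum_add_distrib]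

theorem tact_smul (g : Matrix D D R) (c : R) (u : (ι → D) → R) :
    tact g (c • u) = c • tact g u := by
  funext I
  simp only [tact, Pi.smul_apply, smul_eq_mul, Finset.mul_sum, mul_assoc]

theorem tact_zero (g : Matrix D D R) : tact g (0 : (ι → D) → R) = 0 := by
  funext I
  simp [tact]

theorem tact_eq_zero [DecidableEq D] {g : Matrix D D R} (hg : IsUnit g) {u : (ι → D) → R}
    (h : tact g u = 0) : u = 0 := by
  obtain ⟨g', hg'⟩ := hg.exists_right_inv
  rw [← tact_one u, ← hg', tact_mul, h, tact_zero]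

theorem tact_map {S : Type*} [CommRing S] (φ : R →+* S) (g : Matrix D D R) (u : (ι → D) → R)
    (I : ι → D) : φ (tact g u I) = tact (g.map φ) (fun J => φ (u J)) I := by
  simp only [tact, map_sum, map_mul, map_prod, Matrix.map_apply]

theorem tact_tmul (g : Matrix D D R) (u : (ι → D) → R) (u' : (ι' → D) → R) :
    tact g (tmul u u') = tmul (tact g u) (tact g u') := by
  funext I
  simp only [tact, tmul, Finset.sum_mul_sum]
  rw [← Fintype.sum_prod_type']
  refine Fintype.sum_equiv (Equiv.sumArrowEquivProdArrow ι ι' D) _ _ fun J => ?_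
  rw [Fintype.prod_sum_type, mul_mul_mul_comm]
  rfl

theorem tact_re (g : Matrix D D R) (e : ι ≃ ι') (u : (ι → D) → R) :
    tact g (fun I : ι' → D => u (I ∘ e)) = fun I => tact g u (I ∘ e) := by
  funext I
  refine (Fintype.sum_equiv (e.arrowCongr (Equiv.refl D)) _ _ fun J => ?_).symm
  rw [← e.prod_comp]
  simp [Function.comp_def]

theorem tact_diagonal [DecidableEq D] (π : D → R) (u : (ι → D) → R) (I : ι → D) :
    tact (diagonal π) u I = u I * ∏ j, π (I j) := by
  rw [tact, Finset.sum_eq_single I]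
  · simp
  · intro J _ h
    obtain ⟨j, hj⟩ := Function.ne_iff.1 h
    exact mul_eq_zero_of_right _ (Finset.prod_eq_zero (Finset.mem_univ j) (diagonal_apply_ne _ hj))
  · simp

/-- The support of a translate. -/
theorem tact_ne_zero {g : Matrix D D R} {u : (ι → D) → R} {I : ι → D} (h : tact g u I ≠ 0) :
    ∃ J, u J ≠ 0 ∧ ∀ j, g (J j) (I j) ≠ 0 := by
  obtain ⟨J, -, hJ⟩ := Finset.exists_ne_zero_of_sum_ne_zero h
  exact ⟨J, left_ne_zero_of_mul hJ, fun j e =>
    right_ne_zero_of_mul hJ (Finset.prod_eq_zero (Finset.mem_univ j) e)⟩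

theorem tpair_tmul (u b : (ι → D) → R) (u' b' : (ι' → D) → R) :
    tpair (tmul u u') (tmul b b') = tpair u b * tpair u' b' := by
  simp only [tpair, tmul, Finset.sum_mul_sum]
  rw [← Fintype.sum_prod_type']
  exact Fintype.sum_equiv (Equiv.sumArrowEquivProdArrow ι ι' D) _ _ fun J =>
    mul_mul_mul_comm _ _ _ _

theorem tpair_tcon (u : (ι → D) → R) (u' : (ι' → D) → R) (b : (ι ⊕ ι' → D) → R) :
    tpair (tmul u u') b = tpair u (tcon b u') := by
  simp only [tpair, tmul, tcon, Finset.mul_sum]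
  rw [← Fintype.sum_prod_type']
  refine (Fintype.sum_equiv (Equiv.sumArrowEquivProdArrow ι ι' D).symm _ _ fun J => ?_).symm
  rw [mul_comm (b _), ← mul_assoc]
  rfl

theorem tpair_re (e : ι ≃ ι') (u b : (ι → D) → R) :
    tpair (fun I : ι' → D => u (I ∘ e)) (fun I => b (I ∘ e)) = tpair u b :=
  (Fintype.sum_equiv (e.arrowCongr (Equiv.refl D)) _ _ fun J => by simp [Function.comp_def]).symm

omit [Fintype D] [Fintype ι] [DecidableEq ι] [Fintype ι'] [DecidableEq ι'] in
theorem tmul_ne_zero [NoZeroDivisors R] {u : (ι → D) → R} {u' : (ι' → D) → R} (h : u ≠ 0)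
    (h' : u' ≠ 0) : tmul u u' ≠ 0 := by
  obtain ⟨I, hI⟩ := Function.ne_iff.1 h
  obtain ⟨J, hJ⟩ := Function.ne_iff.1 h'
  exact Function.ne_iff.2 ⟨Sum.elim I J, mul_ne_zero hI hJ⟩

end

section

variable {T : Type} [Fintype T] [DecidableEq T] {n : T → Type} [∀ t, Fintype (n t)]
  [∀ t, DecidableEq (n t)] {ι ι' : Type} [Fintype ι] [DecidableEq ι] [Fintype ι'] [DecidableEq ι']

theorem det_blockDiagonal' {R : Type*} [CommRing R] (g : ∀ t, Matrix (n t) (n t) R) :
    (blockDiagonal' g).det = ∏ t, (g t).det := by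
  let _ : LinearOrder T := LinearOrder.lift' _ (Fintype.equivFin T).injective
  rw [(blockTriangular_blockDiagonal' g).det_fintype]
  refine Finset.prod_congr rfl fun t _ => ?_
  rw [← det_submatrix_equiv_self (Equiv.sigmaSubtype t).symm]
  congr 1
  ext i j
  exact blockDiagonal'_apply_eq g t i j

theorem isUnit_blockDiagonal' {R : Type*} [CommRing R] {g : ∀ t, Matrix (n t) (n t) R}
    (hg : ∀ t, IsUnit (g t)) : IsUnit (blockDiagonal' g) := by
  rw [isUnit_iff_isUnit_det, det_blockDiagonal']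
  exact IsUnit.prod_univ_iff.2 fun t => (isUnit_iff_isUnit_det _).1 (hg t)

theorem Cont.tact {R : Type*} [CommRing R] {τ : ι → T} {u : (ι → Σ t, n t) → R} (h : Cont τ u)
    (g : ∀ t, Matrix (n t) (n t) R) : Cont τ (tact (blockDiagonal' g) u) := by
  intro I hI j
  obtain ⟨J, h1, h2⟩ := tact_ne_zero hI
  rw [← h J h1 j]
  by_contra e
  exact h2 j (blockDiagonal'_apply_ne g (J j).2 (I j).2 (Ne.symm e))

omit [Fintype T] [DecidableEq T] [∀ t, Fintype (n t)] [∀ t, DecidableEq (n t)] [Fintype ι]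
  [DecidableEq ι] [Fintype ι'] [DecidableEq ι'] in
theorem Cont.tmul {R : Type*} [CommRing R] {τ : ι → T} {τ' : ι' → T} {u : (ι → Σ t, n t) → R}
    {u' : (ι' → Σ t, n t) → R} (h : Cont τ u) (h' : Cont τ' u') :
    Cont (Sum.elim τ τ') (tmul u u') := by
  rintro I hI (j | j)
  exacts [h _ (left_ne_zero_of_mul hI) j, h' _ (right_ne_zero_of_mul hI) j]

variable {L : Type v} [Field L]

omit [Fintype T] [DecidableEq T] [∀ t, Fintype (n t)] [∀ t, DecidableEq (n t)] in
theorem TBasic_evm {A : Type*} [CommRing A] [Algebra L A] (h : ∀ t, Matrix (n t) (n t) A) (t : T) :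
    (gm L n t).map (evm L h).toRingHom = h t := by
  ext i j
  exact aeval_X _ _

theorem evm_gen {A : Type*} [CommRing A] [Algebra L A] (h : ∀ t, Matrix (n t) (n t) A)
    (u : (ι → Σ t, n t) → L) (I : ι → Σ t, n t) :
    evm L h (gen u I) = tact (blockDiagonal' h) (fun J => algebraMap L A (u J)) I := by
  refine (tact_map (evm L h).toRingHom _ _ I).trans ?_
  rw [blockDiagonal'_map _ _ (map_zero _)]
  congr 1
  · exact congrArg blockDiagonal' (funext (TBasic_evm h))
  · exact funext fun J => (evm L h).commutes _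

theorem evm_Dl {A : Type*} [CommRing A] [Algebra L A] (h : ∀ t, Matrix (n t) (n t) A)
    (s : T → ℕ) : evm L h (Dl L n s) = ∏ t, (h t).det ^ s t := by
  simp only [Dl, map_prod, map_pow]
  exact Finset.prod_congr rfl fun t _ => congrArg (· ^ s t)
    (((evm L h).toRingHom.map_det _).trans (congrArg det (TBasic_evm h t)))

theorem Dl_ne_zero (s : T → ℕ) : Dl L n s ≠ 0 := fun e => by
  have h := evm_Dl (L := L) (fun t => (1 : Matrix (n t) (n t) L)) s
  simp [e] at h

theorem gen_tmul (u : (ι → Σ t, n t) → L) (u' : (ι' → Σ t, n t) → L) :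
    gen (tmul u u') = tmul (gen u) (gen u') := by
  rw [gen, gen, gen, ← tact_tmul]
  exact congrArg _ (funext fun I => C_mul)

theorem gen_re (e : ι ≃ ι') (u : (ι → Σ t, n t) → L) :
    gen (fun I : ι' → Σ t, n t => u (I ∘ e)) = fun I => gen u (I ∘ e) :=
  tact_re _ e fun I => C (u I)

end

end Pool.Agent.MP_0c8446_ag
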