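import Pool.Agent.MP_0c8446_ag.GI.Fib
import Pool.Agent.MP_0c8446_ag.GI.Lst
import Pool.Agent.MP_0c8446_ag.GI.TBasic

namespace Pool.Agent.MP_0c8446_ag

open Set Polynomial
open scoped TensorProduct

universe u v w x

variable {k : Type u} [Field k] [IsAlgClosed k] {K : Type v} [Field K] [CharZero K]
  (W : Weil.{u, v, w} k K)

variable {A : Var k} {D : Type} [Fintype D] [DecidableEq D] {e : D → W.H A} {i : ℕ}
  {V : Submodule K (W.H A)} {z : W.H A}

omit [IsAlgClosed k] [CharZero K] [Fintype D] [DecidableEq D] in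
theorem Weil.tmat_TT (hz : z ∈ W.Alg A) :
    tmat (Matrix.of fun x y => W.tr A (z * (e x * e y))) ∈ W.TT e Bool := by
  refine Submodule.subset_span ⟨[false, true], A, fun _ => Mor.id A, z, cpl_bool, hz, ?_⟩
  funext I
  simp [tmat, Weil.mon, W.pull_id (Mor.id A) rfl]

theorem TF2_tr {P X Y : Var k} {p : Mor P X} {q : Mor P Y} (h : IsProd p q) (b x : W.H Y)
    (w : W.H X) :
    W.tr P (W.pull q b * (W.pull p w * W.pull q x)) = W.tr X w * W.tr Y (b * x) := by
  rw [← W.tr_fib h.symm, W.fib_mul_left, W.fib_swap, mul_smul_comm, map_smul, smul_eq_mul]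

theorem Weil.exists_tmat_BB (he : ∀ x, e x ∈ W.gr A i) (hli : LinearIndependent K e)
    (hV : Submodule.span K (range e) = V) (h : W.Inv2 V z) :
    ∃ (E' : Matrix D D K) (c : K), c ≠ 0 ∧ tmat E' ∈ W.BB e Bool ∧
      (Matrix.of fun x y => W.tr A (z * (e x * e y))) * E' = c • (1 : Matrix D D K) := by
  obtain ⟨P, p, q, hP, β, hβ, h1, c, hc, h2⟩ := h
  have h3 : W.sq p q V ≤ Submodule.span K
      (range fun x : D × D => W.pull p (e x.1) * W.pull q (e x.2)) := by
    refine Submodule.span_le.2 ?_
    rintro _ ⟨a, ha, b, hb, rfl⟩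
    rw [← hV, Submodule.mem_span_range_iff_exists_fun] at ha hb
    obtain ⟨s, rfl⟩ := ha
    obtain ⟨t, rfl⟩ := hb
    simp only [map_sum, map_smul, Finset.sum_mul_sum, smul_mul_smul_comm]
    exact sum_mem fun x _ => sum_mem fun y _ =>
      Submodule.smul_mem _ _ (Submodule.subset_span ⟨(x, y), rfl⟩)
  obtain ⟨E, rfl⟩ := (Submodule.mem_span_range_iff_exists_fun K).1 (h3 h1)
  refine ⟨Matrix.of fun x y => E (x, y), c, hc, W.mem_BB.2 fun l Y r hl => ?_, ?_⟩
  · obtain ⟨ε, -, hε⟩ := W.mon_perm he (hl.perm cpl_bool)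
    have h4 := W.pull_mem_Alg (hP.lift (r false) (r true)) hβ
    have e1 : p.comp (hP.lift (r false) (r true)) = r false := Mor.ext' fun x => by simp
    have e2 : q.comp (hP.lift (r false) (r true)) = r true := Mor.ext' fun x => by simp
    simp only [map_sum, map_smul, map_mul, W.pull_pull, e1, e2] at h4
    rw [← (Equiv.boolArrowEquivProd D).sum_comp] at h4
    simp only [hε, smul_comm _ ε, ← Finset.smul_sum]
    refine Submodule.smul_mem _ _ ?_
    simpa [tmat, Weil.mon] using h4
  · ext x y
    have h4 : ∑ y, (∑ w, W.tr A (z * (e x * e w)) * E (w, y)) • e y = c • e x := by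
      refine sub_eq_zero.1 (W.eq_zero_of_left fun b => ?_)
      have h5 := h2 (e x) (hV ▸ Submodule.subset_span ⟨x, rfl⟩) b
      simp only [Finset.mul_sum, mul_smul_comm, map_sum, map_smul, ← mul_assoc (W.pull p _),
        ← map_mul, TF2_tr W hP, smul_eq_mul, Fintype.sum_prod_type_right] at h5
      simp only [mul_sub, map_sub, Finset.mul_sum, mul_smul_comm, map_sum, map_smul, smul_eq_mul,
        Finset.sum_mul, ← h5]
      refine sub_eq_zero.2 (Finset.sum_congr rfl fun y _ => Finset.sum_congr rfl fun w _ => ?_)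
      rw [mul_assoc z]
      ring
    have h5 := hli.fintypeLinearCombination_injective (a₁ := fun y =>
      ∑ w, W.tr A (z * (e x * e w)) * E (w, y)) (a₂ := Pi.single x c) (by
        rw [Fintype.linearCombination_apply, h4, Fintype.linearCombination_apply_single])
    rw [Matrix.mul_apply, Matrix.smul_apply, Matrix.one_apply, smul_eq_mul, mul_ite, mul_one,
      mul_zero]
    exact (congrFun h5 y).trans (by simp only [Pi.single_apply, eq_comm])

omit [IsAlgClosed k] [CharZero K] in
theorem TF2_pull {X Y : Var k} (f : Mor X Y) (l : List (Mor Y A × W.H A)) :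
    W.pull f (l.map fun x => W.pull x.1 x.2).prod =
      ((l.map fun x => (x.1.comp f, x.2)).map fun x => W.pull x.1 x.2).prod := by
  rw [map_list_prod, List.map_map, List.map_map]
  congr 2
  funext x
  exact W.pull_pull f x.1 x.2

omit [CharZero K] [Fintype D] [DecidableEq D] in
theorem Weil.sp_pow (hA : W.Sp V A) {Y : Var k} (hY : Pow A Y) : W.Sp V Y := by
  induction hY with
  | base => exact hA
  | prod a b h _ _ ihX ihY =>
    intro c
    refine (W.prod_span h _ fun s t => ?_).ge (Submodule.mem_top (x := c))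
    induction ihX s using Submodule.span_induction with
    | zero => rw [map_zero, zero_mul]; exact zero_mem _
    | add x y _ _ hx hy => rw [map_add, add_mul]; exact add_mem hx hy
    | smul c x _ hx => rw [map_smul, smul_mul_assoc]; exact Submodule.smul_mem _ _ hx
    | mem x hx =>
      induction ihY t using Submodule.span_induction with
      | zero => rw [map_zero, mul_zero]; exact zero_mem _
      | add x y _ _ hx hy => rw [map_add, mul_add]; exact add_mem hx hy
      | smul c x _ hx => rw [map_smul, mul_smul_comm]; exact Submodule.smul_mem _ _ hx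
      | mem y hy =>
        obtain ⟨z, hz, l, hl, rfl⟩ := hx
        obtain ⟨z', hz', l', hl', rfl⟩ := hy
        refine Submodule.subset_span ⟨W.pull a z * W.pull b z',
          W.mul_mem_Alg (W.pull_mem_Alg a hz) (W.pull_mem_Alg b hz'),
          (l.map fun x => (x.1.comp a, x.2)) ++ l'.map fun x => (x.1.comp b, x.2),
          fun x hx => ?_, ?_⟩
        · rcases List.mem_append.1 hx with hx | hx
          · obtain ⟨y, hy, rfl⟩ := List.mem_map.1 hx
            exact hl y hy
          · obtain ⟨y, hy, rfl⟩ := List.mem_map.1 hx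
            exact hl' y hy
        · rw [map_mul, map_mul, List.map_append, List.prod_append, ← TF2_pull, ← TF2_pull,
            mul_assoc, mul_assoc, ← mul_assoc (W.pull b z'),
            W.Alg_comm (W.pull_mem_Alg b hz') (W.pull a _), mul_assoc]

omit [DecidableEq D] in
/-- From the tensor statement to conjecture D. -/
theorem Weil.eq_zero_of_nul (hV : Submodule.span K (range e) = V)
    (h0 : ∀ (ι : Type) [Fintype ι], ∀ u ∈ nul (W.TT e) (W.BB e) ι, u = 0) {Y : Var k}
    (hY : W.Sp V Y) {a : W.H Y} (ha : a ∈ W.Alg Y) (h : ∀ b ∈ W.Alg Y, W.tr Y (a * b) = 0) :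
    a = 0 := by
  refine W.poincare Y a fun b => ?_
  induction hY b using Submodule.span_induction with
  | zero => rw [mul_zero, map_zero]
  | add x y _ _ hx hy => rw [mul_add, map_add, hx, hy, add_zero]
  | smul c x _ hx => rw [mul_smul_comm, map_smul, hx, smul_zero]
  | mem x hx =>
    obtain ⟨z, hz, l, hl, rfl⟩ := hx
    choose c hc using fun j : Fin l.length => (Submodule.mem_span_range_iff_exists_fun K).1
      (hV ▸ hl (l.get j) (List.get_mem l j))
    have h1 := h0 (Fin l.length) (fun I => W.tr Y (a * z *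
      W.mon e (List.finRange l.length) (fun j => (l.get j).1) I)) (mem_nul.2
        ⟨Submodule.subset_span ⟨_, Y, _, _, cpl_finRange _, W.mul_mem_Alg ha hz, rfl⟩,
          fun b hb => by
            rw [← h _ (W.mul_mem_Alg hz (W.mem_BB.1 hb _ Y (fun j => (l.get j).1)
              (cpl_finRange _)))]
            simp only [tpair, Finset.mul_sum, mul_smul_comm, map_sum, map_smul, smul_eq_mul,
              mul_assoc]
            exact Finset.sum_congr rfl fun I _ => mul_comm _ _⟩)
    have h2 : (l.map fun x => W.pull x.1 x.2) = (List.finRange l.length).map fun j =>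
        ∑ x, c j x • W.pull (l.get j).1 (e x) := by
      conv_lhs => rw [← List.map_get_finRange l, List.map_map]
      congr 1
      funext j
      simp only [Function.comp_apply, ← hc j, map_sum, map_smul]
    rw [h2, (cpl_finRange _).prod_sum, ← mul_assoc, Finset.mul_sum, map_sum]
    refine Finset.sum_eq_zero fun J _ => ?_
    rw [mul_smul_comm, map_smul]
    exact smul_eq_zero_of_right _ (congrFun h1 J)

omit [IsAlgClosed k] [CharZero K] [DecidableEq D] in
/-- Semilinear automorphisms of the theory preserve the algebraic forms. -/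
theorem Weil.semi_TT (γ : K ≃+* K) (σ : ∀ X, W.H X →+* W.H X)
    (h1 : ∀ X (c : K) a, σ X (c • a) = γ c • σ X a) (h2 : ∀ X Z, σ X (W.cl X Z) = W.cl X Z)
    (h3 : ∀ X Y (f : Mor X Y) a, σ X (W.pull f a) = W.pull f (σ Y a))
    (h4 : ∀ X a, W.tr X (σ X a) = γ (W.tr X a)) (N : Matrix D D K)
    (hN : ∀ x, σ A (∑ y, N y x • e y) = e x) {ι : Type} [Fintype ι] [DecidableEq ι]
    {u : (ι → D) → K} (hu : u ∈ W.TT e ι) : (fun I => γ (tact N u I)) ∈ W.TT e ι := by
  induction hu using Submodule.span_induction with
  | zero =>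
    simp only [tact_zero, Pi.zero_apply, map_zero]
    exact zero_mem _
  | add x y _ _ hx hy =>
    simp only [tact_add, Pi.add_apply, map_add]
    exact add_mem hx hy
  | smul c x _ hx =>
    simp only [tact_smul, Pi.smul_apply, smul_eq_mul, map_mul]
    exact Submodule.smul_mem _ (γ c) hx
  | mem x hx =>
    obtain ⟨l, Y, p, z, hl, hz, rfl⟩ := hx
    have h5 : σ Y z ∈ W.Alg Y := by
      induction hz using Submodule.span_induction with
      | zero => rw [map_zero]; exact zero_mem _
      | add x y _ _ hx hy => rw [map_add]; exact add_mem hx hy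
      | smul c x _ hx => rw [h1]; exact Submodule.smul_mem _ _ hx
      | mem x hx =>
        obtain ⟨Z, hZ, rfl⟩ := hx
        rw [h2]
        exact W.cl_mem_Alg hZ
    refine Submodule.subset_span ⟨l, Y, p, σ Y z, hl, h5, funext fun I => ?_⟩
    have h6 : tact N (fun I => W.tr Y (z * W.mon e l p I)) I =
        W.tr Y (z * (l.map fun j => ∑ y, N y (I j) • W.pull (p j) (e y)).prod) := by
      rw [hl.prod_sum, tact]
      simp only [Finset.mul_sum, mul_smul_comm, map_sum, map_smul, smul_eq_mul, Weil.mon]
      exact Finset.sum_congr rfl fun J _ => mul_comm _ _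
    rw [h6, ← h4, map_mul, map_list_prod, List.map_map, Weil.mon]
    congr 4
    funext j
    rw [← hN (I j), ← h3]
    simp only [Function.comp_apply, map_sum, map_smul]

end Pool.Agent.MP_0c8446_ag
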