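import Pool.Agent.MP_0c8446_ag.GI.Fib

namespace Pool.Agent.MP_0c8446_ag

open Set
open scoped TensorProduct

universe u v w x

variable {k : Type u} [Field k] [IsAlgClosed k] {K : Type v} [Field K] [CharZero K]
  (W : Weil.{u, v, w} k K)

variable {A : Var k} {V : Submodule K (W.H A)}

lemma SumA_prod {π : Module.End K (W.H A)} (h : W.IsCorr π) {P : Var k} {p q : Mor P A}
    (hP : IsProd p q) : ∃ c ∈ W.Alg P, ∀ a b,
      W.tr A (b * π a) = W.tr P (c * (W.pull p b * W.pull q a)) := by
  obtain ⟨Q, r, s, c, hc, h1⟩ := h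
  obtain ⟨c', hc', h2⟩ := W.exists_push (hP.lift r s) (a := c) hc
  refine ⟨c', hc', fun a b => ?_⟩
  rw [h1, ← h2, map_mul (W.pull _), W.pull_pull, W.pull_pull,
    W.pull_congr (f := p.comp _) (g := r) (fun x => by simp) b,
    W.pull_congr (f := q.comp _) (g := s) (fun x => by simp) a]

lemma SumA_sum {ι : Type} [Fintype ι] (π : ι → Module.End K (W.H A)) (h : ∀ t, W.IsCorr (π t))
    (r : ι → K) : W.Corr V (∑ t, r t • π t) := by
  obtain ⟨P, p, q, hP⟩ := exists_prod A A
  choose c hc h1 using fun t => SumA_prod W (h t) hP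
  refine ⟨P, p, q, hP, ∑ t, r t • c t,
    Submodule.sum_mem _ fun t _ => Submodule.smul_mem _ _ (hc t), fun a _ b => ?_⟩
  simp only [LinearMap.sum_apply, LinearMap.smul_apply, Finset.mul_sum, Finset.sum_mul, map_sum,
    mul_smul_comm, smul_mul_assoc, map_smul, h1]

theorem Weil.IsCorr.corr {π : Module.End K (W.H A)} (h : W.IsCorr π) : W.Corr V π := by
  obtain ⟨P, p, q, hP⟩ := exists_prod A A
  obtain ⟨c, hc, h1⟩ := SumA_prod W h hP
  exact ⟨P, p, q, hP, c, hc, fun a _ b => h1 a b⟩

/-- A homogeneous basis of a summand, and the degree operator. -/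
theorem Weil.Summand.exists_basis (h : W.Summand V) :
    ∃ (n : Fin (2 * A.d + 1) → ℕ) (e : (Σ t, Fin (n t)) → W.H A) (Φ : Module.End K (W.H A)),
      (∀ x, e x ∈ W.gr A x.1) ∧ LinearIndependent K e ∧ Submodule.span K (range e) = V ∧
        W.Corr V Φ ∧ ∀ x, Φ (e x) = ((x.1 : ℕ) : K) • e x := by
  classical
  choose π hc hV hdec _ using h
  let S : Fin (2 * A.d + 1) → Submodule K (W.H A) := fun t => V ⊓ W.gr A t
  let b := fun t => Module.finBasis K (S t)
  have hsame : ∀ (t : Fin (2 * A.d + 1)) (a : S t), π t a = a := fun t a => by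
    rw [hdec t a a.2.1, DirectSum.decompose_of_mem_same _ a.2.2]
  have hne : ∀ (s t : Fin (2 * A.d + 1)) (a : S s), s ≠ t → π t a = 0 := fun s t a hst => by
    rw [hdec t a a.2.1, DirectSum.decompose_of_mem_ne _ a.2.2 fun e => hst (Fin.ext e)]
  refine ⟨fun t => Module.finrank K (S t), fun x => b x.1 x.2, ∑ t : Fin (2 * A.d + 1),
    ((t : ℕ) : K) • π t, fun x => (b x.1 x.2).2.2, ?_, ?_,
    SumA_sum W (fun t : Fin (2 * A.d + 1) => π t) (fun t => hc t) _, ?_⟩
  · rw [Fintype.linearIndependent_iff]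
    rintro g hg ⟨t, j⟩
    have h1 := congrArg (π t) hg
    rw [Fintype.sum_sigma, map_sum, map_zero, Finset.sum_eq_single t] at h1
    · have h2 : ∑ i, g ⟨t, i⟩ • b t i = 0 := by
        refine Subtype.ext ?_
        simpa only [map_sum, map_smul, hsame, Submodule.coe_sum, Submodule.coe_smul,
          Submodule.coe_zero] using h1
      exact Fintype.linearIndependent_iff.1 (b t).linearIndependent _ h2 j
    · intro s _ hst
      simp only [map_sum, map_smul, hne s t _ hst, smul_zero, Finset.sum_const_zero]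
    · exact fun h => (h (Finset.mem_univ _)).elim
  · refine le_antisymm (Submodule.span_le.2 ?_) fun a ha => ?_
    · rintro _ ⟨x, rfl⟩
      exact (b x.1 x.2).2.1
    · rw [← DirectSum.sum_support_decompose (W.gr A) a]
      refine Submodule.sum_mem _ fun i _ => ?_
      have hi := (DirectSum.decompose (W.gr A) a i).2
      by_cases hlt : i < 2 * A.d + 1
      · let y : S ⟨i, hlt⟩ := ⟨DirectSum.decompose (W.gr A) a i, hdec i a ha ▸ hV i a, hi⟩
        have h1 := congrArg Subtype.val ((b ⟨i, hlt⟩).sum_repr y)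
        rw [Submodule.coe_sum] at h1
        change _ = (DirectSum.decompose (W.gr A) a i : W.H A) at h1
        rw [← h1]
        exact Submodule.sum_mem _ fun j _ =>
          Submodule.smul_mem _ _ (Submodule.subset_span ⟨⟨⟨i, hlt⟩, j⟩, rfl⟩)
      · rw [W.gr_eq_zero hi (by omega)]
        exact zero_mem _
  · rintro ⟨t, j⟩
    rw [LinearMap.sum_apply, Finset.sum_eq_single t]
    · rw [LinearMap.smul_apply, hsame]
    · intro s _ hst
      rw [LinearMap.smul_apply, hne t s _ hst.symm, smul_zero]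
    · exact fun h => (h (Finset.mem_univ _)).elim

end Pool.Agent.MP_0c8446_ag
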