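import Pool.Agent.MP_0c8446_ag.GI.TF4
import Pool.Agent.MP_0c8446_ag.GI.TF2
import Pool.Agent.MP_0c8446_ag.GI.SumA

namespace Pool.Agent.MP_0c8446_ag

open Set
open scoped TensorProduct

universe u v w x

variable {k : Type u} [Field k] [IsAlgClosed k] {K : Type v} [Field K] [CharZero K]
  (W : Weil.{u, v, w} k K)

variable {A : Var k} {V : Submodule K (W.H A)} {T : Type} [Fintype T]
  [DecidableEq T] {n : T → Type} [∀ t, Fintype (n t)] [∀ t, DecidableEq (n t)]
  {e : (Σ t, n t) → W.H A} {δ : T → ℕ}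

theorem SumB_zero {P X Y : Var k} {p : Mor P X} {q : Mor P Y} (hP : IsProd p q) {γ : W.H P}
    (h : ∀ a b, W.tr P (W.pull p b * (γ * W.pull q a)) = 0) : γ = 0 := by
  have h1 : ∀ a, W.fib hP (γ * W.pull q a) = 0 := fun a => W.eq_zero_of_left fun b => by
    rw [← W.fib_mul_left hP, W.tr_fib hP, h]
  refine W.poincare P γ fun c => ?_
  refine W.Fib_ind hP.symm (C := fun c => W.tr P (γ * c) = 0) (by simp) (fun a b => ?_)
    (fun x y hx hy => ?_) c
  · rw [← mul_assoc, ← W.tr_fib hP, W.fib_mul_right, h1, zero_mul, map_zero]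
  · rw [mul_add, map_add, hx, hy, add_zero]

omit [IsAlgClosed k] [CharZero K] in
theorem SumB_orth {D : Type} {e : D → W.H A} (hV : Submodule.span K (range e) = V) {a : W.H A}
    (h : ∀ x, W.tr A (e x * a) = 0) : ∀ b ∈ V, W.tr A (b * a) = 0 := by
  subst hV
  intro b hb
  induction hb using Submodule.span_induction with
  | mem x hx => obtain ⟨x, rfl⟩ := hx; exact h x
  | zero => rw [zero_mul, map_zero]
  | add x y _ _ hx hy => rw [add_mul, map_add, hx, hy, add_zero]
  | smul c x _ hx => rw [smul_mul_assoc, map_smul, hx, smul_zero]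

omit [IsAlgClosed k] [CharZero K] in
theorem SumB_inv (h : W.Summand V) (he : ∀ x, e x ∈ W.gr A (δ x.1))
    (hli : LinearIndependent K e) (hV : Submodule.span K (range e) = V) :
    ∃ E' : Matrix (Σ t, n t) (Σ t, n t) K,
      (Matrix.of fun x y => W.tr A (e x * e y)) * E' = 1 ∧
        ∀ x y, E' x y ≠ 0 → δ x.1 + δ y.1 = 2 * A.d := by
  have hu : IsUnit (Matrix.of fun x y => W.tr A (e x * e y)) := by
    refine Matrix.mulVec_injective_iff_isUnit.1 fun v w hvw => sub_eq_zero.1 ?_
    rw [← sub_eq_zero, ← Matrix.mulVec_sub] at hvw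
    generalize v - w = u at hvw
    have h1 : ∑ y, u y • e y ∈ V :=
      hV ▸ sum_mem fun y _ => Submodule.smul_mem _ _ (Submodule.subset_span ⟨y, rfl⟩)
    have h2 := SumB_orth W hV (a := ∑ y, u y • e y) fun x => by
      rw [← Pi.zero_apply (M := fun _ : Σ t, n t => K) x, ← hvw]
      simp only [Finset.mul_sum, mul_smul_comm, map_sum, map_smul, smul_eq_mul, Matrix.mulVec,
        dotProduct, Matrix.of_apply, mul_comm (u _)]
    have h3 : ∑ y, u y • e y = 0 := by
      refine (DirectSum.decompose (W.gr A)).injective (DirectSum.ext fun i => Subtype.ext ?_)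
      obtain ⟨π, -, -, h4, h5⟩ := h i
      rw [← h4 _ h1, h5 _ h2, DirectSum.decompose_zero]
      rfl
    exact funext (Fintype.linearIndependent_iff.1 hli u h3)
  obtain ⟨E, -, hE⟩ := isUnit_iff_exists.1 hu
  refine ⟨Matrix.of fun x y => if δ x.1 + δ y.1 = 2 * A.d then E x y else 0,
    mul_eq_one_comm.1 ?_, fun x y hxy => by_contra fun h1 => hxy (if_neg h1)⟩
  ext x z
  by_cases h1 : δ x.1 = δ z.1
  · rw [← hE, Matrix.mul_apply, Matrix.mul_apply]
    refine Finset.sum_congr rfl fun y _ => ?_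
    simp only [Matrix.of_apply]
    split_ifs with h2
    · rfl
    · rw [W.tr_mul_gr (he y) (he z) (by omega), mul_zero, mul_zero]
  · rw [Matrix.one_apply_ne fun h2 => h1 (by rw [h2]), Matrix.mul_apply]
    refine Finset.sum_eq_zero fun y _ => ?_
    simp only [Matrix.of_apply]
    split_ifs with h2
    · rw [W.tr_mul_gr (he y) (he z) (by omega), mul_zero]
    · rw [zero_mul]

omit [IsAlgClosed k] [CharZero K] in
theorem SumB_pi (hδ : Function.Injective δ) (he : ∀ x, e x ∈ W.gr A (δ x.1))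
    (hV : Submodule.span K (range e) = V) {E : Matrix (Σ t, n t) (Σ t, n t) K}
    (hE : (Matrix.of fun x y => W.tr A (e x * e y)) * E = 1) {t : T} {π : Module.End K (W.H A)}
    (h1 : ∀ a ∈ V, π a = DirectSum.decompose (W.gr A) a (δ t))
    (h2 : ∀ a, (∀ b ∈ V, W.tr A (b * a) = 0) → π a = 0) (a : W.H A) :
    π a = ∑ x, (∑ y, (if x.1 = t then E x y else 0) * W.tr A (e y * a)) • e x := by
  have h3 := h2 (a - ∑ x, (∑ y, E x y * W.tr A (e y * a)) • e x) (SumB_orth W hV fun z => by
    have h4 := congrFun (Matrix.mulVec_mulVec (fun y => W.tr A (e y * a))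
      (Matrix.of fun x y => W.tr A (e x * e y)) E) z
    rw [hE, Matrix.one_mulVec] at h4
    rw [mul_sub, map_sub, sub_eq_zero, Finset.mul_sum, map_sum]
    refine h4.symm.trans (Finset.sum_congr rfl fun x _ => ?_)
    rw [mul_smul_comm, map_smul, smul_eq_mul, mul_comm]
    rfl)
  rw [map_sub, sub_eq_zero, map_sum] at h3
  rw [h3]
  refine Finset.sum_congr rfl fun x _ => ?_
  rw [map_smul, h1 _ (hV ▸ Submodule.subset_span ⟨x, rfl⟩)]
  by_cases h4 : x.1 = t
  · simp only [if_pos h4]
    rw [← h4, DirectSum.decompose_of_mem_same _ (he x)]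
  · simp only [if_neg h4, zero_mul, Finset.sum_const_zero, zero_smul]
    rw [DirectSum.decompose_of_mem_ne _ (he x) fun h5 => h4 (hδ h5), smul_zero]

theorem SumB_alg {D : Type} [Fintype D] {e : D → W.H A} {E : Matrix D D K}
    {π : Module.End K (W.H A)} (hπ : W.IsCorr π)
    (h : ∀ a, π a = ∑ x, (∑ y, E x y * W.tr A (e y * a)) • e x) (Y : Var k)
    (r : Bool → Mor Y A) : ∑ I, tmat E I • W.mon e [false, true] r I ∈ W.Alg Y := by
  obtain ⟨P, p, q, hP, c, hc, h1⟩ := Weil.IsCorr.corr W (V := ⊤) hπ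
  have h2 : ∑ x : D × D, E x.1 x.2 • (W.pull p (e x.1) * W.pull q (e x.2)) = c := by
    refine sub_eq_zero.1 (SumB_zero W hP fun a b => ?_)
    rw [sub_mul, mul_sub, map_sub, sub_eq_zero, ← mul_assoc _ c, ← W.Alg_comm hc, mul_assoc c,
      ← h1 a trivial b, h]
    simp only [Finset.sum_mul, Finset.mul_sum, smul_mul_assoc, mul_smul_comm, map_sum, map_smul,
      mul_assoc (W.pull p _), ← map_mul (W.pull q), smul_eq_mul, Fintype.sum_prod_type]
    refine Finset.sum_congr rfl fun x _ => Finset.sum_congr rfl fun y _ => ?_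
    rw [← mul_assoc (W.pull p b), ← map_mul, W.tr_prod hP]
    ring
  have h4 := W.pull_mem_Alg (hP.lift (r false) (r true)) (h2 ▸ hc)
  have e1 : p.comp (hP.lift (r false) (r true)) = r false := Mor.ext' fun x => by simp
  have e2 : q.comp (hP.lift (r false) (r true)) = r true := Mor.ext' fun x => by simp
  simp only [map_sum, map_smul, map_mul, W.pull_pull, e1, e2] at h4
  rw [← (Equiv.boolArrowEquivProd D).sum_comp] at h4
  simpa [tmat, Weil.mon] using h4

/-- The inverse of the Poincaré pairing on a summand is an algebraic tensor. -/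
theorem Weil.Summand.exists_inv (h : W.Summand V) (hδ : Function.Injective δ)
    (he : ∀ x, e x ∈ W.gr A (δ x.1)) (hli : LinearIndependent K e)
    (hV : Submodule.span K (range e) = V) :
    ∃ E' : Matrix (Σ t, n t) (Σ t, n t) K, tmat E' ∈ W.BB e Bool ∧
      (Matrix.of fun x y => W.tr A (1 * (e x * e y))) * E' = (1 : K) • (1 : Matrix _ _ K) := by
  obtain ⟨E, h1, h2⟩ := SumB_inv W h he hli hV
  refine ⟨E, ?_, by simpa only [one_mul, one_smul] using h1⟩
  have h3 : tmat E = ∑ t, tmat (Matrix.of fun x y => if x.1 = t then E x y else 0) := by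
    funext I
    simp [tmat]
  suffices h4 : ∀ t, tmat (Matrix.of fun x y => if x.1 = t then E x y else 0) ∈ W.BB e Bool by
    rw [h3]
    generalize W.BB e Bool = S at h4 ⊢
    exact sum_mem fun t _ => h4 t
  intro t
  obtain ⟨π, hπ, -, h4, h5⟩ := h (δ t)
  rw [Weil.mem_BB]
  refine W.mem_BB_of_cont he (τ := fun j => cond j
    (if h : ∃ s, δ t + δ s = 2 * A.d then h.choose else t) t) (fun I hI j => ?_) cpl_bool
    (SumB_alg W hπ (SumB_pi W hδ he hV h1 h4 h5))
  simp only [tmat, ne_eq, ite_eq_right_iff, Classical.not_imp] at hI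
  cases j with
  | false => exact hI.1
  | true =>
    have h6 := h2 _ _ hI.2
    rw [hI.1] at h6
    have h7 : ∃ s, δ t + δ s = 2 * A.d := ⟨_, h6⟩
    have h8 := h7.choose_spec
    simp only [cond_true, dif_pos h7]
    exact hδ (by omega)

omit [Fintype T] [DecidableEq T] [∀ t, Fintype (n t)] [∀ t, DecidableEq (n t)] in
/-- From the tensor statement to conjecture D. -/
theorem Weil.eq_zero_of_motBy {D : Type} [Fintype D] {e : D → W.H A}
    (hV : Submodule.span K (range e) = V)
    (h0 : ∀ (ι : Type) [Fintype ι], ∀ u ∈ nul (W.TT e) (W.BB e) ι, u = 0) {X : Var k}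
    (hX : W.MotBy V X) {a : W.H X} (ha : a ∈ W.Alg X)
    (h : ∀ Z, IsSub Z → W.tr X (W.cl X Z * a) = 0) : a = 0 := by
  classical
  by_contra hne
  obtain ⟨Y, f, Z, l, hZ, hl, h3⟩ := hX a hne
  have hZ' := W.cl_mem_Alg hZ
  have hz := W.mul_mem_Alg hZ' (W.pull_mem_Alg f ha)
  have h4 : ∀ b ∈ W.Alg Y, W.tr Y (W.cl Y Z * W.pull f a * b) = 0 := fun b hb => by
    obtain ⟨z, hz', h5⟩ := W.exists_push f (W.mul_mem_Alg hZ' hb)
    rw [mul_assoc, ← W.Alg_comm hb, ← mul_assoc, h5]
    by_contra h6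
    obtain ⟨C, hC, h7⟩ := W.exists_cl_of_Alg hz' h6
    exact h7 (h C hC)
  choose c hc using fun j : Fin l.length => (Submodule.mem_span_range_iff_exists_fun K).1
    (hV ▸ hl (l.get j) (List.get_mem l j))
  have h1 := h0 (Fin l.length) (fun I => W.tr Y (W.cl Y Z * W.pull f a *
    W.mon e (List.finRange l.length) (fun j => (l.get j).1) I)) (mem_nul.2
      ⟨Submodule.subset_span ⟨_, Y, _, _, cpl_finRange _, hz, rfl⟩,
        fun b hb => by
          rw [← h4 _ (W.mem_BB.1 hb _ Y (fun j => (l.get j).1) (cpl_finRange _))]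
          simp only [tpair, Finset.mul_sum, mul_smul_comm, map_sum, map_smul, smul_eq_mul,
            mul_assoc]
          exact Finset.sum_congr rfl fun I _ => mul_comm _ _⟩)
  have h2 : (l.map fun x => W.pull x.1 x.2) = (List.finRange l.length).map fun j =>
      ∑ x, c j x • W.pull (l.get j).1 (e x) := by
    conv_lhs => rw [← List.map_get_finRange l, List.map_map]
    congr 1
    funext j
    simp only [Function.comp_apply, ← hc j, map_sum, map_smul]
  refine h3 ?_
  rw [h2, (cpl_finRange _).prod_sum, ← mul_assoc, Finset.mul_sum, map_sum]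
  refine Finset.sum_eq_zero fun J _ => ?_
  rw [mul_smul_comm, map_smul]
  exact smul_eq_zero_of_right _ (congrFun h1 J)

end Pool.Agent.MP_0c8446_ag
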