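import Pool.Agent.MP_0c8446_ag.GI.FinalC
import Pool.Agent.MP_0c8446_ag.GI.SumB

namespace Pool.Agent.MP_0c8446_ag

open Set Matrix

universe u v w x

variable {k : Type u} [Field k] [IsAlgClosed k] {K : Type v} [Field K] [CharZero K]
  {W : Weil.{u, v, w} k K} {G : Type x} [Group G] [MulSemiringAction G k]

theorem gi_mot (ρ : W.Gal G) {A : Var k} (hA : A.Over G) {V : Submodule K (W.H A)}
    (hS : W.Summand V) (hV : ∀ σ, ∀ a ∈ V, ρ.act A σ a ∈ V) (hN : ρ.NoIso V) {X : Var k}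
    (hX : W.MotBy V X) {j : ℕ} {α : Set X.pts →₀ ℚ} (hα : IsCycle j α)
    (hnum : ∀ β, IsCycle (X.d - j) β → W.tr X (W.cycleClass α * W.cycleClass β) = 0) :
    W.cycleClass α = 0 := by
  obtain ⟨n, e, Φ, he, hli, hsp, hΦ, h1⟩ := hS.exists_basis
  have hV' : ∀ x, e x ∈ V := fun x => hsp ▸ Submodule.subset_span ⟨x, rfl⟩
  have hi : Function.Injective fun t : Fin (2 * A.d + 1) => ((t : ℕ) : K) :=
    Nat.cast_injective.comp Fin.val_injective
  obtain ⟨E', hE', hEE⟩ := hS.exists_inv W Fin.val_injective he hli hsp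
  refine W.eq_zero_of_motBy hsp (gi_core ρ hA hV hN he hli hsp hi (W.tfam_TT3 hV' hΦ h1)
    (W.tfam_BB3 he hi hV' hΦ h1) (W.tcon_TT3 e) (W.tmat_TT (W.one_mem_Alg A)) hE' one_ne_zero hEE
    (j₀ := A.d) fun x y h => ?_) hX (W.gi_mem hα).1 (W.gi_num hα hnum)
  by_contra h2
  refine h ?_
  rw [of_apply, one_mul]
  exact W.tr_mul_gr (he x) (he y) (by omega)

end Pool.Agent.MP_0c8446_ag
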