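import Pool.Agent.MP_0c8446_ag.GI.Gal2

namespace Pool.Agent.MP_0c8446_ag

open Set
open scoped TensorProduct

universe u v w x

variable {k : Type u} [Field k] [IsAlgClosed k] {K : Type v} [Field K] [CharZero K]
  {G : Type x} [Group G] [MulSemiringAction G k]

omit [IsAlgClosed k] [CharZero K] in
theorem Gal3_mon_gr {W : Weil.{u, v, w} k K} {A Y : Var k} {D ι : Type} [Fintype ι]
    {e : D → W.H A} {δ : D → ℕ} (he : ∀ x, e x ∈ W.gr A (δ x)) {l : List ι} (hl : Cpl l)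
    (p : ι → Mor Y A) (I : ι → D) : W.mon e l p I ∈ W.gr Y (∑ j, δ (I j)) := by
  classical
  have h := SetLike.list_prod_map_mem_graded (A := W.gr Y) l (fun j => δ (I j))
    (fun j => W.pull (p j) (e (I j))) fun j _ => W.pull_gr _ _ _ (he _)
  rwa [← List.sum_toFinset _ hl.1,
    Finset.eq_univ_of_forall fun x => List.mem_toFinset.2 (hl.2 x)] at h

/-- The vectors that are semi-invariant index by index. -/
def Gal3_S (k : Type u) {D ι : Type} [Fintype D] [Fintype ι] [DecidableEq ι] {G : Type x}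
    [SMul G k] (M : G → Matrix D D K) (c : G → (ι → D) → K) : Submodule K ((ι → D) → K) where
  carrier := {u | ∃ s : Finset k, ∀ σ : G, (∀ a ∈ s, σ • a = a) →
    ∀ I, tact (M σ) u I = c σ I * u I}
  zero_mem' := ⟨∅, fun σ _ I => by rw [tact_zero, Pi.zero_apply, mul_zero]⟩
  add_mem' := by
    classical
    rintro u u' ⟨s, h⟩ ⟨s', h'⟩
    exact ⟨s ∪ s', fun σ hσ I => by
      rw [tact_add, Pi.add_apply, h σ fun a ha => hσ a (Finset.mem_union_left _ ha),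
        h' σ fun a ha => hσ a (Finset.mem_union_right _ ha), Pi.add_apply, mul_add]⟩
  smul_mem' := by
    rintro a u ⟨s, h⟩
    exact ⟨s, fun σ hσ I => by
      rw [tact_smul, Pi.smul_apply, h σ hσ, Pi.smul_apply, smul_eq_mul, smul_eq_mul,
        mul_left_comm]⟩

theorem Gal3_le {W : Weil.{u, v, w} k K} (ρ : W.Gal G) {A : Var k} (hA : A.Over G)
    {D : Type} [Fintype D] {e : D → W.H A} {δ : D → ℕ} (he : ∀ x, e x ∈ W.gr A (δ x))
    (M : G → Matrix D D K) (hM : ∀ σ x, ρ.act A σ (e x) = ∑ y, M σ y x • e y) (ι : Type)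
    [Fintype ι] [DecidableEq ι] :
    W.TT e ι ≤ Gal3_S k M fun σ I => (ρ.χ σ : K) ^ ((∑ j, δ (I j)) / 2) := by
  refine Submodule.span_le.2 ?_
  rintro _ ⟨l, Y, p, z, hl, hz, rfl⟩
  obtain ⟨Y', δ', p', hY', hp', hδ⟩ := exists_over (G := G) hA p
  obtain ⟨z', hz', hpush⟩ := W.exists_push δ' hz
  let L : W.H Y' →ₗ[K] ((ι → D) → K) :=
    LinearMap.pi fun I => W.tr Y' ∘ₗ LinearMap.mulRight K (W.mon e l p' I)
  have hL : ∀ a I, L a I = W.tr Y' (a * W.mon e l p' I) := fun _ _ => rfl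
  have e1 : (fun I => W.tr Y (z * W.mon e l p I)) = L z' := by
    funext I
    rw [hL, ← hpush, W.pull_mon]
    simp only [hδ]
  rw [e1]
  suffices h : W.Alg Y' ≤
      (Gal3_S k M fun σ I => (ρ.χ σ : K) ^ ((∑ j, δ (I j)) / 2)).comap L from h hz'
  refine Submodule.span_le.2 ?_
  rintro _ ⟨Z, hZ, rfl⟩
  have hZ : IsSub Z := hZ
  obtain ⟨s, hstab⟩ := exists_stab2 hY' hZ.2
  refine ⟨s, fun σ hσ I => ?_⟩
  have h1 : tact (M σ) (L (W.cl Y' Z)) I = W.tr Y' (W.cl Y' Z * ρ.act Y' σ (W.mon e l p' I)) := by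
    rw [GalB_act_mon ρ hA M hM hl hY' hp', Finset.mul_sum, map_sum]
    refine Finset.sum_congr rfl fun J _ => ?_
    rw [hL, mul_smul_comm, map_smul, smul_eq_mul, mul_comm]
  rw [h1, hL]
  by_cases hd : ∑ j, δ (I j) = 2 * dim Z
  swap
  · rw [W.tr_cl_mul_gr hZ (Gal3_mon_gr he hl p' I) hd,
      W.tr_cl_mul_gr hZ (ρ.act_gr _ _ _ _ (Gal3_mon_gr he hl p' I)) hd, mul_zero]
  have h2 := ρ.tr_act hY' σ (W.cl Y' Z * W.mon e l p' I)
  rw [map_mul, ρ.act_cl Y' hY' σ Z hZ, hstab σ hσ, smul_mul_assoc, map_smul, smul_eq_mul,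
    ← Nat.sub_add_cancel (Y'.dim_le Z), pow_add, Nat.add_sub_cancel, mul_assoc] at h2
  have h3 := mul_left_cancel₀ (pow_ne_zero _ (ρ.χ σ).ne_zero) h2
  simp only [hd]
  rw [h3, Nat.mul_div_cancel_left _ two_pos]

/-- Algebraic forms are semi-invariant degree by degree. -/
theorem Weil.Gal.tact_TT3 {W : Weil.{u, v, w} k K} (ρ : W.Gal G) {A : Var k} (hA : A.Over G)
    {D : Type} [Fintype D] {e : D → W.H A} {δ : D → ℕ} (he : ∀ x, e x ∈ W.gr A (δ x))
    (M : G → Matrix D D K) (hM : ∀ σ x, ρ.act A σ (e x) = ∑ y, M σ y x • e y) (ι : Type)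
    [Fintype ι] [DecidableEq ι] : ∃ s : Finset k, ∀ σ : G, (∀ c ∈ s, σ • c = c) →
      ∀ u ∈ W.TT e ι, ∀ I, tact (M σ) u I = (ρ.χ σ : K) ^ ((∑ j, δ (I j)) / 2) * u I := by
  classical
  obtain ⟨T, hT⟩ : ∃ T : Finset ((ι → D) → K), Submodule.span K (T : Set _) = W.TT e ι :=
    IsNoetherian.noetherian (W.TT e ι)
  choose! s hs using fun u (hu : u ∈ T) =>
    Gal3_le ρ hA he M hM ι (hT ▸ Submodule.subset_span hu : u ∈ W.TT e ι)
  refine ⟨T.biUnion s, fun σ hσ u hu I => ?_⟩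
  rw [← hT] at hu
  induction hu using Submodule.span_induction with
  | mem x hx => exact hs x hx σ (fun a ha => hσ a (Finset.mem_biUnion.2 ⟨x, hx, ha⟩)) I
  | zero => rw [tact_zero, Pi.zero_apply, mul_zero]
  | add x y _ _ hx hy => rw [tact_add, Pi.add_apply, hx, hy, Pi.add_apply, mul_add]
  | smul a x _ hx =>
    rw [tact_smul, Pi.smul_apply, hx, Pi.smul_apply, smul_eq_mul, smul_eq_mul, mul_left_comm]

end Pool.Agent.MP_0c8446_ag
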