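import Pool.Agent.MP_0c8446_ag.GI.TBasic
import Pool.Agent.MP_0c8446_ag.GI.BruW

namespace Pool.Agent.MP_0c8446_ag

open Matrix

universe u

variable {T : Type} [Fintype T] [DecidableEq T] {n : T → Type} [∀ t, Fintype (n t)]
  [∀ t, DecidableEq (n t)] {ι : Type} [Fintype ι] [DecidableEq ι]

/-- All weights of `u` are at least one. -/
def KempfF {κ : Type u} [Field κ] {D ι : Type} [Fintype ι] (w : D → ℝ) (u : (ι → D) → κ) : Prop :=
  ∀ I, u I ≠ 0 → 1 ≤ ∑ j, w (I j)

theorem Kempf_stab {κ : Type u} [Field κ] {w w' : (Σ t, n t) → ℝ}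
    {M : ∀ t, Matrix (n t) (n t) κ} (hM : ∀ t i j, M t i j ≠ 0 → w ⟨t, i⟩ ≤ w' ⟨t, j⟩)
    {u : (ι → Σ t, n t) → κ} (hu : KempfF w u) : KempfF w' (tact (blockDiagonal' M) u) := by
  intro I hI
  obtain ⟨J, hJ, hJI⟩ := tact_ne_zero hI
  refine (hu J hJ).trans (Finset.sum_le_sum fun j _ => ?_)
  have h := hJI j
  generalize J j = d at h
  generalize I j = e at h
  obtain ⟨t, i⟩ := d
  obtain ⟨t', i'⟩ := e
  by_cases htt : t = t'
  · subst htt
    rw [blockDiagonal'_apply_eq] at h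
    exact hM t i i' h
  · rw [blockDiagonal'_apply_ne _ _ _ htt] at h
    exact absurd rfl h

theorem Kempf_stab' {κ : Type u} [Field κ] {w : (Σ t, n t) → ℝ}
    {M : ∀ t, Matrix (n t) (n t) κ} (hM : ∀ t, (M t).BlockTriangular fun i => w ⟨t, i⟩)
    {u : (ι → Σ t, n t) → κ} (hu : KempfF w u) : KempfF w (tact (blockDiagonal' M) u) :=
  Kempf_stab (fun t _ _ h => not_lt.1 fun hlt => h (hM t hlt)) hu

theorem Kempf_tact {κ : Type u} [Field κ] (M N : ∀ t, Matrix (n t) (n t) κ)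
    (u : (ι → Σ t, n t) → κ) :
    tact (blockDiagonal' N) (tact (blockDiagonal' M) u) =
      tact (blockDiagonal' fun t => M t * N t) u := by
  rw [blockDiagonal'_mul, tact_mul]

/-- The destabilising weights. -/
def KempfD {κ : Type u} [Field κ] (a : (ι → Σ t, n t) → κ) : Set ((Σ t, n t) → ℝ) :=
  {w | (∀ t, ∑ i, w ⟨t, i⟩ = 0) ∧ ∃ g : ∀ t, Matrix (n t) (n t) κ, (∀ t, IsUnit (g t)) ∧
    KempfF w (tact (blockDiagonal' g) a)}

theorem Kempf_closed {κ : Type u} [Field κ] (a : (ι → Σ t, n t) → κ) : IsClosed (KempfD a) := by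
  have h : KempfD a = ⋃ S : {S : Set (ι → Σ t, n t) | ∃ g : ∀ t, Matrix (n t) (n t) κ,
      (∀ t, IsUnit (g t)) ∧ S = {I | tact (blockDiagonal' g) a I ≠ 0}},
      ((⋂ t, {w : (Σ t, n t) → ℝ | ∑ i, w ⟨t, i⟩ = 0}) ∩
        ⋂ I ∈ S.1, {w : (Σ t, n t) → ℝ | 1 ≤ ∑ j, w (I j)}) := by
    ext w
    simp only [KempfD, Set.mem_setOf_eq, Set.mem_iUnion, Set.mem_inter_iff, Set.mem_iInter]
    constructor
    · rintro ⟨h0, g, hg, hF⟩
      exact ⟨⟨_, g, hg, rfl⟩, h0, fun I hI => hF I hI⟩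
    · rintro ⟨⟨S, g, hg, rfl⟩, h0, hF⟩
      exact ⟨h0, g, hg, fun I hI => hF I hI⟩
  rw [h]
  refine isClosed_iUnion_of_finite fun S => IsClosed.inter ?_ ?_
  · exact isClosed_iInter fun t => isClosed_eq (by fun_prop) continuous_const
  · exact isClosed_biInter fun I _ => isClosed_le continuous_const (by fun_prop)

theorem Kempf_min {D : Type} [Fintype D] {S : Set (D → ℝ)} (hS : IsClosed S) (hne : S.Nonempty) :
    ∃ w ∈ S, ∀ v ∈ S, ∑ d, w d ^ 2 ≤ ∑ d, v d ^ 2 := by
  have hc : IsClosed ((fun x : EuclideanSpace ℝ D => x.ofLp) ⁻¹' S) :=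
    hS.preimage (by fun_prop)
  obtain ⟨v0, hv0⟩ := hne
  obtain ⟨x, hx, hd⟩ := hc.exists_infDist_eq_dist ⟨WithLp.toLp 2 v0, hv0⟩ 0
  refine ⟨x.ofLp, hx, fun v hv => ?_⟩
  have h1 : Metric.infDist (0 : EuclideanSpace ℝ D)
      ((fun x : EuclideanSpace ℝ D => x.ofLp) ⁻¹' S) ≤ dist 0 (WithLp.toLp 2 v) :=
    Metric.infDist_le_dist_of_mem hv
  rw [hd, dist_zero_left, dist_zero_left] at h1
  have h2 := pow_le_pow_left₀ (norm_nonneg _) h1 2
  rwa [EuclideanSpace.real_norm_sq_eq, EuclideanSpace.real_norm_sq_eq] at h2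

theorem Kempf_par {D : Type} [Fintype D] {w w' : D → ℝ} (h1 : ∑ d, w' d ^ 2 = ∑ d, w d ^ 2)
    (h2 : ∑ d, w d ^ 2 ≤ ∑ d, ((w d + w' d) / 2) ^ 2) : w' = w := by
  have h3 : ∑ d, ((w d + w' d) / 2) ^ 2 =
      (∑ d, w d ^ 2 + ∑ d, w' d ^ 2) / 2 - (∑ d, (w' d - w d) ^ 2) / 4 := by
    rw [← Finset.sum_add_distrib, Finset.sum_div, Finset.sum_div, ← Finset.sum_sub_distrib]
    exact Finset.sum_congr rfl fun d _ => by ring
  have h4 : ∑ d, (w' d - w d) ^ 2 = 0 :=
    le_antisymm (by linarith) (Finset.sum_nonneg fun d _ => sq_nonneg _)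
  funext d
  have h5 := (Finset.sum_eq_zero_iff_of_nonneg fun d _ => sq_nonneg (w' d - w d)).1 h4 d
    (Finset.mem_univ d)
  exact sub_eq_zero.1 (pow_eq_zero_iff two_ne_zero |>.1 h5)

theorem Kempf_perm {κ : Type u} [Field κ] {m : Type} [Fintype m] [DecidableEq m]
    (σ : Equiv.Perm m) :
    (Matrix.of fun j i => if j = σ i then (1 : κ) else 0) *
      (Matrix.of fun i j => if j = σ i then (1 : κ) else 0) = 1 := by
  ext j j'
  rw [Matrix.mul_apply, Finset.sum_eq_single (σ.symm j)]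
  · simp [Matrix.one_apply, eq_comm]
  · intro i _ hi
    have : j ≠ σ i := fun h => hi (by rw [h, Equiv.symm_apply_apply])
    simp [this]
  · simp

theorem Kempf_tri {κ : Type u} [Field κ] {a : (ι → Σ t, n t) → κ} {w : (Σ t, n t) → ℝ}
    (hw : ∀ t, ∑ i, w ⟨t, i⟩ = 0) {g : ∀ t, Matrix (n t) (n t) κ} (hg : ∀ t, IsUnit (g t))
    (hF : KempfF w (tact (blockDiagonal' g) a))
    (hmin : ∀ v ∈ KempfD a, ∑ d, w d ^ 2 ≤ ∑ d, v d ^ 2)
    {h : ∀ t, Matrix (n t) (n t) κ} (hh : ∀ t, IsUnit (h t)) {c : κ}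
    (hc : tact (blockDiagonal' h) a = c • a) (t : T) :
    ((g t)⁻¹ * h t * g t).BlockTriangular fun i => w ⟨t, i⟩ := by
  have hk : ∀ t, IsUnit ((g t)⁻¹ * h t * g t) := fun t =>
    ((Matrix.isUnit_nonsing_inv_iff.2 (hg t)).mul (hh t)).mul (hg t)
  choose b b' σ hb hb' hbt hbt' hk' using fun t => exists_bruhat_w (fun i => w ⟨t, i⟩) (hk t)
  set x := tact (blockDiagonal' g) a with hx
  have hgd : ∀ t, IsUnit (g t).det := fun t => (Matrix.isUnit_iff_isUnit_det _).1 (hg t)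
  have hbd : ∀ t, IsUnit (b' t).det := fun t => (Matrix.isUnit_iff_isUnit_det _).1 (hb' t)
  have h1 : tact (blockDiagonal' fun t => (g t)⁻¹ * h t * g t) x = c • x := by
    rw [hx, Kempf_tact, ← tact_smul, ← hc, Kempf_tact]
    congr 2
    funext t
    rw [← Matrix.mul_assoc, ← Matrix.mul_assoc, Matrix.mul_nonsing_inv _ (hgd t), Matrix.one_mul]
  have h2 : KempfF w (c • x) := fun I hI => hF I fun h0 => hI (by simp [h0])
  have h3 : KempfF w (tact (blockDiagonal' fun t => (b' t)⁻¹) (c • x)) := by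
    refine Kempf_stab' (fun t => ?_) h2
    letI := (hb' t).invertible
    exact Matrix.blockTriangular_inv_of_blockTriangular (hbt' t)
  set w' : (Σ t, n t) → ℝ := fun d => w ⟨d.1, (σ d.1).symm d.2⟩ with hw'
  have h4 : KempfF w' (tact (blockDiagonal' fun t =>
      (Matrix.of fun i j => if j = σ t i then (1 : κ) else 0))
      (tact (blockDiagonal' fun t => (b' t)⁻¹) (c • x))) := by
    refine Kempf_stab (fun t i j hij => ?_) h3
    have : j = σ t i := by
      by_contra hne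
      exact hij (by simp [hne])
    simp [hw', this]
  have h5 : tact (blockDiagonal' fun t =>
      (Matrix.of fun i j => if j = σ t i then (1 : κ) else 0))
      (tact (blockDiagonal' fun t => (b' t)⁻¹) (c • x)) =
      tact (blockDiagonal' fun t => g t * b t) a := by
    rw [← h1, Kempf_tact, Kempf_tact, ← Kempf_tact g b]
    congr 2
    funext t
    rw [hk' t, Matrix.mul_assoc, Matrix.mul_assoc, ← Matrix.mul_assoc (b' t),
      Matrix.mul_nonsing_inv _ (hbd t), Matrix.one_mul, Kempf_perm, Matrix.mul_one]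
  rw [h5] at h4
  have h6 : KempfF w (tact (blockDiagonal' fun t => g t * b t) a) := by
    rw [← Kempf_tact]
    exact Kempf_stab' hbt hF
  have hs : ∀ (f : ℝ → ℝ) (t : T), ∑ i, f (w' ⟨t, i⟩) = ∑ i, f (w ⟨t, i⟩) := fun f t =>
    Equiv.sum_comp (σ t).symm fun i => f (w ⟨t, i⟩)
  have h7 : (fun d => (w d + w' d) / 2) ∈ KempfD a := by
    refine ⟨fun t => ?_, _, fun t => (hg t).mul (hb t), fun I hI => ?_⟩
    · have := hs id t
      simp only [id] at this
      rw [← Finset.sum_div, Finset.sum_add_distrib, this, hw t]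
      norm_num
    · have e1 := h4 I hI
      have e2 := h6 I hI
      rw [← Finset.sum_div, Finset.sum_add_distrib]
      linarith
  have h8 : w' = w := by
    refine Kempf_par ?_ (hmin _ h7)
    rw [Fintype.sum_sigma, Fintype.sum_sigma]
    exact Finset.sum_congr rfl fun t _ => hs (fun r => r ^ 2) t
  rw [hk' t]
  refine ((hbt t).mul ?_).mul (hbt' t)
  intro j i hlt
  have hne : j ≠ σ t i := by
    rintro rfl
    have := congrFun h8 ⟨t, σ t i⟩
    simp only [hw', Equiv.symm_apply_apply] at this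
    exact absurd hlt (by simp [this])
  simp [hne]

/-- Kempf: a line of tensors fixed by a set of matrices acting irreducibly on each block is not
destabilised by a one-parameter subgroup of the product of the special linear groups. -/
theorem kempf {κ : Type u} [Field κ] {a : (ι → Σ t, n t) → κ} (ha : a ≠ 0)
    (H : Set (∀ t, Matrix (n t) (n t) κ))
    (hH : ∀ h ∈ H, (∀ t, IsUnit (h t)) ∧ ∃ c : κ, tact (blockDiagonal' h) a = c • a)
    (hirr : ∀ t, Algebra.adjoin κ ((fun h => h t) '' H) = ⊤)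
    (g : ∀ t, Matrix (n t) (n t) κ) (hg : ∀ t, IsUnit (g t)) (w : (Σ t, n t) → ℝ)
    (hw : ∀ t, ∑ i, w ⟨t, i⟩ = 0)
    (hpos : ∀ I, tact (blockDiagonal' g) a I ≠ 0 → 0 < ∑ j, w (I j)) : False := by
  classical
  have hne : (KempfD a).Nonempty := by
    have h0 : (Finset.univ.filter fun I => tact (blockDiagonal' g) a I ≠ 0).Nonempty := by
      by_contra hcon
      rw [Finset.not_nonempty_iff_eq_empty, Finset.filter_eq_empty_iff] at hcon
      refine ha (tact_eq_zero (isUnit_blockDiagonal' hg) (funext fun I => ?_))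
      exact not_not.1 (hcon (Finset.mem_univ I))
    obtain ⟨I0, hI0, hm⟩ := Finset.exists_min_image _ (fun I => ∑ j, w (I j)) h0
    have hp := hpos I0 (Finset.mem_filter.1 hI0).2
    refine ⟨fun d => w d / ∑ j, w (I0 j), fun t => ?_, g, hg, fun I hI => ?_⟩
    · rw [← Finset.sum_div, hw t, zero_div]
    · rw [← Finset.sum_div, le_div_iff₀ hp, one_mul]
      exact hm I (Finset.mem_filter.2 ⟨Finset.mem_univ _, hI⟩)
  obtain ⟨v, ⟨hv, k, hk, hF⟩, hmin⟩ := Kempf_min (Kempf_closed a) hne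
  have hkd : ∀ t, IsUnit (k t).det := fun t => (Matrix.isUnit_iff_isUnit_det _).1 (hk t)
  have hall : ∀ t (x : Matrix (n t) (n t) κ),
      ((k t)⁻¹ * x * k t).BlockTriangular fun i => v ⟨t, i⟩ := by
    intro t x
    have hx : x ∈ Algebra.adjoin κ ((fun h => h t) '' H) := by
      rw [hirr t]
      exact Algebra.mem_top
    induction hx using Algebra.adjoin_induction with
    | mem x hx =>
      obtain ⟨h, hh, rfl⟩ := hx
      obtain ⟨hu, c, hc⟩ := hH h hh
      exact Kempf_tri hv hk hF hmin hu hc t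
    | algebraMap r =>
      rw [Algebra.algebraMap_eq_smul_one, Matrix.mul_smul, Matrix.mul_one, Matrix.smul_mul,
        Matrix.nonsing_inv_mul _ (hkd t)]
      intro i j hlt
      have hij : i ≠ j := by
        rintro rfl
        exact lt_irrefl _ hlt
      simp [Matrix.one_apply_ne hij]
    | add x y _ _ hx hy =>
      rw [Matrix.mul_add, Matrix.add_mul]
      exact hx.add hy
    | mul x y _ _ hx hy =>
      have e : (k t)⁻¹ * (x * y) * k t = ((k t)⁻¹ * x * k t) * ((k t)⁻¹ * y * k t) := by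
        simp only [Matrix.mul_assoc]
        rw [← Matrix.mul_assoc (k t) (k t)⁻¹, Matrix.mul_nonsing_inv _ (hkd t), Matrix.one_mul]
      rw [e]
      exact hx.mul hy
  have hle : ∀ t i j, v ⟨t, i⟩ ≤ v ⟨t, j⟩ := by
    intro t i j
    have h1 := hall t (k t * Matrix.single i j 1 * (k t)⁻¹)
    have e : (k t)⁻¹ * (k t * Matrix.single i j 1 * (k t)⁻¹) * k t = Matrix.single i j (1 : κ) := by
      simp only [Matrix.mul_assoc]
      rw [Matrix.nonsing_inv_mul _ (hkd t), Matrix.mul_one, ← Matrix.mul_assoc,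
        Matrix.nonsing_inv_mul _ (hkd t), Matrix.one_mul]
    rw [e] at h1
    by_contra hlt
    have := h1 (not_le.1 hlt)
    simp at this
  have hz : ∀ d, v d = 0 := by
    rintro ⟨t, i⟩
    have h1 : ∑ j, v ⟨t, j⟩ = ∑ _j : n t, v ⟨t, i⟩ :=
      Finset.sum_congr rfl fun j _ => le_antisymm (hle t j i) (hle t i j)
    rw [hv t, Finset.sum_const, Finset.card_univ, nsmul_eq_mul] at h1
    have h2 : (Fintype.card (n t) : ℝ) ≠ 0 := by
      have : Nonempty (n t) := ⟨i⟩
      exact_mod_cast Fintype.card_ne_zero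
    exact (mul_eq_zero.1 h1.symm).resolve_left h2
  refine ha (tact_eq_zero (isUnit_blockDiagonal' hk) (funext fun I => ?_))
  by_contra hI
  have := hF I hI
  simp only [hz, Finset.sum_const_zero] at this
  norm_num at this

end Pool.Agent.MP_0c8446_ag
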