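import Pool.Agent.MP_0c8446_ag.GI.KDefs
import Pool.Agent.MP_0c8446_ag.GI.Kempf

namespace Pool.Agent.MP_0c8446_ag

open MvPolynomial Matrix

universe v

variable {L : Type v} [Field L] {D ι : Type} [Fintype D] [DecidableEq D] [Fintype ι]
  [DecidableEq ι] {a : (ι → D) → L} {𝓔 : Set (Matrix D D L)}

theorem Kempf2_mul {g c : Matrix D D L} {w w' : D → ℝ} (h : Dst a 𝓔 g w) (hc : IsUnit c)
    (hcw : ∀ i j, c i j ≠ 0 → w i ≤ w' j) (hs : ∑ i, w' i = 0) : Dst a 𝓔 (g * c) w' := by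
  refine ⟨h.unit.mul hc, hs, fun I hI => ?_, fun E hE i j hij => ?_⟩
  · rw [tact_mul] at hI
    obtain ⟨J, hJ, hJI⟩ := tact_ne_zero hI
    exact (h.pos J hJ).trans (Finset.sum_le_sum fun j _ => hcw _ _ (hJI j))
  · have e : (g * c)ᵀ * E * (g * c) = cᵀ * (gᵀ * E * g) * c := by
      simp only [transpose_mul, Matrix.mul_assoc]
    rw [e, Matrix.mul_apply] at hij
    obtain ⟨j', -, hj'⟩ := Finset.exists_ne_zero_of_sum_ne_zero hij
    have h1 := left_ne_zero_of_mul hj'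
    rw [Matrix.mul_apply] at h1
    obtain ⟨i', -, hi'⟩ := Finset.exists_ne_zero_of_sum_ne_zero h1
    have h2 := h.iso E hE i' j' (right_ne_zero_of_mul hi')
    have h3 := hcw i' i (left_ne_zero_of_mul hi')
    have h4 := hcw j' j (right_ne_zero_of_mul hj')
    linarith

theorem Kempf2_tri {g c : Matrix D D L} {w : D → ℝ} (h : Dst a 𝓔 g w) (hc : IsUnit c)
    (hcw : c.BlockTriangular w) : Dst a 𝓔 (g * c) w :=
  Kempf2_mul h hc (fun _ _ e => not_lt.1 fun hlt => e (hcw hlt)) h.sum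

theorem Kempf2_closed (a : (ι → D) → L) (𝓔 : Set (Matrix D D L)) :
    IsClosed {w : D → ℝ | ∃ g, Dst a 𝓔 g w} := by
  have h : {w : D → ℝ | ∃ g, Dst a 𝓔 g w} =
      ⋃ S : {S : Set (ι → D) × Set (D × D) | ∃ g : Matrix D D L, IsUnit g ∧
        S = ({I | tact g a I ≠ 0}, {p | ∃ E ∈ 𝓔, (gᵀ * E * g) p.1 p.2 ≠ 0})},
      ({w : D → ℝ | ∑ i, w i = 0} ∩ (⋂ I ∈ S.1.1, {w : D → ℝ | 1 ≤ ∑ j, w (I j)}) ∩
        ⋂ p ∈ S.1.2, {w : D → ℝ | 0 ≤ w p.1 + w p.2}) := by
    ext w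
    simp only [Set.mem_ofPred_eq, Set.mem_iUnion, Set.mem_inter_iff, Set.mem_iInter]
    constructor
    · rintro ⟨g, hg⟩
      exact ⟨⟨_, g, hg.unit, rfl⟩, ⟨hg.sum, fun I hI => hg.pos I hI⟩,
        fun p ⟨E, hE, hp⟩ => hg.iso E hE _ _ hp⟩
    · rintro ⟨⟨S, g, hg, rfl⟩, ⟨h0, h1⟩, h2⟩
      exact ⟨g, hg, h0, fun I hI => h1 I hI, fun E hE i j hij => h2 (i, j) ⟨E, hE, hij⟩⟩
  rw [h]
  refine isClosed_iUnion_of_finite fun S => IsClosed.inter (IsClosed.inter ?_ ?_) ?_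
  · exact isClosed_eq (by fun_prop) continuous_const
  · exact isClosed_biInter fun I _ => isClosed_le continuous_const (by fun_prop)
  · exact isClosed_biInter fun p _ => isClosed_le continuous_const (by fun_prop)

/-- There is an optimal destabilising pair. -/
theorem exists_opt {g₀ : Matrix D D L} {w₀ : D → ℝ} (h : Dst a 𝓔 g₀ w₀) :
    ∃ g w, Dst a 𝓔 g w ∧ Opt a 𝓔 w := by
  obtain ⟨w, ⟨g, hg⟩, hmin⟩ := Kempf_min (Kempf2_closed a 𝓔) ⟨w₀, g₀, h⟩
  exact ⟨g, w, hg, fun g' w' h' => hmin w' ⟨g', h'⟩⟩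

/-- Kempf: the flag of an optimal destabilising pair is unique. -/
theorem kempf2 {g g' : Matrix D D L} {w : D → ℝ} (h : Dst a 𝓔 g w) (h' : Dst a 𝓔 g' w)
    (hw : Opt a 𝓔 w) : (g⁻¹ * g').BlockTriangular w := by
  have hk : IsUnit (g⁻¹ * g') := (Matrix.isUnit_nonsing_inv_iff.2 h.unit).mul h'.unit
  obtain ⟨b, b', σ, hb, hb', hbt, hbt', hk'⟩ := exists_bruhat_w w hk
  have hgd : IsUnit g.det := (Matrix.isUnit_iff_isUnit_det _).1 h.unit
  have hbd : IsUnit b'.det := (Matrix.isUnit_iff_isUnit_det _).1 hb'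
  have h3 : Dst a 𝓔 (g' * b'⁻¹) w := by
    refine Kempf2_tri h' (Matrix.isUnit_nonsing_inv_iff.2 hb') ?_
    let _ := hb'.invertible
    exact Matrix.blockTriangular_inv_of_blockTriangular hbt'
  set w' : D → ℝ := fun d => w (σ.symm d) with hw'
  have hs : ∀ f : ℝ → ℝ, ∑ i, f (w' i) = ∑ i, f (w i) := fun f =>
    Equiv.sum_comp σ.symm fun i => f (w i)
  have hs0 : ∑ i, w' i = 0 := (hs id).trans h.sum
  have hP : IsUnit (Matrix.of fun i j => if j = σ i then (1 : L) else 0) :=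
    IsUnit.of_mul_eq_one_right _ (Kempf_perm σ)
  have h4 : Dst a 𝓔 (g' * b'⁻¹ * Matrix.of fun i j => if j = σ i then (1 : L) else 0) w' := by
    refine Kempf2_mul h3 hP (fun i j hij => ?_) hs0
    have : j = σ i := by
      by_contra hne
      exact hij (by simp [hne])
    simp [hw', this]
  have h5 : (g' * b'⁻¹ * Matrix.of fun i j => if j = σ i then (1 : L) else 0) = g * b := by
    have e : g' = g * (g⁻¹ * g') := by
      rw [← Matrix.mul_assoc, Matrix.mul_nonsing_inv _ hgd, Matrix.one_mul]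
    rw [e, hk']
    simp only [Matrix.mul_assoc]
    rw [← Matrix.mul_assoc b', Matrix.mul_nonsing_inv _ hbd, Matrix.one_mul, Kempf_perm,
      Matrix.mul_one]
  rw [h5] at h4
  have h6 : Dst a 𝓔 (g * b) w := Kempf2_tri h hb hbt
  have h7 : Dst a 𝓔 (g * b) fun d => (w d + w' d) / 2 := by
    refine ⟨h6.unit, ?_, fun I hI => ?_, fun E hE i j hij => ?_⟩
    · rw [← Finset.sum_div, Finset.sum_add_distrib, hs0, h.sum]
      norm_num
    · have e1 := h4.pos I hI
      have e2 := h6.pos I hI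
      rw [← Finset.sum_div, Finset.sum_add_distrib]
      linarith
    · have e1 := h4.iso E hE i j hij
      have e2 := h6.iso E hE i j hij
      linarith
  have h8 : w' = w := Kempf_par (hs fun r => r ^ 2) (hw _ _ h7)
  rw [hk']
  refine (hbt.mul ?_).mul hbt'
  intro j i hlt
  have hne : j ≠ σ i := by
    rintro rfl
    have := congrFun h8 (σ i)
    simp only [hw', Equiv.symm_apply_apply] at this
    exact absurd hlt (by simp [this])
  simp [hne]

end Pool.Agent.MP_0c8446_ag
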