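import Pool.Agent.MP_0c8446_ag.GI.LvC

namespace Pool.Agent.MP_0c8446_ag

open MvPolynomial Matrix

universe v

variable {L : Type v} [Field L] [IsAlgClosed L] [CharZero L] {D ι : Type} [Fintype D]
  [DecidableEq D] [Fintype ι] [DecidableEq ι]

section

variable {D' : Type} [Fintype D'] [DecidableEq D'] (e : D' ≃ D)

omit [IsAlgClosed L] [CharZero L] [DecidableEq D] [DecidableEq D'] in
theorem LvD_tact (g : Matrix D D L) (a : (ι → D) → L) (I : ι → D') :
    tact (g.submatrix e e) (fun J => a (e ∘ J)) I = tact g a (e ∘ I) :=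
  Fintype.sum_equiv (Equiv.piCongrRight fun _ => e) _ _ fun _ => rfl

omit [IsAlgClosed L] [CharZero L] [DecidableEq D] [DecidableEq D'] in
theorem LvD_conj (g E : Matrix D D L) :
    (g.submatrix e e)ᵀ * E.submatrix e e * g.submatrix e e = (gᵀ * E * g).submatrix e e := by
  rw [transpose_submatrix, submatrix_mul_equiv, submatrix_mul_equiv]

omit [IsAlgClosed L] [CharZero L] in
theorem LvD_unit {g : Matrix D D L} (h : IsUnit g) : IsUnit (g.submatrix e e) := by
  rwa [isUnit_iff_isUnit_det, det_submatrix_equiv_self, ← isUnit_iff_isUnit_det]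

omit [IsAlgClosed L] [CharZero L] in
theorem LvD_dst {a : (ι → D) → L} {𝓔 : Set (Matrix D D L)} {g : Matrix D D L} {w : D → ℝ}
    (h : Dst a 𝓔 g w) : Dst (fun J => a (e ∘ J)) ((fun E => E.submatrix e e) '' 𝓔)
      (g.submatrix e e) fun i => w (e i) := by
  refine ⟨LvD_unit e h.unit, by rw [e.sum_comp w, h.sum], fun I hI => ?_, ?_⟩
  · rw [LvD_tact] at hI
    exact h.pos _ hI
  · rintro _ ⟨E, hE, rfl⟩ i j hij
    rw [LvD_conj] at hij
    exact h.iso E hE _ _ hij

omit [IsAlgClosed L] [CharZero L] in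
theorem LvD_low (g : Matrix D D L) (w : D → ℝ) (r : ℝ) :
    lowD (g.submatrix e e) (fun i => w (e i)) r = lowD g w r := by
  classical
  unfold lowD
  rw [← det_submatrix_equiv_self
    (e.subtypeEquiv (p := fun j => w (e j) ≤ r) (q := fun j => w j ≤ r) fun _ => Iff.rfl)]
  congr 1

end

omit [IsAlgClosed L] [CharZero L] in
theorem LvD_opt {D' : Type} [Fintype D'] [DecidableEq D'] (e : D' ≃ D) {a : (ι → D) → L}
    {𝓔 : Set (Matrix D D L)} {w : D → ℝ} (h : Opt a 𝓔 w) :
    Opt (fun J => a (e ∘ J)) ((fun E => E.submatrix e e) '' 𝓔) fun i => w (e i) := by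
  intro g' w' h'
  have h1 := LvD_dst e.symm h'
  have ea : (fun J : ι → D => a (e ∘ e.symm ∘ J)) = a := by
    funext J
    congr 1
    funext j
    simp
  have eE : (fun E : Matrix D' D' L => E.submatrix e.symm e.symm) ''
      ((fun E : Matrix D D L => E.submatrix e e) '' 𝓔) = 𝓔 := by
    rw [Set.image_image]
    simp
  rw [ea, eE] at h1
  have := h _ _ h1
  rw [e.sum_comp fun i => w i ^ 2, ← e.symm.sum_comp fun i => w' i ^ 2]
  exact this

/-- The same for any index type. -/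
theorem lev_rel {w : D → ℝ} {a : (ι → D) → L} (ha : a ≠ 0) {𝓔 : Set (Matrix D D L)}
    (h : Dst a 𝓔 1 w) (hw : Opt a 𝓔 w) {E₀ : Matrix D D L} (hE₀ : E₀ ∈ 𝓔) (hu : IsUnit E₀)
    {G : Type*} [Group G] (ρ : G →* Matrix D D L) (cx cE : G →* L)
    (hρ : ∀ σ, (ρ σ).BlockTriangular w) (hx : ∀ σ, tact (ρ σ) a = cx σ • a)
    (hE : SemiSp ρ cE 𝓔) :
    ∃ (M : Multiset D) (m m' c N : ℕ), M ≠ 0 ∧ (∀ i ∈ M, w i < 0) ∧
      ∀ σ, cx σ ^ m * cE σ ^ m' * (M.map fun i => lowD (ρ σ) w (w i)).prod *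
        (ρ σ).det ^ (2 * c) = (ρ σ).det ^ (2 * N) := by
  obtain ⟨T, _, _, v, τ, hi, hτ⟩ : ∃ (T : Type) (_ : Fintype T) (_ : DecidableEq T) (v : T → ℝ)
      (τ : D → T), Function.Injective v ∧ ∀ i, v (τ i) = w i := by
    classical
    exact ⟨{r // r ∈ Finset.univ.image w}, FinsetCoe.fintype _, inferInstance, Subtype.val,
      fun i => ⟨w i, Finset.mem_image_of_mem w (Finset.mem_univ i)⟩, Subtype.val_injective,
      fun _ => rfl⟩
  let e : (Σ t, {i // τ i = t}) ≃ D := Equiv.sigmaFiberEquiv τ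
  have hv : (fun i : Σ t, {i // τ i = t} => v i.1) = fun i => w (e i) := by
    funext i
    exact (congrArg v i.2.2).symm.trans (hτ _)
  have hv' : ∀ i : Σ t, {i // τ i = t}, v i.1 = w (e i) := congrFun hv
  let ρ' : G →* Matrix (Σ t, {i // τ i = t}) (Σ t, {i // τ i = t}) L :=
    { toFun := fun σ => (ρ σ).submatrix e e
      map_one' := by rw [map_one, submatrix_one_equiv]
      map_mul' := fun σ σ' => by rw [map_mul, submatrix_mul_equiv] }
  have hd := LvD_dst e h
  rw [submatrix_one_equiv, ← hv] at hd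
  have ho := LvD_opt e hw
  rw [← hv] at ho
  have ha' : (fun J : ι → Σ t, {i // τ i = t} => a (e ∘ J)) ≠ 0 := fun h0 => ha (by
    funext I
    have := congrFun h0 (e.symm ∘ I)
    simpa [← Function.comp_assoc] using this)
  obtain ⟨M, m, m', c, N, h1, h2, h3⟩ := lev_blk (v := v)
    (n := fun t => {i // τ i = t}) hi ha' hd ho ⟨E₀, hE₀, rfl⟩
    (LvD_unit e hu) ρ' cx cE (fun σ i j hij => hρ σ (show w (e j) < w (e i) by rwa [← hv', ← hv']))
    (fun σ => funext fun I => (LvD_tact e (ρ σ) a I).trans (by rw [hx]; rfl))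
    (hE.map (RingHom.id L) _ (fun _ _ => rfl) (fun _ _ => rfl) fun σ E => LvD_conj e (ρ σ) E)
  refine ⟨M.map e, m, m', c, N, by simpa using h1, fun i hi => ?_, fun σ => ?_⟩
  · obtain ⟨j, hj, rfl⟩ := Multiset.mem_map.1 hi
    rw [← hv']
    exact h2 j hj
  · have h4 := h3 σ
    have h5 : (ρ' σ).det = (ρ σ).det := det_submatrix_equiv_self e (ρ σ)
    have h6 : (fun i : Σ t, {i // τ i = t} =>
        lowD (ρ' σ) (fun j : Σ t, {i // τ i = t} => v j.1) (v i.1)) =
        (fun i => lowD (ρ σ) w (w i)) ∘ e := by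
      funext i
      rw [hv, hv']
      exact LvD_low e (ρ σ) w _
    rw [h5, h6] at h4
    rwa [Multiset.map_map]

end Pool.Agent.MP_0c8446_ag
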