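import Pool.Agent.MP_0c8446_ag.GI.Desc
import Pool.Agent.MP_0c8446_ag.GI.LvD
import Pool.Agent.MP_0c8446_ag.GI.Kempf2

namespace Pool.Agent.MP_0c8446_ag

open MvPolynomial Matrix

universe v

variable {K : Type v} [Field K] [CharZero K] {D ι : Type} [Fintype D] [DecidableEq D] [Fintype ι]
  [DecidableEq ι]

omit [CharZero K] in
theorem GitMain_dst {L : Type v} [Field L] {a : (ι → D) → L} {𝓔 : Set (Matrix D D L)}
    {g N : Matrix D D L} {w : D → ℝ} (h : Dst a 𝓔 g w) (hN : IsUnit N) {c : L}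
    (hx : tact N a = c • a) (hE : ∀ E ∈ 𝓔, Nᵀ * E * N ∈ Submodule.span L 𝓔) :
    Dst a 𝓔 (N * g) w := by
  refine ⟨hN.mul h.unit, h.sum, fun I hI => h.pos I fun e => hI ?_, fun E h1 i j hij => ?_⟩
  · rw [tact_mul, hx, tact_smul, Pi.smul_apply, e, smul_zero]
  · have : (N * g)ᵀ * E * (N * g) = gᵀ * (Nᵀ * E * N) * g := by
      simp only [transpose_mul, Matrix.mul_assoc]
    exact h.iso_span _ (hE E h1) i j (this ▸ hij)

theorem GitMain_gal {L : Type v} [Field L] {a : (ι → D) → L} {𝓔 : Set (Matrix D D L)}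
    {g : Matrix D D L} {w : D → ℝ} (h : Dst a 𝓔 g w) (γ : L →+* L)
    (hx : ∀ I, γ (a I) = a I) (hE : ∀ E ∈ 𝓔, E.map γ = E) : Dst a 𝓔 (g.map γ) w := by
  refine ⟨h.unit.map γ.mapMatrix, h.sum, fun I hI => h.pos I fun e => hI ?_,
    fun E h1 i j hij => h.iso E h1 i j fun e0 => hij ?_⟩
  · have := tact_map γ g a I
    rw [e, map_zero] at this
    rw [this]
    exact congrArg (fun u => tact (g.map γ) u I) (funext fun J => (hx J).symm)
  · have : (gᵀ * E * g).map γ = (g.map γ)ᵀ * E * g.map γ := by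
      rw [Matrix.map_mul, Matrix.map_mul, hE E h1, transpose_map]
    rw [← this, Matrix.map_apply, e0, map_zero]

/-- An unstable semi-invariant tensor gives rational isotropic invariant subspaces with a relation
between their determinants. -/
theorem git_main {a : (ι → D) → K} (ha : a ≠ 0) {𝓔 : Set (Matrix D D K)} {E₀ : Matrix D D K}
    (hE₀ : E₀ ∈ 𝓔) (hu : IsUnit E₀) {G : Type*} [Group G] (ρ : G →* Matrix D D K)
    (cx cE : G →* Kˣ) (hx : ∀ σ, tact (ρ σ) a = (cx σ : K) • a)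
    (hE : SemiSp ρ (fun σ => (cE σ : K)) 𝓔) {j₀ : ℕ}
    (hE₁ : ∀ σ, (ρ σ)ᵀ * E₀ * ρ σ = (cE σ : K) ^ j₀ • E₀)
    {g₀ : Matrix D D (AlgebraicClosure K)} {w₀ : D → ℝ}
    (h : Dst (fun I => algebraMap K (AlgebraicClosure K) (a I))
      ((fun E => E.map (algebraMap K (AlgebraicClosure K))) '' 𝓔) g₀ w₀) :
    ∃ M : Multiset (Submodule K (D → K)), (∃ S ∈ M, S ≠ ⊥) ∧
      (∀ S ∈ M, ∀ S' ∈ M, ∀ E ∈ 𝓔, ∀ x ∈ S, ∀ y ∈ S', x ⬝ᵥ E *ᵥ y = 0) ∧
      ∃ i j : ℤ, ∀ σ, (M.map (detOn (toLin' (ρ σ)))).prod = ((cx σ ^ i * cE σ ^ j : Kˣ) : K) := by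
  obtain ⟨g, w, hd, ho⟩ := exists_opt h
  generalize hφ : algebraMap K (AlgebraicClosure K) = φ at hd ho
  have inj : Function.Injective φ := φ.injective
  have hg := hd.unit
  have hgd : IsUnit g.det := (isUnit_iff_isUnit_det g).1 hg
  have hρu : ∀ σ, IsUnit ((ρ σ).map φ) := fun σ =>
    ((Group.isUnit σ).map ρ).map φ.mapMatrix
  have hx' : ∀ σ, tact ((ρ σ).map φ) (fun I => φ (a I)) = φ (cx σ) • fun I => φ (a I) := by
    intro σ
    funext I
    rw [← tact_map, hx, Pi.smul_apply, Pi.smul_apply, smul_eq_mul, smul_eq_mul, map_mul]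
  have hE' := hE.map φ (fun E => E.map φ) (fun _ _ => Matrix.map_add _ (map_add φ) _ _)
    (fun c E => by ext i j; simp) (ρ' := fun σ => (ρ σ).map φ) fun σ E => by
      rw [← transpose_map, ← Matrix.map_mul, ← Matrix.map_mul]
  have tri : ∀ σ, (g⁻¹ * (ρ σ).map φ * g).BlockTriangular w := fun σ => by
    rw [Matrix.mul_assoc]
    exact kempf2 hd (GitMain_dst hd (hρu σ) (hx' σ) (hE'.mem σ)) ho
  have gal : ∀ r, ∀ γ : AlgebraicClosure K ≃ₐ[K] AlgebraicClosure K, ∀ x ∈ lowS g w r,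
      (fun i => γ (x i)) ∈ lowS g w r := by
    intro r γ x hx
    have hγ : ∀ c, (γ : AlgebraicClosure K →+* AlgebraicClosure K) (φ c) = φ c := fun c => by
      rw [← hφ]
      exact γ.commutes c
    refine lowS_le hg (kempf2 hd (GitMain_gal hd γ (fun I => hγ _) ?_) ho) r ?_
    · rintro _ ⟨E, -, rfl⟩
      ext i j
      exact hγ _
    · induction hx using Submodule.span_induction with
      | mem x hx =>
        obtain ⟨j, rfl⟩ := hx
        exact Submodule.subset_span ⟨j, rfl⟩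
      | zero =>
        simp only [Pi.zero_apply, map_zero]
        exact zero_mem _
      | add x y _ _ h1 h2 =>
        simp only [Pi.add_apply, map_add]
        exact add_mem h1 h2
      | smul c x _ h1 =>
        simp only [Pi.smul_apply, smul_eq_mul, map_mul]
        exact Submodule.smul_mem _ (γ c) h1
  let ρ' : G →* Matrix D D (AlgebraicClosure K) :=
    { toFun := fun σ => g⁻¹ * (ρ σ).map φ * g
      map_one' := by
        rw [map_one, Matrix.map_one _ (map_zero φ) (map_one φ), Matrix.mul_one,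
          nonsing_inv_mul _ hgd]
      map_mul' := fun σ τ => by
        rw [map_mul, Matrix.map_mul]
        simp only [Matrix.mul_assoc]
        rw [mul_nonsing_inv_cancel_left _ _ hgd] }
  have hρ' : ∀ σ, ρ' σ = g⁻¹ * (ρ σ).map φ * g := fun _ => rfl
  have gρ : ∀ σ, g * ρ' σ = (ρ σ).map φ * g := fun σ => by
    rw [hρ', Matrix.mul_assoc, mul_nonsing_inv_cancel_left _ _ hgd]
  have ha' : tact g (fun I => φ (a I)) ≠ 0 := fun e => ha (funext fun I =>
    inj ((congrFun (tact_eq_zero hg e) I).trans (map_zero φ).symm))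
  have hgt : IsUnit gᵀ := by
    rw [isUnit_iff_isUnit_det, det_transpose]
    exact hgd
  obtain ⟨M, m, m', c, N, hM, hneg, hrel⟩ := lev_rel ha'
    ((Dst.conj (g' := 1) hg).2 (by rwa [Matrix.mul_one])) (ho.conj hg)
    ⟨_, ⟨E₀, hE₀, rfl⟩, rfl⟩ ((hgt.mul (hu.map φ.mapMatrix)).mul hg) ρ'
    ((φ.toMonoidHom.comp (Units.coeHom K)).comp cx)
    ((φ.toMonoidHom.comp (Units.coeHom K)).comp cE) tri
    (fun σ => by
      rw [← tact_mul, gρ, tact_mul, hx', tact_smul]
      rfl)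
    (hE'.map (RingHom.id _) (fun E => gᵀ * E * g)
      (fun _ _ => by rw [Matrix.mul_add, Matrix.add_mul])
      (fun _ _ => by rw [Matrix.mul_smul, Matrix.smul_mul]; rfl) fun σ E => by
      have : (ρ' σ)ᵀ * (gᵀ * E * g) * ρ' σ = (g * ρ' σ)ᵀ * E * (g * ρ' σ) := by
        simp only [transpose_mul, Matrix.mul_assoc]
      rw [this, gρ]
      simp only [transpose_mul, Matrix.mul_assoc])
  choose S h1 h2 h3 using fun r => desc_det fix_closure (lowS g w r) (gal r)
  rw [hφ] at h1 h3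
  refine ⟨M.map fun i => S (w i), ?_, ?_, -(m : ℤ),
    (j₀ * Fintype.card D * N : ℕ) - (j₀ * Fintype.card D * c : ℕ) - m', fun σ => ?_⟩
  · obtain ⟨i, hi⟩ := Multiset.exists_mem_of_ne_zero hM
    exact ⟨_, Multiset.mem_map_of_mem _ hi, fun e => lowS_ne_bot hg i (h2 _ e)⟩
  · intro S₁ hS₁ S₂ hS₂ E h4 x hx y hy
    obtain ⟨i, hi, rfl⟩ := Multiset.mem_map.1 hS₁
    obtain ⟨j, hj, rfl⟩ := Multiset.mem_map.1 hS₂
    have := lowS_orth (hd.iso _ ⟨E, h4, rfl⟩) (add_neg (hneg i hi) (hneg j hj)) _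
      ((h1 _ x).1 hx) _ ((h1 _ y).1 hy)
    refine inj ?_
    rw [map_zero, ← this, RingHom.map_dotProduct]
    congr 1
    funext k
    exact RingHom.map_mulVec φ E y k
  · have e1 : (ρ' σ).det = φ (ρ σ).det := by
      rw [hρ', det_mul, det_mul, mul_right_comm, ← det_mul, nonsing_inv_mul _ hgd, det_one,
        one_mul]
      exact (φ.map_det _).symm
    have e2 : (ρ σ).det ^ 2 = (cE σ : K) ^ (j₀ * Fintype.card D) := by
      have := congrArg det (hE₁ σ)
      rw [det_mul, det_mul, det_transpose, det_smul, mul_right_comm, ← sq, ← pow_mul] at this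
      exact mul_right_cancel₀ ((isUnit_iff_isUnit_det _).1 hu).ne_zero this
    have e3 : (M.map fun i => lowD (ρ' σ) w (w i)).prod =
        φ ((M.map fun i => S (w i)).map (detOn (toLin' (ρ σ)))).prod := by
      rw [map_multiset_prod, Multiset.map_map, Multiset.map_map]
      refine congrArg _ (Multiset.map_congr rfl fun i _ => ?_)
      simp only [Function.comp_apply]
      rw [h3 _ _ (lowS_stab hg (tri σ) _), detOn_lowS hg (tri σ)]
      rfl
    have e4 := hrel σ
    rw [e3, e1] at e4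
    generalize ((M.map fun i => S (w i)).map (detOn (toLin' (ρ σ)))).prod = P at e4 ⊢
    have e5 : (cx σ : K) ^ m * (cE σ : K) ^ m' * P * (ρ σ).det ^ (2 * c) =
        (ρ σ).det ^ (2 * N) := by
      refine inj ?_
      simp only [map_mul, map_pow]
      exact e4
    rw [pow_mul, pow_mul, e2, ← pow_mul, ← pow_mul] at e5
    have n1 := (cx σ).ne_zero
    have n2 := (cE σ).ne_zero
    rw [Units.val_mul, Units.val_zpow_eq_zpow_val, Units.val_zpow_eq_zpow_val,
      _root_.zpow_neg, zpow_sub₀ n2, zpow_sub₀ n2,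
      _root_.zpow_natCast, _root_.zpow_natCast, _root_.zpow_natCast, _root_.zpow_natCast, ← e5]
    field_simp

end Pool.Agent.MP_0c8446_ag
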