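import Pool.Agent.MP_0c8446_ag.GI.GalB

namespace Pool.Agent.MP_0c8446_ag

open Set Polynomial
open scoped TensorProduct

universe u v w x

variable {k : Type u} [Field k] [IsAlgClosed k] {K : Type v} [Field K] [CharZero K]
  {G : Type x} [Group G] [MulSemiringAction G k]

/-- Closed subsets are defined over finitely generated fields. -/
theorem exists_stab2 {Y : Var k} (hY : Y.Over G) {Z : Set Y.pts} (hZ : IsClosed Z) :
    ∃ s : Finset k, ∀ σ : G, (∀ c ∈ s, σ • c = c) → {y | ∃ x ∈ Z, Conj σ x.1 y.1} = Z := by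
  classical
  obtain ⟨S, hS⟩ : ∃ S : Finset (MvPolynomial (Vars Y.n) k),
      Ideal.span (S : Set _) = vI (Subtype.val '' Z) :=
    IsNoetherian.noetherian (vI (Subtype.val '' Z))
  have hmem : ∀ x : Y.pts, x ∈ Z ↔ ∀ f ∈ S, Vanish f x.1 := by
    intro x
    conv_lhs => rw [← hZ.closure_eq, closure_subtype, mem_closure_vI]
    constructor
    · intro h1 f hf
      exact h1 f (hS ▸ Ideal.subset_span hf)
    · intro h1 f hf
      have h2 : Ideal.span (S : Set _) ≤ vI {x.1} :=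
        Ideal.span_le.2 fun g hg y hy => by rw [mem_singleton_iff.1 hy]; exact h1 g hg
      exact h2 (hS ▸ hf) _ rfl
  have key : ∀ σ : G, (∀ c ∈ S.biUnion fun f => f.coeffs, σ⁻¹ • c = c) → ∀ x y : Y.pts,
      Conj σ x.1 y.1 → x ∈ Z → y ∈ Z := by
    intro σ hσ x y h hx
    refine (hmem y).2 fun f hf w hw => ?_
    have hfix : MvPolynomial.map (MulSemiringAction.toRingHom G k σ⁻¹) f = f := by
      ext m
      rw [MvPolynomial.coeff_map]
      by_cases hm : MvPolynomial.coeff m f = 0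
      · rw [hm, map_zero]
      · exact hσ _ (Finset.mem_biUnion.2 ⟨f, hf, MvPolynomial.coeff_mem_coeffs m hm⟩)
    have h1 := MvPolynomial.map_eval (MulSemiringAction.toRingHom G k σ⁻¹) w f
    rw [hfix] at h1
    exact (smul_eq_zero_iff_eq σ⁻¹).1 (h1.trans ((hmem x).1 hx f hf _ (h.inv w hw)))
  refine ⟨S.biUnion fun f => f.coeffs, fun σ hσ => ?_⟩
  ext y
  refine ⟨fun ⟨x, hx, h⟩ => key σ (fun c hc => inv_smul_eq_iff.2 (hσ c hc).symm) x y h hx,
    fun hy => ?_⟩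
  obtain ⟨x, hx⟩ := hY σ⁻¹ y
  exact ⟨x, key σ⁻¹ (by rwa [inv_inv]) y x hx hy, by simpa using hx.inv⟩

/-- The vectors that are semi-invariant under the automorphisms that fix a finite set. -/
def Gal2_S (k : Type u) {D ι : Type} [Fintype D] [Fintype ι] [DecidableEq ι] {G : Type x}
    [SMul G k] (M : G → Matrix D D K) (c : G → K) : Submodule K ((ι → D) → K) where
  carrier := {u | ∃ s : Finset k, ∀ σ : G, (∀ a ∈ s, σ • a = a) → tact (M σ) u = c σ • u}
  zero_mem' := ⟨∅, fun σ _ => by rw [tact_zero, smul_zero]⟩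
  add_mem' := by
    classical
    rintro u u' ⟨s, h⟩ ⟨s', h'⟩
    exact ⟨s ∪ s', fun σ hσ => by
      rw [tact_add, h σ fun a ha => hσ a (Finset.mem_union_left _ ha),
        h' σ fun a ha => hσ a (Finset.mem_union_right _ ha), smul_add]⟩
  smul_mem' := by
    rintro a u ⟨s, h⟩
    exact ⟨s, fun σ hσ => by rw [tact_smul, h σ hσ, smul_comm]⟩

theorem Gal2_le {W : Weil.{u, v, w} k K} (ρ : W.Gal G) {A : Var k} (hA : A.Over G)
    {D : Type} [Fintype D] {e : D → W.H A} {i : ℕ} (he : ∀ x, e x ∈ W.gr A i)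
    (M : G → Matrix D D K) (hM : ∀ σ x, ρ.act A σ (e x) = ∑ y, M σ y x • e y) (ι : Type)
    [Fintype ι] [DecidableEq ι] :
    W.TT e ι ≤ Gal2_S k M fun σ => (ρ.χ σ : K) ^ (i * Fintype.card ι / 2) := by
  refine Submodule.span_le.2 ?_
  rintro _ ⟨l, Y, p, z, hl, hz, rfl⟩
  obtain ⟨Y', δ, p', hY', hp', hδ⟩ := exists_over (G := G) hA p
  obtain ⟨z', hz', hpush⟩ := W.exists_push δ hz
  let L : W.H Y' →ₗ[K] ((ι → D) → K) :=
    LinearMap.pi fun I => W.tr Y' ∘ₗ LinearMap.mulRight K (W.mon e l p' I)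
  have hL : ∀ a I, L a I = W.tr Y' (a * W.mon e l p' I) := fun _ _ => rfl
  have e1 : (fun I => W.tr Y (z * W.mon e l p I)) = L z' := by
    funext I
    rw [hL, ← hpush, W.pull_mon]
    simp only [hδ]
  rw [e1]
  suffices h : W.Alg Y' ≤
      (Gal2_S k M fun σ => (ρ.χ σ : K) ^ (i * Fintype.card ι / 2)).comap L from h hz'
  refine Submodule.span_le.2 ?_
  rintro _ ⟨Z, hZ, rfl⟩
  have hZ : IsSub Z := hZ
  show L (W.cl Y' Z) ∈ Gal2_S k M fun σ => (ρ.χ σ : K) ^ (i * Fintype.card ι / 2)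
  by_cases hd : i * Fintype.card ι = 2 * dim Z
  swap
  · have : L (W.cl Y' Z) = 0 := by
      funext I
      rw [hL]
      exact W.tr_cl_mul_gr hZ (W.mon_gr he l p' I) (by rwa [hl.length])
    rw [this]
    exact zero_mem _
  obtain ⟨s, hstab⟩ := exists_stab2 hY' hZ.2
  refine ⟨s, fun σ hσ => ?_⟩
  funext I
  have h1 : tact (M σ) (L (W.cl Y' Z)) I = W.tr Y' (W.cl Y' Z * ρ.act Y' σ (W.mon e l p' I)) := by
    rw [GalB_act_mon ρ hA M hM hl hY' hp', Finset.mul_sum, map_sum]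
    refine Finset.sum_congr rfl fun J _ => ?_
    rw [hL, mul_smul_comm, map_smul, smul_eq_mul, mul_comm]
  have h2 := ρ.tr_act hY' σ (W.cl Y' Z * W.mon e l p' I)
  rw [map_mul, ρ.act_cl Y' hY' σ Z hZ, hstab σ hσ, smul_mul_assoc, map_smul, smul_eq_mul,
    ← Nat.sub_add_cancel (Y'.dim_le Z), pow_add, Nat.add_sub_cancel, mul_assoc] at h2
  have h3 := mul_left_cancel₀ (pow_ne_zero _ (ρ.χ σ).ne_zero) h2
  rw [h1, h3, hd, Nat.mul_div_cancel_left _ two_pos, Pi.smul_apply, smul_eq_mul, hL]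

/-- Algebraic forms are semi-invariant under the automorphisms that fix a finite set. -/
theorem Weil.Gal.tact_TT2 {W : Weil.{u, v, w} k K} (ρ : W.Gal G) {A : Var k} (hA : A.Over G)
    {D : Type} [Fintype D] {e : D → W.H A} {i : ℕ} (he : ∀ x, e x ∈ W.gr A i)
    (M : G → Matrix D D K) (hM : ∀ σ x, ρ.act A σ (e x) = ∑ y, M σ y x • e y) (ι : Type)
    [Fintype ι] [DecidableEq ι] : ∃ s : Finset k, ∀ σ : G, (∀ c ∈ s, σ • c = c) →
      ∀ u ∈ W.TT e ι, tact (M σ) u = (ρ.χ σ : K) ^ (i * Fintype.card ι / 2) • u := by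
  classical
  obtain ⟨T, hT⟩ : ∃ T : Finset ((ι → D) → K), Submodule.span K (T : Set _) = W.TT e ι :=
    IsNoetherian.noetherian (W.TT e ι)
  choose! s hs using fun u (hu : u ∈ T) =>
    Gal2_le ρ hA he M hM ι (hT ▸ Submodule.subset_span hu : u ∈ W.TT e ι)
  refine ⟨T.biUnion s, fun σ hσ u hu => ?_⟩
  rw [← hT] at hu
  induction hu using Submodule.span_induction with
  | mem x hx => exact hs x hx σ fun a ha => hσ a (Finset.mem_biUnion.2 ⟨x, hx, ha⟩)
  | zero => rw [tact_zero, smul_zero]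
  | add x y _ _ hx hy => rw [tact_add, hx, hy, smul_add]
  | smul a x _ hx => rw [tact_smul, hx, smul_comm]

end Pool.Agent.MP_0c8446_ag
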