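import Pool.Agent.MP_0c8446_ag.GI.WD

namespace Pool.Agent.MP_0c8446_ag

open Set Polynomial
open scoped TensorProduct

universe u v w x

variable {k : Type u} [Field k] [IsAlgClosed k] {K : Type v} [Field K] [CharZero K]
  (W : Weil.{u, v, w} k K)

variable {G : Type x} [Group G] [MulSemiringAction G k]

omit [IsAlgClosed k] in
lemma GalA_fst {ι κ : Type} {n : ι → ℕ} {m : κ → ℕ} {σ : G} {x y : MP k (Sum.elim n m)}
    (h : Conj σ x y) : Conj σ (pvFst x) (pvFst y) := fun v hv =>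
  pv_rep_fst (h (pvJoin v (pvSnd x).rep) fun i => by
    cases i with
    | inl i => exact hv i
    | inr i => exact isRep_rep (pvSnd x) i)

omit [IsAlgClosed k] in
lemma GalA_snd {ι κ : Type} {n : ι → ℕ} {m : κ → ℕ} {σ : G} {x y : MP k (Sum.elim n m)}
    (h : Conj σ x y) : Conj σ (pvSnd x) (pvSnd y) := fun v hv =>
  pv_rep_snd (h (pvJoin (pvFst x).rep v) fun i => by
    cases i with
    | inl i => exact isRep_rep (pvFst x) i
    | inr i => exact hv i)

omit [IsAlgClosed k] in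
theorem Conj.unique {ι : Type} {n : ι → ℕ} {σ : G} {x y y' : MP k n} (h : Conj σ x y)
    (h' : Conj σ x y') : y = y' := (h _ (isRep_rep x)).unique (h' _ (isRep_rep x))

omit [IsAlgClosed k] in
theorem Conj.inv {ι : Type} {n : ι → ℕ} {σ : G} {x y : MP k n} (h : Conj σ x y) :
    Conj σ⁻¹ y x := by
  intro w hw
  obtain ⟨t, ht, rfl⟩ := (h _ (isRep_rep x)).exists_smul hw
  simp only [smul_mul', inv_smul_smul]
  exact (isRep_rep x).smul (fun i => σ⁻¹ • t i) fun i => (smul_ne_zero_iff_ne σ⁻¹).2 (ht i)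

/-- Closed subsets are fixed by subgroups of finite index. -/
theorem exists_stab (hG : ∀ x : k, (MulAction.orbit G x).Finite) {Y : Var k} (hY : Y.Over G)
    {Z : Set Y.pts} (hZ : IsClosed Z) : ∃ U : Subgroup G, U.FiniteIndex ∧
      ∀ σ ∈ U, {y | ∃ x ∈ Z, Conj σ x.1 y.1} = Z := by
  classical
  obtain ⟨S, hS⟩ : ∃ S : Finset (MvPolynomial (Vars Y.n) k),
      Ideal.span (S : Set _) = vI (Subtype.val '' Z) :=
    IsNoetherian.noetherian (vI (Subtype.val '' Z))
  have hmem : ∀ x : Y.pts, x ∈ Z ↔ ∀ f ∈ S, Vanish f x.1 := by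
    intro x
    conv_lhs => rw [← hZ.closure_eq, closure_subtype, mem_closure_vI]
    constructor
    · intro h1 f hf
      exact h1 f (hS ▸ Ideal.subset_span hf)
    · intro h1 f hf
      have h2 : Ideal.span (S : Set _) ≤ vI {x.1} :=
        Ideal.span_le.2 fun g hg y hy => by rw [mem_singleton_iff.1 hy]; exact h1 g hg
      exact h2 (hS ▸ hf) _ rfl
  let U : Subgroup G := ⨅ c ∈ S.biUnion fun f => f.coeffs, MulAction.stabilizer G c
  have key : ∀ σ ∈ U, ∀ x y : Y.pts, Conj σ x.1 y.1 → x ∈ Z → y ∈ Z := by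
    intro σ hσ x y h hx
    refine (hmem y).2 fun f hf w hw => ?_
    have hfix : MvPolynomial.map (MulSemiringAction.toRingHom G k σ⁻¹) f = f := by
      ext m
      rw [MvPolynomial.coeff_map]
      by_cases hm : MvPolynomial.coeff m f = 0
      · rw [hm, map_zero]
      · exact Subgroup.mem_iInf.1 (Subgroup.mem_iInf.1 (inv_mem hσ) _)
          (Finset.mem_biUnion.2 ⟨f, hf, MvPolynomial.coeff_mem_coeffs m hm⟩)
    have h1 := MvPolynomial.map_eval (MulSemiringAction.toRingHom G k σ⁻¹) w f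
    rw [hfix] at h1
    exact (smul_eq_zero_iff_eq σ⁻¹).1 (h1.trans ((hmem x).1 hx f hf _ (h.inv w hw)))
  refine ⟨U, Subgroup.finiteIndex_iInf' _ fun c _ => ⟨?_⟩, fun σ hσ => ?_⟩
  · rw [MulAction.index_stabilizer]
    exact ((Set.ncard_pos (hG c)).2 (MulAction.nonempty_orbit c)).ne'
  · ext y
    refine ⟨fun ⟨x, hx, h⟩ => key σ hσ x y h hx, fun hy => ?_⟩
    obtain ⟨x, hx⟩ := hY σ⁻¹ y
    exact ⟨x, key σ⁻¹ (inv_mem hσ) y x hx hy, by simpa using hx.inv⟩

/-- Finitely many morphisms to `A` factor through a power of `A` that is stable under `G`. -/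
theorem exists_over {A Y : Var k} (hA : A.Over G) {ι : Type} [Finite ι] (p : ι → Mor Y A) :
    ∃ (Y' : Var k) (δ : Mor Y Y') (p' : ι → Mor Y' A), Y'.Over G ∧ (∀ j, (p' j).Over G) ∧
      ∀ j, (p' j).comp δ = p j := by
  classical
  have := Fintype.ofFinite ι
  have key : ∀ s : Finset ι, ∃ (Y' : Var k) (δ : Mor Y Y') (p' : ι → Mor Y' A), Y'.Over G ∧
      (∀ j, (p' j).Over G) ∧ ∀ j ∈ s, (p' j).comp δ = p j := fun s => by
    induction s using Finset.induction_on with
    | empty =>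
      obtain ⟨a⟩ : Nonempty A.pts := inferInstance
      exact ⟨A, Mor.const Y a, fun _ => Mor.id A, hA, fun _ _ _ _ h => h, by simp⟩
    | insert j s _ ih =>
      obtain ⟨Y', δ, p', h1, h2, h3⟩ := ih
      let P : Mor (pvVar A Y') A := ⟨pvP, pv_isMor_P⟩
      let Q : Mor (pvVar A Y') Y' := ⟨pvQ, pv_isMor_Q⟩
      refine ⟨pvVar A Y', ⟨fun x => pvM ((p j).1 x) (δ.1 x), pv_isMor_M (p j).2 δ.2⟩,
        fun i => if i = j then P else (p' i).comp Q, fun σ x => ?_, fun i => ?_, fun i hi => ?_⟩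
      · obtain ⟨y1, e1⟩ := hA σ (pvP x)
        obtain ⟨y2, e2⟩ := h1 σ (pvQ x)
        refine ⟨pvM y1 y2, fun v hv i => ?_⟩
        cases i with
        | inl i => exact e1 _ (pv_rep_fst hv) i
        | inr i => exact e2 _ (pv_rep_snd hv) i
      · beta_reduce
        split_ifs
        · exact fun σ x y h => GalA_fst h
        · exact fun σ x y h => h2 i σ _ _ (GalA_snd h)
      · beta_reduce
        split_ifs with h
        · subst h
          rfl
        · exact h3 i ((Finset.mem_insert.1 hi).resolve_left h)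
  obtain ⟨Y', δ, p', h1, h2, h3⟩ := key Finset.univ
  exact ⟨Y', δ, p', h1, h2, fun j => h3 j (Finset.mem_univ j)⟩

omit [IsAlgClosed k] [CharZero K] in
theorem Weil.Gal.tr_act {W : Weil.{u, v, w} k K} (ρ : W.Gal G) {Y : Var k} (hY : Y.Over G) (σ : G)
    (a : W.H Y) : W.tr Y (ρ.act Y σ a) = (ρ.χ σ : K) ^ Y.d * W.tr Y a := by
  obtain ⟨x⟩ : Nonempty Y.pts := inferInstance
  induction a using DirectSum.Decomposition.inductionOn (W.gr Y) with
  | zero => simp
  | add a c ha hc => simp only [map_add, mul_add, ha, hc]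
  | @homogeneous i a =>
    obtain ⟨a, ha⟩ := a
    by_cases hi : i = 2 * Y.d
    · subst hi
      obtain ⟨y, hy⟩ := hY σ x
      have e : {y' : Y.pts | ∃ x' ∈ ({x} : Set Y.pts), Conj σ x'.1 y'.1} = {y} := by
        ext y'
        refine ⟨fun ⟨x', h1, h2⟩ => Subtype.ext (Conj.unique (h1 ▸ h2) hy), fun h => ⟨x, rfl, ?_⟩⟩
        rw [mem_singleton_iff.1 h]
        exact hy
      conv_lhs => rw [show ((⟨a, ha⟩ : W.gr Y (2 * Y.d)) : W.H Y) = a from rfl, W.eq_smul_pt ha x]
      rw [map_smul, ρ.act_cl Y hY σ _ (isSub_singleton x), e, dim_singleton, map_smul, map_smul,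
        W.tr_pt, Nat.sub_zero, smul_eq_mul, smul_eq_mul, mul_one, mul_comm]
    · rw [W.tr_gr Y i _ (ρ.act_gr Y σ i a ha) hi, W.tr_gr Y i a ha hi, mul_zero]

end Pool.Agent.MP_0c8446_ag
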