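import Pool.Agent.MP_0c8446_ag.GI.GalA
import Pool.Agent.MP_0c8446_ag.GI.Lst
import Pool.Agent.MP_0c8446_ag.GI.TBasic

namespace Pool.Agent.MP_0c8446_ag

open Set Polynomial
open scoped TensorProduct

universe u v w x

variable {k : Type u} [Field k] [IsAlgClosed k] {K : Type v} [Field K] [CharZero K]
  (W : Weil.{u, v, w} k K)

variable {G : Type x} [Group G] [MulSemiringAction G k]

/-- The vectors that are semi-invariant under a subgroup of finite index. -/
def GalB_S {D ι : Type} [Fintype D] [Fintype ι] [DecidableEq ι] {G : Type x} [Group G]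
    (M : G → Matrix D D K) (c : G → K) : Submodule K ((ι → D) → K) where
  carrier := {u | ∃ U : Subgroup G, U.FiniteIndex ∧ ∀ σ ∈ U, tact (M σ) u = c σ • u}
  zero_mem' := ⟨⊤, inferInstance, fun σ _ => by rw [tact_zero, smul_zero]⟩
  add_mem' := by
    rintro u u' ⟨U, hU, h⟩ ⟨U', hU', h'⟩
    exact ⟨U ⊓ U', inferInstance, fun σ hσ => by
      rw [tact_add, h σ hσ.1, h' σ hσ.2, smul_add]⟩
  smul_mem' := by
    rintro a u ⟨U, hU, h⟩
    exact ⟨U, hU, fun σ hσ => by rw [tact_smul, h σ hσ, smul_comm]⟩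

omit [IsAlgClosed k] [CharZero K] in
theorem GalB_act_mon {W : Weil.{u, v, w} k K} (ρ : W.Gal G) {A : Var k} (hA : A.Over G)
    {D : Type} [Fintype D] {e : D → W.H A} (M : G → Matrix D D K)
    (hM : ∀ σ x, ρ.act A σ (e x) = ∑ y, M σ y x • e y) {ι : Type} [Fintype ι] [DecidableEq ι]
    {l : List ι} (hl : Cpl l) {Y : Var k} (hY : Y.Over G) {p : ι → Mor Y A}
    (hp : ∀ j, (p j).Over G) (σ : G) (I : ι → D) :
    ρ.act Y σ (W.mon e l p I) = ∑ J : ι → D, (∏ j, M σ (J j) (I j)) • W.mon e l p J := by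
  unfold Weil.mon
  rw [← hl.prod_sum (fun j y => M σ y (I j)) fun j y => W.pull (p j) (e y), map_list_prod,
    List.map_map]
  congr 1
  refine List.map_congr_left fun j _ => ?_
  simp only [Function.comp_apply]
  rw [ρ.act_pull (p j) hY hA (hp j), hM, map_sum]
  simp only [map_smul]

/-- Algebraic forms are semi-invariant under subgroups of finite index. -/
theorem Weil.Gal.tact_TT {W : Weil.{u, v, w} k K} (ρ : W.Gal G)
    (hG : ∀ x : k, (MulAction.orbit G x).Finite) {A : Var k} (hA : A.Over G) {D : Type} [Fintype D]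
    {e : D → W.H A} {i : ℕ} (he : ∀ x, e x ∈ W.gr A i) (M : G → Matrix D D K)
    (hM : ∀ σ x, ρ.act A σ (e x) = ∑ y, M σ y x • e y) {ι : Type} [Fintype ι] [DecidableEq ι]
    {u : (ι → D) → K} (hu : u ∈ W.TT e ι) : ∃ U : Subgroup G, U.FiniteIndex ∧ ∀ σ ∈ U,
      tact (M σ) u = (ρ.χ σ : K) ^ (i * Fintype.card ι / 2) • u := by
  suffices h : W.TT e ι ≤ GalB_S M fun σ => (ρ.χ σ : K) ^ (i * Fintype.card ι / 2) from h hu
  refine Submodule.span_le.2 ?_
  rintro _ ⟨l, Y, p, z, hl, hz, rfl⟩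
  obtain ⟨Y', δ, p', hY', hp', hδ⟩ := exists_over (G := G) hA p
  obtain ⟨z', hz', hpush⟩ := W.exists_push δ hz
  let L : W.H Y' →ₗ[K] ((ι → D) → K) :=
    LinearMap.pi fun I => W.tr Y' ∘ₗ LinearMap.mulRight K (W.mon e l p' I)
  have hL : ∀ a I, L a I = W.tr Y' (a * W.mon e l p' I) := fun _ _ => rfl
  have e1 : (fun I => W.tr Y (z * W.mon e l p I)) = L z' := by
    funext I
    rw [hL, ← hpush, W.pull_mon]
    simp only [hδ]
  rw [e1]
  suffices h : W.Alg Y' ≤
      (GalB_S M fun σ => (ρ.χ σ : K) ^ (i * Fintype.card ι / 2)).comap L from h hz'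
  refine Submodule.span_le.2 ?_
  rintro _ ⟨Z, hZ, rfl⟩
  have hZ : IsSub Z := hZ
  show L (W.cl Y' Z) ∈ GalB_S M fun σ => (ρ.χ σ : K) ^ (i * Fintype.card ι / 2)
  by_cases hd : i * Fintype.card ι = 2 * dim Z
  swap
  · have : L (W.cl Y' Z) = 0 := by
      funext I
      rw [hL]
      exact W.tr_cl_mul_gr hZ (W.mon_gr he l p' I) (by rwa [hl.length])
    rw [this]
    exact zero_mem _
  obtain ⟨U, hU, hstab⟩ := exists_stab hG hY' hZ.2
  refine ⟨U, hU, fun σ hσ => ?_⟩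
  funext I
  have h1 : tact (M σ) (L (W.cl Y' Z)) I = W.tr Y' (W.cl Y' Z * ρ.act Y' σ (W.mon e l p' I)) := by
    rw [GalB_act_mon ρ hA M hM hl hY' hp', Finset.mul_sum, map_sum]
    refine Finset.sum_congr rfl fun J _ => ?_
    rw [hL, mul_smul_comm, map_smul, smul_eq_mul, mul_comm]
  have h2 := ρ.tr_act hY' σ (W.cl Y' Z * W.mon e l p' I)
  rw [map_mul, ρ.act_cl Y' hY' σ Z hZ, hstab σ hσ, smul_mul_assoc, map_smul, smul_eq_mul,
    ← Nat.sub_add_cancel (Y'.dim_le Z), pow_add, Nat.add_sub_cancel, mul_assoc] at h2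
  have h3 := mul_left_cancel₀ (pow_ne_zero _ (ρ.χ σ).ne_zero) h2
  rw [h1, h3, hd, Nat.mul_div_cancel_left _ two_pos, Pi.smul_apply, smul_eq_mul, hL]

end Pool.Agent.MP_0c8446_ag
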