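import Mathlib

namespace Pool.Agent.MP_0c8446_ag

theorem Gordan_lex {Γ I : Type*} [AddCommGroup Γ] [LinearOrder I] (c : I → Γ →+ ℝ)
    (s : Finset Γ) (hs : ∀ x ∈ s, ∃ i, (∀ j < i, c j x = 0) ∧ 0 < c i x) :
    ∃ ψ : Γ →+ ℝ, ∀ x ∈ s, 0 < ψ x := by
  classical
  induction s using Finset.strongInduction with
  | H s ih =>
    rcases s.eq_empty_or_nonempty with rfl | hne
    · exact ⟨0, by simp⟩
    choose idx h0 hpos using hs
    obtain ⟨x₀, -, hmin⟩ := s.attach.exists_min_image (fun x => idx x.1 x.2)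
      (Finset.attach_nonempty_iff.2 hne)
    set o := idx x₀.1 x₀.2 with ho
    have hnn : ∀ x ∈ s, 0 ≤ c o x := fun x hx => by
      rcases (hmin ⟨x, hx⟩ (Finset.mem_attach _ _)).eq_or_lt with h | h
      · rw [h]; exact (hpos x hx).le
      · exact (h0 x hx _ h).ge
    obtain ⟨ψ, hψ⟩ := ih (s.filter fun x => c o x = 0)
      (Finset.filter_ssubset.2 ⟨x₀.1, x₀.2, (hpos _ x₀.2).ne'⟩)
      (fun x hx => ⟨_, h0 x (Finset.mem_filter.1 hx).1, hpos x (Finset.mem_filter.1 hx).1⟩)
    set N : ℝ := 1 + ∑ x ∈ s, |ψ x| / c o x with hN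
    refine ⟨ψ + N • c o, fun x hx => ?_⟩
    show 0 < ψ x + N * c o x
    rcases (hnn x hx).eq_or_lt with h | h
    · rw [← h, mul_zero, add_zero]
      exact hψ x (Finset.mem_filter.2 ⟨hx, h.symm⟩)
    · have h1 : |ψ x| / c o x ≤ ∑ x ∈ s, |ψ x| / c o x :=
        Finset.single_le_sum (f := fun x => |ψ x| / c o x)
          (fun y hy => div_nonneg (abs_nonneg _) (hnn y hy)) hx
      rw [div_le_iff₀ h] at h1
      have h2 := neg_abs_le (ψ x)
      rw [hN, add_mul]
      linarith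

/-- Finitely many positive elements of a linearly ordered group stay positive under a suitable
homomorphism to the reals. -/
theorem exists_hom_pos {Γ : Type*} [AddCommGroup Γ] [LinearOrder Γ] [IsOrderedAddMonoid Γ]
    (s : Finset Γ) (hs : ∀ x ∈ s, 0 < x) : ∃ ψ : Γ →+ ℝ, ∀ x ∈ s, 0 < ψ x := by
  obtain ⟨f, hf, -⟩ := hahnEmbedding_isOrderedAddMonoid Γ
  refine Gordan_lex (I := FiniteArchimedeanClass Γ)
    (fun i => AddMonoidHom.mk' (fun x => (ofLex (f x)).coeff i) fun x y => by simp) s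
    fun x hx => ?_
  have h1 : (0 : Lex (HahnSeries (FiniteArchimedeanClass Γ) ℝ)) < f x := by
    rw [← map_zero f]
    exact (f.monotone'.strictMono_of_injective hf) (hs x hx)
  obtain ⟨i, h2, h3⟩ := (HahnSeries.lt_iff _ _).1 h1
  exact ⟨i, fun j hj => by simpa using (h2 j hj).symm, by simpa using h3⟩

/-- A real logarithm that respects finitely many strict inequalities between values. -/
theorem exists_log {Ω : Type*} [Field Ω] (O : ValuationSubring Ω) (s : Finset (Ω × Ω))
    (hs : ∀ x ∈ s, x.1 ≠ 0 ∧ O.valuation x.1 < O.valuation x.2) :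
    ∃ ψ : Ω → ℝ, (∀ a b, a ≠ 0 → b ≠ 0 → ψ (a * b) = ψ a + ψ b) ∧
      (∀ a, O.valuation a = 1 → ψ a = 0) ∧ ∀ x ∈ s, ψ x.2 < ψ x.1 := by
  classical
  let u : Ω → Additive O.ValueGroupˣ := fun a =>
    if h : a = 0 then 0 else Additive.ofMul (Units.mk0 (O.valuation a) (by simpa using h))
  have hu : ∀ a b, a ≠ 0 → b ≠ 0 → u (a * b) = u a + u b := fun a b ha hb => by
    simp only [u, dif_neg ha, dif_neg hb, dif_neg (mul_ne_zero ha hb), ← ofMul_mul]
    congr 1
    ext
    simp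
  obtain ⟨φ, hφ⟩ := exists_hom_pos (s.image fun x => u x.2 - u x.1) (by
    intro y hy
    obtain ⟨x, hx, rfl⟩ := Finset.mem_image.1 hy
    obtain ⟨h1, h2⟩ := hs x hx
    have h3 : x.2 ≠ 0 := by
      rintro h
      simp [h] at h2
    rw [sub_pos]
    simp only [u, dif_neg h1, dif_neg h3]
    rw [Additive.ofMul_lt, ← Units.val_lt_val]
    exact h2)
  refine ⟨fun a => -φ (u a), fun a b ha hb => ?_, fun a ha => ?_, fun x hx => ?_⟩
  · simp only [hu a b ha hb, map_add, neg_add]
  · have h0 : a ≠ 0 := by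
      rintro rfl
      simp at ha
    have : u a = 0 := by
      simp only [u, dif_neg h0]
      rw [← ofMul_one]
      congr 1
      ext
      simpa using ha
    simp [this]
  · have := hφ _ (Finset.mem_image_of_mem _ hx)
    rw [map_sub] at this
    show -φ (u x.2) < -φ (u x.1)
    linarith

end Pool.Agent.MP_0c8446_ag
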