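import Mathlib

namespace Pool.Agent.MP_0c8446_ag

open Matrix

section

variable {Ω : Type*} [Field Ω] (O : ValuationSubring Ω) {n : Type} [Fintype n] [DecidableEq n]

/-- Equivalence of matrices under integral row and column operations. -/
def Smith_rel (g g' : Matrix n n Ω) : Prop :=
  ∃ a b : Matrix n n O, IsUnit a ∧ IsUnit b ∧ g = a.map O.subtype * g' * b.map O.subtype

variable {O}

theorem Smith_refl (g : Matrix n n Ω) : Smith_rel O g g :=
  ⟨1, 1, isUnit_one, isUnit_one, by simp⟩

theorem Smith_trans {g g' g'' : Matrix n n Ω} (h : Smith_rel O g g') (h' : Smith_rel O g' g'') :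
    Smith_rel O g g'' := by
  obtain ⟨a, b, ha, hb, rfl⟩ := h
  obtain ⟨a', b', ha', hb', rfl⟩ := h'
  exact ⟨a * a', b' * b, ha.mul ha', hb'.mul hb, by simp only [Matrix.map_mul, Matrix.mul_assoc]⟩

theorem Smith_transpose {g g' : Matrix n n Ω} (h : Smith_rel O g g') : Smith_rel O gᵀ g'ᵀ := by
  obtain ⟨a, b, ha, hb, rfl⟩ := h
  exact ⟨bᵀ, aᵀ, (isUnit_transpose _).2 hb, (isUnit_transpose _).2 ha, by
    simp only [transpose_mul, Matrix.mul_assoc, transpose_map]⟩

theorem Smith_perm_row (g : Matrix n n Ω) (σ : Equiv.Perm n) :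
    Smith_rel O g (g.submatrix σ id) := by
  refine ⟨σ.symm.toPEquiv.toMatrix, 1, ?_, isUnit_one, ?_⟩
  · refine IsUnit.of_mul_eq_one σ.toPEquiv.toMatrix ?_
    rw [PEquiv.toMatrix_toPEquiv_mul]
    ext i j
    simp [PEquiv.toMatrix_apply, Matrix.one_apply]
  · have : (σ.symm.toPEquiv.toMatrix : Matrix n n O).map O.subtype = σ.symm.toPEquiv.toMatrix := by
      ext i j
      simp only [PEquiv.toMatrix_apply, Matrix.map_apply]
      split_ifs <;> simp
    rw [this, PEquiv.toMatrix_toPEquiv_mul]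
    ext i j
    simp

theorem Smith_perm (g : Matrix n n Ω) (σ τ : Equiv.Perm n) :
    Smith_rel O g (g.submatrix σ τ) :=
  Smith_trans (Smith_perm_row g σ) (Smith_transpose (Smith_perm_row (g.submatrix σ id)ᵀ τ))

theorem Smith_col (g : Matrix n n Ω) (k : n) (c : n → O) (hc : c k = 0) :
    Smith_rel O g (Matrix.of fun i j => g i j - c i * g k j) := by
  refine ⟨1 + vecMulVec c (Pi.single k 1), 1, ?_, isUnit_one, ?_⟩
  · refine IsUnit.of_mul_eq_one (1 - vecMulVec c (Pi.single k 1)) ?_
    have : vecMulVec c (Pi.single k (1 : O)) * vecMulVec c (Pi.single k (1 : O)) = 0 := by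
      rw [vecMulVec_mul_vecMulVec]
      simp [hc]
    rw [add_mul, mul_sub, mul_sub, this]
    simp
  · have : (1 + vecMulVec c (Pi.single k (1 : O))).map O.subtype =
        1 + vecMulVec (fun i => (c i : Ω)) (Pi.single k 1) := by
      ext i j
      simp only [Matrix.map_apply, Matrix.add_apply, Matrix.one_apply, vecMulVec_apply,
        Pi.single_apply]
      split_ifs <;> simp
    rw [this, Matrix.map_one _ (map_zero _) (map_one _), Matrix.mul_one, add_mul, one_mul,
      vecMulVec_mul]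
    ext i j
    simp [vecMulVec_apply, hc]

theorem Smith_row (g : Matrix n n Ω) (k : n) (c : n → O) (hc : c k = 0) :
    Smith_rel O g (Matrix.of fun i j => g i j - c j * g i k) :=
  Smith_transpose (Smith_col gᵀ k c hc)

omit [Fintype n] in
theorem Smith_coef (v : n → Ω) (k : n) (h : ∀ i, O.valuation (v i) ≤ O.valuation (v k)) :
    ∃ c : n → O, c k = 0 ∧ (∀ i, i ≠ k → v i = c i * v k) ∧ ∀ i, v i = 0 → c i = 0 := by
  have hm : ∀ i, v i / v k ∈ O := fun i => by
    rw [← O.valuation_le_one_iff, map_div₀]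
    exact div_le_one_of_le₀ (h i) zero_le
  refine ⟨fun i => if i = k then 0 else ⟨v i / v k, hm i⟩, by simp, fun i hi => ?_, fun i hi => ?_⟩
  · simp only [if_neg hi]
    by_cases h0 : v k = 0
    · have := h i
      rw [h0, map_zero, le_zero_iff, map_eq_zero] at this
      rw [this, h0, mul_zero]
    · exact (div_mul_cancel₀ _ h0).symm
  · by_cases hk : i = k
    · simp [hk]
    · simp only [if_neg hk]
      ext
      simp [hi]

theorem Smith_step (s : Finset n) (k : n) (hk : k ∉ s) (g : Matrix n n Ω)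
    (hg : ∀ i j, i ≠ j → i ∈ s ∨ j ∈ s → g i j = 0)
    (hm : ∀ i ∉ s, ∀ j ∉ s, O.valuation (g i j) ≤ O.valuation (g k k)) :
    ∃ g', Smith_rel O g g' ∧ ∀ i j, i ≠ j → i ∈ insert k s ∨ j ∈ insert k s → g' i j = 0 := by
  have hne : ∀ i ∈ s, i ≠ k := fun i hi e => hk (e ▸ hi)
  obtain ⟨c, hc0, hc, hc'⟩ := Smith_coef (O := O) (fun i => g i k) k fun i => by
    by_cases hi : i ∈ s
    · simp [hg i k (hne i hi) (Or.inl hi)]
    · exact hm i hi k hk
  obtain ⟨d, hd0, hd, hd'⟩ := Smith_coef (O := O) (fun j => g k j) k fun j => by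
    by_cases hj : j ∈ s
    · simp [hg k j (hne j hj).symm (Or.inr hj)]
    · exact hm k hk j hj
  refine ⟨_, Smith_trans (Smith_col g k c hc0) (Smith_row _ k d hd0), fun i j hij h => ?_⟩
  simp only [Matrix.of_apply]
  by_cases hi : i = k
  · subst hi
    rw [hc0, hd j hij.symm]
    simp
  rw [← hc i hi, sub_self, mul_zero, sub_zero]
  by_cases hj : j = k
  · subst hj
    rw [← hc i hi, sub_self]
  simp only [Finset.mem_insert, hi, hj, false_or] at h
  rw [hg i j hij h]
  rcases h with h | h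
  · rw [hc' i (hg i k hi (Or.inl h))]
    simp
  · rw [hg k j (Ne.symm hj) (Or.inr h)]
    simp

theorem Smith_ind (g : Matrix n n Ω) (s : Finset n) :
    ∃ g', Smith_rel O g g' ∧ ∀ i j, i ≠ j → i ∈ s ∨ j ∈ s → g' i j = 0 := by
  induction s using Finset.induction_on with
  | empty => exact ⟨g, Smith_refl g, by simp⟩
  | insert k s hk ih =>
    obtain ⟨g', h1, hg⟩ := ih
    obtain ⟨⟨p, q⟩, hpq, hmax⟩ := Finset.exists_max_image (sᶜ ×ˢ sᶜ)
      (fun x => O.valuation (g' x.1 x.2)) ⟨(k, k), by simp [hk]⟩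
    simp only [Finset.mem_product, Finset.mem_compl] at hpq
    have hsw : ∀ p ∉ s, ∀ i, Equiv.swap k p i ∈ s ↔ i ∈ s := by
      intro p hp i
      rw [Equiv.swap_apply_def]
      split_ifs with h h'
      · simp [h, hp, hk]
      · simp [h', hp, hk]
      · rfl
    have hsw' : ∀ p ∉ s, ∀ i ∈ s, Equiv.swap k p i = i := fun p hp i hi =>
      Equiv.swap_apply_of_ne_of_ne (fun e => hk (e ▸ hi)) fun e => hp (e ▸ hi)
    obtain ⟨g'', h2, hg'⟩ := Smith_step (O := O) s k hk
      (g'.submatrix (Equiv.swap k p) (Equiv.swap k q)) (fun i j hij h => by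
        simp only [submatrix_apply]
        refine hg _ _ (fun e => ?_) (by rwa [hsw p hpq.1, hsw q hpq.2])
        rcases h with h | h
        · have h' : j ∈ s := by rw [← hsw q hpq.2, ← e, hsw p hpq.1]; exact h
          rw [hsw' p hpq.1 i h, hsw' q hpq.2 j h'] at e
          exact hij e
        · have h' : i ∈ s := by rw [← hsw p hpq.1, e, hsw q hpq.2]; exact h
          rw [hsw' p hpq.1 i h', hsw' q hpq.2 j h] at e
          exact hij e)
      (fun i hi j hj => by
        simp only [submatrix_apply, Equiv.swap_apply_left]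
        exact hmax (_, _) (by simp [hsw p hpq.1, hsw q hpq.2, hi, hj]))
    exact ⟨g'', Smith_trans h1 (Smith_trans (Smith_perm g' _ _) h2), hg'⟩

end

/-- Smith normal form (Cartan decomposition) over a valuation ring. -/
theorem exists_smith {Ω : Type*} [Field Ω] (O : ValuationSubring Ω) {n : Type} [Fintype n]
    [DecidableEq n] (g : Matrix n n Ω) :
    ∃ (a b : Matrix n n O) (π : n → Ω), IsUnit a ∧ IsUnit b ∧
      g = a.map O.subtype * diagonal π * b.map O.subtype := by
  obtain ⟨g', ⟨a, b, ha, hb, h⟩, hg⟩ := Smith_ind (O := O) g Finset.univ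
  refine ⟨a, b, fun i => g' i i, ha, hb, ?_⟩
  have : diagonal (fun i => g' i i) = g' := by
    ext i j
    by_cases hij : i = j
    · subst hij
      simp
    · rw [diagonal_apply_ne _ hij, hg i j hij (Or.inl (Finset.mem_univ i))]
  rw [this, h]

end Pool.Agent.MP_0c8446_ag
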