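import Pool.Agent.MP_0c8446_ag.GI.Kempf
import Pool.Agent.MP_0c8446_ag.GI.Gordan
import Pool.Agent.MP_0c8446_ag.GI.Smith

namespace Pool.Agent.MP_0c8446_ag

open MvPolynomial Matrix

universe v

variable {L : Type v} [Field L] {T : Type} [Fintype T] [DecidableEq T] {n : T → Type}
  [∀ t, Fintype (n t)] [∀ t, DecidableEq (n t)] {ι : Type} [Fintype ι] [DecidableEq ι]

theorem HM_small {Ω : Type*} [Field Ω] (O : ValuationSubring Ω) {D : Type} [Fintype D]
    (M : Matrix D D O) (y : (ι → D) → Ω) {e : ℕ} {c : O.ValueGroup}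
    (hy : ∀ J, O.valuation (y J ^ e) < c) (I : ι → D) :
    O.valuation (tact (M.map O.subtype) y I ^ e) < c := by
  classical
  obtain ⟨J0, -, hJ0⟩ := Finset.exists_max_image Finset.univ (fun J => O.valuation (y J))
    ⟨I, Finset.mem_univ _⟩
  have h : O.valuation (tact (M.map O.subtype) y I) ≤ O.valuation (y J0) := by
    refine Valuation.map_sum_le _ fun J _ => ?_
    rw [map_mul]
    refine le_trans ?_ (hJ0 J (Finset.mem_univ _))
    refine mul_le_of_le_one_right' ?_
    have : ∏ j, (M.map O.subtype) (J j) (I j) = ((∏ j, M (J j) (I j) : O) : Ω) :=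
      (map_prod O.subtype (fun j => M (J j) (I j)) Finset.univ).symm
    rw [this]
    exact O.valuation_le_one _
  refine lt_of_le_of_lt ?_ (hy J0)
  rw [map_pow, map_pow]
  exact pow_le_pow_left' h e

theorem HM_det {Ω : Type*} [Field Ω] (O : ValuationSubring Ω) {D : Type} [Fintype D]
    [DecidableEq D] {M : Matrix D D O} (hM : IsUnit M) :
    O.valuation (M.map O.subtype).det = 1 := by
  have h : (M.map O.subtype).det = ((M.det : O) : Ω) := (RingHom.map_det O.subtype M).symm
  rw [h]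
  exact (O.valuation_eq_one_iff _).1 ((Matrix.isUnit_iff_isUnit_det M).1 hM)

theorem HM_log_prod {Ω : Type*} [Field Ω] {ψ : Ω → ℝ}
    (hψ : ∀ a b, a ≠ 0 → b ≠ 0 → ψ (a * b) = ψ a + ψ b) (h1 : ψ 1 = 0) {α : Type*}
    (S : Finset α) (f : α → Ω) (hf : ∀ i, f i ≠ 0) : ψ (∏ i ∈ S, f i) = ∑ i ∈ S, ψ (f i) := by
  classical
  induction S using Finset.induction_on with
  | empty => simpa using h1
  | insert i S hi ih =>
    rw [Finset.prod_insert hi, Finset.sum_insert hi,
      hψ _ _ (hf i) (Finset.prod_ne_zero_iff.2 fun j _ => hf j), ih]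

theorem HM_log_pow {Ω : Type*} [Field Ω] {ψ : Ω → ℝ}
    (hψ : ∀ a b, a ≠ 0 → b ≠ 0 → ψ (a * b) = ψ a + ψ b) (h1 : ψ 1 = 0) {a : Ω} (ha : a ≠ 0)
    (k : ℕ) : ψ (a ^ k) = k * ψ a := by
  induction k with
  | zero => simpa using h1
  | succ k ih =>
    rw [pow_succ, hψ _ _ (pow_ne_zero _ ha) ha, ih]
    push_cast
    ring

theorem HM_adj {κ : Type v} [Field κ] [Algebra L κ] {D : Type} [Fintype D] [DecidableEq D]
    (H : Set (Matrix D D L)) (hH : Algebra.adjoin L H = ⊤) (H' : Set (Matrix D D κ))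
    (hH' : ∀ h ∈ H, h.map (algebraMap L κ) ∈ H') : Algebra.adjoin κ H' = ⊤ := by
  have key : ∀ M : Matrix D D L, M.map (algebraMap L κ) ∈ Algebra.adjoin κ H' := by
    intro M
    have hM : M ∈ Algebra.adjoin L H := by rw [hH]; trivial
    induction hM using Algebra.adjoin_induction with
    | mem x hx => exact Algebra.subset_adjoin (hH' x hx)
    | algebraMap r =>
      have : (algebraMap L (Matrix D D L) r).map (algebraMap L κ) =
          algebraMap κ (Matrix D D κ) (algebraMap L κ r) := by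
        ext i j
        by_cases h : i = j <;> simp [Matrix.algebraMap_matrix_apply, h]
      rw [this]
      exact Subalgebra.algebraMap_mem _ _
    | add x y _ _ hx hy =>
      rw [Matrix.map_add _ (map_add (algebraMap L κ))]
      exact add_mem hx hy
    | mul x y _ _ hx hy =>
      rw [Matrix.map_mul]
      exact mul_mem hx hy
  rw [eq_top_iff]
  intro N _
  rw [matrix_eq_sum_single N]
  refine sum_mem fun i _ => sum_mem fun j _ => ?_
  have : single i j (N i j) = N i j • (single i j (1 : L)).map (algebraMap L κ) := by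
    ext i' j'
    by_cases h : i = i' ∧ j = j' <;> simp [Matrix.single_apply, h]
  rw [this]
  exact Subalgebra.smul_mem _ (key _) _

/-- A valuation for which the translate of `a` is small gives a destabilising pair over the
residue field. -/
theorem hm_val {a : (ι → Σ t, n t) → L} {τ : ι → T} (hτ : Cont τ a) {e : ℕ} (he : 0 < e)
    {s : T → ℕ}
    (hs : ∀ t, s t * Fintype.card (n t) = e * (Finset.univ.filter fun j => τ j = t).card)
    {Ω : Type v} [Field Ω] [Algebra L Ω] (O : ValuationSubring Ω) (hO : ∀ c, algebraMap L Ω c ∈ O)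
    (g : ∀ t, Matrix (n t) (n t) Ω) (hg : ∀ t, IsUnit (g t))
    (hv : ∀ I, O.valuation (tact (blockDiagonal' g) (fun J => algebraMap L Ω (a J)) I ^ e) <
      O.valuation (∏ t, (g t).det ^ s t)) :
    ∃ (κ : Type v) (_ : Field κ) (_ : Algebra L κ) (g' : ∀ t, Matrix (n t) (n t) κ)
      (w : (Σ t, n t) → ℝ), (∀ t, IsUnit (g' t)) ∧ (∀ t, ∑ i, w ⟨t, i⟩ = 0) ∧
      ∀ I, tact (blockDiagonal' g') (fun J => algebraMap L κ (a J)) I ≠ 0 → 0 < ∑ j, w (I j) := by
  classical
  choose A B π hA hB hdec using fun t => exists_smith O (g t)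
  have hdet : ∀ t, (g t).det =
      ((A t).map O.subtype).det * (∏ i, π t i) * ((B t).map O.subtype).det := by
    intro t
    conv_lhs => rw [hdec t]
    rw [det_mul, det_mul, det_diagonal]
  have hπ : ∀ t i, π t i ≠ 0 := by
    intro t i h0
    have h := ((Matrix.isUnit_iff_isUnit_det _).1 (hg t)).ne_zero
    rw [hdet t, Finset.prod_eq_zero (Finset.mem_univ i) h0, mul_zero, zero_mul] at h
    exact h rfl
  have hΔ : O.valuation (∏ t, (g t).det ^ s t) = O.valuation (∏ t, (∏ i, π t i) ^ s t) := by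
    rw [map_prod, map_prod]
    refine Finset.prod_congr rfl fun t _ => ?_
    rw [map_pow, map_pow, hdet t, map_mul, map_mul, HM_det O (hA t), HM_det O (hB t), one_mul,
      mul_one]
  choose B' hB' using fun t => (hB t).exists_right_inv
  let φ : L →+* O := (algebraMap L Ω).codRestrict O hO
  let x : (ι → Σ t, n t) → O := tact (blockDiagonal' A) fun J => φ (a J)
  have hx : ∀ I, (x I : Ω) =
      tact ((blockDiagonal' A).map O.subtype) (fun J => algebraMap L Ω (a J)) I :=
    fun I => tact_map O.subtype _ _ I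
  have hmat : blockDiagonal' g * (blockDiagonal' B').map O.subtype =
      (blockDiagonal' A).map O.subtype * diagonal fun ik : Σ t, n t => π ik.1 ik.2 := by
    rw [blockDiagonal'_map _ _ (map_zero _), blockDiagonal'_map _ _ (map_zero _),
      ← blockDiagonal'_diagonal, ← blockDiagonal'_mul, ← blockDiagonal'_mul]
    congr 1
    funext t
    conv_lhs => rw [hdec t]
    rw [Matrix.mul_assoc, ← Matrix.map_mul, hB' t, Matrix.map_one _ (map_zero _) (map_one _),
      Matrix.mul_one]
  have hsm : ∀ I : ι → Σ t, n t, O.valuation (((x I : Ω) * ∏ j, π (I j).1 (I j).2) ^ e) <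
      O.valuation (∏ t, (∏ i, π t i) ^ s t) := by
    intro I
    have h := HM_small O (blockDiagonal' B') _ hv I
    rw [← tact_mul, hmat, tact_mul, tact_diagonal, ← hx, hΔ] at h
    exact h
  obtain ⟨ψ, hψ, hψ1, hlt⟩ := exists_log O
    ((Finset.univ.filter fun I : ι → Σ t, n t => O.valuation (x I : Ω) = 1).image
      fun I : ι → Σ t, n t => ((∏ j, π (I j).1 (I j).2) ^ e, ∏ t, (∏ i, π t i) ^ s t)) (by
    intro z hz
    obtain ⟨I, hI, rfl⟩ := Finset.mem_image.1 hz
    refine ⟨pow_ne_zero _ (Finset.prod_ne_zero_iff.2 fun j _ => hπ _ _), ?_⟩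
    have h := hsm I
    rw [mul_pow, map_mul, map_pow, (Finset.mem_filter.1 hI).2, one_pow, one_mul] at h
    exact h)
  have h1 : ψ 1 = 0 := hψ1 1 (map_one _)
  let _ : Algebra L (IsLocalRing.ResidueField O) := ((IsLocalRing.residue O).comp φ).toAlgebra
  refine ⟨IsLocalRing.ResidueField O, inferInstance, inferInstance,
    fun t => (A t).map (IsLocalRing.residue O),
    fun ik => e * ψ (π ik.1 ik.2) - e / Fintype.card (n ik.1) * ∑ i, ψ (π ik.1 i),
    fun t => (hA t).map (RingHom.mapMatrix (IsLocalRing.residue O)), fun t => ?_, fun I hI => ?_⟩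
  · show ∑ i : n t, ((e : ℝ) * ψ (π t i) - e / Fintype.card (n t) * ∑ i, ψ (π t i)) = 0
    rw [Finset.sum_sub_distrib, ← Finset.mul_sum, Finset.sum_const, Finset.card_univ,
      nsmul_eq_mul]
    rcases Nat.eq_zero_or_pos (Fintype.card (n t)) with h0 | h0
    · have := Fintype.card_eq_zero_iff.1 h0
      simp
    · have : (Fintype.card (n t) : ℝ) ≠ 0 := by exact_mod_cast h0.ne'
      field_simp
      ring
  · have hr : IsLocalRing.residue O (x I) ≠ 0 := by
      intro h0
      apply hI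
      rw [← h0, ← blockDiagonal'_map _ _ (map_zero _)]
      exact (tact_map (IsLocalRing.residue O) _ _ I).symm
    have hu : IsUnit (x I) := by
      by_contra hu
      exact hr ((IsLocalRing.residue_eq_zero_iff _).2 ((IsLocalRing.mem_maximalIdeal _).2 hu))
    have hc : Cont τ fun J => φ (a J) := fun J hJ => hτ J fun h0 => hJ (by simp [h0])
    have hI' : ∀ j, (I j).1 = τ j := (hc.tact A) I hu.ne_zero
    have h := hlt _ (Finset.mem_image.2 ⟨I, Finset.mem_filter.2
      ⟨Finset.mem_univ _, (O.valuation_eq_one_iff _).1 hu⟩, rfl⟩)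
    have hP : ∀ t, (∏ i, π t i) ≠ 0 := fun t => Finset.prod_ne_zero_iff.2 fun j _ => hπ _ _
    dsimp only at h
    rw [HM_log_prod hψ h1 _ _ (fun t => pow_ne_zero _ (hP t)),
      HM_log_pow hψ h1 (Finset.prod_ne_zero_iff.2 fun j _ => hπ _ _),
      HM_log_prod hψ h1 _ _ (fun j => hπ _ _)] at h
    have e1 : ∑ t, ψ ((∏ i, π t i) ^ s t) =
        ∑ j, (e : ℝ) / Fintype.card (n (I j).1) * ∑ i, ψ (π (I j).1 i) := by
      have e2 : ∀ j, (e : ℝ) / Fintype.card (n (I j).1) * ∑ i, ψ (π (I j).1 i) =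
          (fun t => (e : ℝ) / Fintype.card (n t) * ∑ i, ψ (π t i)) (τ j) := by
        intro j
        rw [← hI' j]
      rw [Finset.sum_congr rfl fun j _ => e2 j, ← Finset.sum_fiberwise' Finset.univ τ
        fun t => (e : ℝ) / Fintype.card (n t) * ∑ i, ψ (π t i)]
      refine Finset.sum_congr rfl fun t _ => ?_
      rw [HM_log_pow hψ h1 (hP t), HM_log_prod hψ h1 _ _ (hπ t), Finset.sum_const, nsmul_eq_mul]
      rcases Nat.eq_zero_or_pos (Fintype.card (n t)) with h0 | h0
      · have := Fintype.card_eq_zero_iff.1 h0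
        simp
      · have h2 : (Fintype.card (n t) : ℝ) ≠ 0 := by exact_mod_cast h0.ne'
        have h3 : (s t : ℝ) * Fintype.card (n t) =
            e * ((Finset.univ.filter fun j => τ j = t).card : ℝ) := by exact_mod_cast hs t
        have h4 : (s t : ℝ) = ((Finset.univ.filter fun j => τ j = t).card : ℝ) *
            (e / Fintype.card (n t)) := by
          field_simp
          linarith
        rw [h4, mul_assoc]
    rw [Finset.sum_sub_distrib, ← Finset.mul_sum, ← e1]
    linarith

/-- Hilbert-Mumford: semistability as a polynomial identity. -/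
theorem hm {a : (ι → Σ t, n t) → L} (ha : a ≠ 0) {τ : ι → T} (hτ : Cont τ a)
    (H : Set (∀ t, Matrix (n t) (n t) L))
    (hH : ∀ h ∈ H, (∀ t, IsUnit (h t)) ∧ ∃ c : L, tact (blockDiagonal' h) a = c • a)
    (hirr : ∀ t, Algebra.adjoin L ((fun h => h t) '' H) = ⊤) {e : ℕ} (he : 0 < e) {s : T → ℕ}
    (hs : ∀ t, s t * Fintype.card (n t) = e * (Finset.univ.filter fun j => τ j = t).card)
    (𝒥 : ℕ → Submodule L (PR L n)) (h1 : ∀ I, gen a I ^ e ∈ 𝒥 1)
    (h2 : ∀ I S, ∀ x ∈ 𝒥 S, gen a I ^ e * x ∈ 𝒥 (S + 1))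
    (h3 : ∀ S, ∀ x ∈ 𝒥 S, Dl L n s * x ∈ 𝒥 (S + 1)) : ∃ S, Dl L n s ^ S ∈ 𝒥 S := by
  classical
  by_contra hcon
  let Ω := FractionRing (PR L n)
  let f : PR L n →+* Ω := algebraMap (PR L n) Ω
  have hf : Function.Injective f := IsFractionRing.injective (PR L n) Ω
  have hfC : ∀ c : L, f (C c) = algebraMap L Ω c := fun c =>
    (IsScalarTower.algebraMap_apply L (PR L n) Ω c).symm
  have hΔ : f (Dl L n s) ≠ 0 := (map_ne_zero_iff f hf).2 (Dl_ne_zero s)
  have h3' : ∀ k S, ∀ x ∈ 𝒥 S, Dl L n s ^ k * x ∈ 𝒥 (S + k) := by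
    intro k
    induction k with
    | zero => intro S x hx; simpa using hx
    | succ k ih =>
      intro S x hx
      have := h3 _ _ (ih S x hx)
      rw [← mul_assoc, ← pow_succ'] at this
      exact this
  let P : Ω → Prop := fun z => ∃ S, ∃ r ∈ 𝒥 S, z * f (Dl L n s) ^ S = f r
  have P0 : P 0 := ⟨0, 0, zero_mem _, by simp⟩
  have Padd : ∀ z z', P z → P z' → P (z + z') := by
    rintro z z' ⟨S, r, hr, h⟩ ⟨S', r', hr', h'⟩
    refine ⟨S + S', Dl L n s ^ S' * r + Dl L n s ^ S * r', add_mem (h3' _ _ _ hr) ?_, ?_⟩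
    · rw [add_comm]
      exact h3' _ _ _ hr'
    · rw [map_add, map_mul, map_mul, map_pow, map_pow, ← h, ← h']
      ring
  let Y : Set Ω := Set.range fun I => f (gen a I ^ e) / f (Dl L n s)
  have Pmul : ∀ b ∈ Algebra.adjoin L Y, ∀ z, P z → P (b * z) := by
    intro b hb
    induction hb using Algebra.adjoin_induction with
    | mem y hy =>
      obtain ⟨I, rfl⟩ := hy
      rintro z ⟨S, r, hr, h⟩
      refine ⟨S + 1, gen a I ^ e * r, h2 I S r hr, ?_⟩
      rw [map_mul, ← h, pow_succ]
      show f (gen a I ^ e) / f (Dl L n s) * z * _ = _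
      conv_rhs => rw [← div_mul_cancel₀ (f (gen a I ^ e)) hΔ]
      ring
    | algebraMap c =>
      rintro z ⟨S, r, hr, h⟩
      refine ⟨S, c • r, Submodule.smul_mem _ c hr, ?_⟩
      rw [smul_eq_C_mul, map_mul, hfC, ← h, mul_assoc]
    | add y y' _ _ hy hy' =>
      intro z hz
      rw [add_mul]
      exact Padd _ _ (hy z hz) (hy' z hz)
    | mul y y' _ _ hy hy' =>
      intro z hz
      rw [mul_assoc]
      exact hy _ (hy' z hz)
  let Q : Ideal (Algebra.adjoin L Y).toSubring :=
    { carrier := {z | P z}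
      zero_mem' := P0
      add_mem' := fun {z z'} hz hz' => Padd _ _ hz hz'
      smul_mem' := fun b z hz => Pmul b b.2 z hz }
  have hQ : Q ≠ ⊤ := by
    intro h
    have h1' : (1 : (Algebra.adjoin L Y).toSubring) ∈ Q := by rw [h]; trivial
    obtain ⟨S, r, hr, h'⟩ : P 1 := h1'
    rw [one_mul, ← map_pow] at h'
    exact hcon ⟨S, by rw [hf h']; exact hr⟩
  obtain ⟨O, hBO, hQO⟩ := Ideal.image_subset_nonunits_valuationSubring Q hQ
  have hdet : ∀ t, ((gm L n t).map f).det = f (gm L n t).det := fun t =>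
    (RingHom.map_det f _).symm
  obtain ⟨κ, _, _, g', w, hg', hw, hpos⟩ := hm_val hτ he hs O
    (fun c => hBO (Subalgebra.algebraMap_mem (Algebra.adjoin L Y) c))
    (fun t => (gm L n t).map f)
    (fun t => by
      rw [Matrix.isUnit_iff_isUnit_det, hdet, isUnit_iff_ne_zero, map_ne_zero_iff f hf]
      have h := Dl_ne_zero (L := L) (n := n) fun _ => 1
      have h' := Finset.prod_ne_zero_iff.1 h t (Finset.mem_univ _)
      rwa [pow_one] at h')
    (fun I => by
      have e1 : tact (blockDiagonal' fun t => (gm L n t).map f) (fun J => algebraMap L Ω (a J)) I =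
          f (gen a I) := by
        rw [gen, tact_map, blockDiagonal'_map _ _ (map_zero _)]
        simp only [hfC]
      have e2 : ∏ t, ((gm L n t).map f).det ^ s t = f (Dl L n s) := by
        rw [Dl, map_prod]
        exact Finset.prod_congr rfl fun t _ => by rw [hdet, map_pow]
      rw [e1, e2, ← map_pow]
      have hy : f (gen a I ^ e) / f (Dl L n s) ∈ O.nonunits :=
        hQO ⟨⟨_, Algebra.subset_adjoin ⟨I, rfl⟩⟩,
          ⟨1, gen a I ^ e, h1 I, by
            show f (gen a I ^ e) / f (Dl L n s) * f (Dl L n s) ^ 1 = _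
            rw [pow_one, div_mul_cancel₀ _ hΔ]⟩, rfl⟩
      rw [ValuationSubring.mem_nonunits_iff, map_div₀,
        div_lt_one₀ (zero_lt_iff.2 ((Valuation.ne_zero_iff _).2 hΔ))] at hy
      exact hy)
  refine kempf (a := fun J => algebraMap L κ (a J)) ?_
    ((fun h t => (h t).map (algebraMap L κ)) '' H) ?_ ?_ g' hg' w hw hpos
  · intro h0
    apply ha
    funext J
    exact (map_eq_zero (algebraMap L κ)).1 (congrFun h0 J)
  · rintro _ ⟨h, hh, rfl⟩
    obtain ⟨hu, c, hc⟩ := hH h hh
    refine ⟨fun t => (hu t).map (RingHom.mapMatrix (algebraMap L κ)), algebraMap L κ c, ?_⟩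
    funext I
    rw [← blockDiagonal'_map _ _ (map_zero _), ← tact_map, hc]
    simp
  · intro t
    refine HM_adj _ (hirr t) _ ?_
    rintro _ ⟨h, hh, rfl⟩
    exact ⟨_, ⟨h, hh, rfl⟩, rfl⟩

end Pool.Agent.MP_0c8446_ag
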