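import Pool.Agent.MP_0c8446_ag.GI.KDefs
import Pool.Agent.MP_0c8446_ag.GI.HM

namespace Pool.Agent.MP_0c8446_ag

open MvPolynomial Matrix

universe v

variable {L : Type v} [Field L] {T : Type} [Fintype T] [DecidableEq T] {n : T → Type}
  [∀ t, Fintype (n t)] [∀ t, DecidableEq (n t)] {ι : Type} [Fintype ι] [DecidableEq ι]

theorem HMv_small {Ω : Type*} [Field Ω] (O : ValuationSubring Ω) {D : Type} [Fintype D]
    (M : Matrix D D O) (y : (ι → D) → Ω) (I : ι → D) :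
    ∃ J, O.valuation (tact (M.map O.subtype) y I) ≤ O.valuation (y J) := by
  classical
  obtain ⟨J0, -, hJ0⟩ := Finset.exists_max_image Finset.univ (fun J => O.valuation (y J))
    ⟨I, Finset.mem_univ _⟩
  refine ⟨J0, Valuation.map_sum_le _ fun J _ => ?_⟩
  rw [map_mul]
  refine le_trans ?_ (hJ0 J (Finset.mem_univ _))
  refine mul_le_of_le_one_right' ?_
  have : ∏ j, (M.map O.subtype) (J j) (I j) = ((∏ j, M (J j) (I j) : O) : Ω) :=
    (map_prod O.subtype (fun j => M (J j) (I j)) Finset.univ).symm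
  rw [this]
  exact O.valuation_le_one _

theorem HMv_log {Ω : Type*} [Field Ω] (O : ValuationSubring Ω) {s : Set (Ω × Ω)}
    (hs : s.Finite) : ∃ ψ : Ω → ℝ, (∀ a b, a ≠ 0 → b ≠ 0 → ψ (a * b) = ψ a + ψ b) ∧ ψ 1 = 0 ∧
      ∀ x y, (x, y) ∈ s → x ≠ 0 → y ≠ 0 → (O.valuation x < O.valuation y → ψ y < ψ x) ∧
        (O.valuation x ≤ O.valuation y → ψ y ≤ ψ x) := by
  classical
  obtain ⟨ψ, hψ, hψ1, hlt⟩ := exists_log O
    (hs.toFinset.filter fun x => x.1 ≠ 0 ∧ O.valuation x.1 < O.valuation x.2)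
    fun x hx => (Finset.mem_filter.1 hx).2
  refine ⟨ψ, hψ, hψ1 1 (map_one _), fun x y hxy hx hy => ?_⟩
  have h1 : O.valuation x < O.valuation y → ψ y < ψ x := fun h =>
    hlt (x, y) (Finset.mem_filter.2 ⟨hs.mem_toFinset.2 hxy, hx, h⟩)
  refine ⟨h1, fun h => ?_⟩
  rcases h.lt_or_eq with h | h
  · exact (h1 h).le
  · have h2 : ψ (x / y) = 0 := hψ1 _ (by
      rw [map_div₀, h, div_self ((Valuation.ne_zero_iff _).2 hy)])
    have h3 := hψ (x / y) y (div_ne_zero hx hy) hy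
    rw [div_mul_cancel₀ _ hy, h2, zero_add] at h3
    exact h3.ge

theorem HMv_scale {α : Type} [Fintype α] (f : α → ℝ) :
    ∃ c : ℝ, 0 ≤ c ∧ ∀ x, 0 < f x → 1 ≤ c * f x := by
  refine ⟨∑ x, |f x|⁻¹, Finset.sum_nonneg fun x _ => by positivity, fun x hx => ?_⟩
  have h : |f x|⁻¹ ≤ ∑ x, |f x|⁻¹ :=
    Finset.single_le_sum (f := fun x => |f x|⁻¹) (fun x _ => by positivity) (Finset.mem_univ x)
  rw [abs_of_pos hx] at h
  exact (inv_mul_cancel₀ hx.ne').ge.trans (mul_le_mul_of_nonneg_right h hx.le)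

/-- A valuation gives a destabilising pair over the residue field. -/
theorem hm2_val (a : (ι → Σ t, n t) → L) (𝓔 : Set (Matrix (Σ t, n t) (Σ t, n t) L))
    (𝒮 : Set (Finset T)) {Ω : Type v} [Field Ω] [Algebra L Ω] (O : ValuationSubring Ω)
    (hO : ∀ c, algebraMap L Ω c ∈ O) (g : ∀ t, Matrix (n t) (n t) Ω) (hg : ∀ t, IsUnit (g t))
    (h1 : ∀ I, O.valuation (tact (blockDiagonal' g) (fun J => algebraMap L Ω (a J)) I ^
      (2 * Fintype.card (Σ t, n t))) < O.valuation ((∏ t, (g t).det ^ 2) ^ Fintype.card ι))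
    (h2 : ∀ E ∈ 𝓔, ∀ I, O.valuation (tact (blockDiagonal' g)
      (fun J => algebraMap L Ω (tmat E J)) I ^ (2 * Fintype.card (Σ t, n t))) ≤
        O.valuation ((∏ t, (g t).det ^ 2) ^ 2))
    (h3 : ∀ A ∈ 𝒮, O.valuation ((∏ t ∈ A, (g t).det) ^ (2 * Fintype.card (Σ t, n t))) ≤
      O.valuation ((∏ t, (g t).det ^ 2) ^ ∑ t ∈ A, Fintype.card (n t))) :
    ∃ (κ : Type v) (_ : Field κ) (_ : Algebra L κ) (g' : ∀ t, Matrix (n t) (n t) κ)
      (w : (Σ t, n t) → ℝ), Dst (fun I => algebraMap L κ (a I))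
        ((fun E => E.map (algebraMap L κ)) '' 𝓔) (blockDiagonal' g') w ∧
          ∀ A ∈ 𝒮, 0 ≤ ∑ t ∈ A, ∑ i, w ⟨t, i⟩ := by
  classical
  choose A B π hA hB hdec using fun t => exists_smith O (g t)
  have hdet : ∀ t, (g t).det =
      ((A t).map O.subtype).det * (∏ i, π t i) * ((B t).map O.subtype).det := by
    intro t
    conv_lhs => rw [hdec t]
    rw [det_mul, det_mul, det_diagonal]
  have hπ : ∀ t i, π t i ≠ 0 := by
    intro t i h0
    have h := ((Matrix.isUnit_iff_isUnit_det _).1 (hg t)).ne_zero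
    rw [hdet t, Finset.prod_eq_zero (Finset.mem_univ i) h0, mul_zero, zero_mul] at h
    exact h rfl
  have hP : ∀ t, (∏ i, π t i) ≠ 0 := fun t => Finset.prod_ne_zero_iff.2 fun j _ => hπ _ _
  have hd : ∀ t, O.valuation (g t).det = O.valuation (∏ i, π t i) := fun t => by
    rw [hdet t, map_mul, map_mul, HM_det O (hA t), HM_det O (hB t), one_mul, mul_one]
  have hΔ : ∀ k : ℕ, O.valuation ((∏ t, (g t).det ^ 2) ^ k) =
      O.valuation ((∏ t, (∏ i, π t i) ^ 2) ^ k) := fun k => by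
    rw [map_pow, map_pow, map_prod, map_prod]
    congr 1
    exact Finset.prod_congr rfl fun t _ => by rw [map_pow, map_pow, hd]
  have hΔ0 : ∀ k : ℕ, (∏ t, (∏ i, π t i) ^ 2) ^ k ≠ 0 := fun k =>
    pow_ne_zero _ (Finset.prod_ne_zero_iff.2 fun t _ => pow_ne_zero _ (hP t))
  choose B' hB' using fun t => (hB t).exists_right_inv
  let φ : L →+* O := (algebraMap L Ω).codRestrict O hO
  have hmat : blockDiagonal' g * (blockDiagonal' B').map O.subtype =
      (blockDiagonal' A).map O.subtype * diagonal fun ik : Σ t, n t => π ik.1 ik.2 := by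
    rw [blockDiagonal'_map _ _ (map_zero _), blockDiagonal'_map _ _ (map_zero _),
      ← blockDiagonal'_diagonal, ← blockDiagonal'_mul, ← blockDiagonal'_mul]
    congr 1
    funext t
    conv_lhs => rw [hdec t]
    rw [Matrix.mul_assoc, ← Matrix.map_mul, hB' t, Matrix.map_one _ (map_zero _) (map_one _),
      Matrix.mul_one]
  let _ : Algebra L (IsLocalRing.ResidueField O) := ((IsLocalRing.residue O).comp φ).toAlgebra
  have key : ∀ (ι' : Type) [Fintype ι'] [DecidableEq ι'] (u : (ι' → Σ t, n t) → L)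
      (I : ι' → Σ t, n t) (e : ℕ), tact (blockDiagonal' fun t => (A t).map (IsLocalRing.residue O))
        (fun J => algebraMap L (IsLocalRing.ResidueField O) (u J)) I ≠ 0 →
      ∃ J, O.valuation ((∏ j, π (I j).1 (I j).2) ^ e) ≤
        O.valuation (tact (blockDiagonal' g) (fun J => algebraMap L Ω (u J)) J ^ e) := by
    intro ι' _ _ u I e hI
    let x : O := tact (blockDiagonal' A) (fun J => φ (u J)) I
    have hx : (x : Ω) =
        tact ((blockDiagonal' A).map O.subtype) (fun J => algebraMap L Ω (u J)) I :=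
      tact_map O.subtype _ _ I
    have hr : IsLocalRing.residue O x ≠ 0 := by
      intro h0
      apply hI
      rw [← h0, ← blockDiagonal'_map _ _ (map_zero _)]
      exact (tact_map (IsLocalRing.residue O) _ _ I).symm
    have hu : IsUnit x := by
      by_contra hu
      exact hr ((IsLocalRing.residue_eq_zero_iff _).2 ((IsLocalRing.mem_maximalIdeal _).2 hu))
    obtain ⟨J, hJ⟩ := HMv_small O (blockDiagonal' B')
      (tact (blockDiagonal' g) fun J => algebraMap L Ω (u J)) I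
    rw [← tact_mul, hmat, tact_mul, tact_diagonal, ← hx, map_mul,
      (O.valuation_eq_one_iff _).1 hu, one_mul] at hJ
    refine ⟨J, ?_⟩
    rw [map_pow, map_pow]
    exact pow_le_pow_left' hJ e
  generalize hdd : Fintype.card (Σ t, n t) = d at h1 h2 h3
  obtain ⟨ψ, hψ, hψ1, hlt⟩ := HMv_log O
    (((Set.finite_range fun I : ι → Σ t, n t => ((∏ j, π (I j).1 (I j).2) ^ (2 * d),
      (∏ t, (∏ i, π t i) ^ 2) ^ Fintype.card ι)).union
      (Set.finite_range fun I : Bool → Σ t, n t => ((∏ j, π (I j).1 (I j).2) ^ (2 * d),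
        (∏ t, (∏ i, π t i) ^ 2) ^ 2))).union
      (Set.finite_range fun S : Finset T => ((∏ t ∈ S, ∏ i, π t i) ^ (2 * d),
        (∏ t, (∏ i, π t i) ^ 2) ^ ∑ t ∈ S, Fintype.card (n t))))
  obtain ⟨Ψ, hΨ⟩ : ∃ Ψ, Ψ = ∑ t, ∑ i, ψ (π t i) := ⟨_, rfl⟩
  have e1 : ∀ k : ℕ, ψ ((∏ t, (∏ i, π t i) ^ 2) ^ k) = k * (2 * Ψ) := fun k => by
    rw [HM_log_pow hψ hψ1 (Finset.prod_ne_zero_iff.2 fun t _ => pow_ne_zero _ (hP t)),
      HM_log_prod hψ hψ1 _ _ (fun t => pow_ne_zero _ (hP t)), hΨ, Finset.mul_sum _ _ (2 : ℝ)]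
    congr 1
    refine Finset.sum_congr rfl fun t _ => ?_
    rw [HM_log_pow hψ hψ1 (hP t), HM_log_prod hψ hψ1 _ _ (hπ t), Nat.cast_ofNat]
  have e0 : ∀ (ι' : Type) [Fintype ι'] (I : ι' → Σ t, n t),
      (∏ j, π (I j).1 (I j).2) ≠ 0 := fun ι' _ I => Finset.prod_ne_zero_iff.2 fun j _ => hπ _ _
  let w0 : (Σ t, n t) → ℝ := fun ik => 2 * d * ψ (π ik.1 ik.2) - 2 * Ψ
  have e2 : ∀ (ι' : Type) [Fintype ι'] (I : ι' → Σ t, n t), ∑ j, w0 (I j) =
      ψ ((∏ j, π (I j).1 (I j).2) ^ (2 * d)) - Fintype.card ι' * (2 * Ψ) := fun ι' _ I => by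
    rw [HM_log_pow hψ hψ1 (e0 ι' I), HM_log_prod hψ hψ1 _ _ (fun j => hπ _ _),
      Finset.sum_sub_distrib, ← Finset.mul_sum, Finset.sum_const, Finset.card_univ, nsmul_eq_mul]
    push_cast
    rfl
  obtain ⟨c, hc0, hc⟩ := HMv_scale fun I : ι → Σ t, n t => ∑ j, w0 (I j)
  refine ⟨IsLocalRing.ResidueField O, inferInstance, inferInstance,
    fun t => (A t).map (IsLocalRing.residue O), fun ik => c * w0 ik,
    ⟨isUnit_blockDiagonal' fun t => (hA t).map (RingHom.mapMatrix (IsLocalRing.residue O)), ?_,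
      fun I hI => ?_, ?_⟩, fun S hS => ?_⟩
  · rw [← Finset.mul_sum, Finset.sum_sub_distrib, ← Finset.mul_sum, Finset.sum_const,
      Finset.card_univ, hdd, nsmul_eq_mul, Fintype.sum_sigma, ← hΨ]
    ring
  · obtain ⟨J, hJ⟩ := key ι a I (2 * d) hI
    have h4 := (hlt _ _ (Or.inl (Or.inl ⟨I, rfl⟩)) (pow_ne_zero _ (e0 ι I)) (hΔ0 _)).1
      (hJ.trans_lt ((h1 J).trans_eq (hΔ _)))
    rw [e1] at h4
    rw [← Finset.mul_sum]
    exact hc I (by rw [e2]; exact sub_pos.2 h4)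
  · rintro _ ⟨E, hE, rfl⟩ i j hij
    obtain ⟨J, hJ⟩ := key Bool (tmat E) (fun b => cond b j i) (2 * d) (by
      have h4 := congrFun (tact_tmat (blockDiagonal' fun t => (A t).map (IsLocalRing.residue O))
        (E.map (algebraMap L (IsLocalRing.ResidueField O)))) fun b => cond b j i
      exact fun h5 => hij (h4.symm.trans h5))
    have h4 := (hlt _ _ (Or.inl (Or.inr ⟨fun b => cond b j i, rfl⟩))
      (pow_ne_zero _ (e0 Bool _)) (hΔ0 _)).2 (hJ.trans ((h2 E hE J).trans_eq (hΔ _)))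
    have h5 := e2 Bool fun b => cond b j i
    rw [e1] at h4
    rw [Fintype.sum_bool, Fintype.card_bool] at h5
    rw [← mul_add, add_comm]
    exact mul_nonneg hc0 (h5.symm ▸ sub_nonneg.2 h4)
  · have h4 : O.valuation ((∏ t ∈ S, ∏ i, π t i) ^ (2 * d)) =
        O.valuation ((∏ t ∈ S, (g t).det) ^ (2 * d)) := by
      rw [map_pow, map_pow, map_prod, map_prod]
      congr 1
      exact Finset.prod_congr rfl fun t _ => (hd t).symm
    have h0 : (∏ t ∈ S, ∏ i, π t i) ≠ 0 := Finset.prod_ne_zero_iff.2 fun t _ => hP t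
    have h5 := (hlt _ _ (Or.inr ⟨S, rfl⟩) (pow_ne_zero _ h0) (hΔ0 _)).2
      (h4.trans_le ((h3 S hS).trans_eq (hΔ _)))
    rw [e1, HM_log_pow hψ hψ1 h0, HM_log_prod hψ hψ1 _ _ hP] at h5
    have h6 : ∑ t ∈ S, ∑ i, c * w0 ⟨t, i⟩ = c * (((2 * d : ℕ) : ℝ) * ∑ t ∈ S, ψ (∏ i, π t i) -
        ((∑ t ∈ S, Fintype.card (n t) : ℕ) : ℝ) * (2 * Ψ)) := by
      rw [Nat.cast_sum, Finset.sum_mul, Finset.mul_sum, ← Finset.sum_sub_distrib, Finset.mul_sum]
      refine Finset.sum_congr rfl fun t _ => ?_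
      rw [← Finset.mul_sum, HM_log_prod hψ hψ1 _ _ (hπ t), Finset.sum_sub_distrib,
        ← Finset.mul_sum, Finset.sum_const, Finset.card_univ, nsmul_eq_mul]
      push_cast
      rfl
    rw [h6]
    exact mul_nonneg hc0 (sub_nonneg.2 h5)

end Pool.Agent.MP_0c8446_ag
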