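import Pool.Agent.MP_0c8446_ag.GI.Fib

namespace Pool.Agent.MP_0c8446_ag

open Set Polynomial
open scoped TensorProduct

universe u v w x

variable {k : Type u} [Field k] [IsAlgClosed k] {K : Type v} [Field K] [CharZero K]
  (W : Weil.{u, v, w} k K)

variable {A P : Var k} [AddCommGroup A.pts] {p q m : Mor P A} (h : IsProd p q)
  (hm : ∀ x, m.1 x = p.1 x + q.1 x)

namespace Weil

omit [IsAlgClosed k] [CharZero K] [AddCommGroup A.pts] in
theorem Hopf1_fst {T : Var k} (f g : Mor T A) (a : W.H A) :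
    W.pull (h.lift f g) (W.pull p a) = W.pull f a := by
  rw [W.pull_pull]
  exact W.pull_congr (fun x => by simp) a

omit [IsAlgClosed k] [CharZero K] [AddCommGroup A.pts] in
theorem Hopf1_snd {T : Var k} (f g : Mor T A) (a : W.H A) :
    W.pull (h.lift f g) (W.pull q a) = W.pull g a := by
  rw [W.pull_pull]
  exact W.pull_congr (fun x => by simp) a

omit [IsAlgClosed k] [CharZero K] [AddCommGroup A.pts] in
theorem Hopf1_id (a : W.H A) : W.pull (Mor.id A) a = a := W.pull_id _ rfl a

/-- The span of the exterior products with both degrees positive. -/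
def Hopf1_mid (p q : Mor P A) (j : ℕ) : Submodule K (W.H P) :=
  Submodule.span K {c | ∃ s t, s + t = j ∧ s ≠ 0 ∧ t ≠ 0 ∧ ∃ a ∈ W.gr A s, ∃ b ∈ W.gr A t,
    c = W.pull p a * W.pull q b}

theorem Hopf1_split {j : ℕ} (hj : j ≠ 0) {c : W.H P} (hc : c ∈ W.gr P j) :
    c - W.pull p (W.pull (h.lift (Mor.id A) (Mor.const A 0)) c) -
      W.pull q (W.pull (h.symm.lift (Mor.id A) (Mor.const A 0)) c) ∈ W.Hopf1_mid p q j := by
  have key := W.gr_prod_le h j ((W.Hopf1_mid p q j).comap (LinearMap.id -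
    (W.pull p).toLinearMap ∘ₗ (W.pull (h.lift (Mor.id A) (Mor.const A 0))).toLinearMap -
    (W.pull q).toLinearMap ∘ₗ (W.pull (h.symm.lift (Mor.id A) (Mor.const A 0))).toLinearMap)) ?_
  · simpa using key hc
  intro s t hst a ha b hb
  simp only [Submodule.mem_comap, LinearMap.sub_apply, LinearMap.id_apply, LinearMap.comp_apply,
    AlgHom.toLinearMap_apply, map_mul, W.Hopf1_fst h, W.Hopf1_snd h, W.Hopf1_fst h.symm,
    W.Hopf1_snd h.symm, W.Hopf1_id]
  by_cases hs : s = 0
  · subst hs
    rw [W.zero, Submodule.mem_span_singleton] at ha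
    obtain ⟨r, rfl⟩ := ha
    rw [W.pull_const (0 : A.pts) (by omega) hb]
    simp
  by_cases ht : t = 0
  · subst ht
    rw [W.zero, Submodule.mem_span_singleton] at hb
    obtain ⟨r, rfl⟩ := hb
    rw [W.pull_const (0 : A.pts) hs ha]
    simp
  rw [W.pull_const (0 : A.pts) hs ha, W.pull_const (0 : A.pts) ht hb]
  simp only [map_zero, mul_zero, zero_mul, sub_zero]
  exact Submodule.subset_span ⟨s, t, hst, hs, ht, a, ha, b, hb, rfl⟩

include h hm

omit [IsAlgClosed k] [CharZero K] in
theorem hopf_left (a : W.H A) : W.pull (h.lift (Mor.id A) (Mor.const A 0)) (W.pull m a) = a := by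
  rw [W.pull_pull]
  exact W.pull_id _ (funext fun x => by simp [hm]) a

omit [IsAlgClosed k] [CharZero K] in
theorem hopf_right (a : W.H A) :
    W.pull (h.symm.lift (Mor.id A) (Mor.const A 0)) (W.pull m a) = a := by
  rw [W.pull_pull]
  refine W.pull_id _ (funext fun x => ?_) a
  have h1 := h.symm.fst_lift (Mor.id A) (Mor.const A 0) x
  have h2 := h.symm.snd_lift (Mor.id A) (Mor.const A 0) x
  simp [hm, h1, h2]

theorem Hopf1_m {j : ℕ} (hj : j ≠ 0) {a : W.H A} (ha : a ∈ W.gr A j) :
    W.pull m a - W.pull p a - W.pull q a ∈ W.Hopf1_mid p q j := by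
  have := W.Hopf1_split h hj (W.pull_gr m j a ha)
  rwa [W.hopf_left h hm, W.hopf_right h hm] at this

/-- Classes of degree one are primitive. -/
theorem hopf_one {a : W.H A} (ha : a ∈ W.gr A 1) : W.pull m a = W.pull p a + W.pull q a := by
  have h1 := W.Hopf1_m h hm one_ne_zero ha
  have h2 : W.Hopf1_mid p q 1 ≤ ⊥ := by
    refine Submodule.span_le.2 ?_
    rintro c ⟨s, t, hst, hs, ht, -⟩
    omega
  have h3 := (Submodule.mem_bot K).1 (h2 h1)
  rw [sub_sub, sub_eq_zero] at h3
  exact h3

theorem hopf_two {a : W.H A} (ha : a ∈ W.gr A 2) :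
    W.pull m a - W.pull p a - W.pull q a ∈ W.sq p q (W.gr A 1) := by
  refine Submodule.span_mono ?_ (W.Hopf1_m h hm two_ne_zero ha)
  rintro c ⟨s, t, hst, hs, ht, a, ha, b, hb, rfl⟩
  obtain rfl : s = 1 := by omega
  obtain rfl : t = 1 := by omega
  exact ⟨a, ha, b, hb, rfl⟩

theorem hopf_low {j : ℕ} {a : W.H A} (ha : a ∈ W.gr A j) : W.pull m a - W.pull q a ∈
    Submodule.span K {c | ∃ x : W.H A, ∃ t < j, ∃ y ∈ W.gr A t, c = W.pull p x * W.pull q y} := by
  by_cases hj : j = 0
  · subst hj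
    rw [W.zero, Submodule.mem_span_singleton] at ha
    obtain ⟨r, rfl⟩ := ha
    simp
  have e : W.pull m a - W.pull q a = (W.pull m a - W.pull p a - W.pull q a) + W.pull p a := by abel
  rw [e]
  refine add_mem (Submodule.span_mono ?_ (W.Hopf1_m h hm hj ha)) (Submodule.subset_span
    ⟨a, 0, by omega, 1, SetLike.one_mem_graded _, by simp⟩)
  rintro c ⟨s, t, hst, hs, ht, a, ha, b, hb, rfl⟩
  exact ⟨a, t, by omega, b, hb, rfl⟩

/-- Primitive classes of degree two vanish. -/
theorem hopf_prim {a : W.H A} (ha : a ∈ W.gr A 2) (hp : W.pull m a = W.pull p a + W.pull q a) :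
    a = 0 := by
  by_contra hne
  obtain ⟨j, hj, c, hc, hτ⟩ := W.exists_gr_ne ha hne
  have hca : c * a = W.tr A (c * a) • W.cl A {0} :=
    W.eq_smul_pt (hj ▸ SetLike.mul_mem_graded hc ha) 0
  have hD : ∀ y, W.fib h.symm (W.pull p c * W.pull m (a * y)) =
      W.tr A (c * a) • y + a * W.fib h.symm (W.pull p c * W.pull m y) := fun y => by
    have hq : W.pull q a ∈ W.gr P (2 * 1) := W.pull_gr q _ a ha
    have e : W.pull p c * W.pull m (a * y) = W.tr A (c * a) • (W.pull p (W.cl A {0}) * W.pull m y) +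
        W.pull q a * (W.pull p c * W.pull m y) := by
      rw [map_mul, hp, add_mul, mul_add, ← mul_assoc, ← map_mul, ← mul_assoc,
        ← W.even_comm hq (W.pull p c), mul_assoc, ← smul_mul_assoc, ← map_smul, ← hca]
    rw [e, map_add, map_smul, W.fib_pt h.symm, W.hopf_right h hm, W.fib_mul_left h.symm]
  have hD1 : W.fib h.symm (W.pull p c * W.pull m 1) = 0 := by
    have := W.fib_swap h.symm 1 c
    rw [W.tr_gr A j c hc (by omega), zero_smul, map_one] at this
    rwa [map_one]
  have hDr : ∀ r : ℕ, W.fib h.symm (W.pull p c * W.pull m (a ^ (r + 1))) =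
      (((r + 1 : ℕ) : K) * W.tr A (c * a)) • a ^ r := fun r => by
    induction r with
    | zero =>
      have := hD 1
      rw [hD1] at this
      simpa using this
    | succ r ih =>
      rw [pow_succ' a (r + 1), hD, ih, mul_smul_comm, ← pow_succ', ← add_smul]
      congr 1
      push_cast
      ring
  have hdesc : ∀ r : ℕ, a ^ r ≠ 0 := fun r => by
    induction r with
    | zero =>
      intro h0
      rw [pow_zero] at h0
      exact hne (by rw [← mul_one a, h0, mul_zero])
    | succ r ih =>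
      intro h0
      have := hDr r
      rw [h0, map_zero, mul_zero, map_zero] at this
      rcases smul_eq_zero.1 this.symm with h1 | h1
      · exact mul_ne_zero (by exact_mod_cast Nat.succ_ne_zero r) hτ h1
      · exact ih h1
  refine hdesc (A.d + 1) (W.gr_eq_zero (SetLike.pow_mem_graded (A.d + 1) ha) ?_)
  rw [smul_eq_mul]
  omega

theorem hopf_gr_two {a : W.H A} (ha : a ∈ W.gr A 2) :
    a ∈ Algebra.adjoin K (W.gr A 1 : Set (W.H A)) := by
  have key : ∀ w ∈ W.sq p q (W.gr A 1),
      W.pull (h.lift (Mor.id A) (Mor.id A)) w ∈ Algebra.adjoin K (W.gr A 1 : Set (W.H A)) ∧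
      W.pull (h.lift (Mor.id A) (Mor.id A)) w ∈ W.gr A 2 ∧
      W.pull m (W.pull (h.lift (Mor.id A) (Mor.id A)) w) =
        W.pull p (W.pull (h.lift (Mor.id A) (Mor.id A)) w) +
        W.pull q (W.pull (h.lift (Mor.id A) (Mor.id A)) w) + w + W.pull (h.lift q p) w := by
    intro w hw
    induction hw using Submodule.span_induction with
    | mem c hc =>
      obtain ⟨x, hx, y, hy, rfl⟩ := hc
      simp only [map_mul, W.Hopf1_fst h, W.Hopf1_snd h, W.Hopf1_id]
      refine ⟨mul_mem (Algebra.subset_adjoin hx) (Algebra.subset_adjoin hy),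
        SetLike.mul_mem_graded hx hy, ?_⟩
      rw [W.hopf_one h hm hx, W.hopf_one h hm hy, add_mul, mul_add, mul_add]
      abel
    | zero => simp
    | add x y _ _ hx hy =>
      simp only [map_add]
      refine ⟨add_mem hx.1 hy.1, add_mem hx.2.1 hy.2.1, ?_⟩
      rw [hx.2.2, hy.2.2]
      abel
    | smul r x _ hx =>
      simp only [map_smul]
      refine ⟨Subalgebra.smul_mem _ hx.1 r, Submodule.smul_mem _ r hx.2.1, ?_⟩
      rw [hx.2.2]
      simp only [smul_add]
  obtain ⟨h1, h2, h3⟩ := key _ (W.hopf_two h hm ha)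
  have hs : W.pull (h.lift q p) (W.pull m a - W.pull p a - W.pull q a) =
      W.pull m a - W.pull p a - W.pull q a := by
    have e : W.pull (h.lift q p) (W.pull m a) = W.pull m a := by
      rw [W.pull_pull]
      exact W.pull_congr (fun x => by simp [hm, add_comm]) a
    rw [map_sub, map_sub, e, W.Hopf1_fst h, W.Hopf1_snd h]
    abel
  rw [hs] at h3
  generalize W.pull (h.lift (Mor.id A) (Mor.id A)) (W.pull m a - W.pull p a - W.pull q a) = u
    at h1 h2 h3
  have h4 : a - (2⁻¹ : K) • u = 0 := by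
    refine W.hopf_prim h hm (sub_mem ha (Submodule.smul_mem _ _ h2)) ?_
    simp only [map_sub, map_smul, h3]
    module
  rw [sub_eq_zero.1 h4]
  exact Subalgebra.smul_mem _ h1 _

end Weil

end Pool.Agent.MP_0c8446_ag
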