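import Pool.Agent.MP_0c8446_ag.GI.KDefs

namespace Pool.Agent.MP_0c8446_ag

open MvPolynomial Matrix

universe v

variable {L : Type v} [Field L] {D ι : Type} [Fintype D] [DecidableEq D] [Fintype ι]
  [DecidableEq ι] {a : (ι → D) → L} {𝓔 : Set (Matrix D D L)}

omit [DecidableEq D] in
theorem LeviNo_min (w w' : D → ℝ)
    (h3 : ∀ i₀, w i₀ < 0 → 0 ≤ ∑ i ∈ Finset.univ.filter fun i => w i ≤ w i₀, w' i) (n : ℕ) :
    ∀ c ≤ 0, (Finset.univ.filter fun i => w i < c).card ≤ n →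
      ∑ i, min (w i - c) 0 * w' i ≤ 0 := by
  have h0 : ∀ c, (∀ i, c ≤ w i) → ∑ i, min (w i - c) 0 * w' i ≤ 0 := fun c h =>
    (Finset.sum_eq_zero fun i _ => by rw [min_eq_right (sub_nonneg.2 (h i)), zero_mul]).le
  induction n with
  | zero =>
    intro c _ h
    refine h0 c fun i => not_lt.1 fun hi => ?_
    have := Finset.card_pos.2 ⟨i, Finset.mem_filter.2 ⟨Finset.mem_univ i, hi⟩⟩ |>.trans_le h
    exact lt_irrefl _ this
  | succ n ih =>
    intro c hc h
    rcases (Finset.univ.filter fun i => w i < c).eq_empty_or_nonempty with he | he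
    · refine h0 c fun i => not_lt.1 fun hi => ?_
      exact Finset.eq_empty_iff_forall_notMem.1 he i (Finset.mem_filter.2 ⟨Finset.mem_univ i, hi⟩)
    obtain ⟨i₀, h1, h2⟩ := Finset.exists_max_image _ w he
    have h4 : w i₀ < c := (Finset.mem_filter.1 h1).2
    have h5 := ih (w i₀) (by linarith) (Nat.lt_succ_iff.1 (lt_of_lt_of_le (Finset.card_lt_card
      ⟨fun i hi => Finset.mem_filter.2 ⟨Finset.mem_univ i, (Finset.mem_filter.1 hi).2.trans h4⟩,
        fun h' => lt_irrefl _ (Finset.mem_filter.1 (h' h1)).2⟩) h))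
    have h6 : ∀ i, min (w i - c) 0 * w' i =
        min (w i - w i₀) 0 * w' i + (w i₀ - c) * if w i ≤ w i₀ then w' i else 0 := fun i => by
      split_ifs with h7
      · rw [min_eq_left (by linarith), min_eq_left (by linarith)]; ring
      · have h8 : c ≤ w i := not_lt.1 fun hi =>
          h7 (h2 i (Finset.mem_filter.2 ⟨Finset.mem_univ i, hi⟩))
        rw [min_eq_right (by linarith), min_eq_right (by linarith)]; ring
    simp only [h6, Finset.sum_add_distrib, ← Finset.mul_sum, ← Finset.sum_filter]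
    have h9 := mul_nonpos_of_nonpos_of_nonneg (sub_nonpos.2 h4.le) (h3 i₀ (by linarith))
    linarith

theorem LeviNo_ev {x : ℝ} (y : ℝ) :
    ∀ᶠ ε in nhdsWithin (0 : ℝ) (Set.Ioi 0), 0 < x → 0 < x + ε * y := by
  by_cases hx : 0 < x
  · have h : Filter.Tendsto (fun ε : ℝ => x + ε * y) (nhds 0) (nhds (x + 0 * y)) :=
      (by fun_prop : Continuous fun ε : ℝ => x + ε * y).tendsto 0
    rw [zero_mul, add_zero] at h
    exact ((h.eventually (lt_mem_nhds hx)).filter_mono nhdsWithin_le_nhds).mono fun _ h _ => h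
  · exact Filter.Eventually.of_forall fun _ h => absurd h hx

omit [DecidableEq D] in
/-- Abel summation for symmetric weights. -/
theorem levi_abel (w w' : D → ℝ) (π : Equiv.Perm D) (h1 : ∀ i, w (π i) = -w i)
    (h2 : ∀ i, w' (π i) = -w' i)
    (h3 : ∀ i₀, w i₀ < 0 → 0 ≤ ∑ i ∈ Finset.univ.filter fun i => w i ≤ w i₀, w' i) :
    ∑ i, w i * w' i ≤ 0 := by
  have h4 := LeviNo_min w w' h3 _ 0 le_rfl le_rfl
  simp only [sub_zero] at h4
  have h5 := Equiv.sum_comp π fun i => min (w i) 0 * w' i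
  have h6 : ∀ i, w i * w' i = min (w i) 0 * w' i + min (w (π i)) 0 * w' (π i) := fun i => by
    rw [h1, h2]
    rcases le_total (w i) 0 with h | h
    · rw [min_eq_left h, min_eq_right (by linarith)]; ring
    · rw [min_eq_right h, min_eq_left (by linarith)]; ring
  rw [Finset.sum_congr rfl fun i _ => h6 i, Finset.sum_add_distrib, h5]
  linarith

/-- The weights are symmetric. -/
theorem levi_perm {E : Matrix D D L} (hE : IsUnit E) {w w' : D → ℝ} (hw : ∑ i, w i = 0)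
    (hw' : ∑ i, w' i = 0) (h1 : ∀ i j, E i j ≠ 0 → 0 ≤ w i + w j)
    (h2 : ∀ i j, w i + w j = 0 → E i j ≠ 0 → 0 ≤ w' i + w' j) :
    ∃ π : Equiv.Perm D, (∀ i, w (π i) = -w i) ∧ ∀ i, w' (π i) = -w' i := by
  have hd := ((isUnit_iff_isUnit_det _).1 hE).ne_zero
  rw [det_apply] at hd
  obtain ⟨σ, -, hσ⟩ := Finset.exists_ne_zero_of_sum_ne_zero hd
  have h3 : ∀ i, E (σ i) i ≠ 0 := fun i e =>
    hσ (by rw [Finset.prod_eq_zero (f := fun i => E (σ i) i) (Finset.mem_univ i) e, smul_zero])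
  have key : ∀ u : D → ℝ, ∑ i, u i = 0 → (∀ i, 0 ≤ u (σ i) + u i) → ∀ i, u (σ i) + u i = 0 :=
    fun u h h' i => (Finset.sum_eq_zero_iff_of_nonneg fun i _ => h' i).1
      (by rw [Finset.sum_add_distrib, Equiv.sum_comp σ u, h, add_zero]) i (Finset.mem_univ i)
  have h4 := key w hw fun i => h1 _ _ (h3 i)
  exact ⟨σ, fun i => eq_neg_of_add_eq_zero_left (h4 i),
    fun i => eq_neg_of_add_eq_zero_left (key w' hw' (fun i => h2 _ _ (h4 i) (h3 i)) i)⟩

/-- The leading part of an optimal pair is not destabilised inside the Levi subgroup. -/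
theorem levi_no (ha : a ≠ 0) {w : D → ℝ} (h : Dst a 𝓔 1 w) (hw : Opt a 𝓔 w)
    {E₀ : Matrix D D L} (hE₀ : E₀ ∈ 𝓔) (hu : IsUnit E₀) {l : Matrix D D L} (hl : IsUnit l)
    (hlw : ∀ i j, l i j ≠ 0 → w i = w j) {w' : D → ℝ} (hs : ∑ i, w' i = 0)
    (h1 : ∀ I, ∑ j, w (I j) = 1 → tact l a I ≠ 0 → 1 ≤ ∑ j, w' (I j))
    (h2 : ∀ E ∈ 𝓔, ∀ i j, w i + w j = 0 → (lᵀ * E * l) i j ≠ 0 → 0 ≤ w' i + w' j)
    (h3 : ∀ i₀, w i₀ < 0 → 0 ≤ ∑ i ∈ Finset.univ.filter fun i => w i ≤ w i₀, w' i) :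
    False := by
  have hpos : ∀ I, a I ≠ 0 → 1 ≤ ∑ j, w (I j) := fun I hI => h.pos I (by rwa [tact_one])
  have hp : ∀ I, tact l a I ≠ 0 → 1 ≤ ∑ j, w (I j) := fun I hI => by
    obtain ⟨J, hJ, hJ'⟩ := tact_ne_zero hI
    rw [← Finset.sum_congr rfl fun j _ => hlw _ _ (hJ' j)]
    exact hpos J hJ
  have hi : ∀ E ∈ 𝓔, ∀ i j, (lᵀ * E * l) i j ≠ 0 → 0 ≤ w i + w j := fun E hE i j hij => by
    rw [Matrix.mul_apply] at hij
    obtain ⟨j', -, hj'⟩ := Finset.exists_ne_zero_of_sum_ne_zero hij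
    have h4 := left_ne_zero_of_mul hj'
    rw [Matrix.mul_apply] at h4
    obtain ⟨i', -, hi'⟩ := Finset.exists_ne_zero_of_sum_ne_zero h4
    rw [← hlw i' i (left_ne_zero_of_mul hi'), ← hlw j' j (right_ne_zero_of_mul hj')]
    exact h.iso E hE i' j' (by simpa using right_ne_zero_of_mul hi')
  obtain ⟨π, hπ, hπ'⟩ := levi_perm (E := lᵀ * E₀ * l) (((isUnit_transpose l).2 hl).mul hu |>.mul hl)
    h.sum hs (hi E₀ hE₀) (h2 E₀ hE₀)
  have hC := levi_abel w w' π hπ hπ' h3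
  have hA : 0 < 2 * ∑ i, w i ^ 2 := by
    obtain ⟨I, hI⟩ := Function.ne_iff.1 ha
    obtain ⟨j, -, hj⟩ := Finset.exists_ne_zero_of_sum_ne_zero
      (lt_of_lt_of_le one_pos (hpos I hI)).ne'
    exact mul_pos two_pos (Finset.sum_pos' (fun i _ => sq_nonneg _)
      ⟨I j, Finset.mem_univ _, by positivity⟩)
  obtain ⟨ε, ⟨⟨e1, e2⟩, e3⟩, e0⟩ := ((((Filter.eventually_all.2 fun I : ι → D =>
    LeviNo_ev (x := ∑ j, w (I j) - 1) (∑ j, w' (I j) - 1)).and
    (Filter.eventually_all.2 fun p : D × D =>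
      LeviNo_ev (x := w p.1 + w p.2) (w' p.1 + w' p.2))).and
    (LeviNo_ev (x := 2 * ∑ i, w i ^ 2) (-∑ i, w' i ^ 2))).and self_mem_nhdsWithin).exists
  have e0' : 0 < ε := e0
  have e4 : 0 < 1 + ε := by linarith
  have h5 := hw l (fun i => (w i + ε * w' i) / (1 + ε)) ⟨hl, ?_, fun I hI => ?_, ?_⟩
  · simp only [div_pow, ← Finset.sum_div] at h5
    rw [le_div_iff₀ (by positivity)] at h5
    have h6 : ∑ i, (w i + ε * w' i) ^ 2 =
        ∑ i, w i ^ 2 + 2 * ε * ∑ i, w i * w' i + ε ^ 2 * ∑ i, w' i ^ 2 := by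
      simp only [Finset.mul_sum, ← Finset.sum_add_distrib]
      exact Finset.sum_congr rfl fun i _ => by ring
    have h7 := mul_pos e0' (e3 hA)
    have h8 := mul_nonneg e0'.le (neg_nonneg.2 hC)
    have h9 := mul_pos (mul_pos e0' e0') hA
    rw [h6] at h5
    nlinarith
  · rw [← Finset.sum_div, Finset.sum_add_distrib, ← Finset.mul_sum, h.sum, hs]
    simp
  · rw [← Finset.sum_div, Finset.sum_add_distrib, ← Finset.mul_sum, le_div_iff₀ e4]
    rcases (hp I hI).eq_or_lt with h6 | h6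
    · have := mul_le_mul_of_nonneg_left (h1 I h6.symm hI) e0'.le
      linarith
    · have := e1 I (sub_pos.2 h6)
      linarith
  · intro E hE i j hij
    rw [← add_div]
    refine div_nonneg ?_ e4.le
    rcases (hi E hE i j hij).eq_or_lt with h6 | h6
    · have := mul_nonneg e0'.le (h2 E hE i j h6.symm hij)
      linarith
    · have := e2 (i, j) h6
      linarith

end Pool.Agent.MP_0c8446_ag
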