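import Pool.Agent.MP_0c8446_ag.GI.KDefs

namespace Pool.Agent.MP_0c8446_ag

open MvPolynomial Matrix

universe v

variable {L : Type v} [Field L] {T : Type} [Fintype T] [DecidableEq T] {n : T → Type}
  [∀ t, Fintype (n t)] [∀ t, DecidableEq (n t)] {ι : Type} [Fintype ι] [DecidableEq ι]
  {v : T → ℝ} {g g' : Matrix (Σ t, n t) (Σ t, n t) L}

omit [Fintype T] [∀ t, Fintype (n t)] [∀ t, DecidableEq (n t)] [DecidableEq ι] in
lemma LvA_zero (l : ∀ t, Matrix (n t) (n t) L) {I J : ι → Σ t, n t}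
    (h : ¬ ∀ j, (J j).1 = (I j).1) : ∏ j, blockDiagonal' l (J j) (I j) = 0 := by
  obtain ⟨j, hj⟩ := not_forall.1 h
  exact Finset.prod_eq_zero (Finset.mem_univ j) (blockDiagonal'_apply_ne l (J j).2 (I j).2 hj)

omit [Fintype T] [∀ t, Fintype (n t)] [∀ t, DecidableEq (n t)] in
lemma LvA_eq (g : Matrix (Σ t, n t) (Σ t, n t) L) {x y : Σ t, n t} (h : x.1 = y.1) :
    blockDiagonal' (blockDiag' g) x y = g x y := by
  obtain ⟨s, i⟩ := x
  obtain ⟨t, j⟩ := y
  obtain rfl : s = t := h
  exact blockDiagonal'_apply_eq _ s i j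

omit [∀ t, DecidableEq (n t)] in
theorem lead_blk (l : ∀ t, Matrix (n t) (n t) L) (c : ℝ) (a : (ι → Σ t, n t) → L) :
    lead (fun i : Σ t, n t => v i.1) c (tact (blockDiagonal' l) a) =
      tact (blockDiagonal' l) (lead (fun i : Σ t, n t => v i.1) c a) := by
  funext I
  by_cases hI : ∑ j, v (I j).1 = c
  · simp only [lead, tact, hI, if_true]
    refine Finset.sum_congr rfl fun J _ => ?_
    by_cases h : ∀ j, (J j).1 = (I j).1
    · simp only [h, hI, if_true]
    · rw [LvA_zero l h, mul_zero, mul_zero]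
  · simp only [lead, tact, hI, if_false]
    refine (Finset.sum_eq_zero fun J _ => ?_).symm
    by_cases h : ∀ j, (J j).1 = (I j).1
    · simp only [h, hI, if_false, zero_mul]
    · rw [LvA_zero l h, mul_zero]

omit [∀ t, DecidableEq (n t)] in
theorem lead_tact (hv : Function.Injective v) (hg : g.BlockTriangular fun i => v i.1) {c : ℝ}
    {a : (ι → Σ t, n t) → L} (ha : ∀ I, a I ≠ 0 → c ≤ ∑ j, v (I j).1) :
    lead (fun i : Σ t, n t => v i.1) c (tact g a) =
      tact (blockDiagonal' (blockDiag' g)) (lead (fun i : Σ t, n t => v i.1) c a) := by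
  rw [← lead_blk]
  funext I
  by_cases hI : ∑ j, v (I j).1 = c
  · simp only [lead, tact, hI, if_true]
    refine Finset.sum_congr rfl fun J _ => ?_
    by_cases h : ∀ j, (J j).1 = (I j).1
    · exact congrArg _ (Finset.prod_congr rfl fun j _ => (LvA_eq g (h j)).symm)
    · rw [LvA_zero _ h, mul_zero]
      by_contra hne
      have h1 : ∀ j ∈ Finset.univ, v (J j).1 ≤ v (I j).1 := fun j _ => not_lt.1 fun hlt =>
        right_ne_zero_of_mul hne (Finset.prod_eq_zero (Finset.mem_univ j) (hg hlt))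
      have h2 := (Finset.sum_eq_sum_iff_of_le h1).1
        (le_antisymm (Finset.sum_le_sum h1) (hI.le.trans (ha J (left_ne_zero_of_mul hne))))
      exact h fun j => hv (h2 j (Finset.mem_univ j))
  · simp only [lead, hI, if_false]

omit [DecidableEq T] [∀ t, DecidableEq (n t)] in
theorem blockDiag'_mul_tri (hv : Function.Injective v) (hg : g.BlockTriangular fun i => v i.1)
    (hg' : g'.BlockTriangular fun i => v i.1) (t : T) :
    blockDiag' (g * g') t = blockDiag' g t * blockDiag' g' t := by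
  ext i j
  simp only [blockDiag'_apply, Matrix.mul_apply, Fintype.sum_sigma]
  refine Finset.sum_eq_single t (fun s _ hs => Finset.sum_eq_zero fun k _ => ?_) (by simp)
  rcases lt_or_gt_of_ne (hv.ne hs) with h | h
  · rw [hg (i := ⟨t, i⟩) (j := ⟨s, k⟩) h, zero_mul]
  · rw [hg' (i := ⟨s, k⟩) (j := ⟨t, j⟩) h, mul_zero]

theorem det_tri (hv : Function.Injective v) (hg : g.BlockTriangular fun i => v i.1) :
    g.det = ∏ t, (blockDiag' g t).det := by
  let _ : LinearOrder T := LinearOrder.lift' v hv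
  have h : g.BlockTriangular Sigma.fst := fun _ _ h => hg h
  rw [h.det_fintype]
  refine Finset.prod_congr rfl fun t _ => ?_
  rw [← det_submatrix_equiv_self (Equiv.sigmaSubtype t).symm]
  rfl

theorem lowD_tri (hv : Function.Injective v) (hg : g.BlockTriangular fun i => v i.1) (r : ℝ) :
    lowD g (fun i => v i.1) r = ∏ t ∈ Finset.univ.filter fun t => v t ≤ r, (blockDiag' g t).det := by
  classical
  let e : (Σ t : {t // v t ≤ r}, n t.1) ≃ {j : Σ t, n t // v j.1 ≤ r} :=
    ⟨fun x => ⟨⟨x.1.1, x.2⟩, x.1.2⟩, fun x => ⟨⟨x.1.1, x.2⟩, x.1.2⟩, fun _ => rfl, fun _ => rfl⟩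
  have h := det_tri (n := fun t : {t // v t ≤ r} => n t.1) (v := fun t => v t.1)
    (g := (g.toSquareBlockProp fun j => v j.1 ≤ r).submatrix e e)
    (hv.comp Subtype.val_injective) fun _ _ h => hg h
  rw [det_submatrix_equiv_self] at h
  rw [Finset.prod_subtype (p := fun t => v t ≤ r) (F := inferInstance) _ (by simp)]
  unfold lowD
  convert h using 1
  rfl

end Pool.Agent.MP_0c8446_ag
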