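import Pool.Agent.MP_0c8446_ag.GI.LvA
import Pool.Agent.MP_0c8446_ag.GI.LeviNo
import Pool.Agent.MP_0c8446_ag.GI.HM2

namespace Pool.Agent.MP_0c8446_ag

open MvPolynomial Matrix

universe v

variable {L : Type v} [Field L] [IsAlgClosed L] {T : Type} [Fintype T] [DecidableEq T]
  {n : T → Type} [∀ t, Fintype (n t)] [∀ t, DecidableEq (n t)] {ι : Type} [Fintype ι]
  [DecidableEq ι]

open Classical in
/-- The part of weight zero of a matrix. -/
noncomputable def LvB_lz {D : Type} (w : D → ℝ) (E : Matrix D D L) : Matrix D D L :=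
  Matrix.of fun i j => if w i + w j = 0 then E i j else 0

omit [IsAlgClosed L] in
theorem LvB_tmat {D : Type} (w : D → ℝ) (E : Matrix D D L) :
    tmat (LvB_lz w E) = lead w 0 (tmat E) := by
  funext I
  simp only [tmat, LvB_lz, lead, Fintype.sum_bool, of_apply, add_comm]

/-- Semistability of the leading part as a polynomial identity on the Levi subgroup. -/
theorem lev_id {v : T → ℝ} {a : (ι → Σ t, n t) → L} (ha : a ≠ 0)
    {𝓔 : Set (Matrix (Σ t, n t) (Σ t, n t) L)} (h : Dst a 𝓔 1 fun i => v i.1)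
    (hw : Opt a 𝓔 fun i => v i.1) {E₀ : Matrix (Σ t, n t) (Σ t, n t) L} (hE₀ : E₀ ∈ 𝓔)
    (hu : IsUnit E₀) (𝒥 : Submodule L (PR L n))
    (h1 : ∀ I, gen (lead (fun i : Σ t, n t => v i.1) 1 a) I ^ (2 * Fintype.card (Σ t, n t)) ∈ 𝒥)
    (h2 : ∀ I, ∀ x ∈ 𝒥,
      gen (lead (fun i : Σ t, n t => v i.1) 1 a) I ^ (2 * Fintype.card (Σ t, n t)) * x ∈ 𝒥)
    (h3 : ∀ E ∈ 𝓔, ∀ I, ∀ x ∈ 𝒥, gen (lead (fun i : Σ t, n t => v i.1) 0 (tmat E)) I ^
      (2 * Fintype.card (Σ t, n t)) * x ∈ 𝒥)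
    (h4 : ∀ i : Σ t, n t, v i.1 < 0 → ∀ x ∈ 𝒥,
      (∏ t ∈ Finset.univ.filter fun t => v t ≤ v i.1, (gm L n t).det) ^
        (2 * Fintype.card (Σ t, n t)) * x ∈ 𝒥)
    (h5 : ∀ x ∈ 𝒥, Dl L n (fun _ => 2) * x ∈ 𝒥) : ∃ S, Dl L n (fun _ => 2) ^ S ∈ 𝒥 := by
  classical
  by_contra hno
  push Not at hno
  obtain ⟨l, w', hD, hS⟩ := hm2 L (lead (fun i : Σ t, n t => v i.1) 1 a)
    (LvB_lz (fun i : Σ t, n t => v i.1) '' 𝓔)
    {A | ∃ i : Σ t, n t, v i.1 < 0 ∧ A = Finset.univ.filter fun t => v t ≤ v i.1} (fun _ => 𝒥)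
    h1 (fun I _ => h2 I) (by
      rintro _ ⟨E, hE, rfl⟩ I _
      rw [LvB_tmat]
      exact h3 E hE I) (by
      rintro _ ⟨i, hi, rfl⟩ _
      exact h4 i hi) (fun _ => h5) hno
  refine levi_no ha h hw hE₀ hu hD.unit (fun i j hij => ?_) hD.sum (fun I hI h0 => hD.pos I ?_)
    (fun E hE i j hij h0 => hD.iso (LvB_lz (fun i : Σ t, n t => v i.1) E)
      ⟨_, ⟨E, hE, rfl⟩, rfl⟩ i j ?_) fun i hi => ?_
  · obtain ⟨t, i⟩ := i
    obtain ⟨t', j⟩ := j
    by_cases e : t = t'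
    · exact congrArg v e
    · exact absurd (blockDiagonal'_apply_ne l i j e) hij
  · have := congrFun (lead_blk (v := v) l 1 a) I
    rw [lead, if_pos hI] at this
    rw [this] at h0
    exact h0
  · have := congrFun (lead_blk (v := v) l 0 (tmat E)) fun b => cond b j i
    rw [← LvB_tmat (fun i : Σ t, n t => v i.1) E, tact_tmat, tact_tmat, lead,
      if_pos (by rw [Fintype.sum_bool, add_comm]; exact hij)] at this
    exact fun e => h0 (this.trans e)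
  · refine (hS _ ⟨i, hi, rfl⟩).trans_eq ?_
    rw [Finset.sum_filter, Finset.sum_filter, Fintype.sum_sigma]
    refine Finset.sum_congr rfl fun t _ => ?_
    split_ifs <;> simp [*]

end Pool.Agent.MP_0c8446_ag
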