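import Pool.Agent.MP_0c8446_ag.GI.KDefs

namespace Pool.Agent.MP_0c8446_ag

open Matrix

universe v

variable {K L : Type v} [Field K] [Field L] {D D' : Type} [Fintype D] [Fintype D'] {G : Type*}

/-- The set `𝓔` is spanned by its semi-invariant members. -/
def SemiSp (ρ : G → Matrix D D K) (c : G → K) (𝓔 : Set (Matrix D D K)) : Prop :=
  ∀ E ∈ 𝓔, E ∈ Submodule.span K {E | E ∈ 𝓔 ∧ ∃ j : ℕ, ∀ σ, (ρ σ)ᵀ * E * ρ σ = c σ ^ j • E}

theorem SemiSp.map {ρ : G → Matrix D D K} {c : G → K} {𝓔 : Set (Matrix D D K)}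
    (h : SemiSp ρ c 𝓔) (φ : K →+* L) (Ψ : Matrix D D K → Matrix D' D' L)
    (h1 : ∀ E E', Ψ (E + E') = Ψ E + Ψ E') (h2 : ∀ (a : K) E, Ψ (a • E) = φ a • Ψ E)
    {ρ' : G → Matrix D' D' L} (h3 : ∀ σ E, (ρ' σ)ᵀ * Ψ E * ρ' σ = Ψ ((ρ σ)ᵀ * E * ρ σ)) :
    SemiSp ρ' (fun σ => φ (c σ)) (Ψ '' 𝓔) := by
  rintro _ ⟨E, hE, rfl⟩
  have := h E hE
  clear hE
  induction this using Submodule.span_induction with
  | mem E hE =>
    obtain ⟨hE, j, hj⟩ := hE
    exact Submodule.subset_span ⟨⟨E, hE, rfl⟩, j, fun σ => by rw [h3, hj, h2, map_pow]⟩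
  | zero =>
    rw [← zero_smul K (0 : Matrix D D K), h2, map_zero, zero_smul]
    exact zero_mem _
  | add E E' _ _ hE hE' => rw [h1]; exact add_mem hE hE'
  | smul a E _ hE => rw [h2]; exact Submodule.smul_mem _ _ hE

theorem SemiSp.mem {ρ : G → Matrix D D K} {c : G → K} {𝓔 : Set (Matrix D D K)}
    (h : SemiSp ρ c 𝓔) (σ : G) : ∀ E ∈ 𝓔, (ρ σ)ᵀ * E * ρ σ ∈ Submodule.span K 𝓔 := by
  intro E hE
  have := h E hE
  clear hE
  induction this using Submodule.span_induction with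
  | mem E hE =>
    obtain ⟨hE, j, hj⟩ := hE
    rw [hj]
    exact Submodule.smul_mem _ _ (Submodule.subset_span hE)
  | zero => rw [Matrix.mul_zero, Matrix.zero_mul]; exact zero_mem _
  | add E E' _ _ hE hE' => rw [Matrix.mul_add, Matrix.add_mul]; exact add_mem hE hE'
  | smul a E _ hE => rw [Matrix.mul_smul, Matrix.smul_mul]; exact Submodule.smul_mem _ _ hE

theorem Dst.iso_span [DecidableEq D] {ι : Type} [Fintype ι] [DecidableEq ι] {a : (ι → D) → K}
    {𝓔 : Set (Matrix D D K)} {g : Matrix D D K} {w : D → ℝ} (h : Dst a 𝓔 g w) :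
    ∀ E ∈ Submodule.span K 𝓔, ∀ i j, (gᵀ * E * g) i j ≠ 0 → 0 ≤ w i + w j := by
  intro E hE i j hij
  by_contra hw
  refine hij ?_
  clear hij
  induction hE using Submodule.span_induction with
  | mem E hE => exact by_contra fun e => hw (h.iso E hE i j e)
  | zero => rw [Matrix.mul_zero, Matrix.zero_mul]; rfl
  | add E E' _ _ hE hE' => rw [Matrix.mul_add, Matrix.add_mul, Matrix.add_apply, hE, hE',
      add_zero]
  | smul a E _ hE => rw [Matrix.mul_smul, Matrix.smul_mul, Matrix.smul_apply, hE,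
      smul_zero]

end Pool.Agent.MP_0c8446_ag
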