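import Pool.Agent.MP_0c8446_ag.GI.LvB
import Pool.Agent.MP_0c8446_ag.GI.Semi

namespace Pool.Agent.MP_0c8446_ag

open MvPolynomial Matrix

universe v

variable {L : Type v} [Field L] [IsAlgClosed L] [CharZero L] {T : Type} [Fintype T]
  [DecidableEq T] {n : T → Type} [∀ t, Fintype (n t)] [∀ t, DecidableEq (n t)] {ι : Type}
  [Fintype ι] [DecidableEq ι]

section

omit [IsAlgClosed L] [CharZero L]

theorem LvC_mul {P A : Type*} [Monoid P] [CommRing A] [Algebra L A] (φ : A →ₐ[L] (P → L))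
    {C : Set (P →* L)} {x : A} {c : L} {χ : P →* L} (hx : φ x = c • ⇑χ)
    (hχ : c ≠ 0 → ∀ ψ ∈ C, χ * ψ ∈ C) (k : ℕ) :
    ∀ y ∈ (Submodule.span L ((fun ψ : P →* L => (ψ : P → L)) '' C)).comap φ.toLinearMap,
      x ^ k * y ∈ (Submodule.span L ((fun ψ : P →* L => (ψ : P → L)) '' C)).comap
        φ.toLinearMap := by
  have h1 : ∀ y ∈ (Submodule.span L ((fun ψ : P →* L => (ψ : P → L)) '' C)).comap φ.toLinearMap,
      x * y ∈ (Submodule.span L ((fun ψ : P →* L => (ψ : P → L)) '' C)).comap φ.toLinearMap := by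
    intro y hy
    rw [Submodule.mem_comap, AlgHom.toLinearMap_apply] at hy ⊢
    rw [map_mul, hx, smul_mul_assoc]
    by_cases hc : c = 0
    · rw [hc, zero_smul]
      exact zero_mem _
    refine Submodule.smul_mem _ _ ?_
    generalize φ y = f at hy
    induction hy using Submodule.span_induction with
    | mem f hf =>
      obtain ⟨ψ, hψ, rfl⟩ := hf
      exact Submodule.subset_span ⟨χ * ψ, hχ hc ψ hψ, rfl⟩
    | zero => rw [mul_zero]; exact zero_mem _
    | add f g _ _ hf hg => rw [mul_add]; exact add_mem hf hg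
    | smul a f _ hf => rw [mul_smul_comm]; exact Submodule.smul_mem _ _ hf
  induction k with
  | zero => intro y hy; rwa [pow_zero, one_mul]
  | succ k ih => intro y hy; rw [pow_succ', mul_assoc]; exact h1 _ (ih y hy)

theorem LvC_pow {A : Type*} [CommRing A] [Algebra L A] (J : Submodule L A) {x : A}
    (h : ∀ y ∈ J, x * y ∈ J) (k : ℕ) : ∀ y ∈ J, x ^ k * y ∈ J := by
  induction k with
  | zero => intro y hy; rwa [pow_zero, one_mul]
  | succ k ih => intro y hy; rw [pow_succ', mul_assoc]; exact h _ (ih y hy)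

omit [∀ t, DecidableEq (n t)] in
theorem LvC_add (w : (Σ t, n t) → ℝ) (E E' : Matrix (Σ t, n t) (Σ t, n t) L)
    (I : Bool → Σ t, n t) : gen (lead w 0 (tmat (E + E'))) I =
      gen (lead w 0 (tmat E)) I + gen (lead w 0 (tmat E')) I := by
  simp only [gen, tact, ← Finset.sum_add_distrib, ← add_mul, ← map_add]
  refine Finset.sum_congr rfl fun J _ => ?_
  simp only [lead, tmat, Matrix.add_apply]
  split_ifs <;> simp

omit [∀ t, DecidableEq (n t)] in
theorem LvC_smul (w : (Σ t, n t) → ℝ) (c : L) (E : Matrix (Σ t, n t) (Σ t, n t) L)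
    (I : Bool → Σ t, n t) :
    gen (lead w 0 (tmat (c • E))) I = c • gen (lead w 0 (tmat E)) I := by
  simp only [gen, tact, Finset.smul_sum, smul_eq_C_mul, ← mul_assoc, ← map_mul]
  refine Finset.sum_congr rfl fun J _ => ?_
  simp only [lead, tmat, Matrix.smul_apply, smul_eq_mul]
  split_ifs <;> simp

/-- The values of `f` are powers of two of total weight `s`. -/
def LvC_W (v : T → ℝ) (f : T → L) (s : ℝ) : Prop :=
  ∃ μ : T → ℕ, s = ∑ t, μ t * v t ∧ ∀ t, f t = 2 ^ μ t

omit [DecidableEq T] in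
theorem LvC_W_mul {v : T → ℝ} {f f' : T → L} {s s' : ℝ} (h : LvC_W v f s) (h' : LvC_W v f' s') :
    LvC_W v (fun t => f t * f' t) (s + s') := by
  obtain ⟨μ, rfl, h⟩ := h
  obtain ⟨μ', rfl, h'⟩ := h'
  refine ⟨μ + μ', ?_, fun t => by simp only [h, h', Pi.add_apply, pow_add]⟩
  simp only [Pi.add_apply, Nat.cast_add, add_mul, Finset.sum_add_distrib]

omit [DecidableEq T] in
theorem LvC_W_prod {v : T → ℝ} {κ : Type*} (S : Finset κ) {f : κ → T → L} {s : κ → ℝ}
    (h : ∀ k, LvC_W v (f k) (s k)) : LvC_W v (fun t => ∏ k ∈ S, f k t) (∑ k ∈ S, s k) := by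
  classical
  induction S using Finset.induction_on with
  | empty => exact ⟨0, by simp, by simp⟩
  | insert k S hk ih =>
    simp only [Finset.prod_insert hk, Finset.sum_insert hk]
    exact LvC_W_mul (h k) ih

theorem LvC_W_single (v : T → ℝ) {u : Lˣ} (hu : (u : L) = 2) (t : T) (k : ℕ) :
    LvC_W v (fun t' => (((Pi.mulSingle t' u : T → Lˣ) t : Lˣ) : L) ^ k) (k * v t) := by
  refine ⟨Pi.single t k, ?_, fun t' => ?_⟩
  · rw [Finset.sum_eq_single t]
    · simp
    · intro b _ hb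
      simp [hb]
    · simp
  · by_cases e : t' = t
    · subst e
      simp [hu]
    · simp [e, Ne.symm e]

/-- The function `f` is a monomial in the given functions. -/
def LvC_R {G D : Type*} (cx cE dt : G → L) (lw : D → G → L) (M : Multiset D) (f : G → L) : Prop :=
  ∃ m m' c : ℕ, ∀ σ, f σ = cx σ ^ m * cE σ ^ m' * (M.map fun i => lw i σ).prod * dt σ ^ (2 * c)

theorem LvC_R_mul {G D : Type*} {cx cE dt : G → L} {lw : D → G → L} {M M' : Multiset D}
    {f f' : G → L} (h : LvC_R cx cE dt lw M f) (h' : LvC_R cx cE dt lw M' f') :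
    LvC_R cx cE dt lw (M + M') fun σ => f σ * f' σ := by
  obtain ⟨m₁, m₂, c, h⟩ := h
  obtain ⟨m₁', m₂', c', h'⟩ := h'
  refine ⟨m₁ + m₁', m₂ + m₂', c + c', fun σ => ?_⟩
  simp only [h, h', Multiset.map_add, Multiset.prod_add]
  ring

theorem LvC_gen {v : T → ℝ} (hv : Function.Injective v) {g : Matrix (Σ t, n t) (Σ t, n t) L}
    (hg : g.BlockTriangular fun i => v i.1) {c : ℝ} {a : (ι → Σ t, n t) → L}
    (ha : ∀ I, a I ≠ 0 → c ≤ ∑ j, v (I j).1) {e : L} (hx : tact g a = e • a) (z : T → L)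
    (I : ι → Σ t, n t) :
    evm L (fun t => z t • blockDiag' g t) (gen (lead (fun i : Σ t, n t => v i.1) c a) I) =
      lead (fun i : Σ t, n t => v i.1) c a I * (e * ∏ j, z (I j).1) := by
  have e1 : blockDiagonal' (fun t => z t • blockDiag' g t) =
      blockDiagonal' (blockDiag' g) * diagonal fun i => z i.1 := by
    rw [← blockDiagonal'_diagonal fun t (_ : n t) => z t, ← blockDiagonal'_mul]
    exact congrArg _ (funext fun t => smul_eq_mul_diagonal _ _)
  rw [evm_gen, e1, tact_mul, tact_diagonal, ← mul_assoc]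
  congr 1
  refine (congrFun (lead_tact hv hg ha) I).symm.trans ?_
  rw [hx]
  simp only [lead, Pi.smul_apply, smul_eq_mul]
  split_ifs
  · exact mul_comm _ _
  · exact (zero_mul _).symm

end

omit [IsAlgClosed L] [DecidableEq T] in
theorem LvC_W_eq {v : T → ℝ} {f : T → L} {s s' : ℝ} (h : LvC_W v f s) (h' : LvC_W v f s') :
    s = s' := by
  obtain ⟨μ, rfl, h⟩ := h
  obtain ⟨μ', rfl, h'⟩ := h'
  refine Finset.sum_congr rfl fun t _ => ?_
  have e : ((2 ^ μ t : ℕ) : L) = ((2 ^ μ' t : ℕ) : L) := by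
    push_cast
    rw [← h, ← h']
  rw [Nat.pow_right_injective le_rfl (Nat.cast_injective e)]

/-- A multiplicative relation between the determinants on the steps of the optimal flag. -/
theorem lev_blk {v : T → ℝ} (hv : Function.Injective v) {a : (ι → Σ t, n t) → L} (ha : a ≠ 0)
    {𝓔 : Set (Matrix (Σ t, n t) (Σ t, n t) L)} (h : Dst a 𝓔 1 fun i => v i.1)
    (hw : Opt a 𝓔 fun i => v i.1) {E₀ : Matrix (Σ t, n t) (Σ t, n t) L} (hE₀ : E₀ ∈ 𝓔)
    (hu : IsUnit E₀) {G : Type*} [Group G] (ρ : G →* Matrix (Σ t, n t) (Σ t, n t) L)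
    (cx cE : G →* L) (hρ : ∀ σ, (ρ σ).BlockTriangular fun i => v i.1)
    (hx : ∀ σ, tact (ρ σ) a = cx σ • a) (hE : SemiSp ρ cE 𝓔) :
    ∃ (M : Multiset (Σ t, n t)) (m m' c N : ℕ), M ≠ 0 ∧ (∀ i ∈ M, v i.1 < 0) ∧
      ∀ σ, cx σ ^ m * cE σ ^ m' * (M.map fun i => lowD (ρ σ) (fun j => v j.1) (v i.1)).prod *
        (ρ σ).det ^ (2 * c) = (ρ σ).det ^ (2 * N) := by
  have hpos : ∀ I, a I ≠ 0 → 1 ≤ ∑ j, v (I j).1 := fun I hI =>
    h.pos I (by rwa [tact_one])
  have hd : 2 * Fintype.card (Σ t, n t) ≠ 0 := by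
    obtain ⟨I, hI⟩ := Function.ne_iff.1 ha
    have h1 := hpos I hI
    rcases isEmpty_or_nonempty ι with e | ⟨⟨j⟩⟩
    · simp only [Finset.univ_eq_empty, Finset.sum_empty] at h1
      linarith
    · have : Nonempty (Σ t, n t) := ⟨I j⟩
      exact mul_ne_zero two_ne_zero Fintype.card_ne_zero
  let u : Lˣ := Units.mk0 2 two_ne_zero
  let H : ∀ t, G × (T → Lˣ) →* Matrix (n t) (n t) L := fun t =>
    { toFun := fun p => (p.2 t : L) • blockDiag' (ρ p.1) t
      map_one' := by simp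
      map_mul' := fun p q => by
        simp only [Prod.fst_mul, Prod.snd_mul, Pi.mul_apply, Units.val_mul, map_mul,
          blockDiag'_mul_tri hv (hρ _) (hρ _), Matrix.smul_mul, Matrix.mul_smul, smul_smul,
          mul_comm] }
  let Δ : T → G × (T → Lˣ) →* L := fun t => detMonoidHom.comp (H t)
  have hΔ : ∀ t p, Δ t p = (p.2 t : L) ^ Fintype.card (n t) * (blockDiag' (ρ p.1) t).det :=
    fun t p => det_smul _ _
  have hΔ1 : ∀ t σ, Δ t (σ, 1) = (blockDiag' (ρ σ) t).det := fun t σ => by simp [hΔ]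
  have hΔ2 : ∀ t, LvC_W v (fun t' => Δ t (1, Pi.mulSingle t' u)) (Fintype.card (n t) * v t) :=
    fun t => by simpa [hΔ] using LvC_W_single v (u := u) rfl t (Fintype.card (n t))
  let Z : T → G × (T → Lˣ) →* L := fun t =>
    (Units.coeHom L).comp ((Pi.evalMonoidHom (fun _ => Lˣ) t).comp (MonoidHom.snd _ _))
  have hZ : ∀ t p, Z t p = p.2 t := fun _ _ => rfl
  let φ : PR L n →ₐ[L] (G × (T → Lˣ) → L) :=
    AlgHom.pi fun p => evm L fun t => H t p
  have hφ : ∀ x p, φ x p = evm L (fun t => (p.2 t : L) • blockDiag' (ρ p.1) t) x := fun _ _ => rfl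
  have hφΔ : ∀ t p, evm L (fun t => (p.2 t : L) • blockDiag' (ρ p.1) t) (gm L n t).det = Δ t p :=
    fun t p => ((evm L fun t => H t p).toRingHom.map_det _).trans
      (congrArg det (TBasic_evm (fun t => H t p) t))
  let Q : Multiset (Σ t, n t) → ℝ → (G × (T → Lˣ) →* L) → Prop := fun M s ψ =>
    (∀ i ∈ M, v i.1 < 0) ∧ LvC_R cx cE (fun σ => (ρ σ).det)
      (fun i σ => lowD (ρ σ) (fun j => v j.1) (v i.1)) M (fun σ => ψ (σ, 1)) ∧
        LvC_W v (fun t => ψ (1, Pi.mulSingle t u)) s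
  let C : Set (G × (T → Lˣ) →* L) := {ψ | ∃ M s, (M = 0 → 0 < s) ∧ Q M s ψ}
  have hC : ∀ {M s χ}, (M = 0 → 0 ≤ s) → Q M s χ → ∀ ψ ∈ C, χ * ψ ∈ C := by
    rintro M s χ h0 ⟨h1, h2, h3⟩ ψ ⟨M', s', h0', h1', h2', h3'⟩
    refine ⟨M + M', s + s', fun e => ?_, fun i hi => ?_, LvC_R_mul h2 h2', LvC_W_mul h3 h3'⟩
    · rw [add_eq_zero] at e
      exact add_pos_of_nonneg_of_pos (h0 e.1) (h0' e.2)
    · exact (Multiset.mem_add.1 hi).elim (h1 i) (h1' i)
  have hW : ∀ {κ : Type} [Fintype κ] (e : G →* L) (I : κ → Σ t, n t), LvC_W v (fun t =>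
      (e.comp (MonoidHom.fst _ _) * ∏ j, Z (I j).1 : G × (T → Lˣ) →* L) (1, Pi.mulSingle t u))
        (∑ j, v (I j).1) := by
    intro κ _ e I
    simpa [hZ] using LvC_W_prod Finset.univ fun j => LvC_W_single v (u := u) rfl (I j).1 1
  have hQ1 : ∀ I : ι → Σ t, n t, lead (fun i : Σ t, n t => v i.1) 1 a I ≠ 0 →
      Q 0 1 (cx.comp (MonoidHom.fst _ _) * ∏ j, Z (I j).1) := by
    intro I hI
    have e : ∑ j, v (I j).1 = 1 := by
      by_contra e
      exact hI (if_neg e)
    exact ⟨by simp, ⟨1, 0, 0, fun σ => by simp [hZ]⟩, e ▸ hW cx I⟩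
  have hφ1 : ∀ I : ι → Σ t, n t, φ (gen (lead (fun i : Σ t, n t => v i.1) 1 a) I) =
      lead (fun i : Σ t, n t => v i.1) 1 a I •
        ⇑(cx.comp (MonoidHom.fst _ _) * ∏ j, Z (I j).1 : G × (T → Lˣ) →* L) :=
    fun I => funext fun p => by
    rw [hφ, LvC_gen hv (hρ _) hpos (hx _)]
    simp [hZ]
  have hφ5 : ∀ p, φ (Dl L n fun _ => 2) p = (∏ t, Δ t ^ 2 : G × (T → Lˣ) →* L) p := fun p => by
    rw [hφ, evm_Dl]
    simp only [MonoidHom.finsetProd_apply, MonoidHom.pow_apply]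
    rfl
  have hs : ∀ k : ℕ, LvC_W v
      (fun t => ((∏ t, Δ t ^ 2) ^ k : G × (T → Lˣ) →* L) (1, Pi.mulSingle t u)) 0 := by
    intro k
    have h1 := LvC_W_prod (Finset.univ : Finset (Fin k × Fin 2)) fun _ =>
      LvC_W_prod Finset.univ hΔ2
    have h2 := h.sum
    rw [Fintype.sum_sigma] at h2
    simp only [Finset.sum_const, Finset.card_univ, nsmul_eq_mul] at h2
    rw [h2] at h1
    simpa [← Finset.prod_pow, ← pow_mul, mul_comm] using h1
  have h2 := fun I => LvC_mul φ (hφ1 I) fun hI => hC (fun _ => zero_le_one) (hQ1 I hI)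
  obtain ⟨S, hS⟩ := lev_id ha h hw hE₀ hu ((Submodule.span L
    ((fun ψ : G × (T → Lˣ) →* L => (ψ : G × (T → Lˣ) → L)) '' C)).comap φ.toLinearMap)
    (fun I => by
      obtain ⟨k, hk⟩ := Nat.exists_eq_succ_of_ne_zero hd
      rw [hk, pow_succ]
      refine h2 I k _ ?_
      rw [Submodule.mem_comap, AlgHom.toLinearMap_apply, hφ1]
      by_cases hI : lead (fun i : Σ t, n t => v i.1) 1 a I = 0
      · rw [hI, zero_smul]
        exact zero_mem _
      · exact Submodule.smul_mem _ _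
          (Submodule.subset_span ⟨_, ⟨0, 1, fun _ => one_pos, hQ1 I hI⟩, rfl⟩))
    (fun I => h2 I _)
    (fun E hE' I => by
      refine LvC_pow _ ?_ _
      have h5 := hE E hE'
      clear hE'
      induction h5 using Submodule.span_induction with
      | mem E hE' =>
        obtain ⟨hE', j, hj⟩ := hE'
        rw [← pow_one (gen _ I)]
        refine LvC_mul φ (c := lead (fun i : Σ t, n t => v i.1) 0 (tmat E) I)
          (χ := (cE ^ j).comp (MonoidHom.fst _ _) * ∏ j, Z (I j).1) (funext fun p => ?_)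
          (fun hI => ?_) _
        · rw [hφ, LvC_gen hv (hρ _) (e := cE p.1 ^ j)]
          · simp [hZ]
          · intro J hJ
            rw [Fintype.sum_bool, add_comm]
            exact h.iso E hE' _ _ (by simpa [tmat] using hJ)
          · rw [tact_tmat, hj]
            rfl
        · have e : ∑ j, v (I j).1 = 0 := by
            by_contra e
            exact hI (if_neg e)
          exact hC (M := 0) (s := 0) (fun _ => le_rfl)
            ⟨by simp, ⟨0, j, 0, fun σ => by simp [hZ]⟩, e ▸ hW (cE ^ j) I⟩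
      | zero =>
        intro y _
        rw [← zero_smul L (0 : Matrix _ _ L), LvC_smul, zero_smul, zero_mul]
        exact zero_mem _
      | add E E' _ _ h6 h7 =>
        intro y hy
        rw [LvC_add, add_mul]
        exact add_mem (h6 y hy) (h7 y hy)
      | smul c E _ h6 =>
        intro y hy
        rw [LvC_smul, smul_mul_assoc]
        exact Submodule.smul_mem _ _ (h6 y hy))
    (fun i hi => by
      refine LvC_mul φ (c := 1) (χ := ∏ t ∈ Finset.univ.filter fun t => v t ≤ v i.1, Δ t)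
        (funext fun p => ?_) (fun _ => hC (M := {i}) (fun e => absurd e (by simp))
          ⟨by simpa using hi, ⟨0, 0, 0, fun σ => ?_⟩, by simpa using LvC_W_prod _ hΔ2⟩) _
      · rw [hφ, map_prod]
        simp [hφΔ]
      · simp [hΔ1, lowD_tri hv (hρ σ)])
    (fun x hx' => by
      simpa using LvC_mul φ (x := Dl L n fun _ => 2) (c := 1) (χ := ∏ t, Δ t ^ 2)
        (funext fun p => by rw [hφ5, one_smul]) (fun _ => hC (M := 0) (s := 0) (fun _ => le_rfl)
          ⟨by simp, ⟨0, 0, 1, fun σ => by simp [hΔ1, det_tri hv (hρ σ), Finset.prod_pow]⟩,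
            by simpa using hs 1⟩) 1 x hx')
  have hm : (∏ t, Δ t ^ 2) ^ S ∈ C := by
    by_contra e
    refine (linearIndependent_monoidHom (G × (T → Lˣ)) L).notMem_span_image e ?_
    rw [Submodule.mem_comap, AlgHom.toLinearMap_apply, map_pow] at hS
    convert hS using 1
    funext p
    rw [Pi.pow_apply, hφ5, MonoidHom.pow_apply]
  obtain ⟨M, s, h0, h1, ⟨m, m', c, h3⟩, h4⟩ := hm
  refine ⟨M, m, m', c, S, fun e => (h0 e).ne' (LvC_W_eq h4 (hs S)), h1, fun σ => ?_⟩
  rw [← h3 σ]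
  simp [hΔ1, det_tri hv (hρ σ), Finset.prod_pow, pow_mul]

end Pool.Agent.MP_0c8446_ag
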