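import Mathlib

namespace Pool.Agent.MP_0c8446_ag

open MvPolynomial Matrix

universe v

section

variable {R : Type*} [CommRing R] {D ι ι' : Type}

/-- Right action of a matrix on multilinear forms, in coordinates. -/
def tact [Fintype D] [Fintype ι] [DecidableEq ι] (g : Matrix D D R) (u : (ι → D) → R) :
    (ι → D) → R :=
  fun I => ∑ J : ι → D, u J * ∏ j, g (J j) (I j)

/-- Tensor product, in coordinates. -/
def tmul (u : (ι → D) → R) (u' : (ι' → D) → R) : (ι ⊕ ι' → D) → R :=
  fun I => u (I ∘ Sum.inl) * u' (I ∘ Sum.inr)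

/-- The pairing of forms and tensors. -/
def tpair [Fintype D] [Fintype ι] [DecidableEq ι] (u b : (ι → D) → R) : R := ∑ I, u I * b I

/-- Contraction of a tensor with a form. -/
def tcon [Fintype D] [Fintype ι'] [DecidableEq ι'] (b : (ι ⊕ ι' → D) → R) (u : (ι' → D) → R) :
    (ι → D) → R :=
  fun I => ∑ J : ι' → D, b (Sum.elim I J) * u J

/-- A matrix as a tensor with two indices. -/
def tmat (E : Matrix D D R) : (Bool → D) → R := fun I => E (I false) (I true)

end

section

variable {L : Type v} [Field L] {D : Type}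

/-- Families of spaces of tensors closed under reindexing, products and diagonal operators. -/
structure TFam (α : D → L) (F : ∀ ι : Type, Submodule L ((ι → D) → L)) : Prop where
  re : ∀ {ι ι' : Type} [Fintype ι] [Fintype ι'] (e : ι ≃ ι'), ∀ u ∈ F ι,
    (fun I : ι' → D => u (I ∘ e)) ∈ F ι'
  mul : ∀ {ι ι' : Type} [Fintype ι] [Fintype ι'], ∀ u ∈ F ι, ∀ u' ∈ F ι', tmul u u' ∈ F (ι ⊕ ι')
  one : (fun _ => 1) ∈ F Empty
  op : ∀ {ι : Type} [Fintype ι] (j : ι), ∀ u ∈ F ι, (fun I => α (I j) * u I) ∈ F ι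

/-- Contractions of members of `B` with members of `F` are in `B`. -/
def TCon [Fintype D] (F B : ∀ ι : Type, Submodule L ((ι → D) → L)) : Prop :=
  ∀ {ι ι' : Type} [Fintype ι] [Fintype ι'] [DecidableEq ι'], ∀ b ∈ B (ι ⊕ ι'), ∀ u ∈ F ι',
    tcon b u ∈ B ι

/-- The members of `F` orthogonal to `B`. -/
def nul [Fintype D] (F B : ∀ ι : Type, Submodule L ((ι → D) → L)) (ι : Type) :
    Submodule L ((ι → D) → L) where
  carrier := {u | u ∈ F ι ∧ ∀ [Fintype ι] [DecidableEq ι], ∀ b ∈ B ι, tpair u b = 0}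
  zero_mem' := ⟨zero_mem _, fun b _ => by simp [tpair]⟩
  add_mem' := fun {u u'} h h' => ⟨add_mem h.1 h'.1, fun b hb => by
    have h1 := h.2 b hb
    have h2 := h'.2 b hb
    simp only [tpair, Pi.add_apply, add_mul, Finset.sum_add_distrib] at h1 h2 ⊢
    rw [h1, h2, add_zero]⟩
  smul_mem' := fun c u h => ⟨Submodule.smul_mem _ c h.1, fun b hb => by
    have h1 := h.2 b hb
    simp only [tpair, Pi.smul_apply, smul_eq_mul, mul_assoc, ← Finset.mul_sum] at h1 ⊢
    rw [h1, mul_zero]⟩

theorem mem_nul [Fintype D] {F B : ∀ ι : Type, Submodule L ((ι → D) → L)} {ι : Type}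
    [i₀ : Fintype ι] [j₀ : DecidableEq ι] {u : (ι → D) → L} :
    u ∈ nul F B ι ↔ u ∈ F ι ∧ ∀ b ∈ B ι, tpair u b = 0 :=
  ⟨fun h => ⟨h.1, h.2⟩, fun h => ⟨h.1, fun {i j} b hb => by
    rw [Subsingleton.elim i i₀, Subsingleton.elim j j₀]
    exact h.2 b hb⟩⟩

end

section

variable {T : Type} {n : T → Type} {ι : Type}

/-- The tensor `u` lives in the blocks `τ`. -/
def Cont {R : Type*} [Zero R] (τ : ι → T) (u : (ι → Σ t, n t) → R) : Prop :=
  ∀ I, u I ≠ 0 → ∀ j, (I j).1 = τ j

/-- The coordinate ring of block diagonal matrices. -/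
abbrev PR (L : Type v) [Field L] (n : T → Type) : Type v := MvPolynomial (Σ t, n t × n t) L

/-- The blocks of the generic block diagonal matrix. -/
noncomputable def gm (L : Type v) [Field L] (n : T → Type) (t : T) : Matrix (n t) (n t) (PR L n) :=
  Matrix.of fun i j => X ⟨t, (i, j)⟩

variable {L : Type v} [Field L]

/-- Evaluation at a block diagonal matrix. -/
noncomputable def evm (L : Type v) [Field L] {A : Type*} [CommRing A] [Algebra L A]
    (h : ∀ t, Matrix (n t) (n t) A) : PR L n →ₐ[L] A :=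
  aeval fun s => h s.1 s.2.1 s.2.2

variable [Fintype T] [DecidableEq T] [∀ t, Fintype (n t)] [∀ t, DecidableEq (n t)]

/-- The coordinates of the translate of `u` by the generic matrix. -/
noncomputable def gen [Fintype ι] [DecidableEq ι] (u : (ι → Σ t, n t) → L) :
    (ι → Σ t, n t) → PR L n :=
  tact (blockDiagonal' (gm L n)) fun I => C (u I)

/-- Products of the determinants of the blocks. -/
noncomputable def Dl (L : Type v) [Field L] (n : T → Type) [∀ t, Fintype (n t)]
    [∀ t, DecidableEq (n t)] (s : T → ℕ) : PR L n :=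
  ∏ t, (gm L n t).det ^ s t

/-- The span of the coordinates of the generic translates of the members of `F` of size `N`. -/
noncomputable def coord (F : ∀ ι : Type, Submodule L ((ι → Σ t, n t) → L)) (N : ℕ) :
    Submodule L (PR L n) :=
  Submodule.span L {x | ∃ (ι : Type) (_ : Fintype ι) (_ : DecidableEq ι), Fintype.card ι = N ∧
    ∃ u ∈ F ι, ∃ I, x = gen u I}

/-- There is a semi-invariant of weight `δ` and size `N` in `F` that is not orthogonal to `B`. -/
def Sem (F B : ∀ ι : Type, Submodule L ((ι → Σ t, n t) → L)) (δ : PR L n) (N : ℕ) : Prop :=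
  ∃ (ι : Type) (_ : Fintype ι) (_ : DecidableEq ι), Fintype.card ι = N ∧
    ∃ ω ∈ F ι, ∃ b ∈ B ι, tpair ω b ≠ 0 ∧ ∀ I, gen ω I = δ * C (ω I)

end

end Pool.Agent.MP_0c8446_ag
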