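import Pool.Agent.MP_0c8446_ag.GI.TBasic

namespace Pool.Agent.MP_0c8446_ag

open MvPolynomial Matrix

universe v

variable {L : Type v} [Field L] {T : Type} [Fintype T] [DecidableEq T] {n : T → Type}
  [∀ t, Fintype (n t)] [∀ t, DecidableEq (n t)] {ι ι' : Type} [Fintype ι] [DecidableEq ι]
  [Fintype ι'] [DecidableEq ι'] {α : T → L} {F B : ∀ ι : Type, Submodule L ((ι → Σ t, n t) → L)}

/-- The block components of a member are members. -/
theorem TFam.proj (hα : Function.Injective α) (h : TFam (fun i : Σ t, n t => α i.1) F)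
    (τ : ι → T) {u : (ι → Σ t, n t) → L} (hu : u ∈ F ι) :
    (fun I => if ∀ j, (I j).1 = τ j then u I else 0) ∈ F ι := by
  have key : ∀ s : Finset (ι × T), (fun I : ι → Σ t, n t =>
      (∏ q ∈ s, (α (τ q.1) - α q.2)⁻¹ * (α (I q.1).1 - α q.2)) * u I) ∈ F ι := fun s => by
    induction s using Finset.induction_on with
    | empty => simpa using hu
    | insert q s hq ih =>
      convert (F ι).smul_mem (α (τ q.1) - α q.2)⁻¹
        (sub_mem (h.op q.1 _ ih) ((F ι).smul_mem (α q.2) ih)) using 1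
      funext I
      simp only [Finset.prod_insert hq, Pi.smul_apply, Pi.sub_apply, smul_eq_mul]
      ring
  convert key (Finset.univ.filter fun q => q.2 ≠ τ q.1) using 1
  funext I
  split_ifs with hI
  · rw [Finset.prod_eq_one fun q hq => ?_, one_mul]
    rw [hI]
    exact inv_mul_cancel₀ (sub_ne_zero.2 (hα.ne (Finset.mem_filter.1 hq).2.symm))
  · obtain ⟨j, hj⟩ := not_forall.1 hI
    rw [Finset.prod_eq_zero (i := (j, (I j).1)) (Finset.mem_filter.2 ⟨Finset.mem_univ _, hj⟩)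
      (by simp), zero_mul]

/-- Cutting the support by any condition on the blocks. -/
theorem TFam.cut (hα : Function.Injective α) (h : TFam (fun i : Σ t, n t => α i.1) F)
    (p : (ι → T) → Prop) [DecidablePred p] {u : (ι → Σ t, n t) → L} (hu : u ∈ F ι) :
    (fun I => if p (fun j => (I j).1) then u I else 0) ∈ F ι := by
  convert (F ι).sum_mem (t := Finset.univ.filter p) fun τ _ => h.proj hα τ hu using 1
  funext I
  simp only [Finset.sum_apply, ← funext_iff]
  rw [Finset.sum_ite_eq]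
  simp

omit [Fintype T] [DecidableEq T] [∀ t, Fintype (n t)] [∀ t, DecidableEq (n t)] [DecidableEq ι] in
/-- Finite products. -/
theorem TFam.prod {D : Type} {β : D → L} {F : ∀ ι : Type, Submodule L ((ι → D) → L)}
    (h : TFam β F) (S : Type) [Fintype S] {u : S → (ι → D) → L} (hu : ∀ r, u r ∈ F ι) :
    (fun I : S × ι → D => ∏ r, u r fun j => I (r, j)) ∈ F (S × ι) := by
  revert u
  refine Fintype.induction_empty_option (P := fun S _ => ∀ {u : S → (ι → D) → L},
    (∀ r, u r ∈ F ι) → (fun I : S × ι → D => ∏ r, u r fun j => I (r, j)) ∈ F (S × ι))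
    (fun S S' _ e ih u hu => ?_) (fun {u} _ => ?_) (fun S _ ih u hu => ?_) S
  · let _ : Fintype S := Fintype.ofEquiv S' e.symm
    convert h.re (e.prodCongr (Equiv.refl ι)) _ (ih (u := fun r => u (e r)) fun r => hu _) using 1
    funext I
    exact (e.prod_comp fun r => u r fun j => I (r, j)).symm
  · convert h.re (Equiv.equivOfIsEmpty Empty (PEmpty × ι)) _ h.one using 1
    funext I
    simp
  · let e : (S × ι) ⊕ ι ≃ Option S × ι :=
      { toFun := Sum.elim (fun q => (some q.1, q.2)) fun j => (none, j)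
        invFun := fun q => q.1.elim (Sum.inr q.2) fun a => Sum.inl (a, q.2)
        left_inv := by rintro (_ | _) <;> rfl
        right_inv := by rintro ⟨_ | _, _⟩ <;> rfl }
    convert h.re e _ (h.mul _ (ih (u := fun r => u (some r)) fun r => hu _) _ (hu none)) using 1
    funext I
    rw [Fintype.prod_option, mul_comm]
    rfl

theorem nul_re (hF : TFam (fun i : Σ t, n t => α i.1) F) (hB : TFam (fun i : Σ t, n t => α i.1) B)
    (e : ι ≃ ι') {u : (ι → Σ t, n t) → L} (hu : u ∈ nul F B ι) :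
    (fun I : ι' → Σ t, n t => u (I ∘ e)) ∈ nul F B ι' := by
  obtain ⟨h1, h2⟩ := mem_nul.1 hu
  refine mem_nul.2 ⟨hF.re e u h1, fun b hb => ?_⟩
  rw [← h2 _ (hB.re e.symm b hb), ← tpair_re e]
  congr 1
  funext I
  congr 1
  funext j
  simp

theorem nul_proj (hα : Function.Injective α) (hF : TFam (fun i : Σ t, n t => α i.1) F)
    (hB : TFam (fun i : Σ t, n t => α i.1) B) (τ : ι → T) {u : (ι → Σ t, n t) → L}
    (hu : u ∈ nul F B ι) : (fun I => if ∀ j, (I j).1 = τ j then u I else 0) ∈ nul F B ι := by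
  obtain ⟨h1, h2⟩ := mem_nul.1 hu
  refine mem_nul.2 ⟨hF.proj hα τ h1, fun b hb => ?_⟩
  refine Eq.trans (Finset.sum_congr rfl fun I _ => ?_) (h2 _ (hB.proj hα τ hb))
  simp only [ite_mul, mul_ite, zero_mul, mul_zero]

theorem nul_mul (hF : TFam (fun i : Σ t, n t => α i.1) F) (hc : TCon F B)
    {u : (ι → Σ t, n t) → L} (hu : u ∈ nul F B ι) {u' : (ι' → Σ t, n t) → L} (hu' : u' ∈ F ι') :
    tmul u u' ∈ nul F B (ι ⊕ ι') := by
  obtain ⟨h1, h2⟩ := mem_nul.1 hu
  refine mem_nul.2 ⟨hF.mul u h1 u' hu', fun b hb => ?_⟩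
  rw [tpair_tcon]
  exact h2 _ (hc b hb u' hu')

theorem TFam_gen_one (I : Empty → Σ t, n t) : gen (fun _ => (1 : L)) I = 1 := by
  simp [gen, tact]

theorem TFam_coord_mul {F₁ F₂ F₃ : ∀ ι : Type, Submodule L ((ι → Σ t, n t) → L)}
    (H : ∀ {ι ι' : Type} [Fintype ι] [DecidableEq ι] [Fintype ι'] [DecidableEq ι'], ∀ u ∈ F₁ ι,
      ∀ u' ∈ F₂ ι', tmul u u' ∈ F₃ (ι ⊕ ι')) {N N' : ℕ} {x y : PR L n}
    (hx : x ∈ coord F₁ N) (hy : y ∈ coord F₂ N') : x * y ∈ coord F₃ (N + N') := by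
  have h1 : coord F₁ N * coord F₂ N' ≤ coord F₃ (N + N') := by
    rw [coord, coord, Submodule.span_mul_span]
    refine Submodule.span_mono ?_
    rintro _ ⟨_, ⟨κ, _, _, rfl, u, hu, I, rfl⟩, _, ⟨κ', _, _, rfl, u', hu', I', rfl⟩, rfl⟩
    refine ⟨κ ⊕ κ', inferInstance, inferInstance, Fintype.card_sum, _, H u hu u' hu',
      Sum.elim I I', ?_⟩
    rw [gen_tmul]
    rfl
  exact h1 (Submodule.mul_mem_mul hx hy)

theorem coord_one (hF : TFam (fun i : Σ t, n t => α i.1) F) : (1 : PR L n) ∈ coord F 0 :=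
  Submodule.subset_span ⟨Empty, inferInstance, inferInstance, rfl, _, hF.one, Empty.elim,
    (TFam_gen_one _).symm⟩

theorem coord_mul (hF : TFam (fun i : Σ t, n t => α i.1) F) {N N' : ℕ} {x y : PR L n}
    (hx : x ∈ coord F N) (hy : y ∈ coord F N') : x * y ∈ coord F (N + N') :=
  TFam_coord_mul (fun u hu u' hu' => hF.mul u hu u' hu') hx hy

theorem coord_nul_mul (hF : TFam (fun i : Σ t, n t => α i.1) F) (hc : TCon F B) {N N' : ℕ}
    {x y : PR L n} (hx : x ∈ coord (nul F B) N) (hy : y ∈ coord F N') :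
    x * y ∈ coord (nul F B) (N + N') :=
  TFam_coord_mul (fun _ hu _ hu' => nul_mul hF hc hu hu') hx hy

theorem coord_nul_le (N : ℕ) : coord (nul F B) N ≤ coord F N := by
  refine Submodule.span_mono ?_
  rintro _ ⟨κ, _, _, hκ, u, hu, I, rfl⟩
  exact ⟨κ, _, _, hκ, u, hu.1, I, rfl⟩

/-- All generators can be moved to one index type. -/
theorem coord_nul_eq (hF : TFam (fun i : Σ t, n t => α i.1) F)
    (hB : TFam (fun i : Σ t, n t => α i.1) B) :
    coord (nul F B) (Fintype.card ι) ≤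
      Submodule.span L {x | ∃ u ∈ nul F B ι, ∃ I, x = gen u I} := by
  refine Submodule.span_mono ?_
  rintro _ ⟨κ, _, _, hκ, u, hu, I, rfl⟩
  let e : κ ≃ ι := Fintype.equivOfCardEq hκ
  refine ⟨_, nul_re hF hB e hu, I ∘ e.symm, ?_⟩
  rw [gen_re]
  congr 1
  funext j
  simp

theorem Sem.mem_coord {δ : PR L n} {N : ℕ} (h : Sem F B δ N) : δ ∈ coord F N := by
  obtain ⟨κ, _, _, hκ, ω, hω, b, -, h0, h1⟩ := h
  obtain ⟨I, hI⟩ : ∃ I, ω I ≠ 0 := by
    by_contra hn
    push Not at hn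
    exact h0 (by simp [tpair, hn])
  have h2 : δ = (ω I)⁻¹ • gen ω I := by
    rw [h1, smul_eq_C_mul, mul_left_comm, ← map_mul, inv_mul_cancel₀ hI, map_one, mul_one]
  rw [h2]
  exact Submodule.smul_mem _ _ (Submodule.subset_span ⟨κ, _, _, hκ, ω, hω, I, rfl⟩)

theorem Sem.one (hF : TFam (fun i : Σ t, n t => α i.1) F)
    (hB : TFam (fun i : Σ t, n t => α i.1) B) : Sem F B 1 0 :=
  ⟨Empty, inferInstance, inferInstance, rfl, _, hF.one, _, hB.one, by simp [tpair],
    fun I => by rw [TFam_gen_one, map_one, mul_one]⟩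

theorem Sem.mul (hF : TFam (fun i : Σ t, n t => α i.1) F)
    (hB : TFam (fun i : Σ t, n t => α i.1) B) {δ δ' : PR L n} {N N' : ℕ} (h : Sem F B δ N)
    (h' : Sem F B δ' N') : Sem F B (δ * δ') (N + N') := by
  obtain ⟨κ, _, _, rfl, ω, hω, b, hb, h0, h1⟩ := h
  obtain ⟨κ', _, _, rfl, ω', hω', b', hb', h0', h1'⟩ := h'
  refine ⟨κ ⊕ κ', inferInstance, inferInstance, Fintype.card_sum, _, hF.mul ω hω ω' hω', _,
    hB.mul b hb b' hb', by rw [tpair_tmul]; exact mul_ne_zero h0 h0', fun I => ?_⟩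
  rw [gen_tmul, tmul, tmul, h1, h1', map_mul]
  ring

end Pool.Agent.MP_0c8446_ag
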