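import Pool.Agent.MP_0c8446_ag.GI.TF1
import Pool.Agent.MP_0c8446_ag.GI.TFam

namespace Pool.Agent.MP_0c8446_ag

open Set
open scoped TensorProduct

universe u v w x

variable {k : Type u} [Field k] [IsAlgClosed k] {K : Type v} [Field K] [CharZero K]
  (W : Weil.{u, v, w} k K)

variable {A : Var k} {V : Submodule K (W.H A)} {Φ : Module.End K (W.H A)}

theorem Weil.fib_mul_right {P X Y : Var k} {p : Mor P X} {q : Mor P Y} (h : IsProd p q)
    (a : W.H X) (c : W.H P) : W.fib h (c * W.pull p a) = W.fib h c * a := by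
  refine W.Fib_ind h (C := fun c => W.fib h (c * W.pull p a) = W.fib h c * a) (by simp)
    (fun a' b => ?_) (fun x y hx hy => ?_) c
  · rw [mul_assoc, W.fib_mul_left, W.fib_swap, W.fib_tmul, mul_smul_comm, smul_mul_assoc]
  · simp only [add_mul, map_add, hx, hy]

/-- Applying the operator `Φ` at any position of a complete list. -/
theorem Weil.op_mid {D : Type} {e : D → W.H A} {α : D → K} (hV : ∀ x, e x ∈ V) (hΦ : W.Corr V Φ)
    (hα : ∀ x, Φ (e x) = α x • e x) {ι : Type} {Y : Var k} {l : List ι} (hl : Cpl l) (j : ι)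
    (p : ι → Mor Y A) : ∃ (Q : Var k) (r : Mor Q Y) (s : Mor Q A) (h : IsProd r s)
      (p' : ι → Mor Q A), ∃ c ∈ W.Alg Q, ∀ (m : W.H Y) (I : ι → D),
        α (I j) • (m * W.mon e l p I) = W.fib h (c * W.pull r m * W.mon e l p' I) := by
  classical
  obtain ⟨l1, l2, rfl⟩ := List.append_of_mem (hl.2 j)
  have hn := List.nodup_middle.1 hl.1
  rw [List.nodup_cons, List.mem_append, not_or] at hn
  obtain ⟨Q, r, s, h, c, hc, H⟩ := Weil.Corr.exists_fib W hΦ (p j)
  refine ⟨Q, r, s, h, Function.update (fun j' => (p j').comp r) j s, c, hc, fun m I => ?_⟩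
  have h1 : ∀ l : List ι, j ∉ l → W.mon e l (Function.update (fun j' => (p j').comp r) j s) I =
      W.pull r (W.mon e l p I) := fun l hj => by
    rw [W.pull_mon]
    refine TF1_mon_congr W l (fun j' hj' => ?_) I
    exact Function.update_of_ne (show j' ≠ j from fun h' => hj (h' ▸ hj')) _ _
  have h2 : ∀ {Z : Var k} (q : ι → Mor Z A), W.mon e (l1 ++ j :: l2) q I =
      W.mon e l1 q I * W.pull (q j) (e (I j)) * W.mon e l2 q I := fun q => by
    simp [Weil.mon, mul_assoc]
  rw [h2, h2, h1 _ hn.1.1, h1 _ hn.1.2, Function.update_self, ← mul_assoc (c * W.pull r m),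
    W.fib_mul_right, mul_assoc c, ← mul_assoc (W.pull r m), ← map_mul, ← H _ (hV _), hα,
    map_smul, mul_smul_comm, smul_mul_assoc, mul_assoc, mul_assoc, mul_assoc]

theorem Weil.tfam_TT3 {D : Type} {e : D → W.H A} {α : D → K} (hV : ∀ x, e x ∈ V)
    (hΦ : W.Corr V Φ) (hα : ∀ x, Φ (e x) = α x • e x) : TFam α (W.TT e) := by
  refine ⟨fun {ι ι'} _ _ σ u hu => ?_, fun {ι ι'} _ _ u hu u' hu' => ?_, ?_,
    fun {ι} _ j u hu => ?_⟩
  · induction hu using Submodule.span_induction with
    | mem x hx =>
      obtain ⟨l, Y, p, z, hl, hz, rfl⟩ := hx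
      refine Submodule.subset_span ⟨l.map σ, Y, p ∘ σ.symm, z, hl.map σ, hz, funext fun I => ?_⟩
      have : (p ∘ σ.symm) ∘ σ = p := funext fun j => by simp
      rw [TF1_mon_map, this]
    | zero => exact zero_mem _
    | add x y _ _ hx hy => exact add_mem hx hy
    | smul c x _ hx => exact Submodule.smul_mem _ c hx
  · induction hu using Submodule.span_induction with
    | mem x hx =>
      obtain ⟨l, Y, p, z, hl, hz, rfl⟩ := hx
      induction hu' using Submodule.span_induction with
      | mem x' hx' =>
        obtain ⟨l', Y', p', z', hl', hz', rfl⟩ := hx'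
        obtain ⟨P, r, s, h⟩ := exists_prod Y Y'
        refine Submodule.subset_span ⟨l.map Sum.inl ++ l'.map Sum.inr, P,
          Sum.elim (fun j => (p j).comp r) (fun j => (p' j).comp s), W.pull r z * W.pull s z',
          hl.append hl', W.mul_mem_Alg (W.pull_mem_Alg r hz) (W.pull_mem_Alg s hz'),
          funext fun I => ?_⟩
        rw [TF1_mon_prod, tmul, ← W.tr_prod h, map_mul (W.pull r), map_mul (W.pull s), mul_assoc,
          mul_assoc, ← mul_assoc (W.pull r (W.mon e l p _)),
          ← W.Alg_comm (W.pull_mem_Alg s hz') (W.pull r _), mul_assoc]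
      | zero =>
        have : tmul (fun I => W.tr Y (z * W.mon e l p I)) (0 : (ι' → D) → K) = 0 :=
          funext fun I => by simp [tmul]
        rw [this]
        exact zero_mem _
      | add x y _ _ hx hy =>
        have : tmul (fun I => W.tr Y (z * W.mon e l p I)) (x + y) =
            tmul (fun I => W.tr Y (z * W.mon e l p I)) x +
              tmul (fun I => W.tr Y (z * W.mon e l p I)) y :=
          funext fun I => by simp [tmul, mul_add]
        rw [this]
        exact add_mem hx hy
      | smul c x _ hx =>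
        have : tmul (fun I => W.tr Y (z * W.mon e l p I)) (c • x) =
            c • tmul (fun I => W.tr Y (z * W.mon e l p I)) x :=
          funext fun I => by simp [tmul, mul_left_comm]
        rw [this]
        exact Submodule.smul_mem _ c hx
    | zero =>
      have : tmul (0 : (ι → D) → K) u' = 0 := funext fun I => by simp [tmul]
      rw [this]
      exact zero_mem _
    | add x y _ _ hx hy =>
      have : tmul (x + y) u' = tmul x u' + tmul y u' := funext fun I => by simp [tmul, add_mul]
      rw [this]
      exact add_mem hx hy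
    | smul c x _ hx =>
      have : tmul (c • x) u' = c • tmul x u' := funext fun I => by simp [tmul, mul_assoc]
      rw [this]
      exact Submodule.smul_mem _ c hx
  · obtain ⟨x⟩ : Nonempty A.pts := inferInstance
    refine Submodule.subset_span ⟨[], A, fun j => j.elim, W.cl A {x},
      ⟨List.nodup_nil, fun j => j.elim⟩, W.cl_mem_Alg (isSub_singleton x), funext fun I => ?_⟩
    simp [Weil.mon, W.tr_pt]
  · induction hu using Submodule.span_induction with
    | mem x hx =>
      obtain ⟨l, Y, p, z, hl, hz, rfl⟩ := hx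
      obtain ⟨Q, r, s, h, p', c, hc, H⟩ := W.op_mid hV hΦ hα hl j p
      refine Submodule.subset_span ⟨l, Q, p', c * W.pull r z, hl,
        W.mul_mem_Alg hc (W.pull_mem_Alg r hz), funext fun I => ?_⟩
      rw [← W.tr_fib h, ← H, map_smul, smul_eq_mul]
    | zero =>
      have : (fun I : ι → D => α (I j) * (0 : (ι → D) → K) I) = 0 := funext fun I => by simp
      rw [this]
      exact zero_mem _
    | add x y _ _ hx hy =>
      have : (fun I : ι → D => α (I j) * (x + y) I) =
          (fun I => α (I j) * x I) + fun I => α (I j) * y I := funext fun I => by simp [mul_add]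
      rw [this]
      exact add_mem hx hy
    | smul c x _ hx =>
      have : (fun I : ι → D => α (I j) * (c • x) I) = c • fun I => α (I j) * x I :=
        funext fun I => by simp [mul_left_comm]
      rw [this]
      exact Submodule.smul_mem _ c hx

theorem Weil.tcon_TT3 {D : Type} [Fintype D] (e : D → W.H A) : TCon (W.TT e) (W.BB e) := by
  classical
  intro ι ι' _ _ _ b hb u hu
  induction hu using Submodule.span_induction with
  | mem x hx =>
    obtain ⟨l', Y', p', z', hl', hz', rfl⟩ := hx
    rw [Weil.mem_BB] at hb ⊢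
    intro l Y p hl
    obtain ⟨P, r, s, h⟩ := exists_prod Y Y'
    have h1 := W.fib_mem_Alg h (W.mul_mem_Alg (W.pull_mem_Alg s hz')
      (hb _ P (Sum.elim (fun j => (p j).comp r) (fun j => (p' j).comp s)) (hl.append hl')))
    convert h1 using 1
    rw [Finset.mul_sum, map_sum]
    simp only [tcon, Finset.sum_smul]
    rw [← Fintype.sum_prod_type']
    refine Fintype.sum_equiv (Equiv.sumArrowEquivProdArrow ι ι' D).symm _ _ fun I => ?_
    rw [TF1_mon_prod, mul_smul_comm, map_smul, ← mul_assoc,
      W.Alg_comm (W.pull_mem_Alg s hz'), mul_assoc, ← map_mul, W.fib_tmul, smul_smul]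
    rfl
  | zero =>
    have : tcon b (0 : (ι' → D) → K) = 0 := funext fun I => by simp [tcon]
    rw [this]
    exact zero_mem _
  | add x y _ _ hx hy =>
    have : tcon b (x + y) = tcon b x + tcon b y :=
      funext fun I => by simp [tcon, mul_add, Finset.sum_add_distrib]
    rw [this]
    generalize W.BB e ι = S at hx hy ⊢
    exact add_mem hx hy
  | smul c x _ hx =>
    have : tcon b (c • x) = c • tcon b x :=
      funext fun I => by simp [tcon, Finset.mul_sum, mul_left_comm]
    rw [this]
    generalize W.BB e ι = S at hx ⊢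
    exact Submodule.smul_mem _ c hx

theorem Weil.op_BB {D : Type} [Fintype D] {e : D → W.H A} {α : D → K} (hV : ∀ x, e x ∈ V)
    (hΦ : W.Corr V Φ) (hα : ∀ x, Φ (e x) = α x • e x) {ι : Type} [Fintype ι] (j : ι) :
    ∀ b ∈ W.BB e ι, (fun I => α (I j) * b I) ∈ W.BB e ι := by
  classical
  intro u hu
  rw [Weil.mem_BB] at hu ⊢
  intro l Y p hl
  obtain ⟨Q, r, s, h, p', c, hc, H⟩ := W.op_mid hV hΦ hα hl j p
  have h2 : ∑ I : ι → D, (α (I j) * u I) • W.mon e l p I =
      W.fib h (c * ∑ I, u I • W.mon e l p' I) := by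
    rw [Finset.mul_sum, map_sum]
    refine Finset.sum_congr rfl fun I _ => ?_
    have h3 := H 1 I
    rw [map_one, mul_one, one_mul] at h3
    rw [mul_smul_comm, map_smul, ← h3, smul_smul, mul_comm]
  rw [h2]
  exact W.fib_mem_Alg h (W.mul_mem_Alg hc (hu _ _ _ hl))

end Pool.Agent.MP_0c8446_ag
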