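import Pool.Agent.MP_0c8446_ag.GI.TF3

namespace Pool.Agent.MP_0c8446_ag

open Set
open scoped TensorProduct

universe u v w x

variable {k : Type u} [Field k] [IsAlgClosed k] {K : Type v} [Field K] [CharZero K]
  (W : Weil.{u, v, w} k K)

variable {A : Var k} {V : Submodule K (W.H A)} {Φ : Module.End K (W.H A)} {T : Type} [Fintype T]
  [DecidableEq T] {n : T → Type} [∀ t, Fintype (n t)] [∀ t, DecidableEq (n t)]
  {e : (Σ t, n t) → W.H A} {δ : T → ℕ} {α : T → K}

omit [IsAlgClosed k] [CharZero K] [∀ t, Fintype (n t)] [∀ t, DecidableEq (n t)] in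
/-- A space of tensors stable under the diagonal operators is spanned by its block components. -/
theorem TF4_ind (hα : Function.Injective α) {ι : Type} [Fintype ι] [DecidableEq ι]
    {F : Submodule K ((ι → Σ t, n t) → K)}
    (h : ∀ j, ∀ u ∈ F, (fun I => α (I j).1 * u I) ∈ F) {M : Type*} [AddCommGroup M] [Module K M]
    {S : Submodule K M} (φ : ((ι → Σ t, n t) → K) →ₗ[K] M)
    (hS : ∀ τ, ∀ u ∈ F, Cont τ u → φ u ∈ S) {u : (ι → Σ t, n t) → K} (hu : u ∈ F) : φ u ∈ S := by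
  have pr : ∀ τ : ι → T, (fun I => if ∀ j, (I j).1 = τ j then u I else 0) ∈ F := fun τ => by
    have key : ∀ s : Finset (ι × T), (fun I : ι → Σ t, n t =>
        (∏ q ∈ s, (α (τ q.1) - α q.2)⁻¹ * (α (I q.1).1 - α q.2)) * u I) ∈ F := fun s => by
      induction s using Finset.induction_on with
      | empty => simpa using hu
      | insert q s hq ih =>
        convert F.smul_mem (α (τ q.1) - α q.2)⁻¹
          (sub_mem (h q.1 _ ih) (F.smul_mem (α q.2) ih)) using 1
        funext I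
        simp only [Finset.prod_insert hq, Pi.smul_apply, Pi.sub_apply, smul_eq_mul]
        ring
    convert key (Finset.univ.filter fun q => q.2 ≠ τ q.1) using 1
    funext I
    split_ifs with hI
    · rw [Finset.prod_eq_one fun q hq => ?_, one_mul]
      rw [hI]
      exact inv_mul_cancel₀ (sub_ne_zero.2 (hα.ne (Finset.mem_filter.1 hq).2.symm))
    · obtain ⟨j, hj⟩ := not_forall.1 hI
      rw [Finset.prod_eq_zero (i := (j, (I j).1)) (Finset.mem_filter.2 ⟨Finset.mem_univ _, hj⟩)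
        (by simp), zero_mul]
  have e : u = ∑ τ : ι → T, fun I => if ∀ j, (I j).1 = τ j then u I else 0 := by
    funext I
    simp only [Finset.sum_apply, ← funext_iff]
    rw [Finset.sum_ite_eq]
    simp
  rw [e, map_sum]
  exact sum_mem fun τ _ => hS τ _ (pr τ) fun I hI => by
    by_contra e
    exact hI (if_neg e)

omit [IsAlgClosed k] [CharZero K] in
/-- Permuting homogeneous factors changes the product by a sign. -/
theorem Weil.prod_perm3 {ι : Type} (d : ι → ℕ) {l l' : List ι} (h : l.Perm l') :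
    ∃ ε : K, ε ≠ 0 ∧ ∀ (Y : Var k) (f : ι → W.H Y), (∀ j, f j ∈ W.gr Y (d j)) →
      (l.map f).prod = ε • (l'.map f).prod := by
  induction h with
  | nil => exact ⟨1, one_ne_zero, fun _ _ _ => (one_smul _ _).symm⟩
  | cons a _ ih =>
    obtain ⟨ε, h1, h2⟩ := ih
    exact ⟨ε, h1, fun Y f hf => by
      rw [List.map_cons, List.map_cons, List.prod_cons, List.prod_cons, h2 Y f hf, mul_smul_comm]⟩
  | swap a b l =>
    refine ⟨(-1) ^ (d b * d a), pow_ne_zero _ (neg_ne_zero.2 one_ne_zero), fun Y f hf => ?_⟩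
    simp only [List.map_cons, List.prod_cons, ← mul_assoc]
    rw [W.comm Y _ _ _ (hf b) _ (hf a), Algebra.smul_def, map_pow, map_neg, map_one, mul_assoc]
  | trans _ _ ih ih' =>
    obtain ⟨ε, h1, h2⟩ := ih
    obtain ⟨ε', h3, h4⟩ := ih'
    exact ⟨ε * ε', mul_ne_zero h1 h3, fun Y f hf => by rw [h2 Y f hf, h4 Y f hf, mul_smul]⟩

omit [IsAlgClosed k] [CharZero K] [DecidableEq T] [∀ t, DecidableEq (n t)] in
/-- For a tensor in one block one ordering is enough. -/
theorem Weil.mem_BB_of_cont (he : ∀ x, e x ∈ W.gr A (δ x.1)) {ι : Type} [Fintype ι]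
    [DecidableEq ι] {τ : ι → T} {b : (ι → Σ t, n t) → K} (hb : Cont τ b) {l₀ : List ι}
    (hl : Cpl l₀) (h : ∀ (Y : Var k) (p : ι → Mor Y A), ∑ I, b I • W.mon e l₀ p I ∈ W.Alg Y) :
    b ∈ W.BB e ι := by
  rw [Weil.mem_BB]
  intro l Y p hl'
  obtain ⟨ε, -, hε⟩ := W.prod_perm3 (fun j => δ (τ j)) (hl'.perm hl)
  have h2 : ∑ I, b I • W.mon e l p I = ε • ∑ I, b I • W.mon e l₀ p I := by
    rw [Finset.smul_sum]
    refine Finset.sum_congr rfl fun I _ => ?_
    by_cases hI : b I = 0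
    · simp [hI]
    · rw [smul_comm]
      exact congrArg _ (hε Y _ fun j => W.pull_gr _ _ _ (hb I hI j ▸ he (I j)))
  rw [h2]
  exact Submodule.smul_mem _ ε (h Y p)

omit [∀ t, DecidableEq (n t)] in
theorem Weil.tfam_BB3 (he : ∀ x, e x ∈ W.gr A (δ x.1)) (hi : Function.Injective α)
    (hV : ∀ x, e x ∈ V) (hΦ : W.Corr V Φ) (hα : ∀ x, Φ (e x) = α x.1 • e x) :
    TFam (fun x : Σ t, n t => α x.1) (W.BB e) := by
  classical
  refine ⟨fun {ι ι'} _ _ σ u hu => ?_, fun {ι ι'} _ _ u hu u' hu' => ?_, ?_,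
    fun {ι} _ j => W.op_BB hV hΦ hα j⟩
  · rw [Weil.mem_BB] at hu ⊢
    intro l Y p hl
    have h1 := hu (l.map σ.symm) Y (p ∘ σ) (hl.map σ.symm)
    have h2 : ∑ I : ι' → Σ t, n t, u (I ∘ σ) • W.mon e l p I =
        ∑ J : ι → Σ t, n t, u J • W.mon e (l.map σ.symm) (p ∘ σ) J := by
      refine Fintype.sum_equiv (σ.symm.arrowCongr (Equiv.refl _)) _ _ fun I => ?_
      have h3 : (σ.symm.arrowCongr (Equiv.refl _)) I = I ∘ σ := funext fun j => by simp
      rw [h3, TF1_mon_map]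
      congr 2
      · funext j
        simp
      · funext j
        simp
    rw [h2]
    exact h1
  · let μ : ((ι → Σ t, n t) → K) →ₗ[K] ((ι' → Σ t, n t) → K) →ₗ[K] ((ι ⊕ ι' → Σ t, n t) → K) :=
      LinearMap.mk₂ K tmul (fun _ _ _ => funext fun _ => add_mul _ _ _)
        (fun _ _ _ => funext fun _ => mul_assoc _ _ _) (fun _ _ _ => funext fun _ => mul_add _ _ _)
        fun _ _ _ => funext fun _ => mul_left_comm _ _ _
    refine @TF4_ind _ _ _ _ _ _ _ hi _ _ _ _ (fun j => W.op_BB hV hΦ hα j) _ _ _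
      (W.BB e (ι ⊕ ι')) (μ.flip u') (fun τ b hb hc => ?_) u hu
    refine @TF4_ind _ _ _ _ _ _ _ hi _ _ _ _ (fun j => W.op_BB hV hΦ hα j) _ _ _
      (W.BB e (ι ⊕ ι')) (μ b) (fun τ' b' hb' hc' => ?_) u' hu'
    obtain ⟨l1, hl1⟩ := exists_cpl ι
    obtain ⟨l2, hl2⟩ := exists_cpl ι'
    refine W.mem_BB_of_cont he (hc.tmul hc') (hl1.append hl2) fun Y p => ?_
    have h2 : ∑ I : ι ⊕ ι' → Σ t, n t,
        tmul b b' I • W.mon e (l1.map Sum.inl ++ l2.map Sum.inr) p I =
          (∑ I, b I • W.mon e l1 (p ∘ Sum.inl) I) * ∑ I, b' I • W.mon e l2 (p ∘ Sum.inr) I := by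
      rw [Finset.sum_mul_sum, ← Fintype.sum_prod_type']
      refine Fintype.sum_equiv (Equiv.sumArrowEquivProdArrow ι ι' _) _ _ fun I => ?_
      rw [W.mon_append, smul_mul_smul_comm]
      rfl
    rw [h2]
    exact W.mul_mem_Alg (W.mem_BB.1 hb _ _ _ hl1) (W.mem_BB.1 hb' _ _ _ hl2)
  · rw [Weil.mem_BB]
    intro l Y p hl
    refine sum_mem fun I _ => Submodule.smul_mem _ _ ?_
    obtain rfl : l = [] := List.eq_nil_iff_forall_not_mem.2 fun j => j.elim
    exact W.one_mem_Alg Y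

end Pool.Agent.MP_0c8446_ag
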