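import Pool.Agent.MP_0c8446_ag.GI.Defs
import Pool.Agent.MP_0c8446_ag.GI.TDefs
import Pool.Agent.MP_0c8446_ag.GenBasic
import Pool.Agent.MP_0c8446_ag.ProdVar

namespace Pool.Agent.MP_0c8446_ag

open Set Polynomial
open scoped TensorProduct

universe u v w x

/-- The list `l` enumerates the type. -/
def Cpl {ι : Type} (l : List ι) : Prop := l.Nodup ∧ ∀ j, j ∈ l

variable {k : Type u} [Field k] {K : Type v} [Field K]

section

variable {W : Weil.{u, v, w} k K} {G : Type x} [Group G] [MulSemiringAction G k] (ρ : W.Gal G)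

theorem Weil.Gal.act_gr (X : Var k) (σ : G) (i : ℕ) :
    ∀ a ∈ W.gr X i, ρ.act X σ a ∈ W.gr X i := (ρ.compat σ).1 X i

theorem Weil.Gal.act_pull {X Y : Var k} (f : Mor X Y) (hX : X.Over G) (hY : Y.Over G)
    (hf : f.Over G) (σ : G) (a : W.H Y) : ρ.act X σ (W.pull f a) = W.pull f (ρ.act Y σ a) :=
  (ρ.compat σ).2.1 X Y f hX hY hf a

theorem Weil.Gal.act_cl (X : Var k) (hX : X.Over G) (σ : G) (Z : Set X.pts) (hZ : IsSub Z) :
    ρ.act X σ (W.cl X Z) =
      (ρ.χ σ : K) ^ (X.d - dim Z) • W.cl X {y | ∃ x ∈ Z, Conj σ x.1 y.1} :=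
  (ρ.compat σ).2.2 X hX Z hZ

end

namespace Weil

variable (W : Weil.{u, v, w} k K)

/-- The inverse of the Künneth isomorphism. -/
noncomputable def kun {P X Y : Var k} {p : Mor P X} {q : Mor P Y} (h : IsProd p q) :
    (W.H X ⊗[K] W.H Y) ≃ₗ[K] W.H P :=
  LinearEquiv.ofBijective _ (W.kunneth p q h)

/-- Integration along the fibres of the first projection. -/
noncomputable def fib {P X Y : Var k} {p : Mor P X} {q : Mor P Y} (h : IsProd p q) :
    W.H P →ₗ[K] W.H X :=
  (TensorProduct.rid K (W.H X)).toLinearMap ∘ₗ (W.tr Y).lTensor (W.H X) ∘ₗ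
    (W.kun h).symm.toLinearMap

theorem fib_tmul {P X Y : Var k} {p : Mor P X} {q : Mor P Y} (h : IsProd p q) (a : W.H X)
    (b : W.H Y) : W.fib h (W.pull p a * W.pull q b) = W.tr Y b • a := by
  have : (W.kun h).symm (W.pull p a * W.pull q b) = a ⊗ₜ b :=
    (LinearEquiv.symm_apply_eq _).2 rfl
  simp [fib, this]

/-- The span of the exterior products of elements of `V`. -/
def sq {P A : Var k} (p q : Mor P A) (V : Submodule K (W.H A)) : Submodule K (W.H P) :=
  Submodule.span K {c | ∃ a ∈ V, ∃ b ∈ V, c = W.pull p a * W.pull q b}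

/-- On `V` the operator `Φ` is induced by an algebraic correspondence. -/
def Corr {A : Var k} (V : Submodule K (W.H A)) (Φ : Module.End K (W.H A)) : Prop :=
  ∃ (P : Var k) (p q : Mor P A), IsProd p q ∧ ∃ c ∈ W.Alg P, ∀ a ∈ V, ∀ b,
    W.tr A (b * Φ a) = W.tr P (c * (W.pull p b * W.pull q a))

/-- The cohomology of `Y` is spanned by algebraic multiples of products of pull-backs of `V`. -/
def Sp {A : Var k} (V : Submodule K (W.H A)) (Y : Var k) : Prop :=
  ∀ a : W.H Y, a ∈ Submodule.span K {b | ∃ z ∈ W.Alg Y, ∃ l : List (Mor Y A × W.H A),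
    (∀ x ∈ l, x.2 ∈ V) ∧ b = z * (l.map fun x => W.pull x.1 x.2).prod}

/-- An algebraic class `β` in `V ⊗ V` is inverse to the pairing `tr (z a b)` on `V`. -/
def Inv2 {A : Var k} (V : Submodule K (W.H A)) (z : W.H A) : Prop :=
  ∃ (P : Var k) (p q : Mor P A), IsProd p q ∧ ∃ β ∈ W.Alg P, β ∈ W.sq p q V ∧ ∃ c : K, c ≠ 0 ∧
    ∀ a ∈ V, ∀ b, W.tr P (W.pull q b * (W.pull p (z * a) * β)) = c * W.tr A (b * a)

/-- The geometric input. -/
structure GenD {A : Var k} (V : Submodule K (W.H A)) (Φ : Module.End K (W.H A)) (z : W.H A) :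
    Prop where
  gr : ∃ i, V ≤ W.gr A i
  alg : z ∈ W.Alg A
  inv : W.Inv2 V z
  corr : W.Corr V Φ
  sp : W.Sp V A

variable {A : Var k} {D : Type}

/-- Products of pull-backs of the vectors `e`. -/
noncomputable def mon (e : D → W.H A) {ι : Type} {Y : Var k} (l : List ι) (p : ι → Mor Y A)
    (I : ι → D) : W.H Y :=
  (l.map fun j => W.pull (p j) (e (I j))).prod

/-- Multilinear forms given by algebraic classes. -/
def TT (e : D → W.H A) (ι : Type) : Submodule K ((ι → D) → K) :=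
  Submodule.span K {u | ∃ (l : List ι) (Y : Var k) (p : ι → Mor Y A) (z : W.H Y), Cpl l ∧
    z ∈ W.Alg Y ∧ u = fun I => W.tr Y (z * W.mon e l p I)}

/-- Algebraic tensors. -/
def BB [Fintype D] (e : D → W.H A) (ι : Type) : Submodule K ((ι → D) → K) where
  carrier := {b | ∀ [Fintype ι] [DecidableEq ι] (l : List ι) (Y : Var k) (p : ι → Mor Y A),
    Cpl l → ∑ I, b I • W.mon e l p I ∈ W.Alg Y}
  zero_mem' := fun l Y p _ => by simp
  add_mem' := fun {b b'} h h' _ _ l Y p hl => by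
    simp only [Pi.add_apply, add_smul, Finset.sum_add_distrib]
    exact add_mem (h l Y p hl) (h' l Y p hl)
  smul_mem' := fun c b h _ _ l Y p hl => by
    simp only [Pi.smul_apply, smul_eq_mul, mul_smul, ← Finset.smul_sum]
    exact Submodule.smul_mem _ c (h l Y p hl)

theorem mem_BB [Fintype D] {e : D → W.H A} {ι : Type} [i₀ : Fintype ι] [j₀ : DecidableEq ι]
    {b : (ι → D) → K} : b ∈ W.BB e ι ↔ ∀ (l : List ι) (Y : Var k) (p : ι → Mor Y A),
      Cpl l → ∑ I, b I • W.mon e l p I ∈ W.Alg Y :=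
  ⟨fun h => h, fun h i j l Y p hl => by
    rw [Subsingleton.elim i i₀, Subsingleton.elim j j₀]
    exact h l Y p hl⟩

end Weil

end Pool.Agent.MP_0c8446_ag
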